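import Pool.Agent.Lib.MP_2801bd_mp.Defs
import Mathlib.MeasureTheory.Integral.IntervalIntegral.Periodic
import Mathlib.Topology.Order.Compact

/-!
# MP_2801bd_mp: the closure condition on intervals without zeros, and the lobes

Modules M6a and M6b.
-/

open MeasureTheory Set

namespace Ovals2801

/-- The unit direction of a continuous loop is measurable. -/
theorem measurable_dir {ψ : ℝ → E4} (hψ : Continuous ψ) :
    AEStronglyMeasurable (fun s => ‖ψ s‖⁻¹ • ψ s) (volume : Measure ℝ) :=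
  ((hψ.norm.measurable.inv).aestronglyMeasurable).smul hψ.aestronglyMeasurable

/-- The unit direction has norm at most one. -/
theorem norm_dir_le (x : E4) : ‖‖x‖⁻¹ • x‖ ≤ 1 := by
  rw [norm_smul, norm_inv, norm_norm]
  by_cases h : ‖x‖ = 0
  · rw [h]; norm_num
  · rw [inv_mul_cancel₀ h]

/-- The unit direction is interval integrable. -/
theorem intervalIntegrable_dir {ψ : ℝ → E4} (hψ : Continuous ψ) (a b : ℝ) :
    IntervalIntegrable (fun s => ‖ψ s‖⁻¹ • ψ s) volume a b := by
  refine IntervalIntegrable.mono_fun (g := fun s => ‖ψ s‖⁻¹ • ψ s) (f := fun _ => (1 : ℝ))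
    intervalIntegrable_const ?_ ?_
  · exact (measurable_dir hψ).restrict
  · refine Filter.Eventually.of_forall fun s => ?_
    simpa using norm_dir_le (ψ s)

/-- M6a. The closure condition bounds the integral over intervals without zeros. -/
theorem adm_interval {ψ : ℝ → E4} (hψ : Continuous ψ)
    (hper : Function.Periodic ψ (2 * Real.pi)) (ha : Adm ψ) {u : E4} (hu : ‖u‖ = 1) {a b : ℝ}
    (hab : a ≤ b) (hb : b ≤ a + 2 * Real.pi) (hne : ∀ s ∈ Ioo a b, ψ s ≠ 0) :
    (∫ s in a..b, (1 + inner ℝ u (ψ s) / ‖ψ s‖)) ≤ 2 * Real.pi := by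
  have hpi : 0 < 2 * Real.pi := by positivity
  set S : Set ℝ := {s | ψ s ≠ 0} with hS
  have hSo : IsOpen S := isOpen_ne_fun hψ continuous_const
  have hSm : MeasurableSet S := hSo.measurableSet
  set w : ℝ → E4 := fun s => ‖ψ s‖⁻¹ • ψ s with hw
  set ind : ℝ → ℝ := S.indicator (fun _ => (1 : ℝ)) with hind
  set F : ℝ → ℝ := fun s => ind s + inner ℝ u (w s) with hF
  have hwi : ∀ a b, IntervalIntegrable w volume a b := intervalIntegrable_dir hψ
  have hinner : ∀ a b, IntervalIntegrable (fun s => inner ℝ u (w s)) volume a b := by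
    intro a b
    have h1 := (hwi a b).norm
    refine IntervalIntegrable.mono_fun (f := fun s => ‖w s‖) h1 ?_ ?_
    · exact ((innerSL ℝ u).continuous.comp_aestronglyMeasurable (measurable_dir hψ)).restrict
    · refine Filter.Eventually.of_forall fun s => ?_
      have := norm_inner_le_norm (𝕜 := ℝ) u (w s)
      rw [hu, one_mul] at this
      simpa using this
  have hindi : ∀ a b, IntervalIntegrable ind volume a b := by
    intro a b
    refine IntervalIntegrable.mono_fun (f := fun _ => (1 : ℝ)) intervalIntegrable_const ?_ ?_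
    · exact (measurable_const.indicator hSm).aestronglyMeasurable
    · refine Filter.Eventually.of_forall fun s => ?_
      by_cases h : s ∈ S
      · simp [hind, h]
      · simp [hind, h]
  have hFi : ∀ a b, IntervalIntegrable F volume a b := fun a b => (hindi a b).add (hinner a b)
  have hF0 : ∀ s, 0 ≤ F s := by
    intro s
    by_cases h : s ∈ S
    · have h1 : ind s = 1 := by simp [hind, h]
      have h2 : |inner ℝ u (w s)| ≤ 1 := by
        have := abs_real_inner_le_norm u (w s)
        rw [hu, one_mul] at this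
        exact this.trans (norm_dir_le _)
      have h3 := (abs_le.mp h2).1
      show 0 ≤ ind s + inner ℝ u (w s)
      rw [h1]; linarith
    · have h1 : ind s = 0 := by simp [hind, h]
      have h2 : ψ s = 0 := by simpa [hS] using h
      have h3 : w s = 0 := by simp [hw, h2]
      show 0 ≤ ind s + inner ℝ u (w s)
      rw [h1, h3, inner_zero_right]; norm_num
  have hFper : Function.Periodic F (2 * Real.pi) := by
    intro s
    have h1 : ψ (s + 2 * Real.pi) = ψ s := hper s
    have h2 : w (s + 2 * Real.pi) = w s := by simp only [hw, h1]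
    have h3 : ind (s + 2 * Real.pi) = ind s := by
      by_cases h : ψ s = 0
      · have e1 : s ∉ S := by simp [hS, h]
        have e2 : s + 2 * Real.pi ∉ S := by simp [hS, h1, h]
        simp [hind, e1, e2]
      · have e1 : s ∈ S := h
        have e2 : s + 2 * Real.pi ∈ S := by
          show ψ (s + 2 * Real.pi) ≠ 0
          rw [h1]; exact h
        simp [hind, e1, e2]
    simp only [hF, h2, h3]
  -- step 1
  have h1 : (∫ s in a..b, (1 + inner ℝ u (ψ s) / ‖ψ s‖)) = ∫ s in a..b, F s := by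
    rw [intervalIntegral.integral_of_le hab, intervalIntegral.integral_of_le hab,
      integral_Ioc_eq_integral_Ioo, integral_Ioc_eq_integral_Ioo]
    refine setIntegral_congr_fun measurableSet_Ioo fun s hs => ?_
    have h : s ∈ S := hne s hs
    have e1 : ind s = 1 := by simp [hind, h]
    show 1 + inner ℝ u (ψ s) / ‖ψ s‖ = ind s + inner ℝ u (w s)
    rw [e1]
    simp only [hw, inner_smul_right]
    rw [div_eq_inv_mul]
  -- step 2
  have h2 : (∫ s in a..b, F s) ≤ ∫ s in a..(a + 2 * Real.pi), F s := by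
    refine intervalIntegral.integral_mono_interval le_rfl hab hb ?_ (hFi _ _)
    exact Filter.Eventually.of_forall hF0
  -- step 3
  have h3 : (∫ s in a..(a + 2 * Real.pi), F s) = ∫ s in (0:ℝ)..(2 * Real.pi), F s := by
    have := hFper.intervalIntegral_add_eq a 0
    rw [zero_add] at this
    exact this
  have h4 : (∫ s in (0:ℝ)..(2 * Real.pi), F s) =
      (∫ s in (0:ℝ)..(2 * Real.pi), ind s) + inner ℝ u (∫ s in (0:ℝ)..(2 * Real.pi), w s) := by
    show (∫ s in (0:ℝ)..(2 * Real.pi), (ind s + inner ℝ u (w s))) = _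
    rw [intervalIntegral.integral_add (hindi _ _) (hinner _ _)]
    congr 1
    have := (innerSL ℝ u).intervalIntegral_comp_comm (hwi 0 (2 * Real.pi))
    simpa using this
  have h5 : (∫ s in (0:ℝ)..(2 * Real.pi), ind s) =
      2 * Real.pi - (volume {s ∈ Ioc (0:ℝ) (2 * Real.pi) | ψ s = 0}).toReal := by
    rw [intervalIntegral.integral_of_le hpi.le]
    have e1 : (∫ x in Ioc (0:ℝ) (2 * Real.pi), ind x) =
        (volume.restrict (Ioc (0:ℝ) (2 * Real.pi))).real S := integral_indicator_one hSm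
    rw [e1, measureReal_restrict_apply hSm]
    have e2 := measureReal_inter_add_sdiff (μ := volume) (s := Ioc (0:ℝ) (2 * Real.pi)) hSm
      (by exact measure_Ioc_lt_top.ne)
    have e3 : Ioc (0:ℝ) (2 * Real.pi) \ S = {s ∈ Ioc (0:ℝ) (2 * Real.pi) | ψ s = 0} := by
      ext s; simp [hS]
    rw [e3] at e2
    have e4 : volume.real (Ioc (0:ℝ) (2 * Real.pi)) = 2 * Real.pi := by
      rw [Real.volume_real_Ioc_of_le hpi.le]; ring
    rw [e4] at e2
    rw [inter_comm]
    have e5 : volume.real {s ∈ Ioc (0:ℝ) (2 * Real.pi) | ψ s = 0} =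
      (volume {s ∈ Ioc (0:ℝ) (2 * Real.pi) | ψ s = 0}).toReal := rfl
    rw [← e5]
    linarith
  rw [h1]
  refine h2.trans ?_
  rw [h3, h4, h5]
  have h6 : inner ℝ u (∫ s in (0:ℝ)..(2 * Real.pi), w s) ≤
      (volume {s ∈ Ioc (0:ℝ) (2 * Real.pi) | ψ s = 0}).toReal := by
    have := real_inner_le_norm u (∫ s in (0:ℝ)..(2 * Real.pi), w s)
    rw [hu, one_mul] at this
    exact this.trans ha
  linarith

/-- M6b. The maximal interval without zeros around a point. -/
theorem lobe_exists {ψ : ℝ → E4} (hψ : Continuous ψ)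
    (hper : Function.Periodic ψ (2 * Real.pi)) {s₁ : ℝ} (h1 : ψ s₁ ≠ 0) :
    (∀ s, ψ s ≠ 0) ∨ ∃ α β : ℝ, α < s₁ ∧ s₁ < β ∧ β ≤ α + 2 * Real.pi ∧ ψ α = 0 ∧ ψ β = 0 ∧
      ∀ s ∈ Ioo α β, ψ s ≠ 0 := by
  have hpi : 0 < 2 * Real.pi := by positivity
  by_cases hall : ∀ s, ψ s ≠ 0
  · exact Or.inl hall
  right
  push Not at hall
  obtain ⟨s₀, hs₀⟩ := hall
  -- zeros at both sides
  obtain ⟨z, hz, hz0⟩ := hper.exists_mem_Ioc hpi s₀ (s₁ - 2 * Real.pi)
  have hzero : ψ z = 0 := by rw [← hz0, hs₀]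
  have hzle : z ≤ s₁ := by have := hz.2; linarith
  set Z : Set ℝ := {s | ψ s = 0} with hZ
  have hZc : IsClosed Z := isClosed_eq hψ continuous_const
  have hA : IsClosed (Z ∩ Iic s₁) := hZc.inter isClosed_Iic
  have hB : IsClosed (Z ∩ Ici s₁) := hZc.inter isClosed_Ici
  have hAne : (Z ∩ Iic s₁).Nonempty := ⟨z, hzero, hzle⟩
  have hz2 : ψ (z + 2 * Real.pi) = 0 := by rw [hper z, hzero]
  have hBne : (Z ∩ Ici s₁).Nonempty := ⟨z + 2 * Real.pi, hz2, by
    show s₁ ≤ z + 2 * Real.pi
    have := hz.1; linarith⟩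
  have hAbdd : BddAbove (Z ∩ Iic s₁) := ⟨s₁, fun x hx => hx.2⟩
  have hBbdd : BddBelow (Z ∩ Ici s₁) := ⟨s₁, fun x hx => hx.2⟩
  set α := sSup (Z ∩ Iic s₁) with hα
  set β := sInf (Z ∩ Ici s₁) with hβ
  have hαm : α ∈ Z ∩ Iic s₁ := hA.csSup_mem hAne hAbdd
  have hβm : β ∈ Z ∩ Ici s₁ := hB.csInf_mem hBne hBbdd
  have hα1 : α < s₁ := by
    refine lt_of_le_of_ne hαm.2 ?_
    intro h
    exact h1 (by rw [← h]; exact hαm.1)
  have hβ1 : s₁ < β := by
    refine lt_of_le_of_ne hβm.2 ?_
    intro h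
    exact h1 (by rw [h]; exact hβm.1)
  refine ⟨α, β, hα1, hβ1, ?_, hαm.1, hβm.1, ?_⟩
  · -- α + 2π is a zero beyond s₁
    have hz3 : ψ (α + 2 * Real.pi) = 0 := by rw [hper α]; exact hαm.1
    have hgt : s₁ ≤ α + 2 * Real.pi := by
      by_contra hcon
      push Not at hcon
      have : α + 2 * Real.pi ≤ α := le_csSup hAbdd ⟨hz3, hcon.le⟩
      linarith
    exact csInf_le hBbdd ⟨hz3, hgt⟩
  · intro s hs h0
    rcases le_total s s₁ with h | h
    · have : s ≤ α := le_csSup hAbdd ⟨h0, h⟩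
      exact absurd hs.1 (not_lt.mpr this)
    · have : β ≤ s := csInf_le hBbdd ⟨h0, h⟩
      exact absurd hs.2 (not_lt.mpr this)

end Ovals2801
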