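import Mathlib.Analysis.SpecialFunctions.Trigonometric.Deriv
import Mathlib.Analysis.SpecialFunctions.Sqrt
import Mathlib.MeasureTheory.Integral.IntervalIntegral.FundThmCalculus
import Mathlib.MeasureTheory.Integral.IntervalIntegral.Basic
import Mathlib.Analysis.Calculus.Deriv.MeanValue
import Mathlib.Analysis.SpecialFunctions.Integrals.Basic

open Set MeasureTheory

namespace Ovals2801

namespace ArcB

theorem prim_cont {f : ℝ → ℝ} {a b : ℝ} (hf : ContinuousOn f (Ico a b)) :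
    ContinuousOn (fun t => ∫ s in a..t, f s) (Ico a b) := by
  intro t ht
  obtain ⟨c, htc, hcb⟩ := exists_between ht.2
  have hac : a ≤ c := ht.1.trans htc.le
  have hc : ContinuousOn (fun t => ∫ s in a..t, f s) (uIcc a c) := by
    apply intervalIntegral.continuousOn_primitive_interval
    rw [uIcc_of_le hac]
    exact (hf.mono (fun s hs => ⟨hs.1, hs.2.trans_lt hcb⟩)).integrableOn_Icc
  rw [uIcc_of_le hac] at hc
  have h1 := hc t ⟨ht.1, htc.le⟩
  refine h1.mono_of_mem_nhdsWithin ?_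
  rw [mem_nhdsWithin]
  exact ⟨Iio c, isOpen_Iio, htc, fun s hs => ⟨hs.2.1, (le_of_lt hs.1)⟩⟩

theorem prim_deriv {f : ℝ → ℝ} {a b : ℝ} (hf : ContinuousOn f (Ico a b)) {t : ℝ}
    (ht : t ∈ Ioo a b) : HasDerivAt (fun t => ∫ s in a..t, f s) (f t) t := by
  have hI : IntervalIntegrable f volume a t := by
    apply ContinuousOn.intervalIntegrable
    rw [uIcc_of_le ht.1.le]
    exact hf.mono (fun s hs => ⟨hs.1, hs.2.trans_lt ht.2⟩)
  have hnh : Ioo a b ∈ nhds t := isOpen_Ioo.mem_nhds ht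
  have hcon : ContinuousOn f (Ioo a b) := hf.mono Ioo_subset_Ico_self
  exact intervalIntegral.integral_hasDerivAt_right hI
    (hcon.stronglyMeasurableAtFilter isOpen_Ioo t ht) (hcon.continuousAt hnh)

/-- A primitive of a function continuous on a half-open interval. -/
theorem exists_prim {f : ℝ → ℝ} {a b : ℝ} (hf : ContinuousOn f (Ico a b)) :
    ∃ F : ℝ → ℝ, F a = 0 ∧ ContinuousOn F (Ico a b) ∧ ∀ t ∈ Ioo a b, HasDerivAt F (f t) t :=
  ⟨fun t => ∫ s in a..t, f s, by simp, prim_cont hf, fun _ ht => prim_deriv hf ht⟩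

theorem mono_of_deriv {F F' : ℝ → ℝ} {a b : ℝ} (hc : ContinuousOn F (Ico a b))
    (hd : ∀ t ∈ Ioo a b, HasDerivAt F (F' t) t) (h0 : ∀ t ∈ Ioo a b, 0 ≤ F' t) :
    MonotoneOn F (Ico a b) := by
  apply monotoneOn_of_deriv_nonneg (convex_Ico a b) hc
  · rw [interior_Ico]
    exact fun t ht => (hd t ht).differentiableAt.differentiableWithinAt
  · rw [interior_Ico]
    intro t ht
    rw [(hd t ht).deriv]
    exact h0 t ht

theorem anti_of_deriv {F F' : ℝ → ℝ} {a b : ℝ} (hc : ContinuousOn F (Ico a b))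
    (hd : ∀ t ∈ Ioo a b, HasDerivAt F (F' t) t) (h0 : ∀ t ∈ Ioo a b, F' t ≤ 0) :
    AntitoneOn F (Ico a b) := by
  apply antitoneOn_of_deriv_nonpos (convex_Ico a b) hc
  · rw [interior_Ico]
    exact fun t ht => (hd t ht).differentiableAt.differentiableWithinAt
  · rw [interior_Ico]
    intro t ht
    rw [(hd t ht).deriv]
    exact h0 t ht

/-- The data of a forward arc. -/
structure Arc (w μ t₀ b : ℝ) (x y vx vy : ℝ → ℝ) : Prop where
  hw : 0 < w
  hμ : 0 ≤ μ
  lt : t₀ < b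
  cx : ContinuousOn x (Icc t₀ b)
  cy : ContinuousOn y (Icc t₀ b)
  cvx : ContinuousOn vx (Ico t₀ b)
  cvy : ContinuousOn vy (Ico t₀ b)
  hx : ∀ t ∈ Ioo t₀ b, HasDerivAt x (vx t) t
  hy : ∀ t ∈ Ioo t₀ b, HasDerivAt y (vy t) t
  hvx : ∀ t ∈ Ioo t₀ b, HasDerivAt vx
      (-(w ^ 2 * x t) + μ * y t ^ 2 / Real.sqrt (x t ^ 2 + y t ^ 2) ^ 3) t
  hvy : ∀ t ∈ Ioo t₀ b, HasDerivAt vy
      (-(w ^ 2 * y t) - μ * (x t * y t) / Real.sqrt (x t ^ 2 + y t ^ 2) ^ 3) t
  L : ∀ t ∈ Ico t₀ b, 0 < x t * vy t - y t * vx t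
  y0 : y t₀ = 0
  x0 : 0 < x t₀
  ypos : ∀ t ∈ Ioo t₀ b, 0 < y t
  yb : y b = 0
  xb : x b ≤ 0

/-- the radius -/
noncomputable def rr (x y : ℝ → ℝ) (t : ℝ) : ℝ := Real.sqrt (x t ^ 2 + y t ^ 2)

section
variable {w μ t₀ b : ℝ} {x y vx vy : ℝ → ℝ}

theorem rr_sq (x y : ℝ → ℝ) (t : ℝ) : rr x y t ^ 2 = x t ^ 2 + y t ^ 2 := by
  unfold rr
  exact Real.sq_sqrt (by positivity)

theorem Arc.ne (A : Arc w μ t₀ b x y vx vy) {t : ℝ} (ht : t ∈ Ico t₀ b) :
    0 < x t ^ 2 + y t ^ 2 := by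
  rcases eq_or_lt_of_le ht.1 with h | h
  · subst h
    have := A.x0
    positivity
  · have := A.ypos t ⟨h, ht.2⟩
    positivity

theorem Arc.r_pos (A : Arc w μ t₀ b x y vx vy) {t : ℝ} (ht : t ∈ Ico t₀ b) :
    0 < rr x y t := Real.sqrt_pos.mpr (A.ne ht)

theorem Arc.N_pos (A : Arc w μ t₀ b x y vx vy) {t : ℝ} (ht : t ∈ Ico t₀ b) :
    0 < rr x y t + x t := by
  rcases eq_or_lt_of_le ht.1 with h | h
  · subst h
    have := A.x0
    have := A.r_pos ht
    positivity
  · have hy := A.ypos t ⟨h, ht.2⟩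
    have hr := A.r_pos ht
    have h2 := rr_sq x y t
    by_contra hcon
    push Not at hcon
    nlinarith [mul_pos hy hy]

theorem cont_rr (cx : ContinuousOn x (Icc t₀ b)) (cy : ContinuousOn y (Icc t₀ b)) :
    ContinuousOn (rr x y) (Icc t₀ b) := by
  unfold rr
  exact ((cx.pow 2).add (cy.pow 2)).sqrt

theorem Arc.cr (A : Arc w μ t₀ b x y vx vy) : ContinuousOn (rr x y) (Ico t₀ b) :=
  (cont_rr A.cx A.cy).mono Ico_subset_Icc_self

theorem Arc.cx' (A : Arc w μ t₀ b x y vx vy) : ContinuousOn x (Ico t₀ b) :=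
  A.cx.mono Ico_subset_Icc_self

theorem Arc.cy' (A : Arc w μ t₀ b x y vx vy) : ContinuousOn y (Ico t₀ b) :=
  A.cy.mono Ico_subset_Icc_self

theorem Arc.hr (A : Arc w μ t₀ b x y vx vy) {t : ℝ} (ht : t ∈ Ioo t₀ b) :
    HasDerivAt (rr x y) ((x t * vx t + y t * vy t) / rr x y t) t := by
  have hne := A.ne (Ioo_subset_Ico_self ht)
  have h1 := ((A.hx t ht).pow 2).add ((A.hy t ht).pow 2)
  have h2 := HasDerivAt.sqrt h1 (by simpa using hne.ne')
  refine h2.congr_deriv ?_
  have hr := A.r_pos (Ioo_subset_Ico_self ht)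
  unfold rr
  unfold rr at hr
  simp only [Pi.add_apply, Pi.pow_apply]
  field_simp
  ring

theorem Arc.hvx' (A : Arc w μ t₀ b x y vx vy) {t : ℝ} (ht : t ∈ Ioo t₀ b) :
    HasDerivAt vx (-(w ^ 2 * x t) + μ * y t ^ 2 / rr x y t ^ 3) t := A.hvx t ht

theorem Arc.hvy' (A : Arc w μ t₀ b x y vx vy) {t : ℝ} (ht : t ∈ Ioo t₀ b) :
    HasDerivAt vy (-(w ^ 2 * y t) - μ * (x t * y t) / rr x y t ^ 3) t := A.hvy t ht

/-- angular momentum -/
noncomputable def LL (x y vx vy : ℝ → ℝ) (t : ℝ) : ℝ := x t * vy t - y t * vx t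

theorem Arc.hL (A : Arc w μ t₀ b x y vx vy) {t : ℝ} (ht : t ∈ Ioo t₀ b) :
    HasDerivAt (LL x y vx vy) (-(μ * y t / rr x y t)) t := by
  have h1 := ((A.hx t ht).mul (A.hvy' ht)).sub ((A.hy t ht).mul (A.hvx' ht))
  refine h1.congr_deriv ?_
  have hr := A.r_pos (Ioo_subset_Ico_self ht)
  have h2 := rr_sq x y t
  field_simp
  linear_combination (μ * y t) * h2

theorem Arc.cL (A : Arc w μ t₀ b x y vx vy) : ContinuousOn (LL x y vx vy) (Ico t₀ b) :=
  (A.cx'.mul A.cvy).sub (A.cy'.mul A.cvx)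

/-- energy -/
noncomputable def EE (w μ : ℝ) (x y vx vy : ℝ → ℝ) (t : ℝ) : ℝ :=
  (vx t ^ 2 + vy t ^ 2) / 2 + w ^ 2 * (x t ^ 2 + y t ^ 2) / 2 - μ * (x t / rr x y t)

theorem Arc.hE (A : Arc w μ t₀ b x y vx vy) {t : ℝ} (ht : t ∈ Ioo t₀ b) :
    HasDerivAt (EE w μ x y vx vy) 0 t := by
  have hr := A.r_pos (Ioo_subset_Ico_self ht)
  have h1 := ((((A.hvx' ht).pow 2).add ((A.hvy' ht).pow 2)).div_const 2).add
    (((((A.hx t ht).pow 2).add ((A.hy t ht).pow 2)).const_mul (w ^ 2)).div_const 2)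
  have h3 := h1.sub (((A.hx t ht).div (A.hr ht) hr.ne').const_mul μ)
  refine h3.congr_deriv ?_
  have h2 := rr_sq x y t
  field_simp
  linear_combination (-2 * vx t * μ) * h2

theorem Arc.cE (A : Arc w μ t₀ b x y vx vy) : ContinuousOn (EE w μ x y vx vy) (Ico t₀ b) := by
  unfold EE
  refine ((((A.cvx.pow 2).add (A.cvy.pow 2)).div_const 2).add
    ((continuousOn_const.mul ((A.cx'.pow 2).add (A.cy'.pow 2))).div_const 2)).sub
    (continuousOn_const.mul (A.cx'.div A.cr (fun t ht => (A.r_pos ht).ne')))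

theorem Arc.E_eq (A : Arc w μ t₀ b x y vx vy) {t : ℝ} (ht : t ∈ Ico t₀ b) :
    EE w μ x y vx vy t = EE w μ x y vx vy t₀ := by
  have h1 := mono_of_deriv A.cE (fun t ht => A.hE ht) (fun t _ => le_refl 0)
  have h2 := anti_of_deriv A.cE (fun t ht => A.hE ht) (fun t _ => le_refl 0)
  have h0 : t₀ ∈ Ico t₀ b := ⟨le_refl _, A.lt⟩
  exact le_antisymm (h2 h0 ht ht.1) (h1 h0 ht ht.1)

theorem Arc.L_anti (A : Arc w μ t₀ b x y vx vy) : AntitoneOn (LL x y vx vy) (Ico t₀ b) := by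
  apply anti_of_deriv A.cL (fun t ht => A.hL ht)
  intro t ht
  have hr := A.r_pos (Ioo_subset_Ico_self ht)
  have hy := A.ypos t ht
  have := A.hμ
  have : 0 ≤ μ * y t / rr x y t := by positivity
  linarith

theorem Arc.L_pos (A : Arc w μ t₀ b x y vx vy) {t : ℝ} (ht : t ∈ Ico t₀ b) :
    0 < LL x y vx vy t := A.L t ht

theorem Arc.mem0 (A : Arc w μ t₀ b x y vx vy) : t₀ ∈ Ico t₀ b := ⟨le_refl _, A.lt⟩

/-- `N = r + x` -/
noncomputable def NN (x y : ℝ → ℝ) (t : ℝ) : ℝ := rr x y t + x t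

/-- `D = r N'` -/
noncomputable def DD (x y vx vy : ℝ → ℝ) (t : ℝ) : ℝ := NN x y t * vx t + y t * vy t

theorem Arc.hN (A : Arc w μ t₀ b x y vx vy) {t : ℝ} (ht : t ∈ Ioo t₀ b) :
    HasDerivAt (NN x y) (DD x y vx vy t / rr x y t) t := by
  refine ((A.hr ht).add (A.hx t ht)).congr_deriv ?_
  have hr := A.r_pos (Ioo_subset_Ico_self ht)
  unfold DD NN
  field_simp
  ring

theorem Arc.cN (A : Arc w μ t₀ b x y vx vy) : ContinuousOn (NN x y) (Ico t₀ b) :=
  A.cr.add A.cx'

theorem Arc.cD (A : Arc w μ t₀ b x y vx vy) : ContinuousOn (DD x y vx vy) (Ico t₀ b) :=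
  (A.cN.mul A.cvx).add (A.cy'.mul A.cvy)

theorem Arc.Npos (A : Arc w μ t₀ b x y vx vy) {t : ℝ} (ht : t ∈ Ico t₀ b) :
    0 < NN x y t := A.N_pos ht

theorem y_sq (x y : ℝ → ℝ) (t : ℝ) : y t ^ 2 = (rr x y t - x t) * NN x y t := by
  have := rr_sq x y t
  unfold NN
  linear_combination -this

theorem Arc.hD (A : Arc w μ t₀ b x y vx vy) {t : ℝ} (ht : t ∈ Ioo t₀ b) :
    HasDerivAt (DD x y vx vy)
      ((DD x y vx vy t ^ 2 / (2 * NN x y t) + (EE w μ x y vx vy t₀ + μ) * NN x y t -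
        3 / 2 * w ^ 2 * rr x y t ^ 2 * NN x y t) / rr x y t) t := by
  have hm := Ioo_subset_Ico_self ht
  rw [← A.E_eq hm]
  refine (((A.hN ht).mul (A.hvx' ht)).add ((A.hy t ht).mul (A.hvy' ht))).congr_deriv ?_
  have hr := A.r_pos hm
  have hN := A.Npos hm
  have h2 := rr_sq x y t
  have h3 := y_sq x y t
  have hxe : x t = NN x y t - rr x y t := by unfold NN; ring
  unfold DD EE
  generalize NN x y t = N at *
  generalize rr x y t = r at *
  generalize y t = Y at *
  generalize x t = X at *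
  generalize vx t = U at *
  generalize vy t = V at *
  subst hxe
  field_simp
  linear_combination (2 * N * r * μ - 2 * N * r ^ 3 * w ^ 2 - N ^ 2 * r ^ 2 * w ^ 2 -
    V ^ 2 * r ^ 2) * h3

/-- The data of the auxiliary primitives `P` and `τ`. -/
structure Aux (w μ t₀ b : ℝ) (x y vx vy P τ : ℝ → ℝ) : Prop where
  P0 : P t₀ = 0
  cP : ContinuousOn P (Ico t₀ b)
  hP : ∀ t ∈ Ioo t₀ b, HasDerivAt P (LL x y vx vy t₀ / (rr x y t * NN x y t)) t
  τ0 : τ t₀ = 0
  cτ : ContinuousOn τ (Ico t₀ b)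
  hτ : ∀ t ∈ Ioo t₀ b, HasDerivAt τ (NN x y t * (1 + P t ^ 2) / 2 / rr x y t) t

theorem Arc.exists_aux (A : Arc w μ t₀ b x y vx vy) :
    ∃ P τ : ℝ → ℝ, Aux w μ t₀ b x y vx vy P τ := by
  obtain ⟨P, h0, hc, hd⟩ := exists_prim (f := fun t => LL x y vx vy t₀ / (rr x y t * NN x y t))
    (continuousOn_const.div (A.cr.mul A.cN)
      (fun t ht => (mul_pos (A.r_pos ht) (A.Npos ht)).ne'))
  obtain ⟨τ, h0', hc', hd'⟩ := exists_prim
    (f := fun t => NN x y t * (1 + P t ^ 2) / 2 / rr x y t)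
    (((A.cN.mul (continuousOn_const.add (hc.pow 2))).div_const 2).div A.cr
      (fun t ht => (A.r_pos ht).ne'))
  exact ⟨P, τ, h0, hc, hd, h0', hc', hd'⟩

variable {P τ : ℝ → ℝ}

/-- `p = y / N` -/
noncomputable def pp (x y : ℝ → ℝ) (t : ℝ) : ℝ := y t / NN x y t

theorem Arc.hp (A : Arc w μ t₀ b x y vx vy) {t : ℝ} (ht : t ∈ Ioo t₀ b) :
    HasDerivAt (pp x y) (LL x y vx vy t / (rr x y t * NN x y t)) t := by
  have hm := Ioo_subset_Ico_self ht
  have hr := A.r_pos hm
  have hN := A.Npos hm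
  refine ((A.hy t ht).div (A.hN ht) hN.ne').congr_deriv ?_
  have h3 := y_sq x y t
  have hxe : x t = NN x y t - rr x y t := by unfold NN; ring
  unfold LL DD
  generalize NN x y t = N at *
  generalize rr x y t = r at *
  generalize y t = Y at *
  generalize x t = X at *
  generalize vx t = U at *
  generalize vy t = V at *
  subst hxe
  field_simp
  linear_combination (-V) * h3

theorem Arc.cp (A : Arc w μ t₀ b x y vx vy) : ContinuousOn (pp x y) (Ico t₀ b) :=
  A.cy'.div A.cN (fun t ht => (A.Npos ht).ne')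

theorem Aux.P_nonneg (A : Arc w μ t₀ b x y vx vy) (B : Aux w μ t₀ b x y vx vy P τ) {t : ℝ}
    (ht : t ∈ Ico t₀ b) : 0 ≤ P t := by
  rw [← B.P0]
  refine mono_of_deriv B.cP B.hP ?_ A.mem0 ht ht.1
  intro s hs
  have hm := Ioo_subset_Ico_self hs
  have := A.r_pos hm
  have := A.Npos hm
  have := A.L_pos A.mem0
  positivity

theorem Aux.P_pos (A : Arc w μ t₀ b x y vx vy) (B : Aux w μ t₀ b x y vx vy P τ) {t : ℝ}
    (ht : t ∈ Ioo t₀ b) : 0 < P t := by
  have hst : StrictMonoOn P (Ico t₀ b) := by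
    apply strictMonoOn_of_deriv_pos (convex_Ico t₀ b) B.cP
    rw [interior_Ico]
    intro s hs
    rw [(B.hP s hs).deriv]
    have hm := Ioo_subset_Ico_self hs
    have := A.r_pos hm
    have := A.Npos hm
    have := A.L_pos A.mem0
    positivity
  rw [← B.P0]
  exact hst A.mem0 (Ioo_subset_Ico_self ht) ht.1

theorem pp0 (A : Arc w μ t₀ b x y vx vy) : pp x y t₀ = 0 := by
  unfold pp
  rw [A.y0, zero_div]

/-- `p ≤ P` -/
theorem Aux.p_le (A : Arc w μ t₀ b x y vx vy) (B : Aux w μ t₀ b x y vx vy P τ) {t : ℝ}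
    (ht : t ∈ Ico t₀ b) : pp x y t ≤ P t := by
  have h := mono_of_deriv (F := fun t => P t - pp x y t)
    (F' := fun t => LL x y vx vy t₀ / (rr x y t * NN x y t) -
      LL x y vx vy t / (rr x y t * NN x y t)) (B.cP.sub A.cp)
    (fun t ht => (B.hP t ht).sub (A.hp ht)) (by
      intro s hs
      have hm := Ioo_subset_Ico_self hs
      have h1 := A.r_pos hm
      have h2 := A.Npos hm
      have h3 := A.L_anti A.mem0 hm hs.1.le
      rw [← sub_div]
      have : 0 ≤ LL x y vx vy t₀ - LL x y vx vy s := by linarith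
      positivity)
  have h2 := h A.mem0 ht ht.1
  simp only [B.P0, pp0 A] at h2
  linarith

/-- `L P ≤ L₀ p` -/
theorem Aux.LP_le (A : Arc w μ t₀ b x y vx vy) (B : Aux w μ t₀ b x y vx vy P τ) {t : ℝ}
    (ht : t ∈ Ico t₀ b) : LL x y vx vy t * P t ≤ LL x y vx vy t₀ * pp x y t := by
  have h := mono_of_deriv (F := fun t => LL x y vx vy t₀ * pp x y t - LL x y vx vy t * P t)
    (F' := fun t => LL x y vx vy t₀ * (LL x y vx vy t / (rr x y t * NN x y t)) -
      (-(μ * y t / rr x y t) * P t +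
        LL x y vx vy t * (LL x y vx vy t₀ / (rr x y t * NN x y t))))
    ((continuousOn_const.mul A.cp).sub (A.cL.mul B.cP))
    (fun t ht => ((A.hp ht).const_mul _).sub ((A.hL ht).mul (B.hP t ht))) (by
      intro s hs
      have hm := Ioo_subset_Ico_self hs
      have h1 := A.r_pos hm
      have h2 := A.ypos s hs
      have h3 := Aux.P_nonneg A B hm
      have h4 := A.hμ
      have : 0 ≤ (μ * y s / rr x y s) * P s := by positivity
      have h5 : LL x y vx vy t₀ * (LL x y vx vy s / (rr x y s * NN x y s)) =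
        LL x y vx vy s * (LL x y vx vy t₀ / (rr x y s * NN x y s)) := by ring
      rw [h5]
      linarith)
  have h2 := h A.mem0 ht ht.1
  simp only [B.P0, pp0 A] at h2
  linarith

theorem Arc.pp_nonneg (A : Arc w μ t₀ b x y vx vy) {t : ℝ} (ht : t ∈ Ico t₀ b) :
    0 ≤ pp x y t := by
  rcases eq_or_lt_of_le ht.1 with h | h
  · rw [← h, pp0 A]
  · have := A.ypos t ⟨h, ht.2⟩
    have := A.Npos ht
    unfold pp
    positivity

/-- `R = N (1 + P²) / 2` -/
noncomputable def RR (x y P : ℝ → ℝ) (t : ℝ) : ℝ := NN x y t * (1 + P t ^ 2) / 2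

theorem Arc.r_eq (A : Arc w μ t₀ b x y vx vy) {t : ℝ} (ht : t ∈ Ico t₀ b) :
    rr x y t = NN x y t * (1 + pp x y t ^ 2) / 2 := by
  have h3 := y_sq x y t
  have hN := A.Npos ht
  have hxe : x t = NN x y t - rr x y t := by unfold NN; ring
  unfold pp
  field_simp
  rw [h3, hxe]
  ring

theorem RR_pos (A : Arc w μ t₀ b x y vx vy) (P : ℝ → ℝ) {t : ℝ} (ht : t ∈ Ico t₀ b) :
    0 < RR x y P t := by
  have hN := A.Npos ht
  unfold RR
  positivity

theorem Aux.r_le (A : Arc w μ t₀ b x y vx vy) (B : Aux w μ t₀ b x y vx vy P τ) {t : ℝ}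
    (ht : t ∈ Ico t₀ b) : rr x y t ≤ RR x y P t := by
  rw [A.r_eq ht]
  unfold RR
  have hN := A.Npos ht
  have h1 := Aux.p_le A B ht
  have h2 := A.pp_nonneg ht
  have h3 : pp x y t ^ 2 ≤ P t ^ 2 := by gcongr
  have h4 : NN x y t * (1 + pp x y t ^ 2) ≤ NN x y t * (1 + P t ^ 2) := by gcongr
  linarith

/-- the key inequality `r R' - r' R ≥ 0`, in algebraic form -/
theorem Aux.key_m (A : Arc w μ t₀ b x y vx vy) (B : Aux w μ t₀ b x y vx vy P τ) {t : ℝ}
    (ht : t ∈ Ioo t₀ b) :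
    0 ≤ P t * LL x y vx vy t₀ * (1 + pp x y t ^ 2) -
      pp x y t * LL x y vx vy t * (1 + P t ^ 2) := by
  have hm := Ioo_subset_Ico_self ht
  have h1 := Aux.p_le A B hm
  have h2 := A.pp_nonneg hm
  have h3 := Aux.LP_le A B hm
  have h4 := Aux.P_pos A B ht
  have h5 := A.L_pos A.mem0
  have h6 : 0 ≤ P t * (P t * LL x y vx vy t₀ * (1 + pp x y t ^ 2) -
      pp x y t * LL x y vx vy t * (1 + P t ^ 2)) := by
    have h7 : pp x y t * (1 + P t ^ 2) * (LL x y vx vy t * P t) ≤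
        pp x y t * (1 + P t ^ 2) * (LL x y vx vy t₀ * pp x y t) := by gcongr
    have h8 : 0 ≤ LL x y vx vy t₀ * (P t ^ 2 - pp x y t ^ 2) := by
      have : pp x y t ^ 2 ≤ P t ^ 2 := by gcongr
      have h9 : 0 ≤ P t ^ 2 - pp x y t ^ 2 := by linarith
      positivity
    nlinarith
  exact nonneg_of_mul_nonneg_right h6 h4

theorem Arc.hr' (A : Arc w μ t₀ b x y vx vy) {t : ℝ} (ht : t ∈ Ioo t₀ b) :
    HasDerivAt (rr x y) ((DD x y vx vy t * (1 + pp x y t ^ 2) / 2 +
      pp x y t * LL x y vx vy t) / rr x y t) t := by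
  refine (A.hr ht).congr_deriv ?_
  have hm := Ioo_subset_Ico_self ht
  have hN := A.Npos hm
  have hr := A.r_pos hm
  have h3 := y_sq x y t
  have hxe : x t = NN x y t - rr x y t := by unfold NN; ring
  unfold DD pp LL
  generalize NN x y t = N at *
  generalize rr x y t = r at *
  generalize y t = Y at *
  generalize x t = X at *
  generalize vx t = U at *
  generalize vy t = V at *
  subst hxe
  field_simp
  linear_combination (N * U - Y * V) * h3

theorem Aux.hR (A : Arc w μ t₀ b x y vx vy) (B : Aux w μ t₀ b x y vx vy P τ) {t : ℝ}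
    (ht : t ∈ Ioo t₀ b) :
    HasDerivAt (RR x y P) ((DD x y vx vy t * (1 + P t ^ 2) / 2 +
      P t * LL x y vx vy t₀) / rr x y t) t := by
  have hm := Ioo_subset_Ico_self ht
  have hN := A.Npos hm
  have hr := A.r_pos hm
  refine (((A.hN ht).mul (((B.hP t ht).pow 2).const_add 1)).div_const 2).congr_deriv ?_
  simp only [Pi.pow_apply]
  field_simp
  ring

theorem Aux.cR (A : Arc w μ t₀ b x y vx vy) (B : Aux w μ t₀ b x y vx vy P τ) :
    ContinuousOn (RR x y P) (Ico t₀ b) :=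
  (A.cN.mul (continuousOn_const.add (B.cP.pow 2))).div_const 2

/-- `Q` -/
noncomputable def QQ (x y vx vy P : ℝ → ℝ) (l : ℝ) (t : ℝ) : ℝ :=
  DD x y vx vy t ^ 2 * (1 + P t ^ 2) / 4 + DD x y vx vy t * P t * l + l ^ 2

/-- `k` -/
noncomputable def kk (w c l : ℝ) (x y vx vy P : ℝ → ℝ) (t : ℝ) : ℝ :=
  c * RR x y P t - w ^ 2 * rr x y t ^ 2 * RR x y P t / 2 - QQ x y vx vy P l t / NN x y t

theorem Aux.hk (A : Arc w μ t₀ b x y vx vy) (B : Aux w μ t₀ b x y vx vy P τ) {t : ℝ}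
    (ht : t ∈ Ioo t₀ b) :
    HasDerivAt (kk w (EE w μ x y vx vy t₀ + μ) (LL x y vx vy t₀) x y vx vy P)
      (w ^ 2 * NN x y t / 2 * (P t * LL x y vx vy t₀ * (1 + pp x y t ^ 2) -
      pp x y t * LL x y vx vy t * (1 + P t ^ 2))) t := by
  have hm := Ioo_subset_Ico_self ht
  have hN := A.Npos hm
  have hr := A.r_pos hm
  have hre := A.r_eq hm
  have hD := A.hD ht
  have hQ : HasDerivAt (QQ x y vx vy P (LL x y vx vy t₀)) _ t :=
    (((hD.pow 2).mul (((B.hP t ht).pow 2).const_add 1)).div_const 4).add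
      (((hD.mul (B.hP t ht)).mul_const (LL x y vx vy t₀))) |>.add_const _
  have h1 := (((B.hR A ht).const_mul (EE w μ x y vx vy t₀ + μ)).sub
    (((((A.hr' ht).pow 2).const_mul (w ^ 2)).mul (B.hR A ht)).div_const 2)).sub
    (hQ.div (A.hN ht) hN.ne')
  refine h1.congr_deriv ?_
  simp only [Pi.pow_apply]
  unfold QQ
  simp only [RR]
  generalize NN x y t = N at *
  generalize pp x y t = p at *
  generalize rr x y t = r at *
  generalize DD x y vx vy t = D at *
  generalize LL x y vx vy t₀ = l at *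
  generalize LL x y vx vy t = L at *
  generalize P t = q at *
  generalize EE w μ x y vx vy t₀ + μ = c at *
  field_simp
  linear_combination (N ^ 2 * w ^ 2 * r * (16 * D * (1 + q ^ 2) + 32 * q * l)) * hre

theorem Aux.ck (A : Arc w μ t₀ b x y vx vy) (B : Aux w μ t₀ b x y vx vy P τ) (c l : ℝ) :
    ContinuousOn (kk w c l x y vx vy P) (Ico t₀ b) := by
  have h1 := Aux.cR A B
  have hQ : ContinuousOn (QQ x y vx vy P l) (Ico t₀ b) :=
    ((((A.cD.pow 2).mul (continuousOn_const.add (B.cP.pow 2))).div_const 4).add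
      ((A.cD.mul B.cP).mul continuousOn_const)).add continuousOn_const
  exact ((continuousOn_const.mul h1).sub
    (((continuousOn_const.mul (A.cr.pow 2)).mul h1).div_const 2)).sub
    (hQ.div A.cN (fun t ht => (A.Npos ht).ne'))

theorem Arc.r0 (A : Arc w μ t₀ b x y vx vy) : rr x y t₀ = x t₀ := by
  unfold rr
  rw [A.y0]
  simp [Real.sqrt_sq A.x0.le]

theorem Aux.k0 (A : Arc w μ t₀ b x y vx vy) (B : Aux w μ t₀ b x y vx vy P τ) :
    kk w (EE w μ x y vx vy t₀ + μ) (LL x y vx vy t₀) x y vx vy P t₀ = 0 := by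
  have h0 := A.x0
  unfold kk QQ RR EE LL DD NN
  rw [A.r0, A.y0, B.P0]
  field_simp
  ring

theorem Aux.k_nonneg (A : Arc w μ t₀ b x y vx vy) (B : Aux w μ t₀ b x y vx vy P τ) {t : ℝ}
    (ht : t ∈ Ico t₀ b) :
    0 ≤ kk w (EE w μ x y vx vy t₀ + μ) (LL x y vx vy t₀) x y vx vy P t := by
  rw [← Aux.k0 A B]
  refine mono_of_deriv (Aux.ck A B _ _) (fun t ht => Aux.hk A B ht) ?_ A.mem0 ht ht.1
  intro s hs
  have h1 := Aux.key_m A B hs
  have h2 := A.Npos (Ioo_subset_Ico_self hs)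
  positivity

/-- `R V_y` -/
noncomputable def GY (x y vx vy P : ℝ → ℝ) (l : ℝ) (t : ℝ) : ℝ := DD x y vx vy t * P t + l

/-- `R V_x` -/
noncomputable def GX (x y vx vy P : ℝ → ℝ) (l : ℝ) (t : ℝ) : ℝ :=
  DD x y vx vy t * (1 - P t ^ 2) / 2 - P t * l

theorem Aux.hY (A : Arc w μ t₀ b x y vx vy) (B : Aux w μ t₀ b x y vx vy P τ) {t : ℝ}
    (ht : t ∈ Ioo t₀ b) :
    HasDerivAt (fun t => NN x y t * P t)
      (GY x y vx vy P (LL x y vx vy t₀) t / rr x y t) t := by
  have hm := Ioo_subset_Ico_self ht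
  have hN := A.Npos hm
  have hr := A.r_pos hm
  refine ((A.hN ht).mul (B.hP t ht)).congr_deriv ?_
  unfold GY
  field_simp

theorem Aux.hX (A : Arc w μ t₀ b x y vx vy) (B : Aux w μ t₀ b x y vx vy P τ) {t : ℝ}
    (ht : t ∈ Ioo t₀ b) :
    HasDerivAt (fun t => NN x y t * (1 - P t ^ 2) / 2)
      (GX x y vx vy P (LL x y vx vy t₀) t / rr x y t) t := by
  have hm := Ioo_subset_Ico_self ht
  have hN := A.Npos hm
  have hr := A.r_pos hm
  refine (((A.hN ht).mul (((B.hP t ht).pow 2).const_sub 1)).div_const 2).congr_deriv ?_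
  unfold GX
  simp only [Pi.pow_apply]
  field_simp
  ring

theorem Aux.hVY (A : Arc w μ t₀ b x y vx vy) (B : Aux w μ t₀ b x y vx vy P τ) {t : ℝ}
    (ht : t ∈ Ioo t₀ b) :
    HasDerivAt (fun t => GY x y vx vy P (LL x y vx vy t₀) t / RR x y P t)
      ((kk w (EE w μ x y vx vy t₀ + μ) (LL x y vx vy t₀) x y vx vy P t -
        w ^ 2 * rr x y t ^ 2 * RR x y P t) / (rr x y t * RR x y P t ^ 2) *
        (NN x y t * P t)) t := by
  have hm := Ioo_subset_Ico_self ht
  have hN := A.Npos hm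
  have hr := A.r_pos hm
  have hR := RR_pos A P hm
  have hD := A.hD ht
  have hG : HasDerivAt (GY x y vx vy P (LL x y vx vy t₀)) _ t :=
    (hD.mul (B.hP t ht)).add_const _
  refine (hG.div (B.hR A ht) hR.ne').congr_deriv ?_
  unfold kk QQ GY
  have hRe : RR x y P t = NN x y t * (1 + P t ^ 2) / 2 := rfl
  generalize RR x y P t = R at *
  generalize NN x y t = N at *
  generalize pp x y t = p at *
  generalize rr x y t = r at *
  generalize DD x y vx vy t = D at *
  generalize LL x y vx vy t₀ = l at *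
  generalize LL x y vx vy t = L at *
  generalize P t = q at *
  generalize EE w μ x y vx vy t₀ + μ = c at *
  subst hRe
  field_simp
  ring

theorem Aux.hVX (A : Arc w μ t₀ b x y vx vy) (B : Aux w μ t₀ b x y vx vy P τ) {t : ℝ}
    (ht : t ∈ Ioo t₀ b) :
    HasDerivAt (fun t => GX x y vx vy P (LL x y vx vy t₀) t / RR x y P t)
      ((kk w (EE w μ x y vx vy t₀ + μ) (LL x y vx vy t₀) x y vx vy P t -
        w ^ 2 * rr x y t ^ 2 * RR x y P t) / (rr x y t * RR x y P t ^ 2) *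
        (NN x y t * (1 - P t ^ 2) / 2)) t := by
  have hm := Ioo_subset_Ico_self ht
  have hN := A.Npos hm
  have hr := A.r_pos hm
  have hR := RR_pos A P hm
  have hD := A.hD ht
  have hG : HasDerivAt (GX x y vx vy P (LL x y vx vy t₀)) _ t :=
    ((hD.mul (((B.hP t ht).pow 2).const_sub 1)).div_const 2).sub
      ((B.hP t ht).mul_const _)
  refine (hG.div (B.hR A ht) hR.ne').congr_deriv ?_
  unfold kk QQ GX
  simp only [Pi.pow_apply]
  have hRe : RR x y P t = NN x y t * (1 + P t ^ 2) / 2 := rfl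
  generalize RR x y P t = R at *
  generalize NN x y t = N at *
  generalize pp x y t = p at *
  generalize rr x y t = r at *
  generalize DD x y vx vy t = D at *
  generalize LL x y vx vy t₀ = l at *
  generalize LL x y vx vy t = L at *
  generalize P t = q at *
  generalize EE w μ x y vx vy t₀ + μ = c at *
  subst hRe
  field_simp
  ring

theorem le_of_deriv {F F' : ℝ → ℝ} {a c : ℝ} (hac : a ≤ c) (hc : ContinuousOn F (Icc a c))
    (hd : ∀ t ∈ Ioo a c, HasDerivAt F (F' t) t) (h0 : ∀ t ∈ Ioo a c, 0 ≤ F' t) : F a ≤ F c := by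
  have : MonotoneOn F (Icc a c) := by
    apply monotoneOn_of_deriv_nonneg (convex_Icc a c) hc
    · rw [interior_Icc]
      exact fun t ht => (hd t ht).differentiableAt.differentiableWithinAt
    · rw [interior_Icc]
      intro t ht
      rw [(hd t ht).deriv]
      exact h0 t ht
  exact this (left_mem_Icc.mpr hac) (right_mem_Icc.mpr hac) hac

theorem Aux.τ_mono (A : Arc w μ t₀ b x y vx vy) (B : Aux w μ t₀ b x y vx vy P τ) :
    StrictMonoOn τ (Ico t₀ b) := by
  apply strictMonoOn_of_deriv_pos (convex_Ico t₀ b) B.cτ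
  rw [interior_Ico]
  intro s hs
  rw [(B.hτ s hs).deriv]
  have hm := Ioo_subset_Ico_self hs
  have := A.r_pos hm
  have := A.Npos hm
  positivity

theorem Aux.τ_nonneg (A : Arc w μ t₀ b x y vx vy) (B : Aux w μ t₀ b x y vx vy P τ) {t : ℝ}
    (ht : t ∈ Ico t₀ b) : 0 ≤ τ t := by
  rw [← B.τ0]
  exact (Aux.τ_mono A B).monotoneOn A.mem0 ht ht.1

theorem Aux.hτ' (B : Aux w μ t₀ b x y vx vy P τ) {t : ℝ}
    (ht : t ∈ Ioo t₀ b) : HasDerivAt τ (RR x y P t / rr x y t) t := B.hτ t ht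

/-- The Sturm comparison. -/
theorem Aux.sturm (A : Arc w μ t₀ b x y vx vy) (B : Aux w μ t₀ b x y vx vy P τ) {T : ℝ}
    (hT0 : 0 < T) (hT : w * T < Real.pi) {t : ℝ} (ht : t ∈ Ico t₀ b) (hτt : τ t ≤ T) :
    (x t₀ * Real.cos (w * T) + vx t₀ / w * Real.sin (w * T)) * (NN x y t * P t) -
      (vy t₀ / w * Real.sin (w * T)) * (NN x y t * (1 - P t ^ 2) / 2) ≤ 0 := by
  have hw := A.hw
  have hsin : 0 < Real.sin (w * T) := Real.sin_pos_of_pos_of_lt_pi (by positivity) hT
  have hx0 := A.x0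
  have hl : 0 < LL x y vx vy t₀ := A.L_pos A.mem0
  have hle : LL x y vx vy t₀ = x t₀ * vy t₀ := by unfold LL; rw [A.y0]; ring
  have hvy : 0 < vy t₀ := by
    rw [hle] at hl
    exact (pos_iff_pos_of_mul_pos hl).mp hx0
  set α := x t₀ * Real.cos (w * T) + vx t₀ / w * Real.sin (w * T) with hα
  set β := vy t₀ / w * Real.sin (w * T) with hβ
  have hβ0 : 0 < β := by positivity
  set H : ℝ → ℝ := fun t => α * (NN x y t * P t) - β * (NN x y t * (1 - P t ^ 2) / 2) with hH
  set l := LL x y vx vy t₀ with hldef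
  set G : ℝ → ℝ := fun t => α * (GY x y vx vy P l t / RR x y P t) -
    β * (GX x y vx vy P l t / RR x y P t) with hG
  have cH : ContinuousOn H (Ico t₀ b) :=
    (continuousOn_const.mul (A.cN.mul B.cP)).sub (continuousOn_const.mul
      ((A.cN.mul (continuousOn_const.sub (B.cP.pow 2))).div_const 2))
  have cG : ContinuousOn G (Ico t₀ b) := by
    have c1 : ContinuousOn (GY x y vx vy P l) (Ico t₀ b) :=
      (A.cD.mul B.cP).add continuousOn_const
    have c2 : ContinuousOn (GX x y vx vy P l) (Ico t₀ b) :=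
      ((A.cD.mul (continuousOn_const.sub (B.cP.pow 2))).div_const 2).sub
        (B.cP.mul continuousOn_const)
    have c3 := Aux.cR A B
    have c4 : ∀ t ∈ Ico t₀ b, RR x y P t ≠ 0 := fun t ht => (RR_pos A P ht).ne'
    exact (continuousOn_const.mul (c1.div c3 c4)).sub (continuousOn_const.mul (c2.div c3 c4))
  by_contra hcon
  push Not at hcon
  change 0 < H t at hcon
  have hN0 : NN x y t₀ = 2 * x t₀ := by unfold NN; rw [A.r0]; ring
  have hH0 : H t₀ = -(β * x t₀) := by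
    simp only [hH, B.P0, hN0]
    ring
  have hH0' : H t₀ < 0 := by rw [hH0]; have := mul_pos hβ0 hx0; linarith
  -- the first zero
  have hsub : Icc t₀ t ⊆ Ico t₀ b := fun s hs => ⟨hs.1, hs.2.trans_lt ht.2⟩
  obtain ⟨c, hc, hc0, hclt⟩ : ∃ c ∈ Icc t₀ t, H c = 0 ∧ ∀ s ∈ Ico t₀ c, H s < 0 := by
    set S := {s ∈ Icc t₀ t | 0 ≤ H s} with hS
    have hSc : IsCompact S := by
      have : IsClosed S := (cH.mono hsub).preimage_isClosed_of_isClosed isClosed_Icc
        isClosed_Ici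
      exact isCompact_Icc.of_isClosed_subset this (fun s hs => hs.1)
    have hSn : S.Nonempty := ⟨t, right_mem_Icc.mpr ht.1, hcon.le⟩
    have hm := hSc.sInf_mem hSn
    have hlt : ∀ s ∈ Ico t₀ (sInf S), H s < 0 := by
      intro s hs
      by_contra h
      push Not at h
      have : s ∈ S := ⟨⟨hs.1, hs.2.le.trans hm.1.2⟩, h⟩
      have h2 := csInf_le hSc.bddBelow this
      exact absurd hs.2 (not_lt.mpr h2)
    refine ⟨sInf S, hm.1, le_antisymm ?_ hm.2, hlt⟩
    have hne : t₀ < sInf S := by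
      rcases eq_or_lt_of_le hm.1.1 with h | h
      · exfalso
        have := hm.2
        rw [← h] at this
        linarith
      · exact h
    have h1 : ContinuousWithinAt H (Ico t₀ (sInf S)) (sInf S) :=
      (cH (sInf S) (hsub hm.1)).mono (fun s hs => ⟨hs.1, hs.2.trans (hsub hm.1).2⟩)
    have h2 : (nhdsWithin (sInf S) (Ico t₀ (sInf S))).NeBot := by
      rw [← mem_closure_iff_nhdsWithin_neBot, closure_Ico hne.ne]
      exact ⟨hne.le, le_refl _⟩
    exact le_of_tendsto h1 (eventually_nhdsWithin_of_forall (fun s hs => (hlt s hs).le))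
  have hcb := hsub hc
  have ht0c : t₀ < c := by
    rcases eq_or_lt_of_le hc.1 with h | h
    · exfalso
      rw [← h] at hc0
      linarith
    · exact h
  have hct : c < t := by
    rcases eq_or_lt_of_le hc.2 with h | h
    · exfalso
      rw [h] at hc0
      linarith
    · exact h
  have hτc : τ c < T := ((Aux.τ_mono A B) hcb ht hct).trans_le hτt
  have hIoo : Ioo t₀ c ⊆ Ioo t₀ b := fun s hs => ⟨hs.1, hs.2.trans hcb.2⟩
  have hIcc : Icc t₀ c ⊆ Ico t₀ b := fun s hs => ⟨hs.1, hs.2.trans_lt hcb.2⟩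
  -- the free solution
  set h : ℝ → ℝ := fun t => -Real.sin (w * (T - τ t)) with hh
  set hd : ℝ → ℝ := fun t => w * Real.cos (w * (T - τ t)) with hhd
  have ch : ContinuousOn h (Ico t₀ b) :=
    (Real.continuous_sin.comp_continuousOn
      (continuousOn_const.mul (continuousOn_const.sub B.cτ))).neg
  have chd : ContinuousOn hd (Ico t₀ b) :=
    continuousOn_const.mul (Real.continuous_cos.comp_continuousOn
      (continuousOn_const.mul (continuousOn_const.sub B.cτ)))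
  have dh : ∀ s ∈ Ioo t₀ b, HasDerivAt h (hd s * (RR x y P s / rr x y s)) s := by
    intro s hs
    have := (((((B.hτ' hs).const_sub T).const_mul w).sin).neg)
    refine this.congr_deriv ?_
    simp only [hhd]
    ring
  have dhd : ∀ s ∈ Ioo t₀ b, HasDerivAt hd (-(w ^ 2) * h s * (RR x y P s / rr x y s)) s := by
    intro s hs
    have := ((((B.hτ' hs).const_sub T).const_mul w).cos).const_mul w
    refine this.congr_deriv ?_
    simp only [hh]
    ring
  have dH : ∀ s ∈ Ioo t₀ b, HasDerivAt H (G s * (RR x y P s / rr x y s)) s := by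
    intro s hs
    refine (((Aux.hY A B hs).const_mul α).sub ((Aux.hX A B hs).const_mul β)).congr_deriv ?_
    have h1 := A.r_pos (Ioo_subset_Ico_self hs)
    have h2 := RR_pos A P (Ioo_subset_Ico_self hs)
    simp only [hG]
    field_simp
    rw [← hldef]
  have dG : ∀ s ∈ Ioo t₀ b, HasDerivAt G
      ((kk w (EE w μ x y vx vy t₀ + μ) l x y vx vy P s -
        w ^ 2 * rr x y s ^ 2 * RR x y P s) / (rr x y s * RR x y P s ^ 2) * H s) s := by
    intro s hs
    refine (((Aux.hVY A B hs).const_mul α).sub ((Aux.hVX A B hs).const_mul β)).congr_deriv ?_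
    simp only [hH]
    ring
  have hneg : ∀ s ∈ Icc t₀ c, h s < 0 := by
    intro s hs
    have h1 : τ s ≤ τ c := (Aux.τ_mono A B).monotoneOn (hIcc hs) hcb hs.2
    have h2 := Aux.τ_nonneg A B (hIcc hs)
    have h3 : 0 < T - τ s := by linarith
    have h4 : w * (T - τ s) < Real.pi := by
      have : w * (T - τ s) ≤ w * T := by gcongr; linarith
      linarith
    have := Real.sin_pos_of_pos_of_lt_pi (by positivity) h4
    simp only [hh]
    linarith
  -- the Wronskian
  have hW : ∀ s ∈ Icc t₀ c, H s * hd s - h s * G s ≤ 0 := by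
    intro s hs
    have hW0 : H t₀ * hd t₀ - h t₀ * G t₀ = 0 := by
      have e1 : GY x y vx vy P l t₀ = x t₀ * vy t₀ := by
        unfold GY; rw [B.P0, hle]; ring
      have e2 : GX x y vx vy P l t₀ = x t₀ * vx t₀ := by
        unfold GX DD; rw [B.P0, hN0, A.y0]; ring
      have e3 : RR x y P t₀ = x t₀ := by
        unfold RR; rw [B.P0, hN0]; ring
      simp only [hh, hhd, hG, B.τ0, hH0, e1, e2, e3, hα, hβ]
      simp only [sub_zero]
      field_simp
      ring
    rw [← hW0]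
    have := le_of_deriv (F := fun s => -(H s * hd s - h s * G s)) (F' := fun s =>
      -((G s * (RR x y P s / rr x y s)) * hd s + H s * (-(w ^ 2) * h s *
        (RR x y P s / rr x y s)) - (hd s * (RR x y P s / rr x y s) * G s +
        h s * ((kk w (EE w μ x y vx vy t₀ + μ) l x y vx vy P s -
        w ^ 2 * rr x y s ^ 2 * RR x y P s) / (rr x y s * RR x y P s ^ 2) * H s)))) hs.1
      ((((cH.mul chd).sub (ch.mul cG)).neg).mono (fun u hu => hIcc ⟨hu.1, hu.2.trans hs.2⟩))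
      (fun u hu => ((((dH u (hIoo ⟨hu.1, hu.2.trans_le hs.2⟩)).mul
        (dhd u (hIoo ⟨hu.1, hu.2.trans_le hs.2⟩))).sub
        ((dh u (hIoo ⟨hu.1, hu.2.trans_le hs.2⟩)).mul
        (dG u (hIoo ⟨hu.1, hu.2.trans_le hs.2⟩)))).neg)) (by
        intro u hu
        have hu' : u ∈ Ioo t₀ b := hIoo ⟨hu.1, hu.2.trans_le hs.2⟩
        have hm := Ioo_subset_Ico_self hu'
        have g1 := A.r_pos hm
        have g2 := RR_pos A P hm
        have g3 := Aux.k_nonneg A B hm
        have g4 := Aux.r_le A B hm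
        have g5 := hneg u ⟨hu.1.le, hu.2.le.trans hs.2⟩
        have g6 := hclt u ⟨hu.1.le, hu.2.trans_le hs.2⟩
        have g7 : 0 < h u * H u := mul_pos_of_neg_of_neg g5 g6
        have g8 : -((G u * (RR x y P u / rr x y u)) * hd u + H u * (-(w ^ 2) * h u *
          (RR x y P u / rr x y u)) - (hd u * (RR x y P u / rr x y u) * G u +
          h u * ((kk w (EE w μ x y vx vy t₀ + μ) l x y vx vy P u -
          w ^ 2 * rr x y u ^ 2 * RR x y P u) / (rr x y u * RR x y P u ^ 2) * H u))) =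
          (h u * H u) * (w ^ 2 * (RR x y P u ^ 2 - rr x y u ^ 2) / (rr x y u * RR x y P u) +
            kk w (EE w μ x y vx vy t₀ + μ) l x y vx vy P u /
              (rr x y u * RR x y P u ^ 2)) := by
          field_simp
          ring
        rw [g8]
        have g9 : 0 ≤ RR x y P u ^ 2 - rr x y u ^ 2 := by nlinarith
        rw [← hldef] at g3
        positivity)
    linarith
  -- the quotient
  have hq := le_of_deriv (F := fun s => H s / h s) (F' := fun s =>
    ((G s * (RR x y P s / rr x y s)) * h s - H s * (hd s * (RR x y P s / rr x y s))) /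
      (h s) ^ 2) hc.1 ((cH.mono hIcc).div (ch.mono hIcc) (fun s hs => (hneg s hs).ne))
    (fun s hs => (dH s (hIoo hs)).div (dh s (hIoo hs)) (hneg s ⟨hs.1.le, hs.2.le⟩).ne) (by
      intro s hs
      have hm := Ioo_subset_Ico_self (hIoo hs)
      have g1 := A.r_pos hm
      have g2 := RR_pos A P hm
      have g3 := hW s ⟨hs.1.le, hs.2.le⟩
      have g4 : (G s * (RR x y P s / rr x y s)) * h s - H s * (hd s *
        (RR x y P s / rr x y s)) = (RR x y P s / rr x y s) * (-(H s * hd s - h s * G s)) := by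
        ring
      rw [g4]
      have g5 : 0 ≤ -(H s * hd s - h s * G s) := by linarith
      positivity)
  simp only [hc0, zero_div] at hq
  have : 0 < H t₀ / h t₀ := div_pos_of_neg_of_neg hH0' (hneg t₀ ⟨le_refl _, hc.1⟩)
  linarith

/-- The velocity is bounded. -/
theorem Arc.v_le (A : Arc w μ t₀ b x y vx vy) {t : ℝ} (ht : t ∈ Ico t₀ b) :
    vx t ^ 2 + vy t ^ 2 ≤ 2 * (EE w μ x y vx vy t₀ + μ) := by
  rw [← A.E_eq ht]
  unfold EE
  have hr := A.r_pos ht
  have h1 : x t / rr x y t ≤ 1 := by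
    rw [div_le_one hr]
    nlinarith [rr_sq x y t, sq_nonneg (y t), hr]
  have h2 := mul_le_mul_of_nonneg_left h1 A.hμ
  have h3 : 0 ≤ w ^ 2 * (x t ^ 2 + y t ^ 2) := by positivity
  linarith

theorem Arc.rN_le (A : Arc w μ t₀ b x y vx vy) :
    ∃ C : ℝ, 0 < C ∧ ∃ t₁ ∈ Ioo t₀ b, ∀ t ∈ Ico t₁ b, rr x y t * NN x y t ≤ C * (b - t) ^ 2 := by
  set e := 2 * (EE w μ x y vx vy t₀ + μ) + 1 with he
  have he0 : 0 < e := by
    have := A.v_le A.mem0
    nlinarith [sq_nonneg (vx t₀), sq_nonneg (vy t₀)]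
  set C := Real.sqrt e with hC
  have hC0 : 0 < C := Real.sqrt_pos.mpr he0
  have hC2 : C ^ 2 = e := Real.sq_sqrt he0.le
  have hvx : ∀ t ∈ Ico t₀ b, |vx t| ≤ C := by
    intro t ht
    apply abs_le_of_sq_le_sq _ hC0.le
    have := A.v_le ht
    nlinarith [sq_nonneg (vy t)]
  have hvy : ∀ t ∈ Ico t₀ b, |vy t| ≤ C := by
    intro t ht
    apply abs_le_of_sq_le_sq _ hC0.le
    have := A.v_le ht
    nlinarith [sq_nonneg (vx t)]
  have hyb : ∀ t ∈ Ico t₀ b, y t ≤ C * (b - t) := by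
    intro t ht
    have h := le_of_deriv (F := fun s => y s + C * s) (F' := fun s => vy s + C * 1) ht.2.le
      ((A.cy.mono (Icc_subset_Icc_left ht.1)).add
        (continuousOn_const.mul continuousOn_id))
      (fun s hs => (A.hy s ⟨ht.1.trans_lt hs.1, hs.2⟩).add ((hasDerivAt_id s).const_mul C))
      (fun s hs => by
        have := (abs_le.mp (hvy s ⟨ht.1.trans hs.1.le, hs.2⟩)).1
        linarith)
    simp only [A.yb] at h
    linarith
  have hxb1 : ∀ t ∈ Ico t₀ b, x t - x b ≤ C * (b - t) := by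
    intro t ht
    have h := le_of_deriv (F := fun s => x s + C * s) (F' := fun s => vx s + C * 1) ht.2.le
      ((A.cx.mono (Icc_subset_Icc_left ht.1)).add
        (continuousOn_const.mul continuousOn_id))
      (fun s hs => (A.hx s ⟨ht.1.trans_lt hs.1, hs.2⟩).add ((hasDerivAt_id s).const_mul C))
      (fun s hs => by
        have := (abs_le.mp (hvx s ⟨ht.1.trans hs.1.le, hs.2⟩)).1
        linarith)
    linarith
  have hxb2 : ∀ t ∈ Ico t₀ b, x b - x t ≤ C * (b - t) := by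
    intro t ht
    have h := le_of_deriv (F := fun s => C * s - x s) (F' := fun s => C * 1 - vx s) ht.2.le
      ((continuousOn_const.mul continuousOn_id).sub (A.cx.mono (Icc_subset_Icc_left ht.1)))
      (fun s hs => ((hasDerivAt_id s).const_mul C).sub (A.hx s ⟨ht.1.trans_lt hs.1, hs.2⟩))
      (fun s hs => by
        have := (abs_le.mp (hvx s ⟨ht.1.trans hs.1.le, hs.2⟩)).2
        linarith)
    linarith
  have hy0 : ∀ t ∈ Ico t₀ b, 0 ≤ y t := by
    intro t ht
    rcases eq_or_lt_of_le ht.1 with h | h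
    · rw [← h, A.y0]
    · exact (A.ypos t ⟨h, ht.2⟩).le
  have hysq : ∀ t ∈ Ico t₀ b, y t ^ 2 ≤ C ^ 2 * (b - t) ^ 2 := by
    intro t ht
    rw [← mul_pow]
    exact pow_le_pow_left₀ (hy0 t ht) (hyb t ht) 2
  rcases lt_or_eq_of_le A.xb with hneg | hzero
  · -- negative end point
    refine ⟨C ^ 2, by positivity, ?_⟩
    have hcont : ContinuousWithinAt x (Icc t₀ b) b := A.cx b (right_mem_Icc.mpr A.lt.le)
    have hev : ∀ᶠ t in nhdsWithin b (Icc t₀ b), x t < 0 :=
      hcont.eventually_lt_const hneg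
    rw [eventually_nhdsWithin_iff, Metric.eventually_nhds_iff] at hev
    obtain ⟨δ, hδ, hev⟩ := hev
    refine ⟨max (b - δ / 2) ((t₀ + b) / 2), ⟨lt_max_of_lt_right (by linarith [A.lt]),
      max_lt (by linarith) (by linarith [A.lt])⟩, ?_⟩
    intro t ht
    have h1 : b - δ / 2 ≤ t := (le_max_left _ _).trans ht.1
    have h2 : (t₀ + b) / 2 ≤ t := (le_max_right _ _).trans ht.1
    have htm : t ∈ Ico t₀ b := ⟨by linarith [A.lt], ht.2⟩
    have h3 : x t < 0 := by
      apply hev _ (Ico_subset_Icc_self htm)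
      rw [Real.dist_eq, abs_lt]
      constructor <;> linarith [ht.2]
    have h4 := y_sq x y t
    have h5 := A.Npos htm
    have h6 := hysq t htm
    have h7 : rr x y t * NN x y t ≤ (rr x y t - x t) * NN x y t := by
      apply mul_le_mul_of_nonneg_right _ h5.le
      linarith
    linarith
  · refine ⟨4 * C ^ 2, by positivity, (t₀ + b) / 2, ⟨by linarith [A.lt], by linarith [A.lt]⟩, ?_⟩
    intro t ht
    have htm : t ∈ Ico t₀ b := ⟨by linarith [A.lt, ht.1], ht.2⟩
    have h1 := hxb1 t htm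
    have h2 := hxb2 t htm
    rw [hzero] at h1 h2
    have h3 : x t ^ 2 ≤ C ^ 2 * (b - t) ^ 2 := by
      rw [← mul_pow]
      apply sq_le_sq'
      · linarith
      · linarith
    have h4 := hysq t htm
    have h5 := rr_sq x y t
    have h6 := A.r_pos htm
    have h7 : x t ≤ rr x y t := by nlinarith [sq_nonneg (y t)]
    have h8 : rr x y t * NN x y t ≤ rr x y t * (2 * rr x y t) := by
      apply mul_le_mul_of_nonneg_left _ h6.le
      unfold NN
      linarith
    nlinarith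

/-- `P` is unbounded. -/
theorem Aux.P_unbdd (A : Arc w μ t₀ b x y vx vy) (B : Aux w μ t₀ b x y vx vy P τ) (M : ℝ) :
    ∃ t ∈ Ico t₀ b, M < P t := by
  obtain ⟨C, hC, t₁, ht₁, h⟩ := A.rN_le
  have hl := A.L_pos A.mem0
  set l := LL x y vx vy t₀
  set c := l / C with hc
  have hc0 : 0 < c := by positivity
  have hbt : 0 < b - t₁ := by linarith [ht₁.2]
  set K := |M| + c / (b - t₁) + 1 with hK
  have hK0 : 0 < K := by positivity
  set δ := c / K with hδ
  have hδ0 : 0 < δ := by positivity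
  have hcδ : c / δ = K := by rw [hδ]; field_simp
  have hδ1 : δ < b - t₁ := by
    rw [hδ, div_lt_iff₀ hK0, hK]
    have h1 : (b - t₁) * (|M| + c / (b - t₁) + 1) = (b - t₁) * |M| + c + (b - t₁) := by
      field_simp
    rw [h1]
    have h2 : 0 ≤ (b - t₁) * |M| := by positivity
    linarith
  have ht : b - δ ∈ Ico t₀ b := ⟨by linarith [ht₁.1], by linarith⟩
  refine ⟨b - δ, ht, ?_⟩
  have hsub : Icc t₁ (b - δ) ⊆ Ico t₀ b := fun s hs => ⟨ht₁.1.le.trans hs.1, hs.2.trans_lt ht.2⟩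
  have hmono := le_of_deriv (F := fun s => P s - c / (b - s))
    (F' := fun s => l / (rr x y s * NN x y s) - (0 * (b - s) - c * (-1)) / (b - s) ^ 2)
    (show t₁ ≤ b - δ by linarith)
    ((B.cP.mono hsub).sub (continuousOn_const.div (continuousOn_const.sub continuousOn_id)
      (fun s hs => (sub_pos.mpr (hsub hs).2).ne')))
    (fun s hs => by
      have hs' := hsub ⟨hs.1.le, hs.2.le⟩
      exact (B.hP s ⟨ht₁.1.trans hs.1, hs'.2⟩).sub
        ((hasDerivAt_const s c).div ((hasDerivAt_id s).const_sub b)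
          (sub_pos.mpr hs'.2).ne'))
    (fun s hs => by
      have hs' := hsub ⟨hs.1.le, hs.2.le⟩
      have h1 := h s ⟨hs.1.le, hs'.2⟩
      have h2 := A.r_pos hs'
      have h3 := A.Npos hs'
      have h4 : 0 < b - s := by linarith [hs'.2]
      have h5 : (0 * (b - s) - c * (-1)) / (b - s) ^ 2 = l / (C * (b - s) ^ 2) := by
        rw [hc]; field_simp; ring
      rw [h5, sub_nonneg]
      gcongr)
  have h1 : P t₁ - c / (b - t₁) ≤ P (b - δ) - c / (b - (b - δ)) := hmono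
  rw [sub_sub_cancel, hcδ] at h1
  have h2 : 0 ≤ P t₁ := Aux.P_nonneg A B ⟨ht₁.1.le, ht₁.2⟩
  have h3 : M ≤ |M| := le_abs_self M
  rw [hK] at h1
  linarith

/-- the time `τ` reaches every value below `π / w` -/
theorem Aux.τ_reach (A : Arc w μ t₀ b x y vx vy) (B : Aux w μ t₀ b x y vx vy P τ) {T : ℝ}
    (hT0 : 0 < T) (hT : w * T < Real.pi) : ∃ c ∈ Ico t₀ b, τ c = T := by
  have hw := A.hw
  have hx0 := A.x0
  have hl : 0 < LL x y vx vy t₀ := A.L_pos A.mem0
  have hle : LL x y vx vy t₀ = x t₀ * vy t₀ := by unfold LL; rw [A.y0]; ring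
  have hvy : 0 < vy t₀ := by
    rw [hle] at hl
    exact (pos_iff_pos_of_mul_pos hl).mp hx0
  have hsin : 0 < Real.sin (w * T) := Real.sin_pos_of_pos_of_lt_pi (by positivity) hT
  obtain ⟨t, ht, hTt⟩ : ∃ t ∈ Ico t₀ b, T ≤ τ t := by
    by_contra hcon
    push Not at hcon
    have hst := fun t (ht : t ∈ Ico t₀ b) => Aux.sturm A B hT0 hT ht (hcon t ht).le
    set α := x t₀ * Real.cos (w * T) + vx t₀ / w * Real.sin (w * T) with hα
    set β := vy t₀ / w * Real.sin (w * T) with hβ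
    have hβ0 : 0 < β := by positivity
    obtain ⟨t, ht, hM⟩ := Aux.P_unbdd A B (1 + 2 * |α| / β)
    have h1 := hst t ht
    have hN := A.Npos ht
    have h2 : NN x y t * (α * P t - β * (1 - P t ^ 2) / 2) ≤ 0 := by linarith
    have h3 : α * P t - β * (1 - P t ^ 2) / 2 ≤ 0 := by
      by_contra h
      push Not at h
      have := mul_pos hN h
      linarith
    have h4 : -|α| ≤ α := neg_abs_le α
    have hP1 : 1 < P t := by
      have : 0 ≤ 2 * |α| / β := by positivity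
      linarith
    have h5 : β + 2 * |α| < β * P t := by
      have : β * (1 + 2 * |α| / β) < β * P t := by gcongr
      have h6 : β * (1 + 2 * |α| / β) = β + 2 * |α| := by field_simp
      linarith
    have h7 : (β + 2 * |α|) * P t < β * P t * P t := by gcongr
    have h8 : -|α| * P t ≤ α * P t := by gcongr
    nlinarith
  have hiv := intermediate_value_Icc ht.1 (B.cτ.mono (fun s hs => ⟨hs.1, hs.2.trans_lt ht.2⟩ :
    Icc t₀ t ⊆ Ico t₀ b))
  obtain ⟨c, hc, hcT⟩ := hiv ⟨by rw [B.τ0]; exact hT0.le, hTt⟩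
  exact ⟨c, ⟨hc.1, hc.2.trans_lt ht.2⟩, hcT⟩

/-- Comparison of cosines from comparison of cotangents. -/
theorem cos_le_of_cot {a b' X Y : ℝ} (hb : 0 < b') (hY : 0 < Y) (h : X * b' ≤ Y * a) :
    X * Real.sqrt (a ^ 2 + b' ^ 2) ≤ a * Real.sqrt (X ^ 2 + Y ^ 2) := by
  have hs1 : 0 < Real.sqrt (a ^ 2 + b' ^ 2) := Real.sqrt_pos.mpr (by positivity)
  have hs2 : 0 < Real.sqrt (X ^ 2 + Y ^ 2) := Real.sqrt_pos.mpr (by positivity)
  have e1 := Real.sq_sqrt (show 0 ≤ a ^ 2 + b' ^ 2 by positivity)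
  have e2 := Real.sq_sqrt (show 0 ≤ X ^ 2 + Y ^ 2 by positivity)
  rcases le_or_gt X 0 with hX | hX
  · rcases le_or_gt 0 a with ha | ha
    · have h1 : X * Real.sqrt (a ^ 2 + b' ^ 2) ≤ 0 := mul_nonpos_of_nonpos_of_nonneg hX hs1.le
      have h2 : 0 ≤ a * Real.sqrt (X ^ 2 + Y ^ 2) := mul_nonneg ha hs2.le
      linarith
    · -- both negative
      have h1 : (Y * a) ^ 2 ≤ (X * b') ^ 2 := by
        have : Y * a ≤ 0 := mul_nonpos_of_nonneg_of_nonpos hY.le ha.le
        nlinarith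
      have h2 : (a * Real.sqrt (X ^ 2 + Y ^ 2)) ^ 2 ≤ (X * Real.sqrt (a ^ 2 + b' ^ 2)) ^ 2 := by
        rw [mul_pow, mul_pow, e1, e2]
        nlinarith
      have h3 : X * Real.sqrt (a ^ 2 + b' ^ 2) ≤ 0 := mul_nonpos_of_nonpos_of_nonneg hX hs1.le
      have h4 : a * Real.sqrt (X ^ 2 + Y ^ 2) < 0 := mul_neg_of_neg_of_pos ha hs2
      by_contra hcon
      push Not at hcon
      nlinarith
  · have ha : 0 < a := by
      have : 0 < Y * a := (mul_pos hX hb).trans_le h
      exact (pos_iff_pos_of_mul_pos this).mp hY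
    have h1 : (X * b') ^ 2 ≤ (Y * a) ^ 2 := by
      apply pow_le_pow_left₀ (by positivity) h
    have h2 : (X * Real.sqrt (a ^ 2 + b' ^ 2)) ^ 2 ≤ (a * Real.sqrt (X ^ 2 + Y ^ 2)) ^ 2 := by
      rw [mul_pow, mul_pow, e1, e2]
      nlinarith
    exact le_of_sq_le_sq h2 (by positivity)

/-- The cosine of the polar angle of the free motion. -/
noncomputable def qq (w x₀ u v : ℝ) (s : ℝ) : ℝ :=
  (x₀ * Real.cos (w * s) + u / w * Real.sin (w * s)) /
    Real.sqrt ((x₀ * Real.cos (w * s) + u / w * Real.sin (w * s)) ^ 2 +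
      (v / w * Real.sin (w * s)) ^ 2)

theorem free_pos {w x₀ v : ℝ} (u : ℝ) (hw : 0 < w) (hx : 0 < x₀) (hv : 0 < v) (s : ℝ) :
    0 < (x₀ * Real.cos (w * s) + u / w * Real.sin (w * s)) ^ 2 +
      (v / w * Real.sin (w * s)) ^ 2 := by
  rcases eq_or_ne (Real.sin (w * s)) 0 with h | h
  · rw [h]
    have hc : Real.cos (w * s) ^ 2 = 1 := by
      have := Real.sin_sq_add_cos_sq (w * s)
      rw [h] at this
      linarith
    have : (x₀ * Real.cos (w * s) + u / w * 0) ^ 2 + (v / w * 0) ^ 2 = x₀ ^ 2 := by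
      rw [mul_zero, mul_zero, add_zero, mul_pow, hc]
      ring
    rw [this]
    positivity
  · positivity

theorem qq_cont {w x₀ v : ℝ} (u : ℝ) (hw : 0 < w) (hx : 0 < x₀) (hv : 0 < v) :
    Continuous (qq w x₀ u v) := by
  unfold qq
  apply Continuous.div
  · fun_prop
  · fun_prop
  · intro s
    exact (Real.sqrt_pos.mpr (free_pos u hw hx hv s)).ne'

theorem Aux.pointwise (A : Arc w μ t₀ b x y vx vy) (B : Aux w μ t₀ b x y vx vy P τ) {s : ℝ}
    (hs : s ∈ Ioo t₀ b) (hτ : w * τ s < Real.pi) :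
    (1 + qq w (x t₀) (vx t₀) (vy t₀) (τ s)) * (RR x y P s / rr x y s) ≤
      1 + x s / rr x y s := by
  have hm := Ioo_subset_Ico_self hs
  have hw := A.hw
  have hx0 := A.x0
  have hl : 0 < LL x y vx vy t₀ := A.L_pos A.mem0
  have hle : LL x y vx vy t₀ = x t₀ * vy t₀ := by unfold LL; rw [A.y0]; ring
  have hvy : 0 < vy t₀ := by
    rw [hle] at hl
    exact (pos_iff_pos_of_mul_pos hl).mp hx0
  have hτ0 : 0 < τ s := by
    rw [← B.τ0]
    exact Aux.τ_mono A B A.mem0 hm hs.1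
  have hst := Aux.sturm A B hτ0 hτ hm le_rfl
  have hsin : 0 < Real.sin (w * τ s) := Real.sin_pos_of_pos_of_lt_pi (by positivity) hτ
  have hP := Aux.P_pos A B hs
  have hr := A.r_pos hm
  have hN := A.Npos hm
  unfold qq
  set X := x t₀ * Real.cos (w * τ s) + vx t₀ / w * Real.sin (w * τ s) with hX
  set Y := vy t₀ / w * Real.sin (w * τ s) with hY
  have hY0 : 0 < Y := by positivity
  have h1 : X * (2 * P s) ≤ Y * (1 - P s ^ 2) := by
    have h2 : NN x y s * (X * (2 * P s) - Y * (1 - P s ^ 2)) ≤ 0 := by nlinarith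
    by_contra h
    push Not at h
    have := mul_pos hN (sub_pos.mpr h)
    linarith
  have h2 := cos_le_of_cot (by positivity : 0 < 2 * P s) hY0 h1
  have h3 : Real.sqrt ((1 - P s ^ 2) ^ 2 + (2 * P s) ^ 2) = 1 + P s ^ 2 := by
    rw [show (1 - P s ^ 2) ^ 2 + (2 * P s) ^ 2 = (1 + P s ^ 2) ^ 2 by ring]
    exact Real.sqrt_sq (by positivity)
  rw [h3] at h2
  have hS : 0 < Real.sqrt (X ^ 2 + Y ^ 2) := Real.sqrt_pos.mpr (by positivity)
  have h4 : X / Real.sqrt (X ^ 2 + Y ^ 2) * (1 + P s ^ 2) ≤ 1 - P s ^ 2 := by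
    rw [div_mul_eq_mul_div, div_le_iff₀ hS]
    exact h2
  have h5 : (1 + X / Real.sqrt (X ^ 2 + Y ^ 2)) * (1 + P s ^ 2) ≤ 2 := by linarith
  have h6 : (1 + X / Real.sqrt (X ^ 2 + Y ^ 2)) * (RR x y P s / rr x y s) =
      ((1 + X / Real.sqrt (X ^ 2 + Y ^ 2)) * (1 + P s ^ 2)) * (NN x y s / (2 * rr x y s)) := by
    unfold RR
    field_simp
  have h7 : 1 + x s / rr x y s = 2 * (NN x y s / (2 * rr x y s)) := by
    unfold NN
    field_simp
  rw [h6, h7]
  gcongr

theorem abs_div_sqrt_le (p q : ℝ) : |p / Real.sqrt (p ^ 2 + q ^ 2)| ≤ 1 := by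
  rw [abs_div, abs_of_nonneg (Real.sqrt_nonneg _)]
  apply div_le_one_of_le₀ _ (Real.sqrt_nonneg _)
  apply Real.le_sqrt_of_sq_le
  rw [sq_abs]
  nlinarith [sq_nonneg q]

theorem Arc.integrable (A : Arc w μ t₀ b x y vx vy) :
    IntervalIntegrable (fun t => 1 + x t / rr x y t) volume t₀ b := by
  rw [intervalIntegrable_iff_integrableOn_Ioc_of_le A.lt.le,
    ← integrableOn_Icc_iff_integrableOn_Ioc, integrableOn_Icc_iff_integrableOn_Ico]
  have hc : ContinuousOn (fun t => 1 + x t / rr x y t) (Ico t₀ b) :=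
    continuousOn_const.add (A.cx'.div A.cr (fun t ht => (A.r_pos ht).ne'))
  refine Integrable.of_bound (hc.aestronglyMeasurable measurableSet_Ico) 2 ?_
  refine Filter.Eventually.of_forall (fun t => ?_)
  have h := abs_div_sqrt_le (x t) (y t)
  rw [abs_le] at h
  rw [Real.norm_eq_abs, abs_le]
  unfold rr
  constructor <;> linarith [h.1, h.2]

/-- The forward arc. -/
theorem Arc.forward_lt (A : Arc w μ t₀ b x y vx vy) {T : ℝ} (hT0 : 0 < T)
    (hT : w * T < Real.pi) :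
    (∫ s in (0:ℝ)..T, (1 + qq w (x t₀) (vx t₀) (vy t₀) s)) ≤
      ∫ t in t₀..b, (1 + x t / rr x y t) := by
  obtain ⟨P, τ, B⟩ := A.exists_aux
  obtain ⟨c, hc, hcT⟩ := Aux.τ_reach A B hT0 hT
  have hw := A.hw
  have hx0 := A.x0
  have hl : 0 < LL x y vx vy t₀ := A.L_pos A.mem0
  have hle : LL x y vx vy t₀ = x t₀ * vy t₀ := by unfold LL; rw [A.y0]; ring
  have hvy : 0 < vy t₀ := by
    rw [hle] at hl
    exact (pos_iff_pos_of_mul_pos hl).mp hx0
  have hqc := qq_cont (vx t₀) hw hx0 hvy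
  have hfc : ContinuousOn (fun t => 1 + x t / rr x y t) (Ico t₀ b) :=
    continuousOn_const.add (A.cx'.div A.cr (fun t ht => (A.r_pos ht).ne'))
  have hqi : Continuous (fun s => 1 + qq w (x t₀) (vx t₀) (vy t₀) s) :=
    continuous_const.add hqc
  have hΦ : ∀ s, HasDerivAt (fun s => ∫ u in (0:ℝ)..s, (1 + qq w (x t₀) (vx t₀) (vy t₀) u))
      (1 + qq w (x t₀) (vx t₀) (vy t₀) s) s := fun s =>
    intervalIntegral.integral_hasDerivAt_right (hqi.intervalIntegrable _ _)
      (hqi.stronglyMeasurableAtFilter _ _) hqi.continuousAt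
  have hsub : Icc t₀ c ⊆ Ico t₀ b := fun s hs => ⟨hs.1, hs.2.trans_lt hc.2⟩
  have hΦc : Continuous (fun s => ∫ u in (0:ℝ)..s, (1 + qq w (x t₀) (vx t₀) (vy t₀) u)) :=
    continuous_iff_continuousAt.mpr (fun s => (hΦ s).continuousAt)
  have hmono := le_of_deriv (F := fun t => (∫ s in t₀..t, (1 + x s / rr x y s)) -
      ∫ u in (0:ℝ)..(τ t), (1 + qq w (x t₀) (vx t₀) (vy t₀) u))
    (F' := fun t => (1 + x t / rr x y t) - (1 + qq w (x t₀) (vx t₀) (vy t₀) (τ t)) *
      (RR x y P t / rr x y t)) hc.1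
    (((prim_cont hfc).mono hsub).sub (hΦc.comp_continuousOn (B.cτ.mono hsub)))
    (fun t ht => (prim_deriv hfc ⟨ht.1, ht.2.trans hc.2⟩).sub
      ((hΦ (τ t)).comp t (B.hτ' ⟨ht.1, ht.2.trans hc.2⟩)))
    (fun t ht => by
      rw [sub_nonneg]
      have ht' : t ∈ Ioo t₀ b := ⟨ht.1, ht.2.trans hc.2⟩
      apply Aux.pointwise A B ht'
      have h1 : τ t ≤ T := by
        rw [← hcT]
        exact (Aux.τ_mono A B).monotoneOn (Ioo_subset_Ico_self ht') hc ht.2.le
      have h2 : w * τ t ≤ w * T := by gcongr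
      linarith)
  simp only [intervalIntegral.integral_same, B.τ0, hcT, sub_zero] at hmono
  have hI := A.integrable
  have hI1 : IntervalIntegrable (fun t => 1 + x t / rr x y t) volume t₀ c :=
    hI.mono_set (by rw [uIcc_of_le hc.1, uIcc_of_le A.lt.le]; exact Icc_subset_Icc_right hc.2.le)
  have hI2 : IntervalIntegrable (fun t => 1 + x t / rr x y t) volume c b :=
    hI.mono_set (by rw [uIcc_of_le hc.2.le, uIcc_of_le A.lt.le]; exact Icc_subset_Icc_left hc.1)
  rw [← intervalIntegral.integral_add_adjacent_intervals hI1 hI2]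
  have hnn : 0 ≤ ∫ t in c..b, (1 + x t / rr x y t) := by
    apply intervalIntegral.integral_nonneg hc.2.le
    intro t _
    have h := abs_div_sqrt_le (x t) (y t)
    rw [abs_le] at h
    unfold rr
    linarith [h.1]
  linarith

theorem Arc.forward (A : Arc w μ t₀ b x y vx vy) :
    (∫ s in (0:ℝ)..(Real.pi / w), (1 + qq w (x t₀) (vx t₀) (vy t₀) s)) ≤
      ∫ t in t₀..b, (1 + x t / rr x y t) := by
  have hw := A.hw
  have hx0 := A.x0
  have hl : 0 < LL x y vx vy t₀ := A.L_pos A.mem0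
  have hle : LL x y vx vy t₀ = x t₀ * vy t₀ := by unfold LL; rw [A.y0]; ring
  have hvy : 0 < vy t₀ := by
    rw [hle] at hl
    exact (pos_iff_pos_of_mul_pos hl).mp hx0
  have hqi : Continuous (fun s => 1 + qq w (x t₀) (vx t₀) (vy t₀) s) :=
    continuous_const.add (qq_cont (vx t₀) hw hx0 hvy)
  have hΦc : Continuous (fun s => ∫ u in (0:ℝ)..s, (1 + qq w (x t₀) (vx t₀) (vy t₀) u)) :=
    continuous_iff_continuousAt.mpr (fun s =>
      (intervalIntegral.integral_hasDerivAt_right (hqi.intervalIntegrable _ _)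
      (hqi.stronglyMeasurableAtFilter _ _) hqi.continuousAt).continuousAt)
  have hpos : 0 < Real.pi / w := by positivity
  have h1 : Filter.Tendsto (fun s => ∫ u in (0:ℝ)..s, (1 + qq w (x t₀) (vx t₀) (vy t₀) u))
      (nhdsWithin (Real.pi / w) (Iio (Real.pi / w)))
      (nhds (∫ u in (0:ℝ)..(Real.pi / w), (1 + qq w (x t₀) (vx t₀) (vy t₀) u))) :=
    (hΦc.tendsto _).mono_left nhdsWithin_le_nhds
  refine le_of_tendsto h1 ?_
  have h2 : ∀ᶠ s in nhdsWithin (Real.pi / w) (Iio (Real.pi / w)), 0 < s :=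
    (eventually_gt_nhds hpos).filter_mono nhdsWithin_le_nhds
  filter_upwards [h2, self_mem_nhdsWithin] with s hs hs'
  apply A.forward_lt hs
  rw [mem_Iio, lt_div_iff₀ hw] at hs'
  linarith

theorem free_sum {x₀ v : ℝ} (u : ℝ) (hw : 0 < w) (hx : 0 < x₀) (hv : 0 < v) :
    (∫ s in (0:ℝ)..(Real.pi / w), (1 + qq w x₀ u v s)) +
      (∫ s in (0:ℝ)..(Real.pi / w), (1 + qq w x₀ (-u) v s)) = 2 * Real.pi / w := by
  have h1 : (∫ s in (0:ℝ)..(Real.pi / w), (1 + qq w x₀ (-u) v s)) =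
      ∫ s in (0:ℝ)..(Real.pi / w), (1 - qq w x₀ u v s) := by
    have := intervalIntegral.integral_comp_sub_left (a := (0:ℝ)) (b := Real.pi / w)
      (fun s => (1 + qq w x₀ (-u) v s)) (Real.pi / w)
    rw [sub_self, sub_zero] at this
    rw [← this]
    apply intervalIntegral.integral_congr
    intro s _
    have e1 : w * (Real.pi / w - s) = Real.pi - w * s := by field_simp
    unfold qq
    simp only [e1, Real.cos_pi_sub, Real.sin_pi_sub]
    have e2 : x₀ * -Real.cos (w * s) + -u / w * Real.sin (w * s) =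
      -(x₀ * Real.cos (w * s) + u / w * Real.sin (w * s)) := by ring
    rw [e2, neg_sq, neg_div]
    ring
  rw [h1, ← intervalIntegral.integral_add]
  · have : ∀ s, (1 + qq w x₀ u v s) + (1 - qq w x₀ u v s) = 2 := fun s => by ring
    simp only [this, intervalIntegral.integral_const, smul_eq_mul]
    ring
  · exact (continuous_const.add (qq_cont u hw hx hv)).intervalIntegrable _ _
  · exact (continuous_const.sub (qq_cont u hw hx hv)).intervalIntegrable _ _

end

end ArcB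

/-- M5. The planar estimate. -/
theorem arc_bound {w μ a t₀ b : ℝ} {x y vx vy : ℝ → ℝ} (hw : 0 < w) (hμ : 0 ≤ μ) (h1 : a < t₀)
    (h2 : t₀ < b)
    (hx : ∀ t ∈ Ioo a b, HasDerivAt x (vx t) t) (hy : ∀ t ∈ Ioo a b, HasDerivAt y (vy t) t)
    (hvx : ∀ t ∈ Ioo a b, HasDerivAt vx
      (-(w ^ 2 * x t) + μ * y t ^ 2 / Real.sqrt (x t ^ 2 + y t ^ 2) ^ 3) t)
    (hvy : ∀ t ∈ Ioo a b, HasDerivAt vy
      (-(w ^ 2 * y t) - μ * (x t * y t) / Real.sqrt (x t ^ 2 + y t ^ 2) ^ 3) t)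
    (cx : ContinuousOn x (Icc a b)) (cy : ContinuousOn y (Icc a b))
    (hL : ∀ t ∈ Ioo a b, 0 < x t * vy t - y t * vx t) (hy0 : y t₀ = 0) (hx0 : 0 < x t₀)
    (hpos : ∀ t ∈ Ioo t₀ b, 0 < y t) (hneg : ∀ t ∈ Ioo a t₀, y t < 0)
    (hya : y a = 0) (hyb : y b = 0) (hxa : x a ≤ 0) (hxb : x b ≤ 0) :
    2 * Real.pi / w ≤ ∫ t in a..b, (1 + x t / Real.sqrt (x t ^ 2 + y t ^ 2)) := by
  have s1 : Ico t₀ b ⊆ Ioo a b := fun s hs => ⟨h1.trans_le hs.1, hs.2⟩
  have s2 : Ioo t₀ b ⊆ Ioo a b := fun s hs => ⟨h1.trans hs.1, hs.2⟩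
  have A1 : ArcB.Arc w μ t₀ b x y vx vy :=
    { hw := hw, hμ := hμ, lt := h2
      cx := cx.mono (Icc_subset_Icc_left h1.le)
      cy := cy.mono (Icc_subset_Icc_left h1.le)
      cvx := fun s hs => (hvx s (s1 hs)).continuousAt.continuousWithinAt
      cvy := fun s hs => (hvy s (s1 hs)).continuousAt.continuousWithinAt
      hx := fun s hs => hx s (s2 hs)
      hy := fun s hs => hy s (s2 hs)
      hvx := fun s hs => hvx s (s2 hs)
      hvy := fun s hs => hvy s (s2 hs)
      L := fun s hs => hL s (s1 hs)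
      y0 := hy0, x0 := hx0, ypos := hpos, yb := hyb, xb := hxb }
  -- the reflected arc
  have hm : t₀ < 2 * t₀ - a := by linarith
  have r1 : ∀ s ∈ Ico t₀ (2 * t₀ - a), 2 * t₀ - s ∈ Ioo a b :=
    fun s hs => ⟨by linarith [hs.2], by linarith [hs.1]⟩
  have r2 : ∀ s ∈ Ioo t₀ (2 * t₀ - a), 2 * t₀ - s ∈ Ioo a b :=
    fun s hs => r1 s (Ioo_subset_Ico_self hs)
  have r3 : ∀ s ∈ Icc t₀ (2 * t₀ - a), 2 * t₀ - s ∈ Icc a b :=
    fun s hs => ⟨by linarith [hs.2], by linarith [hs.1]⟩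
  have hsubc : Continuous (fun s : ℝ => 2 * t₀ - s) := by fun_prop
  have hder : ∀ s : ℝ, HasDerivAt (fun s : ℝ => 2 * t₀ - s) (-1) s :=
    fun s => (hasDerivAt_id s).const_sub (2 * t₀)
  have A2 : ArcB.Arc w μ t₀ (2 * t₀ - a) (fun s => x (2 * t₀ - s)) (fun s => -y (2 * t₀ - s))
      (fun s => -vx (2 * t₀ - s)) (fun s => vy (2 * t₀ - s)) :=
    { hw := hw, hμ := hμ, lt := hm
      cx := cx.comp hsubc.continuousOn r3
      cy := (cy.comp hsubc.continuousOn r3).neg
      cvx := fun s hs => (((hvx _ (r1 s hs)).continuousAt.comp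
        (f := fun s => 2 * t₀ - s) hsubc.continuousAt).neg).continuousWithinAt
      cvy := fun s hs => ((hvy _ (r1 s hs)).continuousAt.comp
        (f := fun s => 2 * t₀ - s) hsubc.continuousAt).continuousWithinAt
      hx := fun s hs => ((hx _ (r2 s hs)).comp s (hder s)).congr_deriv (by ring)
      hy := fun s hs => (((hy _ (r2 s hs)).comp s (hder s)).neg).congr_deriv (by ring)
      hvx := fun s hs => (((hvx _ (r2 s hs)).comp s (hder s)).neg).congr_deriv (by
        rw [neg_sq]; ring)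
      hvy := fun s hs => ((hvy _ (r2 s hs)).comp s (hder s)).congr_deriv (by
        rw [neg_sq]; ring)
      L := fun s hs => by
        have := hL _ (r1 s hs)
        linarith
      y0 := by
        rw [show 2 * t₀ - t₀ = t₀ by ring, hy0, neg_zero]
      x0 := by
        rw [show 2 * t₀ - t₀ = t₀ by ring]
        exact hx0
      ypos := fun s hs => by
        have := hneg (2 * t₀ - s) ⟨by linarith [hs.2], by linarith [hs.1]⟩
        linarith
      yb := by
        rw [show 2 * t₀ - (2 * t₀ - a) = a by ring, hya, neg_zero]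
      xb := by
        rw [show 2 * t₀ - (2 * t₀ - a) = a by ring]
        exact hxa }
  have f1 := A1.forward
  have f2 := A2.forward
  have hl : 0 < x t₀ * vy t₀ - y t₀ * vx t₀ := hL t₀ ⟨h1, h2⟩
  have hvy0 : 0 < vy t₀ := by
    rw [hy0, zero_mul, sub_zero] at hl
    exact (pos_iff_pos_of_mul_pos hl).mp hx0
  have f3 := ArcB.free_sum (vx t₀) hw hx0 hvy0
  simp only [show 2 * t₀ - t₀ = t₀ by ring] at f2
  have e1 : (∫ t in t₀..(2 * t₀ - a), (1 + x (2 * t₀ - t) /
      ArcB.rr (fun s => x (2 * t₀ - s)) (fun s => -y (2 * t₀ - s)) t)) =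
      ∫ t in a..t₀, (1 + x t / Real.sqrt (x t ^ 2 + y t ^ 2)) := by
    have := intervalIntegral.integral_comp_sub_left (a := t₀) (b := 2 * t₀ - a)
      (fun t => (1 + x t / Real.sqrt (x t ^ 2 + y t ^ 2))) (2 * t₀)
    rw [show 2 * t₀ - (2 * t₀ - a) = a by ring, show 2 * t₀ - t₀ = t₀ by ring] at this
    rw [← this]
    apply intervalIntegral.integral_congr
    intro s _
    simp only [ArcB.rr, neg_sq]
  rw [e1] at f2
  have hI2 := A2.integrable
  have hI1 := A1.integrable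
  have hI3 : IntervalIntegrable (fun t => (1 + x t / Real.sqrt (x t ^ 2 + y t ^ 2)))
      volume a t₀ := by
    have h := hI2.comp_sub_left (2 * t₀)
    rw [show 2 * t₀ - (2 * t₀ - a) = a by ring, show 2 * t₀ - t₀ = t₀ by ring] at h
    refine h.symm.congr ?_
    intro s _
    simp only [ArcB.rr, neg_sq, sub_sub_cancel]
  rw [← intervalIntegral.integral_add_adjacent_intervals hI3 hI1]
  have e2 : (∫ t in t₀..b, (1 + x t / ArcB.rr x y t)) =
    ∫ t in t₀..b, (1 + x t / Real.sqrt (x t ^ 2 + y t ^ 2)) := rfl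
  rw [e2] at f1
  linarith

end Ovals2801
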