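import Mathlib

/-!
# One-dimensional inequalities used for the ovals problem (MP_2801bd_mp)
-/

set_option autoImplicit false

open Real MeasureTheory intervalIntegral Set
open scoped ContDiff

namespace Pool.Agent.MP_2801bd_mp

/-- Integral of a derivative, for everywhere differentiable functions with continuous derivative. -/
lemma integral_deriv_eq {f f' : ℝ → ℝ} (hf : ∀ s, HasDerivAt f (f' s) s) (hf' : Continuous f')
    (a b : ℝ) : ∫ s in a..b, f' s = f b - f a :=
  intervalIntegral.integral_eq_sub_of_hasDerivAt (fun x _ => hf x) (hf'.intervalIntegrable a b)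

/-- Dirichlet inequality on an interval with a parameter. -/
lemma dirichlet_lam {f f' : ℝ → ℝ} {a b lam : ℝ} (hab : a ≤ b) (hlam : 0 < lam)
    (hlen : lam * (b - a) < π) (hf : ∀ s, HasDerivAt f (f' s) s) (hf' : Continuous f')
    (ha : f a = 0) (hb : f b = 0) :
    lam ^ 2 * (∫ s in a..b, f s ^ 2) ≤ ∫ s in a..b, f' s ^ 2 := by
  have hfc : Continuous f := continuous_iff_continuousAt.2 fun s => (hf s).continuousAt
  set m : ℝ := (a + b) / 2 with hm
  have hcos : ∀ s ∈ Icc a b, 0 < Real.cos (lam * (s - m)) := by
    intro s hs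
    apply Real.cos_pos_of_mem_Ioo
    constructor
    · have : lam * (a - m) ≤ lam * (s - m) := by
        apply mul_le_mul_of_nonneg_left _ hlam.le
        linarith [hs.1]
      have h2 : lam * (a - m) = - (lam * (b - a)) / 2 := by rw [hm]; ring
      linarith
    · have : lam * (s - m) ≤ lam * (b - m) := by
        apply mul_le_mul_of_nonneg_left _ hlam.le
        linarith [hs.2]
      have h2 : lam * (b - m) = (lam * (b - a)) / 2 := by rw [hm]; ring
      linarith
  -- the field
  set w : ℝ → ℝ := fun s => lam * (Real.sin (lam * (s - m)) / Real.cos (lam * (s - m))) with hw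
  have hwd : ∀ s ∈ Icc a b, HasDerivAt w (lam ^ 2 + w s ^ 2) s := by
    intro s hs
    have hc := (hcos s hs).ne'
    have h1 : HasDerivAt (fun s => lam * (s - m)) lam s := by
      simpa using ((hasDerivAt_id s).sub_const m).const_mul lam
    have h2 := h1.sin
    have h3 := h1.cos
    have h4 := (h2.div h3 hc).const_mul lam
    refine h4.congr_deriv ?_
    simp only [hw]
    field_simp
    ring_nf
  have hwc : ContinuousOn w (Icc a b) := fun s hs => (hwd s hs).continuousAt.continuousWithinAt
  have hI : ∫ s in a..b, (f' s ^ 2 - lam ^ 2 * f s ^ 2 - (f' s + f s * w s) ^ 2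
      + (2 * f s * f' s * w s + f s ^ 2 * (lam ^ 2 + w s ^ 2))) = 0 := by
    have : ∀ s, f' s ^ 2 - lam ^ 2 * f s ^ 2 - (f' s + f s * w s) ^ 2
      + (2 * f s * f' s * w s + f s ^ 2 * (lam ^ 2 + w s ^ 2)) = 0 := by
      intro s; ring
    simp [this]
  have hder : ∀ s ∈ Icc a b, HasDerivAt (fun s => f s ^ 2 * w s)
      (2 * f s * f' s * w s + f s ^ 2 * (lam ^ 2 + w s ^ 2)) s := by
    intro s hs
    have h1 := ((hf s).pow 2).mul (hwd s hs)
    refine h1.congr_deriv ?_
    simp
  have hcont2 : ContinuousOn (fun s => 2 * f s * f' s * w s + f s ^ 2 * (lam ^ 2 + w s ^ 2))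
      (Icc a b) := by
    apply ContinuousOn.add
    · exact ((continuousOn_const.mul hfc.continuousOn).mul hf'.continuousOn).mul hwc
    · exact (hfc.continuousOn.pow 2).mul (continuousOn_const.add (hwc.pow 2))
  have hcont1 : ContinuousOn (fun s => (f' s + f s * w s) ^ 2) (Icc a b) :=
    (hf'.continuousOn.add (hfc.continuousOn.mul hwc)).pow 2
  have huI : uIcc a b = Icc a b := uIcc_of_le hab
  have hint2 : IntervalIntegrable (fun s => 2 * f s * f' s * w s + f s ^ 2 * (lam ^ 2 + w s ^ 2))
      volume a b := by
    apply ContinuousOn.intervalIntegrable; rwa [huI]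
  have hint1 : IntervalIntegrable (fun s => (f' s + f s * w s) ^ 2) volume a b := by
    apply ContinuousOn.intervalIntegrable; rwa [huI]
  have hFTC : ∫ s in a..b, (2 * f s * f' s * w s + f s ^ 2 * (lam ^ 2 + w s ^ 2)) = 0 := by
    rw [intervalIntegral.integral_eq_sub_of_hasDerivAt (f := fun s => f s ^ 2 * w s)
      (fun s hs => hder s (by rwa [huI] at hs)) hint2]
    simp [ha, hb]
  have hi3 : IntervalIntegrable (fun s => f' s ^ 2) volume a b := (hf'.pow 2).intervalIntegrable _ _
  have hi4 : IntervalIntegrable (fun s => lam ^ 2 * f s ^ 2) volume a b :=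
    (continuous_const.mul (hfc.pow 2)).intervalIntegrable _ _
  rw [intervalIntegral.integral_add ((hi3.sub hi4).sub hint1) hint2,
    intervalIntegral.integral_sub (hi3.sub hi4) hint1, intervalIntegral.integral_sub hi3 hi4,
    hFTC, intervalIntegral.integral_const_mul] at hI
  have hpos : 0 ≤ ∫ s in a..b, (f' s + f s * w s) ^ 2 :=
    intervalIntegral.integral_nonneg hab fun s _ => sq_nonneg _
  linarith

/-- Dirichlet inequality on an interval of length at most `π`. -/
lemma dirichlet {f f' : ℝ → ℝ} {a b : ℝ} (hab : a ≤ b)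
    (hlen : b - a ≤ π) (hf : ∀ s, HasDerivAt f (f' s) s) (hf' : Continuous f')
    (ha : f a = 0) (hb : f b = 0) :
    (∫ s in a..b, f s ^ 2) ≤ ∫ s in a..b, f' s ^ 2 := by
  have key : ∀ lam ∈ Ioo (0:ℝ) 1, lam ^ 2 * (∫ s in a..b, f s ^ 2) ≤ ∫ s in a..b, f' s ^ 2 := by
    intro lam hl
    apply dirichlet_lam hab hl.1 _ hf hf' ha hb
    rcases eq_or_lt_of_le (sub_nonneg.2 hab) with h | h
    · rw [← h]; simpa using Real.pi_pos
    · calc lam * (b - a) < 1 * (b - a) := by
            apply mul_lt_mul_of_pos_right hl.2 h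
        _ ≤ π := by linarith
  have ht : Filter.Tendsto (fun lam : ℝ => lam ^ 2 * (∫ s in a..b, f s ^ 2)) (nhdsWithin 1 (Iio 1))
      (nhds (1 ^ 2 * (∫ s in a..b, f s ^ 2))) := by
    apply Filter.Tendsto.mono_left _ nhdsWithin_le_nhds
    apply Continuous.tendsto
    fun_prop
  have := le_of_tendsto ht (b := ∫ s in a..b, f' s ^ 2) (by
    have : Ioo (0:ℝ) 1 ∈ nhdsWithin (1:ℝ) (Iio 1) := Ioo_mem_nhdsLT (by norm_num)
    filter_upwards [this] with lam hl using key lam hl)
  simpa using this

/-- Sharp lower bound of the oscillator energy on an arc with given end values. -/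
lemma arc {f f' : ℝ → ℝ} {a b : ℝ} (hab : a < b)
    (hlen : b - a < π) (hf : ∀ s, HasDerivAt f (f' s) s) (hf' : Continuous f') :
    (f a ^ 2 + f b ^ 2) * Real.cos (b - a) - 2 * f a * f b ≤
      Real.sin (b - a) * ∫ s in a..b, (f' s ^ 2 - f s ^ 2) := by
  have hfc : Continuous f := continuous_iff_continuousAt.2 fun s => (hf s).continuousAt
  have hs : 0 < Real.sin (b - a) := Real.sin_pos_of_pos_of_lt_pi (by linarith) hlen
  set S := Real.sin (b - a) with hS
  set Cc := Real.cos (b - a) with hCc
  -- the oscillator with the same end values, multiplied by nothing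
  set l : ℝ → ℝ := fun s => (f a * Real.sin (b - s) + f b * Real.sin (s - a)) / S with hl
  set l' : ℝ → ℝ := fun s => (- f a * Real.cos (b - s) + f b * Real.cos (s - a)) / S with hl'
  have hld : ∀ s, HasDerivAt l (l' s) s := by
    intro s
    have h1 : HasDerivAt (fun s => b - s) (-1) s := by
      simpa using (hasDerivAt_id s).const_sub b
    have h2 : HasDerivAt (fun s => s - a) 1 s := by
      simpa using (hasDerivAt_id s).sub_const a
    have h3 := ((h1.sin.const_mul (f a)).add (h2.sin.const_mul (f b))).div_const S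
    refine h3.congr_deriv ?_
    simp only [hl']; ring
  have hl'd : ∀ s, HasDerivAt l' (- l s) s := by
    intro s
    have h1 : HasDerivAt (fun s => b - s) (-1) s := by
      simpa using (hasDerivAt_id s).const_sub b
    have h2 : HasDerivAt (fun s => s - a) 1 s := by
      simpa using (hasDerivAt_id s).sub_const a
    have h3 := ((h1.cos.const_mul (- f a)).add (h2.cos.const_mul (f b))).div_const S
    refine h3.congr_deriv ?_
    simp only [hl]; ring
  have hlc : Continuous l := continuous_iff_continuousAt.2 fun s => (hld s).continuousAt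
  have hl'c : Continuous l' := continuous_iff_continuousAt.2 fun s => (hl'd s).continuousAt
  have hla : l a = f a := by
    simp only [hl, sub_self, Real.sin_zero, mul_zero, add_zero, ← hS]
    field_simp
  have hlb : l b = f b := by
    simp only [hl, sub_self, Real.sin_zero, mul_zero, zero_add, ← hS]
    field_simp
  have hl'a : l' a = (- f a * Cc + f b) / S := by
    simp only [hl', sub_self, Real.cos_zero, mul_one, ← hCc]
  have hl'b : l' b = (- f a + f b * Cc) / S := by
    simp only [hl', sub_self, Real.cos_zero, mul_one, ← hCc]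
  have hD := dirichlet (f := fun s => f s - l s) (f' := fun s => f' s - l' s) hab.le hlen.le
    (fun s => (hf s).sub (hld s)) (hf'.sub hl'c) (by simp [hla]) (by simp [hlb])
  -- boundary terms
  have hB : ∫ s in a..b, ((2 * ((f' s - l' s) * l' s + (f s - l s) * (- l s)))
      + (l' s * l' s + l s * (- l s))) = l b * l' b - l a * l' a := by
    have hd : ∀ s, HasDerivAt (fun s => 2 * ((f s - l s) * l' s) + l s * l' s)
        ((2 * ((f' s - l' s) * l' s + (f s - l s) * (- l s)))
      + (l' s * l' s + l s * (- l s))) s := by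
      intro s
      exact ((((hf s).sub (hld s)).mul (hl'd s)).const_mul 2).add ((hld s).mul (hl'd s))
    rw [integral_deriv_eq hd (by fun_prop)]
    simp [hla, hlb]
  have hE : ∫ s in a..b, (f' s ^ 2 - f s ^ 2) = (∫ s in a..b, (f' s - l' s) ^ 2)
      - (∫ s in a..b, (f s - l s) ^ 2) + (l b * l' b - l a * l' a) := by
    rw [← hB, ← intervalIntegral.integral_sub (Continuous.intervalIntegrable (by fun_prop) _ _)
      (Continuous.intervalIntegrable (by fun_prop) _ _),
      ← intervalIntegral.integral_add (Continuous.intervalIntegrable (by fun_prop) _ _)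
      (Continuous.intervalIntegrable (by fun_prop) _ _)]
    congr 1
    ext s
    ring
  have hF : S * (l b * l' b - l a * l' a) = (f a ^ 2 + f b ^ 2) * Cc - 2 * f a * f b := by
    rw [hla, hlb, hl'a, hl'b]
    field_simp
    ring
  rw [hE, mul_add, hF]
  have : 0 ≤ S * ((∫ s in a..b, (f' s - l' s) ^ 2) - ∫ s in a..b, (f s - l s) ^ 2) :=
    mul_nonneg hs.le (by linarith)
  linarith

/-- Scalar Wirtinger inequality for periodic functions of mean zero. -/
lemma wirtinger {f f' : ℝ → ℝ} (hf : ∀ s, HasDerivAt f (f' s) s) (hf' : Continuous f')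
    (hper : Function.Periodic f (2 * π)) (hper' : Function.Periodic f' (2 * π))
    (hmean : ∫ s in (0:ℝ)..(2 * π), f s = 0) :
    (∫ s in (0:ℝ)..(2 * π), f s ^ 2) ≤ ∫ s in (0:ℝ)..(2 * π), f' s ^ 2 := by
  have hfc : Continuous f := continuous_iff_continuousAt.2 fun s => (hf s).continuousAt
  -- a point with equal antipodal values
  obtain ⟨s₀, hs₀⟩ : ∃ s₀, f (s₀ + π) = f s₀ := by
    have hd : Continuous fun s => f (s + π) - f s := by fun_prop
    have h0 : (f (π + π) - f π) = - (f (0 + π) - f 0) := by
      have : f (π + π) = f 0 := by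
        have := hper 0
        rw [← this]; congr 1; ring
      rw [this, zero_add]; ring
    have : (0:ℝ) ∈ range fun s => f (s + π) - f s := by
      rcases le_total 0 (f (0 + π) - f 0) with h | h
      · exact mem_range_of_exists_le_of_exists_ge hd ⟨π, by rw [h0]; linarith⟩ ⟨0, h⟩
      · exact mem_range_of_exists_le_of_exists_ge hd ⟨0, h⟩ ⟨π, by rw [h0]; linarith⟩
    obtain ⟨s₀, h⟩ := this
    exact ⟨s₀, by simpa using sub_eq_zero.1 h⟩
  set c := f s₀ with hc
  have hpi := Real.pi_pos
  have h2 : f (s₀ + 2 * π) = c := hper s₀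
  have hd1 := dirichlet (f := fun s => f s - c) (f' := f') (a := s₀) (b := s₀ + π)
    (by linarith) (by linarith) (fun s => (hf s).sub_const c) hf' (by simp [hc]) (by simp [hs₀])
  have hd2 := dirichlet (f := fun s => f s - c) (f' := f') (a := s₀ + π) (b := s₀ + 2 * π)
    (by linarith) (by linarith) (fun s => (hf s).sub_const c) hf' (by simp [hs₀]) (by simp [h2])
  have hfi : ∀ a b, IntervalIntegrable (fun s => (f s - c) ^ 2) volume a b := fun a b =>
    Continuous.intervalIntegrable (by fun_prop) _ _
  have hfi' : ∀ a b, IntervalIntegrable (fun s => f' s ^ 2) volume a b := fun a b =>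
    Continuous.intervalIntegrable (by fun_prop) _ _
  have hsum : ∫ s in s₀..(s₀ + 2 * π), (f s - c) ^ 2 ≤ ∫ s in s₀..(s₀ + 2 * π), f' s ^ 2 := by
    rw [← intervalIntegral.integral_add_adjacent_intervals (hfi s₀ (s₀ + π)) (hfi _ _),
      ← intervalIntegral.integral_add_adjacent_intervals (hfi' s₀ (s₀ + π)) (hfi' _ _)]
    exact add_le_add hd1 hd2
  have e1 : ∫ s in s₀..(s₀ + 2 * π), (f s - c) ^ 2 = ∫ s in (0:ℝ)..(2 * π), (f s - c) ^ 2 := by
    have hp : Function.Periodic (fun s => (f s - c) ^ 2) (2 * π) := by
      intro s; simp only [hper s]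
    simpa using hp.intervalIntegral_add_eq s₀ 0
  have e2 : ∫ s in s₀..(s₀ + 2 * π), f' s ^ 2 = ∫ s in (0:ℝ)..(2 * π), f' s ^ 2 := by
    have hp : Function.Periodic (fun s => f' s ^ 2) (2 * π) := by
      intro s; simp only [hper' s]
    simpa using hp.intervalIntegral_add_eq s₀ 0
  rw [e1, e2] at hsum
  have e3 : ∫ s in (0:ℝ)..(2 * π), (f s - c) ^ 2 = (∫ s in (0:ℝ)..(2 * π), f s ^ 2)
      - 2 * c * (∫ s in (0:ℝ)..(2 * π), f s) + 2 * π * c ^ 2 := by
    have : ∀ s, (f s - c) ^ 2 = f s ^ 2 - 2 * c * f s + c ^ 2 := fun s => by ring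
    simp only [this]
    rw [intervalIntegral.integral_add (Continuous.intervalIntegrable (by fun_prop) _ _)
      (Continuous.intervalIntegrable (by fun_prop) _ _),
      intervalIntegral.integral_sub (Continuous.intervalIntegrable (by fun_prop) _ _)
      (Continuous.intervalIntegrable (by fun_prop) _ _), intervalIntegral.integral_const_mul]
    simp
  rw [e3, hmean] at hsum
  nlinarith [sq_nonneg c]

/-- The two-point inequality on the circle: the oscillator energy of a periodic function is
bounded below through its antipodal sums at two points. -/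
lemma two_point {f f' : ℝ → ℝ} (hf : ∀ s, HasDerivAt f (f' s) s) (hf' : Continuous f')
    (hper : Function.Periodic f (2 * π)) (hper' : Function.Periodic f' (2 * π))
    {s t : ℝ} (hst : s < t) (hts : t < s + π) :
    - 2 * ((f s + f (s + π)) * (f t + f (t + π))) ≤
      Real.sin (t - s) * ∫ r in (0:ℝ)..(2 * π), (f' r ^ 2 - f r ^ 2) := by
  have hfc : Continuous f := continuous_iff_continuousAt.2 fun s => (hf s).continuousAt
  have h1 := arc (a := s) (b := t) hst (by linarith) hf hf'
  have h2 := arc (a := t) (b := s + π) hts (by linarith) hf hf'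
  have h3 := arc (a := s + π) (b := t + π) (by linarith) (by linarith) hf hf'
  have h4 := arc (a := t + π) (b := s + 2 * π) (by linarith) (by linarith) hf hf'
  have hfi : ∀ a b, IntervalIntegrable (fun r => f' r ^ 2 - f r ^ 2) volume a b := fun a b =>
    Continuous.intervalIntegrable (by fun_prop) _ _
  have e : ∫ r in s..(s + 2 * π), (f' r ^ 2 - f r ^ 2) = ∫ r in (0:ℝ)..(2 * π), (f' r ^ 2 - f r ^ 2) := by
    have hp : Function.Periodic (fun s => f' s ^ 2 - f s ^ 2) (2 * π) := by
      intro s; simp only [hper' s, hper s]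
    simpa using hp.intervalIntegral_add_eq s 0
  rw [← e, ← intervalIntegral.integral_add_adjacent_intervals (hfi s t) (hfi t _),
    ← intervalIntegral.integral_add_adjacent_intervals (hfi t (s + π)) (hfi (s + π) _),
    ← intervalIntegral.integral_add_adjacent_intervals (hfi (s + π) (t + π)) (hfi (t + π) _)]
  have hs2 : f (s + 2 * π) = f s := hper s
  have a2 : s + π - t = π - (t - s) := by ring
  have a3 : t + π - (s + π) = t - s := by ring
  have a4 : s + 2 * π - (t + π) = π - (t - s) := by ring
  rw [a2, Real.cos_pi_sub, Real.sin_pi_sub] at h2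
  rw [a3] at h3
  rw [a4, Real.cos_pi_sub, Real.sin_pi_sub, hs2] at h4
  nlinarith [h1, h2, h3, h4]

/-- If the antipodal sum of `f` vanishes at one point, the oscillator energy is nonnegative. -/
lemma one_point {f f' : ℝ → ℝ} (hf : ∀ s, HasDerivAt f (f' s) s) (hf' : Continuous f')
    (hper : Function.Periodic f (2 * π)) (hper' : Function.Periodic f' (2 * π))
    {s : ℝ} (hs : f s + f (s + π) = 0) :
    0 ≤ ∫ r in (0:ℝ)..(2 * π), (f' r ^ 2 - f r ^ 2) := by
  have hfc : Continuous f := continuous_iff_continuousAt.2 fun s => (hf s).continuousAt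
  set A := f s with hA
  have hB : f (s + π) = - A := by linarith
  have hC : f (s + 2 * π) = A := hper s
  have hcd : ∀ r, HasDerivAt (fun r => A * Real.cos (r - s)) (- A * Real.sin (r - s)) r := by
    intro r
    have h2 : HasDerivAt (fun r => r - s) 1 r := by
      simpa using (hasDerivAt_id r).sub_const s
    refine (h2.cos.const_mul A).congr_deriv ?_
    ring
  have hsd : ∀ r, HasDerivAt (fun r => - A * Real.sin (r - s)) (- (A * Real.cos (r - s))) r := by
    intro r
    have h2 : HasDerivAt (fun r => r - s) 1 r := by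
      simpa using (hasDerivAt_id r).sub_const s
    refine (h2.sin.const_mul (-A)).congr_deriv ?_
    ring
  have hpi := Real.pi_pos
  have cos2 : Real.cos (s + 2 * π - s) = 1 := by
    rw [show s + 2 * π - s = 2 * π by ring, Real.cos_two_pi]
  have sin2 : Real.sin (s + 2 * π - s) = 0 := by
    rw [show s + 2 * π - s = 2 * π by ring, Real.sin_two_pi]
  have cos1 : Real.cos (s + π - s) = -1 := by
    rw [show s + π - s = π by ring, Real.cos_pi]
  have hd1 := dirichlet (f := fun r => f r - A * Real.cos (r - s))
    (f' := fun r => f' r - (- A * Real.sin (r - s))) (a := s) (b := s + π)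
    (by linarith) (by linarith) (fun r => (hf r).sub (hcd r)) (by fun_prop) (by simp [hA])
    (by simp only [cos1]; linarith)
  have hd2 := dirichlet (f := fun r => f r - A * Real.cos (r - s))
    (f' := fun r => f' r - (- A * Real.sin (r - s))) (a := s + π) (b := s + 2 * π)
    (by linarith) (by linarith) (fun r => (hf r).sub (hcd r)) (by fun_prop)
    (by simp only [cos1]; linarith)
    (by simp only [cos2]; linarith)
  have hfi : ∀ a b, IntervalIntegrable (fun r => (f r - A * Real.cos (r - s)) ^ 2) volume a b :=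
    fun a b => Continuous.intervalIntegrable (by fun_prop) _ _
  have hfi' : ∀ a b, IntervalIntegrable (fun r => (f' r - (- A * Real.sin (r - s))) ^ 2) volume a b :=
    fun a b => Continuous.intervalIntegrable (by fun_prop) _ _
  have hsum : ∫ r in s..(s + 2 * π), (f r - A * Real.cos (r - s)) ^ 2
      ≤ ∫ r in s..(s + 2 * π), (f' r - (- A * Real.sin (r - s))) ^ 2 := by
    rw [← intervalIntegral.integral_add_adjacent_intervals (hfi s (s + π)) (hfi _ _),
      ← intervalIntegral.integral_add_adjacent_intervals (hfi' s (s + π)) (hfi' _ _)]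
    exact add_le_add hd1 hd2
  -- difference is a total derivative
  have hB' : ∫ r in s..(s + 2 * π), ((f' r ^ 2 - f r ^ 2) - ((f' r - (- A * Real.sin (r - s))) ^ 2
      - (f r - A * Real.cos (r - s)) ^ 2)) = 0 := by
    have hd : ∀ r, HasDerivAt (fun r => 2 * (f r * (- A * Real.sin (r - s)))
        - (A * Real.cos (r - s)) * (- A * Real.sin (r - s)))
        ((f' r ^ 2 - f r ^ 2) - ((f' r - (- A * Real.sin (r - s))) ^ 2
      - (f r - A * Real.cos (r - s)) ^ 2)) r := by
      intro r
      refine ((((hf r).mul (hsd r)).const_mul 2).sub ((hcd r).mul (hsd r))).congr_deriv ?_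
      ring
    rw [integral_deriv_eq hd (by fun_prop)]
    simp
  have e : ∫ r in s..(s + 2 * π), (f' r ^ 2 - f r ^ 2) = ∫ r in (0:ℝ)..(2 * π), (f' r ^ 2 - f r ^ 2) := by
    have hp : Function.Periodic (fun s => f' s ^ 2 - f s ^ 2) (2 * π) := by
      intro s; simp only [hper' s, hper s]
    simpa using hp.intervalIntegral_add_eq s 0
  rw [intervalIntegral.integral_sub (Continuous.intervalIntegrable (by fun_prop) _ _)
      (Continuous.intervalIntegrable (by fun_prop) _ _),
      intervalIntegral.integral_sub (hfi' _ _) (hfi _ _), e] at hB'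
  linarith

end Pool.Agent.MP_2801bd_mp
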