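import Pool.Agent.Lib.MP_2801bd_mp.Criterion
import Pool.Agent.Lib.Ovals46.Scalar

/-!
# Two explicit classes: one sign change under mirror symmetry, tight frames of balanced directions
-/

set_option autoImplicit false

open Real MeasureTheory intervalIntegral Set Filter Topology
open scoped ContDiff RealInnerProductSpace

namespace Pool.Agent.MP_2801bd_mp

variable {n : ℕ}

lemma bdry_integrable {T T' : ℝ → EuclideanSpace ℝ (Fin n)} (hT : Tangent T T') {s₀ : ℝ}
    (hs : T (s₀ + π) = - T s₀) :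
    IntervalIntegrable (fun t => ⟪T (s₀ + t) + T (s₀ + t + π), T s₀⟫ / Real.sin t ^ 2)
      volume 0 π := by
  have hTc := hT.contT
  have hT'c := hT.cont
  have hsh : ∀ (c s : ℝ), HasDerivAt (fun t : ℝ => c + t) 1 s := fun c s => by
    simpa using (hasDerivAt_id s).const_add c
  have hTd : ∀ (c s : ℝ), HasDerivAt (fun t => T (c + t)) (T' (c + s)) s := by
    intro c s
    have := (hT.hderiv (c + s)).scomp s (hsh c s)
    rw [one_smul] at this
    exact this
  have h2p : T (s₀ + π + π) = T s₀ := by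
    rw [add_assoc, ← two_mul]; exact hT.per s₀
  obtain ⟨K₁, hK₁⟩ := isCompact_Icc.exists_bound_of_continuousOn (s := Icc (0:ℝ) π)
    (f := fun t => T' (s₀ + t)) (by fun_prop)
  obtain ⟨K₂, hK₂⟩ := isCompact_Icc.exists_bound_of_continuousOn (s := Icc (0:ℝ) π)
    (f := fun t => - T' (s₀ + π + t)) (by fun_prop)
  have hb := fun t (ht : t ∈ Icc (0:ℝ) π) => diff_bound (T₁ := fun t => T (s₀ + t))
    (v := fun t => - T (s₀ + π + t)) (e := T s₀) (K := max K₁ K₂)
    (fun s => hTd s₀ s) (fun s => (hTd (s₀ + π) s).neg) (fun s => hT.unit _)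
    (fun s => by rw [norm_neg]; exact hT.unit _) (hT.unit _)
    (by simp) (by simp [hs]) (by simp [hs]) (by simp [h2p])
    (fun t ht => (hK₁ t ht).trans (le_max_left _ _)) (fun t ht => (hK₂ t ht).trans (le_max_right _ _)) ht
  have := integrable_div_sin_sq (c := fun t => ⟪T (s₀ + t), T s₀⟫ - ⟪- T (s₀ + π + t), T s₀⟫)
    (K := (max K₁ K₂) ^ 2 / 2) (by fun_prop) (fun t ht => (hb t ht).1) (fun t ht => (hb t ht).2)
  refine this.congr ?_
  intro t _
  simp only [inner_neg_left, sub_neg_eq_add, inner_add_left]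
  rw [add_right_comm]

/-- If `⟪T t + T (t + π), T 0⟫` changes sign at most once in `(0, π/2)` then
`⟪T (π/2), T 0⟫ * N(0) ≤ 0`. -/
theorem mirror_one_change {T T' : ℝ → EuclideanSpace ℝ (Fin n)} (hT : Tangent T T')
    (hm : Mirror T) (hanti : T π = - T 0) {τ σ : ℝ} (hτ : 0 < τ) (hτ' : τ ≤ π / 2) (hσ : σ ≠ 0)
    (h1 : ∀ t ∈ Icc 0 τ, 0 ≤ σ * ⟪T t + T (t + π), T 0⟫)
    (h2 : ∀ t ∈ Icc τ (π / 2), σ * ⟪T t + T (t + π), T 0⟫ ≤ 0) :
    ⟪T (π / 2), T 0⟫ * bdry T 0 ≤ 0 := by
  have hpi := pi_pos
  have hTc := hT.contT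
  have hee : ⟪T 0, T 0⟫ = (1:ℝ) := by rw [real_inner_self_eq_norm_sq, hT.unit 0]; norm_num
  set c : ℝ → ℝ := fun s => ⟪T s, T 0⟫ with hc
  have hcc : Continuous c := by fun_prop
  have hceven : ∀ s, c (-s) = c s := by
    intro s
    simp only [hc]
    rw [hm s, inner_sub_left, real_inner_smul_left, hee]
    ring
  have hcper : Function.Periodic c (2 * π) := fun s => by simp only [hc, hT.per s]
  set g : ℝ → ℝ := fun t => ⟪T t + T (t + π), T 0⟫ with hg
  have hgc : ∀ t, g t = c t + c (t + π) := fun t => by simp only [hg, hc, inner_add_left]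
  have hgcont : Continuous g := by fun_prop
  have hgsym : ∀ t, g (π - t) = g t := by
    intro t
    rw [hgc, hgc]
    have e1 : c (π - t) = c (t + π) := by
      rw [← hceven (π - t), ← hcper]
      congr 1
      ring
    have e2 : c (π - t + π) = c t := by
      rw [← hceven t, ← hcper (-t)]
      congr 1
      ring
    rw [e1, e2]
    ring
  have hgper : ∀ t, g (t + π) = g t := by
    intro t
    rw [hgc, hgc]
    have : c (t + π + π) = c t := by
      rw [← hcper t]
      congr 1
      ring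
    rw [this]
    ring
  have hgint : ∫ t in (0:ℝ)..π, g t = 0 := by
    have h3 := hT.closed (T 0)
    have h4 : ∫ s in (0:ℝ)..(2 * π), ⟪T s, T 0⟫ = ∫ t in (0:ℝ)..π, g t := by
      have h5 : ∫ t in (0:ℝ)..π, g t = (∫ t in (0:ℝ)..π, c t) + ∫ t in (0:ℝ)..π, c (t + π) := by
        rw [← intervalIntegral.integral_add (hcc.intervalIntegrable _ _)
          ((by fun_prop : Continuous fun t => c (t + π)).intervalIntegrable _ _)]
        exact intervalIntegral.integral_congr fun t _ => hgc t
      rw [h5, intervalIntegral.integral_comp_add_right (fun s => c s), zero_add, ← two_mul,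
        intervalIntegral.integral_add_adjacent_intervals (hcc.intervalIntegrable _ _)
        (hcc.intervalIntegrable _ _)]
    rw [← h4]; exact h3
  -- sign on all of `[0, π]`
  have hk : 0 < Real.sin τ := Real.sin_pos_of_pos_of_lt_pi hτ (by linarith)
  set k : ℝ := 1 / Real.sin τ ^ 2 with hkdef
  have hmain0 : ∀ t ∈ Ioc 0 (π / 2), 0 ≤ σ * g t * (1 / Real.sin t ^ 2 - k) := by
    intro t ht
    have hst : 0 < Real.sin t := Real.sin_pos_of_pos_of_lt_pi ht.1 (by linarith [ht.2])
    rcases le_total t τ with h | h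
    · apply mul_nonneg (h1 t ⟨ht.1.le, h⟩)
      rw [sub_nonneg, hkdef]
      apply one_div_le_one_div_of_le (by positivity)
      apply pow_le_pow_left₀ hst.le
      exact Real.sin_le_sin_of_le_of_le_pi_div_two (by linarith [ht.1]) hτ' h
    · apply mul_nonneg_of_nonpos_of_nonpos (h2 t ⟨h, ht.2⟩)
      rw [sub_nonpos, hkdef]
      apply one_div_le_one_div_of_le (by positivity)
      apply pow_le_pow_left₀ hk.le
      exact Real.sin_le_sin_of_le_of_le_pi_div_two (by linarith) ht.2 h
  have hmain : ∀ t ∈ Ioo 0 π, 0 ≤ σ * g t * (1 / Real.sin t ^ 2 - k) := by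
    intro t ht
    rcases le_total t (π / 2) with h | h
    · exact hmain0 t ⟨ht.1, h⟩
    · have := hmain0 (π - t) ⟨by linarith [ht.2], by linarith⟩
      rwa [hgsym, Real.sin_pi_sub] at this
  have hint := bdry_integrable hT (s₀ := 0) (by rw [zero_add]; exact hanti)
  simp only [zero_add] at hint
  have hN : 0 ≤ σ * bdry T 0 := by
    have e1 : σ * bdry T 0 = ∫ t in (0:ℝ)..π, σ * g t * (1 / Real.sin t ^ 2 - k) := by
      have e2 : ∀ t, σ * g t * (1 / Real.sin t ^ 2 - k) =
          σ * (⟪T t + T (t + π), T 0⟫ / Real.sin t ^ 2) - σ * k * g t := by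
        intro t
        simp only [hg]
        ring
      simp only [e2]
      rw [intervalIntegral.integral_sub (hint.const_mul σ) ((hgcont.intervalIntegrable _ _).const_mul _),
        intervalIntegral.integral_const_mul, intervalIntegral.integral_const_mul, hgint, mul_zero,
        sub_zero]
      simp only [bdry, zero_add]
    rw [e1]
    apply intervalIntegral.integral_nonneg_of_ae_restrict hpi.le
    rw [Filter.EventuallyLE, ae_restrict_iff' measurableSet_Icc]
    have hnull : ∀ᵐ t : ℝ, t ∉ ({0, π} : Set ℝ) := by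
      have : (volume : Measure ℝ) {0, π} = 0 := (Set.toFinite _).measure_zero _
      exact measure_eq_zero_iff_ae_notMem.1 this
    filter_upwards [hnull] with t ht htI
    apply hmain
    simp only [mem_insert_iff, mem_singleton_iff, not_or] at ht
    exact ⟨lt_of_le_of_ne htI.1 (Ne.symm ht.1), lt_of_le_of_ne htI.2 ht.2⟩
  have hc2 : σ * ⟪T (π / 2), T 0⟫ ≤ 0 := by
    have h3 := h2 (π / 2) ⟨hτ', le_refl _⟩
    have h4 : g (π / 2) = 2 * c (π / 2) := by
      rw [hgc]
      have : c (π / 2 + π) = c (π / 2) := by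
        rw [← hceven (π / 2), ← hcper (-(π / 2))]
        congr 1
        ring
      rw [this]
      ring
    change σ * g (π / 2) ≤ 0 at h3
    rw [h4] at h3
    change σ * c (π / 2) ≤ 0
    linarith
  have h5 : (⟪T (π / 2), T 0⟫ * bdry T 0) * σ ^ 2 ≤ 0 := by
    have := mul_nonpos_of_nonpos_of_nonneg hc2 hN
    calc (⟪T (π / 2), T 0⟫ * bdry T 0) * σ ^ 2 =
      (σ * ⟪T (π / 2), T 0⟫) * (σ * bdry T 0) := by ring
      _ ≤ 0 := this
  by_contra hcon
  push Not at hcon
  have : 0 < (⟪T (π / 2), T 0⟫ * bdry T 0) * σ ^ 2 := by positivity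
  linarith

/-! ### Balanced directions -/

open Pool.Agent.Lib.Ovals46 in
/-- one sided Wirtinger inequality on the positivity set -/
lemma half_balanced {x x' f : ℝ → ℝ} (hx : ∀ s, HasDerivAt x (x' s) s) (hx' : Continuous x')
    (hf : Continuous f) (hzero : ∀ s, f s = 0 → x s = 0) (hfper : Function.Periodic f (2 * π))
    (hxper : Function.Periodic x (2 * π)) (hx'per : Function.Periodic x' (2 * π))
    {s₀ : ℝ} (h0 : f s₀ = 0) (hle : posM f ≤ π) :
    ∫ s in (0:ℝ)..(2 * π), (posSet f).indicator (fun v => x v ^ 2) s ≤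
      ∫ s in (0:ℝ)..(2 * π), (posSet f).indicator (fun v => x' v ^ 2) s := by
  have hpi := pi_pos
  have hp1 : Function.Periodic (fun v => x v ^ 2) (2 * π) := fun s => by simp only [hxper s]
  have hp2 : Function.Periodic (fun v => x' v ^ 2) (2 * π) := fun s => by simp only [hx'per s]
  rcases (posM_nonneg f).eq_or_lt with ha | ha
  · have hemp : ∀ s, s ∉ posSet f := by
      intro s hs
      have := posM_pos hf hfper (s₁ := s) hs
      linarith
    have e1 : ∀ (g : ℝ → ℝ) (s : ℝ), (posSet f).indicator g s = 0 := fun g s =>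
      indicator_of_notMem (hemp s) _
    simp only [e1]
    exact le_refl _
  · have h1 : f (s₀ + 2 * π) = 0 := by rw [hfper s₀, h0]
    have hM : posM f = ∫ s in s₀..(s₀ + 2 * π), (posSet f).indicator (fun _ => (1:ℝ)) s := by
      rw [posM, integral_shift (periodic_indicator hfper (fun _ => rfl))]
    have key := wirtinger_posSet (by positivity) hx hx' hf hzero h0 h1 hM ha
    rw [integral_shift (periodic_indicator hfper hp1),
      integral_shift (periodic_indicator hfper hp2)] at key
    refine le_trans ?_ key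
    have hnn : 0 ≤ ∫ s in (0:ℝ)..(2 * π), (posSet f).indicator (fun v => x v ^ 2) s :=
      intervalIntegral.integral_nonneg (by positivity)
        (fun s _ => indicator_nonneg (fun _ _ => sq_nonneg _) s)
    have h2 : 1 ≤ (π / posM f) ^ 2 := by
      have : 1 ≤ π / posM f := by rwa [le_div_iff₀ ha, one_mul]
      nlinarith
    nlinarith

open Pool.Agent.Lib.Ovals46 in
lemma posM_eq {f : ℝ → ℝ} (hf : Continuous f) :
    posM f = (volume ({s | 0 < f s} ∩ Ioc 0 (2 * π))).toReal := by
  rw [posM, intervalIntegral.integral_of_le (by positivity),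
    MeasureTheory.integral_indicator (measurableSet_posSet hf), Measure.restrict_restrict
    (measurableSet_posSet hf), MeasureTheory.integral_const, smul_eq_mul, mul_one, Measure.real,
    Measure.restrict_apply_univ]
  rfl

/-- A direction `w` is balanced for the tangent field. -/
def Balanced (T : ℝ → EuclideanSpace ℝ (Fin n)) (w : EuclideanSpace ℝ (Fin n)) : Prop :=
  volume ({s | 0 < ⟪w, T s⟫} ∩ Ioc 0 (2 * π)) ≤ ENNReal.ofReal π ∧
  volume ({s | ⟪w, T s⟫ < 0} ∩ Ioc 0 (2 * π)) ≤ ENNReal.ofReal π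

open Pool.Agent.Lib.Ovals46 in
lemma balanced_ineq {T T' : ℝ → EuclideanSpace ℝ (Fin n)} (hT : Tangent T T')
    {φ φ' : ℝ → ℝ} (h : Adm φ φ') {w : EuclideanSpace ℝ (Fin n)} (hw : Balanced T w) :
    ∫ s in (0:ℝ)..(2 * π), ⟪w, φ s • T s⟫ ^ 2 ≤
      ∫ s in (0:ℝ)..(2 * π), ⟪w, φ' s • T s + φ s • T' s⟫ ^ 2 := by
  have hpi := pi_pos
  have hTc := hT.contT
  have hT'c := hT.cont
  have hφc := h.contφ
  have hφ'c := h.cont
  set x : ℝ → ℝ := fun s => ⟪w, φ s • T s⟫ with hx
  set x' : ℝ → ℝ := fun s => ⟪w, φ' s • T s + φ s • T' s⟫ with hx'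
  set f : ℝ → ℝ := fun s => ⟪w, T s⟫ with hf
  have hfc : Continuous f := by fun_prop
  have hxd : ∀ s, HasDerivAt x (x' s) s := by
    intro s
    have := (hasDerivAt_const s w).inner ℝ (hT.x_deriv h.deriv s)
    rw [inner_zero_left, add_zero] at this
    exact this
  have hx'c : Continuous x' := by fun_prop
  have hxc : Continuous x := by fun_prop
  have hfper : Function.Periodic f (2 * π) := fun s => by simp only [hf, hT.per s]
  have hxper : Function.Periodic x (2 * π) := fun s => by simp only [hx, hT.per s, h.per s]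
  have hx'per : Function.Periodic x' (2 * π) := fun s => by
    simp only [hx', hT.per s, h.per s, hT.per' s, h.per' s]
  have hxf : ∀ s, x s = φ s * f s := fun s => by simp only [hx, hf, real_inner_smul_right]
  have hz : ∀ s, f s = 0 → x s = 0 := fun s hs => by rw [hxf, hs, mul_zero]
  have hz' : ∀ s, -f s = 0 → x s = 0 := fun s hs => hz s (neg_eq_zero.1 hs)
  have hp : posM f ≤ π := by
    rw [posM_eq hfc]
    exact ENNReal.toReal_le_of_le_ofReal hpi.le hw.1
  have hn : posM (fun s => - f s) ≤ π := by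
    rw [posM_eq (f := fun s => - f s) hfc.neg]
    apply ENNReal.toReal_le_of_le_ofReal hpi.le
    have : {s | 0 < - f s} = {s | ⟪w, T s⟫ < 0} := by
      ext s
      simp only [hf, Set.mem_ofPred_eq, Left.neg_pos_iff]
    rw [this]
    exact hw.2
  -- a zero of `f`
  have hfull : volume (Ioc (0:ℝ) (2 * π)) = ENNReal.ofReal (2 * π) := by
    rw [Real.volume_Ioc, sub_zero]
  have hlt : ENNReal.ofReal π < ENNReal.ofReal (2 * π) :=
    (ENNReal.ofReal_lt_ofReal_iff (by positivity)).2 (by linarith)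
  obtain ⟨s₀, hs₀⟩ : ∃ s₀, f s₀ = 0 := by
    by_contra hcon
    push Not at hcon
    rcases lt_or_gt_of_ne (hcon 0) with h1 | h1
    · have hall : ∀ s, f s < 0 := by
        intro s
        by_contra h2
        push Not at h2
        obtain ⟨t, -, ht⟩ := intermediate_value_uIcc (a := 0) (b := s) (f := f) hfc.continuousOn
          (show (0:ℝ) ∈ uIcc (f 0) (f s) by rw [mem_uIcc]; exact Or.inl ⟨h1.le, h2⟩)
        exact hcon t ht
      have h3 : {s | ⟪w, T s⟫ < 0} ∩ Ioc 0 (2 * π) = Ioc 0 (2 * π) :=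
        inter_eq_right.2 fun s _ => hall s
      have := hw.2
      rw [h3, hfull] at this
      exact absurd this (not_le.2 hlt)
    · have hall : ∀ s, 0 < f s := by
        intro s
        by_contra h2
        push Not at h2
        obtain ⟨t, -, ht⟩ := intermediate_value_uIcc (a := 0) (b := s) (f := f) hfc.continuousOn
          (show (0:ℝ) ∈ uIcc (f 0) (f s) by rw [mem_uIcc]; exact Or.inr ⟨h2, h1.le⟩)
        exact hcon t ht
      have h3 : {s | 0 < ⟪w, T s⟫} ∩ Ioc 0 (2 * π) = Ioc 0 (2 * π) :=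
        inter_eq_right.2 fun s _ => hall s
      have := hw.1
      rw [h3, hfull] at this
      exact absurd this (not_le.2 hlt)
  have k1 := half_balanced hxd hx'c hfc hz hfper hxper hx'per hs₀ hp
  have k2 := half_balanced (f := fun s => - f s) hxd hx'c hfc.neg hz' (fun s => by simp only [hfper s])
    hxper hx'per (s₀ := s₀) (by simp only [hs₀, neg_zero]) hn
  have hfn : Continuous (fun s => - f s) := hfc.neg
  have hi : ∀ (g : ℝ → ℝ) (y : ℝ → ℝ), Continuous g → Continuous y →
      IntervalIntegrable ((posSet g).indicator (fun v => y v ^ 2)) volume 0 (2 * π) := fun g y hg hy =>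
    intervalIntegrable_indicator (measurableSet_posSet hg) (Continuous.intervalIntegrable (by fun_prop) _ _)
  have e1 : ∫ s in (0:ℝ)..(2 * π), x s ^ 2 =
      (∫ s in (0:ℝ)..(2 * π), (posSet f).indicator (fun v => x v ^ 2) s) +
      ∫ s in (0:ℝ)..(2 * π), (posSet (fun s => - f s)).indicator (fun v => x v ^ 2) s := by
    rw [← intervalIntegral.integral_add (hi f x hfc hxc) (hi (fun s => - f s) x hfn hxc)]
    apply intervalIntegral.integral_congr
    intro s _
    simp only [indicator, posSet, Set.mem_ofPred_eq]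
    rcases lt_trichotomy (f s) 0 with h1 | h1 | h1
    · rw [if_neg (not_lt.2 h1.le), if_pos (by linarith), zero_add]
    · rw [if_neg (by rw [h1]; exact lt_irrefl _), if_neg (by rw [h1]; simp), hz s h1]
      ring
    · rw [if_pos h1, if_neg (by linarith), add_zero]
  have e2 : (∫ s in (0:ℝ)..(2 * π), (posSet f).indicator (fun v => x' v ^ 2) s) +
      (∫ s in (0:ℝ)..(2 * π), (posSet (fun s => - f s)).indicator (fun v => x' v ^ 2) s) ≤
      ∫ s in (0:ℝ)..(2 * π), x' s ^ 2 := by
    rw [← intervalIntegral.integral_add (hi f x' hfc hx'c) (hi (fun s => - f s) x' hfn hx'c)]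
    apply intervalIntegral.integral_mono_on (by positivity) ((hi f x' hfc hx'c).add (hi (fun s => - f s) x' hfn hx'c))
      (Continuous.intervalIntegrable (by fun_prop) _ _)
    intro s _
    have h0 := sq_nonneg (x' s)
    simp only [indicator, posSet, Set.mem_ofPred_eq]
    rcases lt_trichotomy (f s) 0 with h1 | h1 | h1
    · rw [if_neg (not_lt.2 h1.le), if_pos (by linarith), zero_add]
    · rw [if_neg (by rw [h1]; exact lt_irrefl _), if_neg (by rw [h1]; simp)]
      linarith
    · rw [if_pos h1, if_neg (by linarith), add_zero]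
  linarith

/-- Tight frames of balanced directions. -/
theorem frame_ineq {T T' : ℝ → EuclideanSpace ℝ (Fin n)} (hT : Tangent T T')
    {ι : Type} [Fintype ι] (w : ι → EuclideanSpace ℝ (Fin n))
    (hfr : ∀ u : EuclideanSpace ℝ (Fin n), ∑ j, ⟪w j, u⟫ ^ 2 = ‖u‖ ^ 2)
    (hw : ∀ j, Balanced T (w j)) {φ φ' : ℝ → ℝ} (h : Adm φ φ') : 0 ≤ En T' φ φ' := by
  have hTc := hT.contT
  have hT'c := hT.cont
  have hφc := h.contφ
  have hφ'c := h.cont
  have h1 : ∀ j, 0 ≤ ∫ s in (0:ℝ)..(2 * π),
      (⟪w j, φ' s • T s + φ s • T' s⟫ ^ 2 - ⟪w j, φ s • T s⟫ ^ 2) := by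
    intro j
    rw [intervalIntegral.integral_sub (Continuous.intervalIntegrable (by fun_prop) _ _)
      (Continuous.intervalIntegrable (by fun_prop) _ _)]
    linarith [balanced_ineq hT h (hw j)]
  have h2 : En T' φ φ' = ∑ j, ∫ s in (0:ℝ)..(2 * π),
      (⟪w j, φ' s • T s + φ s • T' s⟫ ^ 2 - ⟪w j, φ s • T s⟫ ^ 2) := by
    rw [En_eq hT h, ← intervalIntegral.integral_finsetSum]
    · apply intervalIntegral.integral_congr
      intro s _
      simp only
      rw [← hfr, ← hfr, Finset.sum_sub_distrib]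
    · intro j _
      exact Continuous.intervalIntegrable (by fun_prop) _ _
  rw [h2]
  exact Finset.sum_nonneg fun j _ => h1 j

/-! ### Shifts and the conclusion for smooth functions -/

lemma Tangent.shift {T T' : ℝ → EuclideanSpace ℝ (Fin n)} (hT : Tangent T T') (c : ℝ) :
    Tangent (fun s => T (c + s)) (fun s => T' (c + s)) := by
  have hTc := hT.contT
  have hT'c := hT.cont
  refine ⟨?_, by fun_prop, ?_, ?_, fun s => hT.unit _, ?_⟩
  · intro s
    have h1 : HasDerivAt (fun t : ℝ => c + t) 1 s := by simpa using (hasDerivAt_id s).const_add c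
    have := (hT.hderiv (c + s)).scomp s h1
    rw [one_smul] at this
    exact this
  · intro s
    simp only [← add_assoc]
    exact hT.per _
  · intro s
    simp only [← add_assoc]
    exact hT.per' _
  · intro e
    have h1 := intervalIntegral.integral_comp_add_left (a := 0) (b := 2 * π)
      (fun s => ⟪T s, e⟫) c
    rw [h1, add_zero]
    have hp : Function.Periodic (fun s => ⟪T s, e⟫) (2 * π) := fun s => by simp only [hT.per s]
    rw [hp.intervalIntegral_add_eq c 0, zero_add]
    exact hT.closed e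

lemma Adm.shift {φ φ' : ℝ → ℝ} (h : Adm φ φ') (c : ℝ) :
    Adm (fun s => φ (c + s)) (fun s => φ' (c + s)) := by
  have hφc := h.contφ
  have hφ'c := h.cont
  refine ⟨?_, by fun_prop, ?_, ?_⟩
  · intro s
    have h1 : HasDerivAt (fun t : ℝ => c + t) 1 s := by simpa using (hasDerivAt_id s).const_add c
    have := HasDerivAt.comp s (h.deriv (c + s)) h1
    rw [mul_one] at this
    exact this
  · intro s
    simp only [← add_assoc]
    exact h.per _
  · intro s
    simp only [← add_assoc]
    exact h.per' _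

lemma En_shift {T T' : ℝ → EuclideanSpace ℝ (Fin n)} (hT : Tangent T T') {φ φ' : ℝ → ℝ}
    (h : Adm φ φ') (c : ℝ) :
    En (fun s => T' (c + s)) (fun s => φ (c + s)) (fun s => φ' (c + s)) = En T' φ φ' := by
  rw [En, En]
  have hp : Function.Periodic (fun s => φ' s ^ 2 + ‖T' s‖ ^ 2 * φ s ^ 2 - φ s ^ 2) (2 * π) := by
    intro s
    simp only [h.per s, h.per' s, hT.per' s]
  have h1 := intervalIntegral.integral_comp_add_left (a := 0) (b := 2 * π)
      (fun s => φ' s ^ 2 + ‖T' s‖ ^ 2 * φ s ^ 2 - φ s ^ 2) c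
  rw [h1, add_zero, hp.intervalIntegral_add_eq c 0, zero_add]

lemma adm_of_smooth {φ : ℝ → ℝ} (hφ : ContDiff ℝ ∞ φ) (hper : Function.Periodic φ (2 * π)) :
    Adm φ (deriv φ) := by
  have h1 : ContDiff ℝ ∞ (deriv φ) := (contDiff_infty_iff_deriv.1 hφ).2
  refine ⟨fun s => (hφ.differentiable (by simp) s).hasDerivAt, h1.continuous, hper, ?_⟩
  intro s
  rw [← deriv_comp_add_const]
  congr 1
  ext r : 1
  exact hper r

lemma conclude {T' : ℝ → EuclideanSpace ℝ (Fin n)} (hT' : Continuous T') {φ φ' : ℝ → ℝ}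
    (h : Adm φ φ') (hE : 0 ≤ En T' φ φ') :
    (∫ s in (0:ℝ)..(2 * π), φ s ^ 2) ≤
      ∫ s in (0:ℝ)..(2 * π), (φ' s ^ 2 + ‖T' s‖ ^ 2 * φ s ^ 2) := by
  have hφc := h.contφ
  have hφ'c := h.cont
  rw [En, intervalIntegral.integral_sub (Continuous.intervalIntegrable (by fun_prop) _ _)
    (Continuous.intervalIntegrable (by fun_prop) _ _)] at hE
  linarith

end Pool.Agent.MP_2801bd_mp
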