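import Pool.Agent.Lib.MP_2801bd_mp.Defs
import Mathlib.Topology.ContinuousMap.Bounded.ArzelaAscoli
import Mathlib.MeasureTheory.Function.L2Space
import Mathlib.Analysis.InnerProductSpace.Dual
import Mathlib.Analysis.Normed.Module.WeakDual
import Mathlib.MeasureTheory.Integral.IntervalIntegral.Periodic
import Mathlib.Order.Filter.Ultrafilter.Basic

/-!
# MP_2801bd_mp: compactness of bounded sequences of `H¹` loops
-/

open MeasureTheory Set

namespace Ovals2801

theorem cmp_pi_pos : (0 : ℝ) < 2 * Real.pi := Real.two_pi_pos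

/-- The measure on one period. -/
noncomputable abbrev cmpMu : Measure ℝ := volume.restrict (Ioc (0:ℝ) (2 * Real.pi))

theorem cmp_memLp {ψ g : ℝ → E4} (h : H1Loop ψ g) : MemLp g 2 cmpMu := by
  rw [memLp_two_iff_integrable_sq_norm h.meas.restrict]
  exact (intervalIntegrable_iff_integrableOn_Ioc_of_le cmp_pi_pos.le).1 h.sq

theorem cmp_dir_eq (g : ℝ → E4) : Dir g = ∫ s, ‖g s‖ ^ 2 ∂cmpMu := by
  rw [Dir, intervalIntegral.integral_of_le cmp_pi_pos.le]

theorem cmp_dir_nonneg (g : ℝ → E4) : 0 ≤ Dir g := by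
  rw [cmp_dir_eq]
  exact integral_nonneg fun s => by positivity

theorem cmp_int {ψ g : ℝ → E4} (h : H1Loop ψ g) : Integrable g cmpMu :=
  (cmp_memLp h).integrable one_le_two

/-- The basic estimate. -/
theorem cmp_est {ψ g : ℝ → E4} (h : H1Loop ψ g) {a b : ℝ} (ha : 0 ≤ a) (hab : a ≤ b)
    (hb : b ≤ 2 * Real.pi) {lam : ℝ} (hl : 0 < lam) :
    ‖ψ b - ψ a‖ ≤ (lam * Dir g + (b - a) / lam) / 2 := by
  have hsub : Ioc a b ⊆ Ioc 0 (2 * Real.pi) := Ioc_subset_Ioc ha hb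
  have hg2 : IntegrableOn (fun s => ‖g s‖ ^ 2) (Ioc 0 (2 * Real.pi)) :=
    (intervalIntegrable_iff_integrableOn_Ioc_of_le cmp_pi_pos.le).1 h.sq
  have hg1 : IntegrableOn g (Ioc a b) := (cmp_int h).mono_measure (Measure.restrict_mono hsub le_rfl)
  rw [h.ftc a b, intervalIntegral.integral_of_le hab]
  have hc : IntegrableOn (fun _ : ℝ => (1 / lam) / 2) (Ioc a b) :=
    integrableOn_const (by simp)
  have hs : IntegrableOn (fun s => (lam / 2) * ‖g s‖ ^ 2) (Ioc a b) :=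
    (hg2.mono_set hsub).const_mul _
  calc ‖∫ s in Ioc a b, g s‖ ≤ ∫ s in Ioc a b, ‖g s‖ := norm_integral_le_integral_norm _
    _ ≤ ∫ s in Ioc a b, ((lam / 2) * ‖g s‖ ^ 2 + (1 / lam) / 2) := by
        refine integral_mono hg1.norm (hs.add hc) ?_
        intro s
        show ‖g s‖ ≤ (lam / 2) * ‖g s‖ ^ 2 + (1 / lam) / 2
        have hsq : 0 ≤ (lam * ‖g s‖ - 1) ^ 2 := sq_nonneg _
        have : (lam / 2) * ‖g s‖ ^ 2 + (1 / lam) / 2 - ‖g s‖ = (lam * ‖g s‖ - 1) ^ 2 / (2 * lam) := by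
          field_simp
          ring
        have h2 : 0 ≤ (lam * ‖g s‖ - 1) ^ 2 / (2 * lam) := by positivity
        linarith
    _ = (lam / 2) * (∫ s in Ioc a b, ‖g s‖ ^ 2) + (b - a) * ((1 / lam) / 2) := by
        rw [integral_add hs hc, integral_const_mul, setIntegral_const, smul_eq_mul]
        simp [hab]
    _ ≤ (lam / 2) * Dir g + (b - a) * ((1 / lam) / 2) := by
        have : (∫ s in Ioc a b, ‖g s‖ ^ 2) ≤ Dir g := by
          rw [cmp_dir_eq]
          exact setIntegral_mono_set hg2 (Filter.Eventually.of_forall fun s => by positivity)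
            (LE.le.eventuallyLE hsub)
        have h3 := mul_le_mul_of_nonneg_left this (by positivity : 0 ≤ lam / 2)
        linarith
    _ = _ := by ring

theorem cmp_est' {ψ g : ℝ → E4} (h : H1Loop ψ g) {a b : ℝ} (ha : a ∈ Icc (0:ℝ) (2 * Real.pi))
    (hb : b ∈ Icc (0:ℝ) (2 * Real.pi)) {lam : ℝ} (hl : 0 < lam) :
    ‖ψ b - ψ a‖ ≤ (lam * Dir g + |b - a| / lam) / 2 := by
  rcases le_total a b with hab | hab
  · rw [abs_of_nonneg (by linarith)]
    exact cmp_est h ha.1 hab hb.2 hl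
  · rw [norm_sub_rev, abs_sub_comm, abs_of_nonneg (by linarith)]
    exact cmp_est h hb.1 hab ha.2 hl

theorem cmp_continuousOn {ψ g : ℝ → E4} (h : H1Loop ψ g) :
    ContinuousOn ψ (Icc 0 (2 * Real.pi)) := by
  rw [Metric.continuousOn_iff]
  intro a ha ε hε
  have hD : 0 < Dir g + 1 := by linarith [cmp_dir_nonneg g]
  have hlam : 0 < ε / (Dir g + 1) := by positivity
  refine ⟨ε / (Dir g + 1) * ε, by positivity, ?_⟩
  intro b hb hba
  rw [dist_eq_norm]
  rw [Real.dist_eq] at hba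
  have h1 := cmp_est' h ha hb hlam
  have h2 : ε / (Dir g + 1) * Dir g ≤ ε := by
    rw [div_mul_eq_mul_div, div_le_iff₀ hD]
    nlinarith
  have h3 : |b - a| / (ε / (Dir g + 1)) < ε := by
    rw [div_lt_iff₀ hlam]
    linarith
  linarith

theorem cmp_bound {ψ g : ℝ → E4} (h : H1Loop ψ g) (hM : Mass ψ = 1) {s : ℝ}
    (hs : s ∈ Icc (0:ℝ) (2 * Real.pi)) : ‖ψ s‖ ≤ 1 + (Dir g + 2 * Real.pi) / 2 := by
  by_contra hcon
  push Not at hcon
  have hall : ∀ t ∈ Icc (0:ℝ) (2 * Real.pi), 1 ≤ ‖ψ t‖ ^ 2 := by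
    intro t ht
    have h1 := cmp_est' h ht hs one_pos
    have h2 : |s - t| ≤ 2 * Real.pi := by
      rw [abs_le]; constructor <;> linarith [hs.1, hs.2, ht.1, ht.2]
    have h3 : ‖ψ s‖ ≤ ‖ψ t‖ + ‖ψ s - ψ t‖ := by
      have := norm_add_le (ψ t) (ψ s - ψ t)
      rwa [add_sub_cancel] at this
    have h4 : 1 ≤ ‖ψ t‖ := by
      simp only [one_mul, div_one] at h1
      linarith
    nlinarith
  have hci : IntervalIntegrable (fun s => ‖ψ s‖ ^ 2) volume 0 (2 * Real.pi) := by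
    apply ContinuousOn.intervalIntegrable
    rw [uIcc_of_le cmp_pi_pos.le]
    exact (cmp_continuousOn h).norm.pow 2
  have h5 : (∫ _ in (0:ℝ)..(2 * Real.pi), (1:ℝ)) ≤ Mass ψ :=
    intervalIntegral.integral_mono_on cmp_pi_pos.le intervalIntegrable_const hci hall
  rw [hM, intervalIntegral.integral_const, smul_eq_mul, mul_one, sub_zero] at h5
  linarith [Real.two_le_pi]

/-- The restriction to a period as a bounded continuous function. -/
noncomputable def cmpF {ψ g : ℝ → E4} (h : H1Loop ψ g) :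
    BoundedContinuousFunction (Icc (0:ℝ) (2 * Real.pi)) E4 :=
  BoundedContinuousFunction.mkOfCompact
    ⟨fun s => ψ s, (continuousOn_iff_continuous_domRestrict.1 (cmp_continuousOn h))⟩

theorem cmpF_apply {ψ g : ℝ → E4} (h : H1Loop ψ g) (s : Icc (0:ℝ) (2 * Real.pi)) :
    cmpF h s = ψ s := rfl

theorem cmp_mod {ψ : ℝ → E4} (hψ : Function.Periodic ψ (2 * Real.pi)) (s : ℝ) :
    ψ (toIcoMod cmp_pi_pos 0 s) = ψ s := by
  rw [← self_sub_toIcoDiv_zsmul]
  exact hψ.sub_zsmul_eq _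

theorem cmp_uniform {ψ g : ℕ → ℝ → E4} (h : ∀ n, H1Loop (ψ n) (g n)) {C : ℝ}
    (hD : ∀ n, Dir (g n) ≤ C) (hM : ∀ n, Mass (ψ n) = 1) :
    ∃ (φ : ℕ → ℕ) (ψ' : ℝ → E4), StrictMono φ ∧
      TendstoUniformly (fun n => ψ (φ n)) ψ' Filter.atTop := by
  have hC : 0 ≤ C := (cmp_dir_nonneg _).trans (hD 0)
  set R : ℝ := 1 + (C + 2 * Real.pi) / 2 with hR
  set A : Set (BoundedContinuousFunction (Icc (0:ℝ) (2 * Real.pi)) E4) :=
    range (fun n => cmpF (h n)) with hA
  have hcomp : IsCompact (closure A) := by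
    refine BoundedContinuousFunction.arzela_ascoli (Metric.closedBall 0 R)
      (isCompact_closedBall 0 R) A ?_ ?_
    · rintro f x ⟨n, rfl⟩
      rw [mem_closedBall_zero_iff, cmpF_apply]
      refine (cmp_bound (h n) (hM n) x.2).trans ?_
      have := hD n
      rw [hR]
      linarith
    · intro x₀
      rw [Metric.equicontinuousAt_iff]
      intro ε hε
      have hD' : 0 < C + 1 := by linarith
      have hlam : 0 < ε / (C + 1) := by positivity
      refine ⟨ε / (C + 1) * ε, by positivity, ?_⟩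
      rintro x hx ⟨f, n, rfl⟩
      show dist (cmpF (h n) x₀) (cmpF (h n) x) < ε
      rw [cmpF_apply, cmpF_apply, dist_comm, dist_eq_norm]
      rw [Subtype.dist_eq, Real.dist_eq] at hx
      have h1 := cmp_est' (h n) x₀.2 x.2 hlam
      have h2 : ε / (C + 1) * Dir (g n) ≤ ε := by
        rw [div_mul_eq_mul_div, div_le_iff₀ hD']
        nlinarith [hD n]
      have h3 : |(x:ℝ) - x₀| / (ε / (C + 1)) < ε := by
        rw [div_lt_iff₀ hlam]
        linarith
      linarith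
  obtain ⟨F, -, φ, hφ, hF⟩ := hcomp.tendsto_subseq
    (x := fun n => cmpF (h n)) fun n => subset_closure (mem_range_self n)
  rw [BoundedContinuousFunction.tendsto_iff_tendstoUniformly, Metric.tendstoUniformly_iff] at hF
  have hmem : ∀ s : ℝ, toIcoMod cmp_pi_pos 0 s ∈ Icc (0:ℝ) (2 * Real.pi) := fun s =>
    Ico_subset_Icc_self (toIcoMod_mem_Ico' cmp_pi_pos s)
  refine ⟨φ, fun s => F ⟨toIcoMod cmp_pi_pos 0 s, hmem s⟩, hφ, ?_⟩
  rw [Metric.tendstoUniformly_iff]
  intro ε hε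
  filter_upwards [hF ε hε] with n hn s
  have := hn ⟨toIcoMod cmp_pi_pos 0 s, hmem s⟩
  rw [Function.comp, cmpF_apply] at this
  rwa [cmp_mod (h (φ n)).per] at this

/-- Weak limits. -/
theorem cmp_weak {ψ g : ℕ → ℝ → E4} (h : ∀ n, H1Loop (ψ n) (g n)) {C : ℝ}
    (hD : ∀ n, Dir (g n) ≤ C) {ψ' : ℝ → E4}
    (hψ : ∀ s, Filter.Tendsto (fun n => ψ n s) Filter.atTop (nhds (ψ' s))) :
    ∃ G : Lp E4 2 cmpMu, (∀ a b : ℝ, 0 ≤ a → a ≤ b → b ≤ 2 * Real.pi →
      ψ' b - ψ' a = ∫ s in Ioc a b, G s) ∧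
      (∀ A : ℝ, Filter.Tendsto (fun n => Dir (g n)) Filter.atTop (nhds A) →
        (∫ s, ‖G s‖ ^ 2 ∂cmpMu) ≤ A) := by
  have hC : 0 ≤ C := (cmp_dir_nonneg _).trans (hD 0)
  set Gn : ℕ → Lp E4 2 cmpMu := fun n => (cmp_memLp (h n)).toLp (g n) with hGn
  have hcoe : ∀ n, (Gn n : ℝ → E4) =ᵐ[cmpMu] g n := fun n => MemLp.coeFn_toLp _
  have hsq : ∀ F : Lp E4 2 cmpMu, ‖F‖ ^ 2 = ∫ s, ‖F s‖ ^ 2 ∂cmpMu := by
    intro F
    rw [← real_inner_self_eq_norm_sq, L2.inner_def]
    refine integral_congr_ae (Filter.Eventually.of_forall fun s => ?_)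
    exact real_inner_self_eq_norm_sq (F s)
  have hnorm : ∀ n, ‖Gn n‖ ^ 2 = Dir (g n) := by
    intro n
    rw [hsq, cmp_dir_eq]
    refine integral_congr_ae ((hcoe n).mono fun s hs => ?_)
    simp only [hs]
  have hle : ∀ n, ‖Gn n‖ ≤ Real.sqrt C := by
    intro n
    apply Real.le_sqrt_of_sq_le
    rw [hnorm]
    exact hD n
  set u : ℕ → WeakDual ℝ (Lp E4 2 cmpMu) := fun n =>
    StrongDual.toWeakDual (InnerProductSpace.toDual ℝ (Lp E4 2 cmpMu) (Gn n)) with hu
  have hK := WeakDual.isCompact_closedBall (0 : StrongDual ℝ (Lp E4 2 cmpMu)) (Real.sqrt C)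
  have huK : ∀ n, u n ∈ WeakDual.toStrongDual ⁻¹'
      (Metric.closedBall (0 : StrongDual ℝ (Lp E4 2 cmpMu)) (Real.sqrt C)) := by
    intro n
    rw [mem_preimage, mem_closedBall_zero_iff]
    show ‖InnerProductSpace.toDual ℝ (Lp E4 2 cmpMu) (Gn n)‖ ≤ _
    rw [LinearIsometryEquiv.norm_map]
    exact hle n
  obtain ⟨x, hxK, hx⟩ := hK.ultrafilter_le_nhds ((Filter.hyperfilter ℕ).map u) (by
    rw [Filter.le_principal_iff, Ultrafilter.mem_coe, Ultrafilter.mem_map]
    exact Filter.univ_mem' huK)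
  have htend : Filter.Tendsto u (Filter.hyperfilter ℕ : Filter ℕ) (nhds x) := by
    rw [Filter.Tendsto, ← Ultrafilter.coe_map]
    exact hx
  have hev : ∀ F : Lp E4 2 cmpMu, Filter.Tendsto (fun n => inner ℝ (Gn n) F)
      (Filter.hyperfilter ℕ : Filter ℕ) (nhds (x F)) := by
    intro F
    exact ((WeakDual.eval_continuous F).tendsto x).comp htend
  set G : Lp E4 2 cmpMu :=
    (InnerProductSpace.toDual ℝ (Lp E4 2 cmpMu)).symm (WeakDual.toStrongDual x) with hG
  have hGx : ∀ F : Lp E4 2 cmpMu, inner ℝ G F = x F := fun F =>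
    InnerProductSpace.toDual_symm_apply
  refine ⟨G, ?_, ?_⟩
  · intro a b ha hab hb
    have hsub : Ioc a b ⊆ Ioc 0 (2 * Real.pi) := Ioc_subset_Ioc ha hb
    have hres : cmpMu.restrict (Ioc a b) = volume.restrict (Ioc a b) := by
      rw [Measure.restrict_restrict measurableSet_Ioc, inter_eq_left.2 hsub]
    have hfin : cmpMu (Ioc a b) ≠ ⊤ := measure_ne_top _ _
    apply ext_inner_left ℝ
    intro c
    have h1 : Filter.Tendsto (fun n => inner ℝ c (ψ n b - ψ n a))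
        (Filter.hyperfilter ℕ : Filter ℕ) (nhds (inner ℝ c (ψ' b - ψ' a))) :=
      (Filter.Tendsto.inner tendsto_const_nhds ((hψ b).sub (hψ a))).mono_left
        Nat.hyperfilter_le_atTop
    have h2 := hev (indicatorConstLp 2 measurableSet_Ioc hfin c)
    have h3 : ∀ n, inner ℝ (Gn n) (indicatorConstLp 2 measurableSet_Ioc hfin c) =
        inner ℝ c (ψ n b - ψ n a) := by
      intro n
      rw [real_inner_comm, L2.inner_indicatorConstLp_eq_inner_setIntegral ℝ measurableSet_Ioc hfin,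
        hres, (h n).ftc a b, intervalIntegral.integral_of_le hab]
      congr 1
      rw [← hres]
      exact integral_congr_ae (ae_restrict_of_ae (hcoe n))
    simp_rw [h3] at h2
    have h4 := tendsto_nhds_unique h1 h2
    rw [h4, ← hGx, real_inner_comm,
      L2.inner_indicatorConstLp_eq_inner_setIntegral ℝ measurableSet_Ioc hfin, hres]
  · intro A hA
    have hA0 : 0 ≤ A := ge_of_tendsto' hA fun n => cmp_dir_nonneg _
    rw [← hsq]
    have h1 : Filter.Tendsto (fun n => ‖Gn n‖ * ‖G‖) (Filter.hyperfilter ℕ : Filter ℕ)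
        (nhds (Real.sqrt A * ‖G‖)) := by
      refine Filter.Tendsto.mul_const _ ?_
      have h2 : ∀ n, ‖Gn n‖ = Real.sqrt (Dir (g n)) := by
        intro n
        rw [← hnorm, Real.sqrt_sq (norm_nonneg _)]
      simp_rw [h2]
      exact ((Real.continuous_sqrt.tendsto A).comp hA).mono_left Nat.hyperfilter_le_atTop
    have h3 : x G ≤ Real.sqrt A * ‖G‖ :=
      le_of_tendsto_of_tendsto' (hev G) h1 fun n => real_inner_le_norm _ _
    rw [← hGx, real_inner_self_eq_norm_sq] at h3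
    have h4 : ‖G‖ ≤ Real.sqrt A := by
      rcases (norm_nonneg G).eq_or_lt with h5 | h5
      · rw [← h5]; exact Real.sqrt_nonneg _
      · rw [sq] at h3
        exact le_of_mul_le_mul_right h3 h5
    calc ‖G‖ ^ 2 ≤ Real.sqrt A ^ 2 := pow_le_pow_left₀ (norm_nonneg _) h4 2
      _ = A := Real.sq_sqrt hA0

/-- The periodic extension of a function. -/
noncomputable def cmpExt (G : ℝ → E4) : ℝ → E4 := fun s => G (toIocMod cmp_pi_pos 0 s)

theorem cmpExt_of_mem (G : ℝ → E4) {s : ℝ} (hs : s ∈ Ioc (0:ℝ) (2 * Real.pi)) :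
    cmpExt G s = G s := by
  rw [cmpExt, (toIocMod_eq_self cmp_pi_pos).2 (by simpa using hs)]

theorem cmpExt_periodic (G : ℝ → E4) : Function.Periodic (cmpExt G) (2 * Real.pi) := by
  intro s
  rw [cmpExt, cmpExt, toIocMod_add_right]

theorem cmpExt_measurable {G : ℝ → E4} (hG : StronglyMeasurable G) :
    StronglyMeasurable (cmpExt G) := by
  have : Fact ((0:ℝ) < 2 * Real.pi) := ⟨cmp_pi_pos⟩
  have h1 : Measurable (fun s : ℝ => toIocMod cmp_pi_pos 0 s) := by
    have h2 : Measurable (fun s : ℝ =>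
        ((AddCircle.measurableEquivIoc (2 * Real.pi) 0 (s : AddCircle (2 * Real.pi)) :
          Ioc (0:ℝ) (0 + 2 * Real.pi)) : ℝ)) :=
      measurable_subtype_coe.comp ((AddCircle.measurableEquivIoc (2 * Real.pi) 0).measurable.comp
        AddCircle.measurable_mk')
    exact h2
  exact hG.comp_measurable h1

/-- M1b. Compactness. -/
theorem compactness {ψ g : ℕ → ℝ → E4} (h : ∀ n, H1Loop (ψ n) (g n)) {C : ℝ}
    (hD : ∀ n, Dir (g n) ≤ C) (hM : ∀ n, Mass (ψ n) = 1) :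
    ∃ (φ : ℕ → ℕ) (ψ' g' : ℝ → E4), StrictMono φ ∧ H1Loop ψ' g' ∧
      TendstoUniformly (fun n => ψ (φ n)) ψ' Filter.atTop ∧
      (∀ A : ℝ, Filter.Tendsto (fun n => Dir (g n)) Filter.atTop (nhds A) → Dir g' ≤ A) := by
  obtain ⟨φ, ψ', hφ, hψ'⟩ := cmp_uniform h hD hM
  have hpt : ∀ s, Filter.Tendsto (fun n => ψ (φ n) s) Filter.atTop (nhds (ψ' s)) := fun s =>
    hψ'.tendsto_at s
  obtain ⟨G, hG1, hG2⟩ := cmp_weak (fun n => h (φ n)) (fun n => hD (φ n)) hpt
  have hper : Function.Periodic ψ' (2 * Real.pi) := by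
    intro s
    refine tendsto_nhds_unique (hpt (s + 2 * Real.pi)) ?_
    refine (hpt s).congr fun n => ?_
    exact ((h (φ n)).per s).symm
  have hgper := cmpExt_periodic (G : ℝ → E4)
  have hGsq : Integrable (fun s => ‖G s‖ ^ 2) cmpMu :=
    (memLp_two_iff_integrable_sq_norm (Lp.aestronglyMeasurable G)).1 (Lp.memLp G)
  have hGi : Integrable (fun s => G s) cmpMu := (Lp.memLp G).integrable one_le_two
  have hae : ∀ s ∈ Ioc (0:ℝ) (2 * Real.pi), cmpExt (G : ℝ → E4) s = G s := fun s hs =>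
    cmpExt_of_mem _ hs
  have hg'i : IntervalIntegrable (cmpExt (G : ℝ → E4)) volume 0 (2 * Real.pi) := by
    rw [intervalIntegrable_iff_integrableOn_Ioc_of_le cmp_pi_pos.le]
    exact (integrableOn_congr_fun hae measurableSet_Ioc).2 hGi
  have hint : ∀ a b : ℝ, IntervalIntegrable (cmpExt (G : ℝ → E4)) volume a b := fun a b =>
    hgper.intervalIntegrable₀ cmp_pi_pos.ne' hg'i a b
  have hbase : ∀ b ∈ Icc (0:ℝ) (2 * Real.pi), ψ' b - ψ' 0 = ∫ s in (0:ℝ)..b, cmpExt (G : ℝ → E4) s := by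
    intro b hb
    rw [hG1 0 b le_rfl hb.1 hb.2, intervalIntegral.integral_of_le hb.1]
    refine setIntegral_congr_fun measurableSet_Ioc fun s hs => ?_
    exact (hae s ⟨hs.1, hs.2.trans hb.2⟩).symm
  have hperiod : ∀ s : ℝ, ∫ t in s..(s + 2 * Real.pi), cmpExt (G : ℝ → E4) t = 0 := by
    intro s
    rw [hgper.intervalIntegral_add_eq s 0, zero_add, ← hbase _ ⟨cmp_pi_pos.le, le_rfl⟩]
    have := hper 0
    rw [zero_add] at this
    rw [this, sub_self]
  have hFper : Function.Periodic (fun s => ψ' s - ψ' 0 - ∫ t in (0:ℝ)..s, cmpExt (G : ℝ → E4) t)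
      (2 * Real.pi) := by
    intro s
    show ψ' (s + 2 * Real.pi) - ψ' 0 - (∫ t in (0:ℝ)..(s + 2 * Real.pi), cmpExt (G : ℝ → E4) t) = _
    rw [hper s, ← intervalIntegral.integral_add_adjacent_intervals (hint 0 s)
      (hint s (s + 2 * Real.pi)), hperiod s, add_zero]
  have hF0 : ∀ s : ℝ, ψ' s - ψ' 0 - (∫ t in (0:ℝ)..s, cmpExt (G : ℝ → E4) t) = 0 := by
    intro s
    have h1 := hFper.sub_zsmul_eq (x := s) (toIcoDiv cmp_pi_pos 0 s)
    rw [self_sub_toIcoDiv_zsmul] at h1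
    have h2 : toIcoMod cmp_pi_pos 0 s ∈ Icc (0:ℝ) (2 * Real.pi) :=
      Ico_subset_Icc_self (toIcoMod_mem_Ico' cmp_pi_pos s)
    have h3 := hbase _ h2
    rw [← h1, h3, sub_self]
  have hftc : ∀ a b : ℝ, ψ' b - ψ' a = ∫ s in a..b, cmpExt (G : ℝ → E4) s := by
    intro a b
    have h1 := hF0 a
    have h2 := hF0 b
    have h3 := intervalIntegral.integral_interval_sub_left (hint 0 b) (hint 0 a)
    rw [← h3]
    have e1 : (∫ t in (0:ℝ)..a, cmpExt (G : ℝ → E4) t) = ψ' a - ψ' 0 := (sub_eq_zero.1 h1).symm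
    have e2 : (∫ t in (0:ℝ)..b, cmpExt (G : ℝ → E4) t) = ψ' b - ψ' 0 := (sub_eq_zero.1 h2).symm
    rw [e1, e2]
    abel
  refine ⟨φ, ψ', cmpExt G, hφ, ⟨hper, hgper, ?_, ?_, hftc⟩, hψ', ?_⟩
  · exact (cmpExt_measurable (Lp.stronglyMeasurable G)).aestronglyMeasurable
  · rw [intervalIntegrable_iff_integrableOn_Ioc_of_le cmp_pi_pos.le]
    refine (integrableOn_congr_fun (fun s hs => ?_) measurableSet_Ioc).2 hGsq
    simp only [hae s hs]
  · intro A hA
    have h1 := hG2 A (hA.comp hφ.tendsto_atTop)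
    rw [cmp_dir_eq]
    refine le_trans (le_of_eq ?_) h1
    refine setIntegral_congr_fun measurableSet_Ioc fun s hs => ?_
    simp only [hae s hs]

end Ovals2801
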