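import Pool.Agent.Lib.MP_2801bd_mp.Star
import Pool.Agent.Lib.Ovals46.Wirtinger

/-!
# Consequences of a negative energy
-/

set_option autoImplicit false

open Real MeasureTheory intervalIntegral Set Filter Topology
open scoped ContDiff RealInnerProductSpace

namespace Pool.Agent.MP_2801bd_mp

variable {n : ℕ}

/-- Admissible test functions. -/
structure Adm (φ φ' : ℝ → ℝ) : Prop where
  deriv : ∀ s, HasDerivAt φ (φ' s) s
  cont : Continuous φ'
  per : Function.Periodic φ (2 * π)
  per' : Function.Periodic φ' (2 * π)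

lemma Adm.contφ {φ φ' : ℝ → ℝ} (h : Adm φ φ') : Continuous φ :=
  continuous_iff_continuousAt.2 fun s => (h.deriv s).continuousAt

/-- The energy. -/
noncomputable def En (T' : ℝ → EuclideanSpace ℝ (Fin n)) (φ φ' : ℝ → ℝ) : ℝ :=
  ∫ s in (0:ℝ)..(2 * π), (φ' s ^ 2 + ‖T' s‖ ^ 2 * φ s ^ 2 - φ s ^ 2)

/-- A function with negative energy can be replaced by a positive one. -/
lemma exists_pos {T' : ℝ → EuclideanSpace ℝ (Fin n)} (hT' : Continuous T') {φ φ' : ℝ → ℝ}
    (h : Adm φ φ') (hneg : En T' φ φ' < 0) :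
    ∃ ψ ψ' : ℝ → ℝ, Adm ψ ψ' ∧ (∀ s, 0 < ψ s) ∧ En T' ψ ψ' < 0 := by
  have hφc := h.contφ
  have hφ'c := h.cont
  set C := ∫ s in (0:ℝ)..(2 * π), ‖T' s‖ ^ 2 with hC
  have hC0 : 0 ≤ C := intervalIntegral.integral_nonneg (by positivity) (fun s _ => by positivity)
  set δ : ℝ := - En T' φ φ' / (2 * (C + 1)) with hδ
  have hδpos : 0 < δ := by
    apply div_pos <;> linarith
  have hpos : ∀ s, 0 < φ s ^ 2 + δ := fun s => by positivity
  set ψ : ℝ → ℝ := fun s => Real.sqrt (φ s ^ 2 + δ) with hψ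
  set ψ' : ℝ → ℝ := fun s => φ s * φ' s / Real.sqrt (φ s ^ 2 + δ) with hψ'
  have hsq : ∀ s, 0 < Real.sqrt (φ s ^ 2 + δ) := fun s => Real.sqrt_pos.2 (hpos s)
  have hadm : Adm ψ ψ' := by
    refine ⟨?_, ?_, ?_, ?_⟩
    · intro s
      have h1 : HasDerivAt (fun s => φ s ^ 2 + δ) (2 * φ s * φ' s) s := by
        have := ((h.deriv s).pow 2).add_const δ
        refine this.congr_deriv ?_
        push_cast
        ring
      have h2 := h1.sqrt (hpos s).ne'
      refine h2.congr_deriv ?_
      simp only [hψ']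
      field_simp
    · have : Continuous (fun s => Real.sqrt (φ s ^ 2 + δ)) := by fun_prop
      exact (hφc.mul hφ'c).div this (fun s => (hsq s).ne')
    · intro s
      simp only [hψ, h.per s]
    · intro s
      simp only [hψ', h.per s, h.per' s]
  refine ⟨ψ, ψ', hadm, hsq, ?_⟩
  have hψc := hadm.contφ
  have hψ'c := hadm.cont
  have hle : En T' ψ ψ' ≤ En T' φ φ' + δ * C := by
    rw [En, En, hC, ← intervalIntegral.integral_const_mul, ← intervalIntegral.integral_add]
    · apply intervalIntegral.integral_mono_on (by positivity)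
      · exact Continuous.intervalIntegrable (by fun_prop) _ _
      · exact Continuous.intervalIntegrable (by fun_prop) _ _
      · intro s _
        have h1 : ψ s ^ 2 = φ s ^ 2 + δ := Real.sq_sqrt (hpos s).le
        have h2 : ψ' s ^ 2 ≤ φ' s ^ 2 := by
          simp only [hψ']
          rw [div_pow, Real.sq_sqrt (hpos s).le, div_le_iff₀ (hpos s)]
          nlinarith [sq_nonneg (φ' s)]
        rw [h1]
        nlinarith
    · exact Continuous.intervalIntegrable (by fun_prop) _ _
    · exact Continuous.intervalIntegrable (by fun_prop) _ _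
  have h3 : δ * C < - En T' φ φ' := by
    rw [hδ, div_mul_eq_mul_div, div_lt_iff₀ (by linarith)]
    nlinarith
  linarith

section
variable {T T' : ℝ → EuclideanSpace ℝ (Fin n)} (hT : Tangent T T') {φ φ' : ℝ → ℝ} (h : Adm φ φ')
include hT h

/-- the energy as the oscillator energy of `x = φ T` -/
lemma En_eq : En T' φ φ' = ∫ s in (0:ℝ)..(2 * π),
    (‖φ' s • T s + φ s • T' s‖ ^ 2 - ‖φ s • T s‖ ^ 2) := by
  rw [En]
  congr 1
  ext s
  rw [hT.norm_x, hT.norm_x']

lemma x_per : Function.Periodic (fun s => φ s • T s) (2 * π) := fun s => by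
  simp only [h.per s, hT.per s]

lemma x'_per : Function.Periodic (fun s => φ' s • T s + φ s • T' s) (2 * π) := fun s => by
  simp only [h.per s, hT.per s, h.per' s, hT.per' s]

lemma x'_cont : Continuous (fun s => φ' s • T s + φ s • T' s) := by
  have h1 := h.contφ
  have h2 := h.cont
  have h3 := hT.contT
  have h4 := hT.cont
  fun_prop

/-- The two point inequality. -/
lemma two_point_T {s t : ℝ} (hst : s < t) (hts : t < s + π) :
    - 2 * ⟪φ s • T s + φ (s + π) • T (s + π), φ t • T t + φ (t + π) • T (t + π)⟫ ≤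
      Real.sin (t - s) * En T' φ φ' := by
  rw [En_eq hT h]
  exact two_point_vec (x := fun s => φ s • T s) (fun s => hT.x_deriv h.deriv s) (x'_cont hT h)
    (x_per hT h) (x'_per hT h) hst hts

lemma one_point_T {s : ℝ} (hneg : En T' φ φ' < 0) :
    φ s • T s + φ (s + π) • T (s + π) ≠ 0 := by
  intro hz
  have := one_point_vec (x := fun s => φ s • T s) (fun s => hT.x_deriv h.deriv s) (x'_cont hT h)
    (x_per hT h) (x'_per hT h) (s := s) hz
  rw [← En_eq hT h] at this
  linarith

/-- The field `P`. -/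
lemma P_per (s : ℝ) : φ (s + π) • T (s + π) + φ (s + π + π) • T (s + π + π) =
    φ s • T s + φ (s + π) • T (s + π) := by
  have e : s + π + π = s + 2 * π := by ring
  rw [e, h.per s, hT.per s, add_comm]

lemma P_inner_pos (hneg : En T' φ φ' < 0) (s t : ℝ) :
    0 < ⟪φ s • T s + φ (s + π) • T (s + π), φ t • T t + φ (t + π) • T (t + π)⟫ := by
  have hpi := pi_pos
  set P : ℝ → EuclideanSpace ℝ (Fin n) := fun s => φ s • T s + φ (s + π) • T (s + π) with hP
  have hPper : Function.Periodic P π := fun s => P_per hT h s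
  obtain ⟨t', ht', he⟩ := hPper.exists_mem_Ico hpi t s
  change 0 < ⟪P s, P t⟫
  rw [he]
  rcases eq_or_lt_of_le ht'.1 with h1 | h1
  · rw [← h1, real_inner_self_eq_norm_sq]
    have : P s ≠ 0 := one_point_T hT h hneg
    positivity
  · have h2 := two_point_T hT h h1 ht'.2
    have h3 : 0 < Real.sin (t' - s) := Real.sin_pos_of_pos_of_lt_pi (by linarith) (by linarith [ht'.2])
    have h4 : Real.sin (t' - s) * En T' φ φ' < 0 := mul_neg_of_pos_of_neg h3 hneg
    change - 2 * ⟪P s, P t'⟫ ≤ _ at h2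
    linarith

lemma star_sign (hneg : En T' φ φ' < 0) (hpos : ∀ s, 0 < φ s) {s : ℝ} (hs : T (s + π) = - T s) :
    0 < (φ s - φ (s + π)) * bdry T s := by
  have h1 := star hT h.deriv h.cont h.per h.per' hs
  have h2 : 0 < (φ s ^ 2 - φ (s + π) ^ 2) / 2 * bdry T s := by
    have : En T' φ φ' < 0 := hneg
    rw [En] at this
    linarith
  have h3 : 0 < φ s + φ (s + π) := add_pos (hpos _) (hpos _)
  have h4 : (φ s ^ 2 - φ (s + π) ^ 2) / 2 * bdry T s =
      ((φ s - φ (s + π)) * bdry T s) * ((φ s + φ (s + π)) / 2) := by ring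
  rw [h4] at h2
  exact (mul_pos_iff_of_pos_right (by linarith)).1 h2

end

/-- A field that exists whenever the inequality fails. -/
structure Witness (T : ℝ → EuclideanSpace ℝ (Fin n)) (v : ℝ → EuclideanSpace ℝ (Fin n)) : Prop where
  cont : Continuous v
  per : Function.Periodic v π
  cone : ∀ s, ∃ α β : ℝ, 0 < α ∧ 0 < β ∧ v s = α • T s + β • T (s + π)
  acute : ∀ s t, 0 < ⟪v s, v t⟫
  anti : ∀ s, T (s + π) = - T s → ∃ c : ℝ, 0 < c ∧ v s = (c * bdry T s) • T s

theorem exists_witness {T T' : ℝ → EuclideanSpace ℝ (Fin n)} (hT : Tangent T T')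
    {φ φ' : ℝ → ℝ} (h : Adm φ φ') (hneg : En T' φ φ' < 0) : ∃ v, Witness T v := by
  obtain ⟨ψ, ψ', hψ, hpos, hneg'⟩ := exists_pos hT.cont h hneg
  refine ⟨fun s => ψ s • T s + ψ (s + π) • T (s + π), ?_, fun s => P_per hT hψ s,
    fun s => ⟨ψ s, ψ (s + π), hpos _, hpos _, rfl⟩, fun s t => P_inner_pos hT hψ hneg' s t, ?_⟩
  · have h1 := hψ.contφ
    have h2 := hT.contT
    fun_prop
  · intro s hs
    have h1 := star_sign hT hψ hneg' hpos hs
    have hN : bdry T s ≠ 0 := by
      intro h0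
      rw [h0, mul_zero] at h1
      exact lt_irrefl _ h1
    refine ⟨(ψ s - ψ (s + π)) / bdry T s, ?_, ?_⟩
    · rw [div_eq_mul_inv]
      have h2 : (ψ s - ψ (s + π)) * (bdry T s)⁻¹ =
          ((ψ s - ψ (s + π)) * bdry T s) * ((bdry T s)⁻¹) ^ 2 := by
        field_simp
      rw [h2]
      positivity
    · rw [div_mul_cancel₀ _ hN, hs, smul_neg, sub_smul, sub_eq_add_neg]

/-! ### Mirror symmetric curves -/

/-- Mirror symmetry of the tangent field about `0` -/
def Mirror (T : ℝ → EuclideanSpace ℝ (Fin n)) : Prop :=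
  ∀ s, T (-s) = (2 * ⟪T s, T 0⟫) • T 0 - T s

lemma Mirror.norm_deriv {T T' : ℝ → EuclideanSpace ℝ (Fin n)} (hT : Tangent T T')
    (hm : Mirror T) (s : ℝ) : ‖T' (-s)‖ ^ 2 = ‖T' s‖ ^ 2 := by
  have h1 : HasDerivAt (fun s => T (-s)) (-(T' (-s))) s := by
    have := (hT.hderiv (-s)).scomp s (hasDerivAt_neg s)
    rw [neg_one_smul] at this
    exact this
  have h2 : HasDerivAt (fun s => (2 * ⟪T s, T 0⟫) • T 0 - T s)
      ((2 * ⟪T' s, T 0⟫) • T 0 - T' s) s := by
    have h3 : HasDerivAt (fun s => ⟪T s, T 0⟫) ⟪T' s, T 0⟫ s := by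
      have := (hT.hderiv s).inner ℝ (hasDerivAt_const s (T 0))
      simpa using this
    exact ((h3.const_mul 2).smul_const (T 0)).sub (hT.hderiv s)
  have h4 : (fun s => T (-s)) = (fun s => (2 * ⟪T s, T 0⟫) • T 0 - T s) := funext hm
  rw [h4] at h1
  have h5 := h1.unique h2
  rw [← norm_neg (T' (-s)), h5, norm_sub_sq_real, norm_smul, hT.unit 0, real_inner_smul_left,
    real_inner_comm (T' s) (T 0), Real.norm_eq_abs, mul_one, sq_abs]
  ring

/-- A positive function of negative energy can be replaced by an even one. -/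
lemma exists_even {T T' : ℝ → EuclideanSpace ℝ (Fin n)} (hT : Tangent T T') (hm : Mirror T)
    {φ φ' : ℝ → ℝ} (h : Adm φ φ') (hpos : ∀ s, 0 < φ s) (hneg : En T' φ φ' < 0) :
    ∃ ψ ψ' : ℝ → ℝ, Adm ψ ψ' ∧ (∀ s, 0 < ψ s) ∧ En T' ψ ψ' < 0 ∧ ∀ s, ψ (-s) = ψ s := by
  have hφc := h.contφ
  have hφ'c := h.cont
  have hT'c := hT.cont
  have hF : ∀ s, 0 < φ s ^ 2 + φ (-s) ^ 2 := fun s => by
    have := hpos s
    positivity
  set ψ : ℝ → ℝ := fun s => Real.sqrt ((φ s ^ 2 + φ (-s) ^ 2) / 2) with hψ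
  set ψ' : ℝ → ℝ := fun s => (φ s * φ' s - φ (-s) * φ' (-s)) /
    (2 * Real.sqrt ((φ s ^ 2 + φ (-s) ^ 2) / 2)) with hψ'
  have hsq : ∀ s, 0 < Real.sqrt ((φ s ^ 2 + φ (-s) ^ 2) / 2) := fun s =>
    Real.sqrt_pos.2 (by have := hF s; linarith)
  have hn : ∀ s, HasDerivAt (fun s => φ (-s)) (-(φ' (-s))) s := by
    intro s
    have := HasDerivAt.comp s (h.deriv (-s)) (hasDerivAt_neg s)
    rw [mul_neg_one] at this
    exact this
  have hadm : Adm ψ ψ' := by
    refine ⟨?_, ?_, ?_, ?_⟩
    · intro s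
      have h1 : HasDerivAt (fun s => (φ s ^ 2 + φ (-s) ^ 2) / 2)
          (φ s * φ' s - φ (-s) * φ' (-s)) s := by
        have := (((h.deriv s).pow 2).add ((hn s).pow 2)).div_const 2
        refine this.congr_deriv ?_
        push_cast
        ring
      have h2 := h1.sqrt (by have := hF s; positivity)
      exact h2
    · have h1 : Continuous (fun s => 2 * Real.sqrt ((φ s ^ 2 + φ (-s) ^ 2) / 2)) := by fun_prop
      have h2 : Continuous (fun s => φ s * φ' s - φ (-s) * φ' (-s)) := by fun_prop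
      exact h2.div h1 (fun s => (by have := hsq s; positivity))
    · intro s
      have e : φ (-(s + 2 * π)) = φ (-s) := by
        have := h.per (-(s + 2 * π))
        rw [← this]
        congr 1
        ring
      simp only [hψ, h.per s, e]
    · intro s
      have e : φ (-(s + 2 * π)) = φ (-s) := by
        have := h.per (-(s + 2 * π))
        rw [← this]
        congr 1
        ring
      have e' : φ' (-(s + 2 * π)) = φ' (-s) := by
        have := h.per' (-(s + 2 * π))
        rw [← this]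
        congr 1
        ring
      simp only [hψ', h.per s, h.per' s, e, e']
  have hψc := hadm.contφ
  have hψ'c := hadm.cont
  refine ⟨ψ, ψ', hadm, hsq, ?_, ?_⟩
  · set f : ℝ → ℝ := fun s => φ' s ^ 2 + ‖T' s‖ ^ 2 * φ s ^ 2 - φ s ^ 2 with hf
    have hfc : Continuous f := by fun_prop
    have hfper : Function.Periodic f (2 * π) := by
      intro s
      simp only [hf, h.per s, h.per' s, hT.per' s]
    have e1 : ∫ s in (0:ℝ)..(2 * π), f (-s) = ∫ s in (0:ℝ)..(2 * π), f s := by
      rw [intervalIntegral.integral_comp_neg, neg_zero]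
      have := hfper.intervalIntegral_add_eq (-(2 * π)) 0
      rw [neg_add_cancel, zero_add] at this
      exact this
    have hle : En T' ψ ψ' ≤ ∫ s in (0:ℝ)..(2 * π), (f s + f (-s)) / 2 := by
      rw [En]
      apply intervalIntegral.integral_mono_on (by positivity)
      · exact Continuous.intervalIntegrable (by fun_prop) _ _
      · exact Continuous.intervalIntegrable (by fun_prop) _ _
      · intro s _
        have h1 : ψ s ^ 2 = (φ s ^ 2 + φ (-s) ^ 2) / 2 :=
          Real.sq_sqrt (by have := hF s; linarith)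
        have h2 : ψ' s ^ 2 ≤ (φ' s ^ 2 + φ' (-s) ^ 2) / 2 := by
          simp only [hψ']
          rw [div_pow, mul_pow, Real.sq_sqrt (by have := hF s; linarith),
            div_le_iff₀ (by have := hF s; positivity)]
          nlinarith [sq_nonneg (φ s * φ' (-s) + φ (-s) * φ' s)]
        simp only [hf]
        rw [h1, hm.norm_deriv hT s]
        nlinarith
    have e2 : ∫ s in (0:ℝ)..(2 * π), (f s + f (-s)) / 2 = En T' φ φ' := by
      rw [intervalIntegral.integral_div, intervalIntegral.integral_add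
        (Continuous.intervalIntegrable (by fun_prop) _ _)
        (Continuous.intervalIntegrable (by fun_prop) _ _), e1]
      rw [En]
      ring
    linarith
  · intro s
    simp only [hψ, neg_neg]
    rw [add_comm]

/-- In the mirror symmetric case, a negative energy forces `⟪T (π/2), T 0⟫ * N(0) > 0`. -/
theorem mirror_sign {T T' : ℝ → EuclideanSpace ℝ (Fin n)} (hT : Tangent T T') (hm : Mirror T)
    (hanti : T π = - T 0) {φ φ' : ℝ → ℝ} (h : Adm φ φ') (hneg : En T' φ φ' < 0) :
    0 < ⟪T (π / 2), T 0⟫ * bdry T 0 := by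
  have hpi := pi_pos
  obtain ⟨φ₁, φ₁', h₁, hpos₁, hneg₁⟩ := exists_pos hT.cont h hneg
  obtain ⟨ψ, ψ', hψ, hpos, hneg', heven⟩ := exists_even hT hm h₁ hpos₁ hneg₁
  have hψc := hψ.contφ
  have hTc := hT.contT
  have hee : ⟪T 0, T 0⟫ = (1:ℝ) := by rw [real_inner_self_eq_norm_sq, hT.unit 0]; norm_num
  set P : ℝ → EuclideanSpace ℝ (Fin n) := fun s => ψ s • T s + ψ (s + π) • T (s + π) with hP
  have hPc : Continuous P := by fun_prop
  have hPneg : ∀ t, P (-t) = (2 * ⟪P t, T 0⟫) • T 0 - P t := by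
    intro t
    have e1 : T (-t + π) = (2 * ⟪T (t + π), T 0⟫) • T 0 - T (t + π) := by
      have h1 := hm (t + π)
      have h2 := hT.per (-(t + π))
      rw [← h1, ← h2]
      congr 1
      ring
    have e2 : ψ (-t + π) = ψ (t + π) := by
      have h1 := heven (t + π)
      have h2 := hψ.per (-(t + π))
      rw [← h1, ← h2]
      congr 1
      ring
    simp only [hP]
    rw [e1, e2, heven t, hm t, inner_add_left, real_inner_smul_left, real_inner_smul_left,
      smul_sub, smul_sub, smul_smul, smul_smul, mul_add, add_smul]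
    have e3 : ψ t * (2 * ⟪T t, T 0⟫) = 2 * (ψ t * ⟪T t, T 0⟫) := by ring
    have e4 : ψ (t + π) * (2 * ⟪T (t + π), T 0⟫) = 2 * (ψ (t + π) * ⟪T (t + π), T 0⟫) := by ring
    rw [e3, e4]
    abel
  have hPn : ∀ t, ⟪P t, T 0⟫ ≠ 0 := by
    intro t h0
    have h1 := P_inner_pos hT hψ hneg' (-t) t
    change 0 < ⟪P (-t), P t⟫ at h1
    rw [hPneg t, h0, mul_zero, zero_smul, zero_sub, inner_neg_left,
      real_inner_self_eq_norm_sq] at h1
    have := sq_nonneg ‖P t‖
    linarith
  -- constant sign of the continuous function `⟪P t, T 0⟫`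
  have hcont : Continuous (fun t => ⟪P t, T 0⟫) := hPc.inner continuous_const
  have hsign : 0 < ⟪P 0, T 0⟫ * ⟪P (π / 2), T 0⟫ := by
    rcases lt_or_gt_of_ne (hPn 0) with h1 | h1
    · rcases lt_or_gt_of_ne (hPn (π / 2)) with h2 | h2
      · exact mul_pos_of_neg_of_neg h1 h2
      · exfalso
        have := intermediate_value_Icc (a := 0) (b := π / 2) (by positivity)
          (f := fun t => ⟪P t, T 0⟫) hcont.continuousOn
        obtain ⟨t, _, ht⟩ := this ⟨h1.le, h2.le⟩
        exact hPn t ht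
    · rcases lt_or_gt_of_ne (hPn (π / 2)) with h2 | h2
      · exfalso
        have := intermediate_value_Icc' (a := 0) (b := π / 2) (by positivity)
          (f := fun t => ⟪P t, T 0⟫) hcont.continuousOn
        obtain ⟨t, _, ht⟩ := this ⟨h2.le, h1.le⟩
        exact hPn t ht
      · exact mul_pos h1 h2
  have hP0 : ⟪P 0, T 0⟫ = ψ 0 - ψ (0 + π) := by
    simp only [hP, zero_add]
    rw [hanti, inner_add_left, real_inner_smul_left, real_inner_smul_left, inner_neg_left, hee]
    ring
  have hPh : ⟪P (π / 2), T 0⟫ = 2 * ψ (π / 2) * ⟪T (π / 2), T 0⟫ := by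
    have h1 := hPneg (π / 2)
    have e : P (-(π / 2)) = P (π / 2) := by
      have := P_per hT hψ (-(π / 2))
      simp only [hP]
      rw [← this]
      have e1 : -(π / 2) + π = π / 2 := by ring
      rw [e1]
    have e1 : T (π / 2 + π) = T (-(π / 2)) := by
      have := hT.per (-(π / 2))
      rw [← this]
      congr 1
      ring
    have e2 : ψ (π / 2 + π) = ψ (π / 2) := by
      rw [← heven (π / 2)]
      have := hψ.per (-(π / 2))
      rw [← this]
      congr 1
      ring
    simp only [hP]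
    rw [e1, e2, hm (π / 2), smul_sub, smul_smul, inner_add_left, inner_sub_left,
      real_inner_smul_left, real_inner_smul_left, hee]
    ring
  have hstar := star_sign hT hψ hneg' hpos (s := 0) (by rw [zero_add]; exact hanti)
  rw [hP0, hPh] at hsign
  have h2 : 0 < ψ (π / 2) := hpos _
  have h3 : 0 < (ψ 0 - ψ (0 + π)) * ⟪T (π / 2), T 0⟫ := by
    have : (ψ 0 - ψ (0 + π)) * (2 * ψ (π / 2) * ⟪T (π / 2), T 0⟫) =
      ((ψ 0 - ψ (0 + π)) * ⟪T (π / 2), T 0⟫) * (2 * ψ (π / 2)) := by ring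
    rw [this] at hsign
    exact (mul_pos_iff_of_pos_right (by linarith)).1 hsign
  have h4 := mul_pos h3 hstar
  have h5 : (ψ 0 - ψ (0 + π)) * ⟪T (π / 2), T 0⟫ * ((ψ 0 - ψ (0 + π)) * bdry T 0) =
    (⟪T (π / 2), T 0⟫ * bdry T 0) * (ψ 0 - ψ (0 + π)) ^ 2 := by ring
  rw [h5] at h4
  have h6 : ψ 0 - ψ (0 + π) ≠ 0 := by
    intro h0
    rw [h0] at hstar
    simp at hstar
  exact (mul_pos_iff_of_pos_right (by positivity)).1 h4

end Pool.Agent.MP_2801bd_mp
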