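import Pool.Agent.Lib.MP_2801bd_mp.Basic

/-!
# Vector valued versions, and the curve set-up
-/

set_option autoImplicit false

open Real MeasureTheory intervalIntegral Set
open scoped ContDiff RealInnerProductSpace

namespace Pool.Agent.MP_2801bd_mp

variable {n : ℕ}

lemma coord_hasDerivAt {x x' : ℝ → EuclideanSpace ℝ (Fin n)} (hx : ∀ s, HasDerivAt x (x' s) s)
    (i : Fin n) (s : ℝ) : HasDerivAt (fun s => x s i) (x' s i) s := by
  have := (EuclideanSpace.proj (𝕜 := ℝ) i).hasFDerivAt.comp_hasDerivAt s (hx s)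
  exact this

lemma coord_continuous {x : ℝ → EuclideanSpace ℝ (Fin n)} (hx : Continuous x) (i : Fin n) :
    Continuous (fun s => x s i) :=
  (EuclideanSpace.proj (𝕜 := ℝ) i).continuous.comp hx

/-- The oscillator energy of a vector valued function, as a sum over coordinates. -/
lemma energy_eq {x x' : ℝ → EuclideanSpace ℝ (Fin n)} (hx : Continuous x) (hx' : Continuous x')
    (a b : ℝ) : ∫ s in a..b, (‖x' s‖ ^ 2 - ‖x s‖ ^ 2) =
      ∑ i, ∫ s in a..b, ((x' s i) ^ 2 - (x s i) ^ 2) := by
  rw [← intervalIntegral.integral_finsetSum]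
  · congr 1
    ext s
    rw [EuclideanSpace.real_norm_sq_eq, EuclideanSpace.real_norm_sq_eq, Finset.sum_sub_distrib]
  · intro i _
    apply Continuous.intervalIntegrable
    exact ((coord_continuous hx' i).pow 2).sub ((coord_continuous hx i).pow 2)

lemma wirtinger_vec {x x' : ℝ → EuclideanSpace ℝ (Fin n)} (hx : ∀ s, HasDerivAt x (x' s) s)
    (hx' : Continuous x') (hper : Function.Periodic x (2 * π)) (hper' : Function.Periodic x' (2 * π))
    (hmean : ∀ i, ∫ s in (0:ℝ)..(2 * π), x s i = 0) :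
    0 ≤ ∫ s in (0:ℝ)..(2 * π), (‖x' s‖ ^ 2 - ‖x s‖ ^ 2) := by
  have hxc : Continuous x := continuous_iff_continuousAt.2 fun s => (hx s).continuousAt
  rw [energy_eq hxc hx']
  apply Finset.sum_nonneg
  intro i _
  have := wirtinger (coord_hasDerivAt hx i) (coord_continuous hx' i) (fun s => by simp only [hper s])
    (fun s => by simp only [hper' s]) (hmean i)
  rw [intervalIntegral.integral_sub]
  · linarith
  · exact Continuous.intervalIntegrable ((coord_continuous hx' i).pow 2) _ _
  · exact Continuous.intervalIntegrable ((coord_continuous hxc i).pow 2) _ _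

lemma two_point_vec {x x' : ℝ → EuclideanSpace ℝ (Fin n)} (hx : ∀ s, HasDerivAt x (x' s) s)
    (hx' : Continuous x') (hper : Function.Periodic x (2 * π)) (hper' : Function.Periodic x' (2 * π))
    {s t : ℝ} (hst : s < t) (hts : t < s + π) :
    - 2 * ⟪x s + x (s + π), x t + x (t + π)⟫ ≤
      Real.sin (t - s) * ∫ r in (0:ℝ)..(2 * π), (‖x' r‖ ^ 2 - ‖x r‖ ^ 2) := by
  have hxc : Continuous x := continuous_iff_continuousAt.2 fun s => (hx s).continuousAt
  rw [energy_eq hxc hx', Finset.mul_sum, PiLp.inner_apply, Finset.mul_sum]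
  apply Finset.sum_le_sum
  intro i _
  have := two_point (coord_hasDerivAt hx i) (coord_continuous hx' i) (fun s => by simp only [hper s])
    (fun s => by simp only [hper' s]) hst hts
  refine le_trans (le_of_eq ?_) this
  simp only [PiLp.add_apply, RCLike.inner_apply, conj_trivial]
  ring

lemma one_point_vec {x x' : ℝ → EuclideanSpace ℝ (Fin n)} (hx : ∀ s, HasDerivAt x (x' s) s)
    (hx' : Continuous x') (hper : Function.Periodic x (2 * π)) (hper' : Function.Periodic x' (2 * π))
    {s : ℝ} (hs : x s + x (s + π) = 0) :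
    0 ≤ ∫ r in (0:ℝ)..(2 * π), (‖x' r‖ ^ 2 - ‖x r‖ ^ 2) := by
  have hxc : Continuous x := continuous_iff_continuousAt.2 fun s => (hx s).continuousAt
  rw [energy_eq hxc hx']
  apply Finset.sum_nonneg
  intro i _
  apply one_point (coord_hasDerivAt hx i) (coord_continuous hx' i) (fun s => by simp only [hper s])
    (fun s => by simp only [hper' s]) (s := s)
  have := congrArg (fun v : EuclideanSpace ℝ (Fin n) => v i) hs
  simpa using this

/-- Data of a closed unit speed curve, through its tangent field. -/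
structure Tangent (T T' : ℝ → EuclideanSpace ℝ (Fin n)) : Prop where
  hderiv : ∀ s, HasDerivAt T (T' s) s
  cont : Continuous T'
  per : Function.Periodic T (2 * π)
  per' : Function.Periodic T' (2 * π)
  unit : ∀ s, ‖T s‖ = 1
  closed : ∀ e : EuclideanSpace ℝ (Fin n), ∫ s in (0:ℝ)..(2 * π), ⟪T s, e⟫ = 0

lemma Tangent.of_curve {γ : ℝ → EuclideanSpace ℝ (Fin n)} (hγ : ContDiff ℝ ∞ γ)
    (hper : Function.Periodic γ (2 * π)) (hunit : ∀ s, ‖deriv γ s‖ = 1) :
    Tangent (deriv γ) (deriv (deriv γ)) := by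
  have h1 : ContDiff ℝ ∞ (deriv γ) := (contDiff_infty_iff_deriv.1 hγ).2
  have h2 : ContDiff ℝ ∞ (deriv (deriv γ)) := (contDiff_infty_iff_deriv.1 h1).2
  have hp1 : Function.Periodic (deriv γ) (2 * π) := by
    intro s
    rw [← deriv_comp_add_const]
    congr 1
    ext r : 1
    exact hper r
  have hp2 : Function.Periodic (deriv (deriv γ)) (2 * π) := by
    intro s
    rw [← deriv_comp_add_const]
    congr 1
    ext r : 1
    exact hp1 r
  refine ⟨fun s => (h1.differentiable (by simp) s).hasDerivAt, h2.continuous, hp1, hp2, hunit, ?_⟩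
  intro e
  have hd : ∀ s, HasDerivAt (fun s => ⟪γ s, e⟫) (⟪deriv γ s, e⟫) s := by
    intro s
    have := ((hγ.differentiable (by simp) s).hasDerivAt).inner ℝ (hasDerivAt_const s e)
    simpa using this
  rw [integral_deriv_eq hd (h1.continuous.inner continuous_const)]
  have : γ (2 * π) = γ 0 := by simpa using hper 0
  rw [this, sub_self]

section
variable {T T' : ℝ → EuclideanSpace ℝ (Fin n)} (hT : Tangent T T')
include hT

lemma Tangent.contT : Continuous T := continuous_iff_continuousAt.2 fun s => (hT.hderiv s).continuousAt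

lemma Tangent.orth (s : ℝ) : ⟪T s, T' s⟫ = 0 := by
  have h1 : HasDerivAt (fun s => ⟪T s, T s⟫) (⟪T s, T' s⟫ + ⟪T' s, T s⟫) s := (hT.hderiv s).inner ℝ (hT.hderiv s)
  have h2 : (fun s => ⟪T s, T s⟫) = fun _ => (1:ℝ) := by
    ext r
    rw [real_inner_self_eq_norm_sq, hT.unit r]; norm_num
  rw [h2] at h1
  have h3 := h1.unique (hasDerivAt_const s (1:ℝ))
  rw [real_inner_comm (T s) (T' s)] at h3
  linarith [real_inner_comm (T s) (T' s)]

lemma Tangent.x_deriv {φ φ' : ℝ → ℝ} (hφ : ∀ s, HasDerivAt φ (φ' s) s) (s : ℝ) :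
    HasDerivAt (fun s => φ s • T s) (φ' s • T s + φ s • T' s) s := by
  have := (hφ s).smul (hT.hderiv s)
  rw [add_comm]
  exact this

lemma Tangent.norm_x (φ : ℝ → ℝ) (s : ℝ) : ‖φ s • T s‖ ^ 2 = φ s ^ 2 := by
  rw [norm_smul, hT.unit s, mul_one, Real.norm_eq_abs, sq_abs]

lemma Tangent.norm_x' (φ φ' : ℝ → ℝ) (s : ℝ) :
    ‖φ' s • T s + φ s • T' s‖ ^ 2 = φ' s ^ 2 + ‖T' s‖ ^ 2 * φ s ^ 2 := by
  rw [norm_add_sq_real, norm_smul, norm_smul, hT.unit s, inner_smul_left, inner_smul_right, hT.orth s,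
    mul_one, Real.norm_eq_abs, Real.norm_eq_abs, mul_pow, sq_abs, sq_abs]
  simp
  ring

end

end Pool.Agent.MP_2801bd_mp
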