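import Mathlib.Analysis.InnerProductSpace.PiL2
import Mathlib.Analysis.SpecialFunctions.Trigonometric.Basic
import Mathlib.MeasureTheory.Integral.IntervalIntegral.Basic
import Mathlib.MeasureTheory.Integral.IntervalIntegral.FundThmCalculus
import Mathlib.Analysis.Calculus.Deriv.Basic

/-!
# MP_2801bd_mp: basic definitions for the ovals problem

Loops of class `H¹` in a Euclidean space of dimension four, the closure condition in its median
form, and minimisers of the Rayleigh quotient.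
-/

open MeasureTheory Set

namespace Ovals2801

/-- The ambient space. -/
abbrev E4 : Type := EuclideanSpace ℝ (Fin 4)

/-- A `2π`-periodic loop `ψ` of class `H¹`, with weak derivative `g`. -/
structure H1Loop (ψ g : ℝ → E4) : Prop where
  per : Function.Periodic ψ (2 * Real.pi)
  gper : Function.Periodic g (2 * Real.pi)
  meas : AEStronglyMeasurable g (volume : Measure ℝ)
  sq : IntervalIntegrable (fun s => ‖g s‖ ^ 2) volume 0 (2 * Real.pi)
  ftc : ∀ a b : ℝ, ψ b - ψ a = ∫ s in a..b, g s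

/-- The Dirichlet energy. -/
noncomputable def Dir (g : ℝ → E4) : ℝ := ∫ s in (0:ℝ)..(2 * Real.pi), ‖g s‖ ^ 2

/-- The squared `L²` norm. -/
noncomputable def Mass (ψ : ℝ → E4) : ℝ := ∫ s in (0:ℝ)..(2 * Real.pi), ‖ψ s‖ ^ 2

/-- The closure condition: the integral of `ψ/|ψ|` is at most the measure of the zero set
(for a loop without zeros: the integral of `ψ/|ψ|` vanishes). -/
def Adm (ψ : ℝ → E4) : Prop :=
  ‖∫ s in (0:ℝ)..(2 * Real.pi), (‖ψ s‖⁻¹ • ψ s)‖ ≤
    (volume {s ∈ Ioc (0:ℝ) (2 * Real.pi) | ψ s = 0}).toReal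

/-- `ψ` is a minimiser of `Dir/Mass` among the admissible loops, with minimum `e`. -/
structure IsMin (ψ g : ℝ → E4) (e : ℝ) : Prop where
  loop : H1Loop ψ g
  adm : Adm ψ
  pos : 0 < Mass ψ
  eq : Dir g = e * Mass ψ
  le : ∀ ζ h : ℝ → E4, H1Loop ζ h → Adm ζ → e * Mass ζ ≤ Dir h

/-- The right hand side of the Euler-Lagrange equation. -/
noncomputable def force (e : ℝ) (μ x : E4) : E4 :=
  -(e • x) + ‖x‖⁻¹ • (μ - (inner ℝ x μ / ‖x‖ ^ 2) • x)

/-- `(ψ, p, μ)` solves the Euler-Lagrange equation away from the zeros of `ψ`. -/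
def EL (ψ p : ℝ → E4) (e : ℝ) (μ : E4) : Prop :=
  ∀ s : ℝ, ψ s ≠ 0 → HasDerivAt ψ (p s) s ∧ HasDerivAt p (force e μ (ψ s)) s

end Ovals2801
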