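import Mathlib.MeasureTheory.Integral.DominatedConvergence
import Mathlib.MeasureTheory.Function.SpecialFunctions.Inner
import Mathlib.MeasureTheory.Function.L2Space
import Pool.Agent.Lib.MP_2801bd_mp.Defs

/-!
# MP_2801bd_mp, module Median: the median form of the closure condition
-/

open MeasureTheory Set

namespace Ovals2801

/-- The supporting inequality for the norm, with the extra term at zero. -/
lemma norm_add_support (x c : E4) :
    ‖x‖ + inner ℝ (‖x‖⁻¹ • x) c + (if x = 0 then ‖c‖ else 0) ≤ ‖x + c‖ := by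
  by_cases hx : x = 0
  · subst hx; simp
  · have hx' : 0 < ‖x‖ := norm_pos_iff.2 hx
    rw [if_neg hx, add_zero, inner_smul_left]
    simp only [conj_trivial]
    have h1 : inner ℝ x (x + c) ≤ ‖x‖ * ‖x + c‖ := real_inner_le_norm _ _
    rw [inner_add_right, real_inner_self_eq_norm_sq] at h1
    have h2 : ‖x‖ * (‖x‖ + ‖x‖⁻¹ * inner ℝ x c) ≤ ‖x‖ * ‖x + c‖ := by
      calc ‖x‖ * (‖x‖ + ‖x‖⁻¹ * inner ℝ x c) = ‖x‖ ^ 2 + inner ℝ x c := by
            field_simp
        _ ≤ _ := h1
    exact le_of_mul_le_mul_left h2 hx'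

/-- The directional derivative of the norm along a sequence. -/
lemma tendsto_norm_quot {x v : E4} (hx : x ≠ 0) {t : ℕ → ℝ} (ht : ∀ n, t n ≠ 0)
    (ht0 : Filter.Tendsto t Filter.atTop (nhds 0)) :
    Filter.Tendsto (fun n => (‖x + (-(t n)) • v‖ - ‖x‖) / t n) Filter.atTop
      (nhds (-(inner ℝ (‖x‖⁻¹ • x) v))) := by
  have hx' : 0 < ‖x‖ := norm_pos_iff.2 hx
  have key : ∀ n, (‖x + (-(t n)) • v‖ - ‖x‖) / t n =
      (-(2 * inner ℝ x v) + t n * ‖v‖ ^ 2) / (‖x + (-(t n)) • v‖ + ‖x‖) := by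
    intro n
    have hpos : 0 < ‖x + (-(t n)) • v‖ + ‖x‖ := by positivity
    have hsq : ‖x + (-(t n)) • v‖ ^ 2 = ‖x‖ ^ 2 - 2 * (t n * inner ℝ x v) + t n ^ 2 * ‖v‖ ^ 2 := by
      rw [norm_add_sq_real, inner_smul_right, norm_smul, Real.norm_eq_abs, mul_pow, sq_abs]
      ring
    rw [div_eq_div_iff (ht n) hpos.ne']
    nlinarith [hsq]
  simp_rw [key]
  have hn : Filter.Tendsto (fun n => ‖x + (-(t n)) • v‖ + ‖x‖) Filter.atTop
      (nhds (‖x‖ + ‖x‖)) := by
    have h1 : Filter.Tendsto (fun n => x + (-(t n)) • v) Filter.atTop (nhds (x + (-(0:ℝ)) • v)) :=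
      tendsto_const_nhds.add ((ht0.neg).smul_const v)
    rw [neg_zero, zero_smul, add_zero] at h1
    exact h1.norm.add tendsto_const_nhds
  have hd : Filter.Tendsto (fun n => -(2 * inner ℝ x v) + t n * ‖v‖ ^ 2) Filter.atTop
      (nhds (-(2 * inner ℝ x v) + 0 * ‖v‖ ^ 2)) :=
    tendsto_const_nhds.add (ht0.mul_const _)
  have hlim := hd.div hn (by positivity)
  have he : -(inner ℝ (‖x‖⁻¹ • x) v) =
      (-(2 * inner ℝ x v) + 0 * ‖v‖ ^ 2) / (‖x‖ + ‖x‖) := by
    rw [inner_smul_left]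
    simp only [conj_trivial]
    field_simp
    ring
  rw [he]
  exact hlim

theorem adm_iff_median {ψ : ℝ → E4} (hψ : Continuous ψ) :
    Adm ψ ↔ ∀ c : E4, (∫ s in (0:ℝ)..(2 * Real.pi), ‖ψ s‖) ≤
      ∫ s in (0:ℝ)..(2 * Real.pi), ‖ψ s + c‖ := by
  have h2π : (0:ℝ) ≤ 2 * Real.pi := by positivity
  set μ : Measure ℝ := volume.restrict (Ioc (0:ℝ) (2 * Real.pi)) with hμ
  have : IsFiniteMeasure μ := by rw [hμ]; infer_instance
  set S : Set ℝ := {s | ψ s = 0} with hS
  have hSm : MeasurableSet S := (isClosed_eq hψ continuous_const).measurableSet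
  have hZ : (volume {s ∈ Ioc (0:ℝ) (2 * Real.pi) | ψ s = 0}).toReal = μ.real S := by
    rw [Measure.real, hμ, Measure.restrict_apply hSm, inter_comm]
    rfl
  set V : E4 := ∫ s in (0:ℝ)..(2 * Real.pi), (‖ψ s‖⁻¹ • ψ s) with hV
  have hVμ : V = ∫ s, (‖ψ s‖⁻¹ • ψ s) ∂μ := by
    rw [hV, intervalIntegral.integral_of_le h2π]
  have hmeas : AEStronglyMeasurable (fun s => ‖ψ s‖⁻¹ • ψ s) μ :=
    (hψ.norm.measurable.inv).aestronglyMeasurable.smul hψ.aestronglyMeasurable
  have hbd : ∀ s, ‖(‖ψ s‖⁻¹ • ψ s)‖ ≤ 1 := by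
    intro s
    rw [norm_smul, norm_inv, norm_norm]
    by_cases h : ‖ψ s‖ = 0
    · rw [h]; simp
    · rw [inv_mul_cancel₀ h]
  have hint : Integrable (fun s => ‖ψ s‖⁻¹ • ψ s) μ :=
    Integrable.of_bound hmeas 1 (Filter.Eventually.of_forall hbd)
  have hcont : ∀ f : ℝ → ℝ, Continuous f → Integrable f μ := by
    intro f hf
    have := hf.intervalIntegrable (μ := volume) (0:ℝ) (2 * Real.pi)
    rw [intervalIntegrable_iff_integrableOn_Ioc_of_le h2π] at this
    exact this
  have hI : ∀ f : ℝ → ℝ, (∫ s in (0:ℝ)..(2 * Real.pi), f s) = ∫ s, f s ∂μ := by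
    intro f; rw [intervalIntegral.integral_of_le h2π]
  have hinn : ∀ c : E4, Integrable (fun s => inner ℝ (‖ψ s‖⁻¹ • ψ s) c) μ := fun c =>
    hint.inner_const c
  have hinnI : ∀ c : E4, (∫ s, inner ℝ (‖ψ s‖⁻¹ • ψ s) c ∂μ) = inner ℝ V c := by
    intro c
    have := integral_inner hint c (𝕜 := ℝ)
    rw [← hVμ] at this
    rw [real_inner_comm, ← this]
    exact integral_congr_ae (Filter.Eventually.of_forall fun s => real_inner_comm _ _)
  have hif : ∀ r : ℝ, (fun s => if ψ s = 0 then r else 0) = S.indicator (fun _ => r) := by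
    intro r; funext s
    by_cases h : ψ s = 0
    · rw [if_pos h, indicator_of_mem (by exact h)]
    · rw [if_neg h, indicator_of_notMem (by exact h)]
  have hifI : ∀ r : ℝ, Integrable (fun s => if ψ s = 0 then r else 0) μ := by
    intro r; rw [hif]; exact (integrable_const r).indicator hSm
  have hifint : ∀ r : ℝ, (∫ s, (if ψ s = 0 then r else 0) ∂μ) = μ.real S * r := by
    intro r
    rw [hif, integral_indicator hSm, setIntegral_const, smul_eq_mul]
  unfold Adm
  rw [hZ, ← hV]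
  constructor
  · intro hA c
    rw [hI, hI]
    have h1 : (∫ s, (‖ψ s‖ + inner ℝ (‖ψ s‖⁻¹ • ψ s) c + (if ψ s = 0 then ‖c‖ else 0)) ∂μ) ≤
        ∫ s, ‖ψ s + c‖ ∂μ := by
      apply integral_mono
      · exact ((hcont _ hψ.norm).add (hinn c)).add (hifI _)
      · exact hcont _ (hψ.add continuous_const).norm
      · intro s; exact norm_add_support _ _
    rw [integral_add (f := fun s => ‖ψ s‖ + inner ℝ (‖ψ s‖⁻¹ • ψ s) c)
      (g := fun s => if ψ s = 0 then ‖c‖ else 0) ((hcont _ hψ.norm).add (hinn c)) (hifI _),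
      integral_add (f := fun s => ‖ψ s‖) (g := fun s => inner ℝ (‖ψ s‖⁻¹ • ψ s) c)
      (hcont _ hψ.norm) (hinn c), hinnI, hifint] at h1
    have h2 : -(‖V‖ * ‖c‖) ≤ inner ℝ V c := by
      have := abs_real_inner_le_norm V c
      exact (abs_le.1 this).1
    have h3 : ‖V‖ * ‖c‖ ≤ μ.real S * ‖c‖ := mul_le_mul_of_nonneg_right hA (norm_nonneg _)
    linarith
  · intro hA
    by_contra hcon
    push Not at hcon
    have hV0 : 0 < ‖V‖ := lt_of_le_of_lt measureReal_nonneg hcon
    set t : ℕ → ℝ := fun n => 1 / ((n:ℝ) + 1) with ht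
    have htpos : ∀ n, 0 < t n := fun n => by rw [ht]; positivity
    have ht0 : Filter.Tendsto t Filter.atTop (nhds 0) := tendsto_one_div_add_atTop_nhds_zero_nat
    have hlim : Filter.Tendsto (fun n => ∫ s, ((‖ψ s + (-(t n)) • V‖ - ‖ψ s‖) / t n) ∂μ)
        Filter.atTop (nhds (∫ s, (-(inner ℝ (‖ψ s‖⁻¹ • ψ s) V) +
          (if ψ s = 0 then ‖V‖ else 0)) ∂μ)) := by
      apply tendsto_integral_of_dominated_convergence (fun _ => ‖V‖)
      · intro n
        apply Continuous.aestronglyMeasurable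
        exact ((hψ.add continuous_const).norm.sub hψ.norm).div_const _
      · exact integrable_const _
      · intro n
        refine Filter.Eventually.of_forall fun s => ?_
        rw [norm_div, Real.norm_eq_abs, Real.norm_eq_abs, abs_of_pos (htpos n),
          div_le_iff₀ (htpos n)]
        calc |‖ψ s + (-(t n)) • V‖ - ‖ψ s‖| ≤ ‖(ψ s + (-(t n)) • V) - ψ s‖ :=
              abs_norm_sub_norm_le _ _
          _ = ‖V‖ * t n := by
              rw [add_sub_cancel_left, norm_smul, norm_neg, Real.norm_eq_abs,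
                abs_of_pos (htpos n), mul_comm]
      · refine Filter.Eventually.of_forall fun s => ?_
        by_cases h : ψ s = 0
        · rw [if_pos h]
          have : ∀ n, (‖ψ s + (-(t n)) • V‖ - ‖ψ s‖) / t n = ‖V‖ := by
            intro n
            rw [h, zero_add, norm_zero, sub_zero, norm_smul, norm_neg, Real.norm_eq_abs,
              abs_of_pos (htpos n)]
            field_simp [(htpos n).ne']
          simp_rw [this, h]
          simp
        · rw [if_neg h, add_zero]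
          exact tendsto_norm_quot h (fun n => (htpos n).ne') ht0
    have hnn : ∀ n, 0 ≤ ∫ s, ((‖ψ s + (-(t n)) • V‖ - ‖ψ s‖) / t n) ∂μ := by
      intro n
      rw [integral_div, integral_sub (f := fun s => ‖ψ s + (-(t n)) • V‖) (g := fun s => ‖ψ s‖)
        (hcont _ (hψ.add continuous_const).norm) (hcont _ hψ.norm)]
      apply div_nonneg _ (htpos n).le
      have := hA ((-(t n)) • V)
      rw [hI, hI] at this
      linarith
    have hge := ge_of_tendsto' hlim hnn
    rw [integral_add (f := fun s => -(inner ℝ (‖ψ s‖⁻¹ • ψ s) V))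
      (g := fun s => if ψ s = 0 then ‖V‖ else 0) (hinn V).neg (hifI _), integral_neg, hinnI,
      hifint, real_inner_self_eq_norm_sq] at hge
    nlinarith

end Ovals2801
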