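import Pool.Agent.Lib.MP_2801bd_mp.H1Basic
import Pool.Agent.Lib.MP_2801bd_mp.ELNorm
import Pool.Agent.Lib.MP_2801bd_mp.Median
import Mathlib.Analysis.Normed.Lp.MeasurableSpace
import Mathlib.Analysis.Real.Pi.Bounds
import Mathlib.MeasureTheory.Function.SpecialFunctions.Inner

/-!
# MP_2801bd_mp: stability of the median
-/

open MeasureTheory Set Filter Topology

namespace Ovals2801

theorem measurable_dirn {y : ℝ → E4} (hy : Continuous y) : Measurable fun s => dirn (y s) := by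
  unfold dirn
  exact (hy.norm.measurable.inv).smul hy.measurable

theorem intervalIntegrable_of_bdd {f : ℝ → E4} (hf : Measurable f) {C : ℝ}
    (hC : ∀ s, ‖f s‖ ≤ C) (a b : ℝ) : IntervalIntegrable f volume a b := by
  have h1 : IntervalIntegrable (fun _ : ℝ => C) volume a b := intervalIntegrable_const
  refine h1.mono_fun hf.aestronglyMeasurable ?_
  refine Eventually.of_forall fun s => ?_
  show ‖f s‖ ≤ ‖C‖
  exact (hC s).trans (le_abs_self C)

theorem intervalIntegrable_of_bdd' {f : ℝ → ℝ} (hf : Measurable f) {C : ℝ}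
    (hC : ∀ s, |f s| ≤ C) (a b : ℝ) : IntervalIntegrable f volume a b := by
  have h1 : IntervalIntegrable (fun _ : ℝ => C) volume a b := intervalIntegrable_const
  refine h1.mono_fun hf.aestronglyMeasurable ?_
  refine Eventually.of_forall fun s => ?_
  show ‖f s‖ ≤ ‖C‖
  exact (hC s).trans (le_abs_self C)

theorem dirn_intervalIntegrable {y : ℝ → E4} (hy : Continuous y) (a b : ℝ) :
    IntervalIntegrable (fun s => dirn (y s)) volume a b :=
  intervalIntegrable_of_bdd (measurable_dirn hy) (fun s => norm_dirn_le _) a b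

theorem measurableSet_zero {ψ : ℝ → E4} (hψ : Continuous ψ) : MeasurableSet {s | ψ s = 0} :=
  (isClosed_eq hψ continuous_const).measurableSet

/-- The part of `‖c‖²` orthogonal to a direction field, off the zeros of `ψ`. -/
noncomputable def orthPart (ψ u : ℝ → E4) (c : E4) (s : ℝ) : ℝ :=
  if ψ s = 0 then 0 else ‖c‖ ^ 2 - (inner ℝ (u s) c) ^ 2

theorem inner_sq_le {u : E4} (hu : ‖u‖ ≤ 1) (c : E4) : (inner ℝ u c) ^ 2 ≤ ‖c‖ ^ 2 := by
  rw [← sq_abs]
  apply pow_le_pow_left₀ (abs_nonneg _)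
  refine (abs_real_inner_le_norm _ _).trans ?_
  calc ‖u‖ * ‖c‖ ≤ 1 * ‖c‖ := mul_le_mul_of_nonneg_right hu (norm_nonneg _)
    _ = ‖c‖ := one_mul _

theorem orthPart_nonneg {ψ u : ℝ → E4} (hu : ∀ s, ‖u s‖ ≤ 1) (c : E4) (s : ℝ) :
    0 ≤ orthPart ψ u c s := by
  unfold orthPart
  split_ifs
  · exact le_rfl
  · linarith [inner_sq_le (hu s) c]

theorem orthPart_le {ψ u : ℝ → E4} (c : E4) (s : ℝ) :
    orthPart ψ u c s ≤ ‖c‖ ^ 2 := by
  unfold orthPart
  split_ifs
  · positivity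
  · linarith [sq_nonneg (inner ℝ (u s) c)]

theorem orthPart_measurable {ψ u : ℝ → E4} (hψ : Continuous ψ) (hu : Measurable u) (c : E4) :
    Measurable (orthPart ψ u c) := by
  unfold orthPart
  exact Measurable.ite (measurableSet_zero hψ) measurable_const
    (measurable_const.sub ((Measurable.inner_const hu).pow_const 2))

theorem orthPart_intervalIntegrable {ψ u : ℝ → E4} (hψ : Continuous ψ) (hu : Measurable u)
    (hu1 : ∀ s, ‖u s‖ ≤ 1) (c : E4) (a b : ℝ) :
    IntervalIntegrable (orthPart ψ u c) volume a b :=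
  intervalIntegrable_of_bdd' (orthPart_measurable hψ hu c) (C := ‖c‖ ^ 2) (fun s => by
    rw [abs_of_nonneg (orthPart_nonneg hu1 c s)]
    exact orthPart_le c s) a b

theorem zero_indicator_integrable {ψ : ℝ → E4} (hψ : Continuous ψ) (r : ℝ) (a b : ℝ) :
    IntervalIntegrable (fun s => if ψ s = 0 then r else 0) volume a b :=
  intervalIntegrable_of_bdd'
    (Measurable.ite (measurableSet_zero hψ) measurable_const measurable_const) (C := |r|)
    (fun s => by split_ifs <;> simp) a b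

theorem volume_zero_eq {ψ : ℝ → E4} (hψ : Continuous ψ) (r : ℝ) :
    ∫ s in (0:ℝ)..(2 * Real.pi), (if ψ s = 0 then r else 0)
      = (volume {s ∈ Ioc (0:ℝ) (2 * Real.pi) | ψ s = 0}).toReal * r := by
  have e1 : (fun s => if ψ s = 0 then r else 0) = {s | ψ s = 0}.indicator (fun _ => r) := by
    funext s
    simp only [indicator, mem_setOf_eq]
  rw [intervalIntegral.integral_of_le two_pi_pos'.le, e1,
    integral_indicator (measurableSet_zero hψ), setIntegral_const, smul_eq_mul,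
    measureReal_def, Measure.restrict_apply (measurableSet_zero hψ)]
  congr 3
  ext s
  simp only [mem_inter_iff, mem_setOf_eq]
  tauto

/-- The key bound for the median. -/
theorem median_bound {ψ y : ℝ → E4} (hψ : Continuous ψ) (hy : Continuous y) (ha : Adm ψ)
    (hz : ∀ s, y s = 0 ↔ ψ s = 0) {M : ℝ} (hM : ∀ s, ‖y s‖ ≤ M) {δ lam : ℝ}
    (hδ : ‖(∫ s in (0:ℝ)..(2 * Real.pi), dirn (y s)) - ∫ s in (0:ℝ)..(2 * Real.pi), dirn (ψ s)‖
      ≤ δ) {c : E4}
    (hlam : lam * ‖c‖ ^ 2 ≤ ∫ s in (0:ℝ)..(2 * Real.pi), orthPart ψ (fun s => dirn (y s)) c s)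
    (hc : (∫ s in (0:ℝ)..(2 * Real.pi), ‖y s + c‖) ≤ ∫ s in (0:ℝ)..(2 * Real.pi), ‖y s‖) :
    lam * ‖c‖ ≤ 2 * δ * (M + ‖c‖) := by
  have hM0 : 0 ≤ M := (norm_nonneg _).trans (hM 0)
  have hδ0 : 0 ≤ δ := (norm_nonneg _).trans hδ
  by_cases hc0 : c = 0
  · rw [hc0, norm_zero, mul_zero]
    positivity
  have hcpos : 0 < ‖c‖ := norm_pos_iff.2 hc0
  set D : ℝ := 2 * (M + ‖c‖) with hD
  have hDpos : 0 < D := by positivity
  set V : E4 := ∫ s in (0:ℝ)..(2 * Real.pi), dirn (y s) with hV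
  set V₀ : E4 := ∫ s in (0:ℝ)..(2 * Real.pi), dirn (ψ s) with hV₀
  set Z : ℝ := (volume {s ∈ Ioc (0:ℝ) (2 * Real.pi) | ψ s = 0}).toReal with hZ
  set Q : ℝ := ∫ s in (0:ℝ)..(2 * Real.pi), orthPart ψ (fun s => dirn (y s)) c s with hQ
  have hdm := measurable_dirn hy
  have i1 : IntervalIntegrable (fun s => inner ℝ (dirn (y s)) c) volume 0 (2 * Real.pi) :=
    intervalIntegrable_of_bdd' (Measurable.inner_const hdm) (C := ‖c‖) (fun s => by
      refine (abs_real_inner_le_norm _ _).trans ?_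
      calc ‖dirn (y s)‖ * ‖c‖ ≤ 1 * ‖c‖ :=
            mul_le_mul_of_nonneg_right (norm_dirn_le _) (norm_nonneg _)
        _ = ‖c‖ := one_mul _) _ _
  have i2 := zero_indicator_integrable hψ ‖c‖ 0 (2 * Real.pi)
  have i3 := (orthPart_intervalIntegrable hψ hdm (fun s => norm_dirn_le (y s)) c 0
    (2 * Real.pi)).div_const D
  have i4 : IntervalIntegrable (fun s => ‖y s + c‖ - ‖y s‖) volume 0 (2 * Real.pi) :=
    Continuous.intervalIntegrable (by fun_prop) _ _
  have hpt : ∀ s ∈ Icc (0:ℝ) (2 * Real.pi),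
      inner ℝ (dirn (y s)) c + (if ψ s = 0 then ‖c‖ else 0)
        + orthPart ψ (fun s => dirn (y s)) c s / D ≤ ‖y s + c‖ - ‖y s‖ := by
    intro s _
    by_cases hs : ψ s = 0
    · have hys := (hz s).2 hs
      have : orthPart ψ (fun s => dirn (y s)) c s = 0 := by
        unfold orthPart
        rw [if_pos hs]
      rw [this, if_pos hs, hys, dirn_zero, inner_zero_left, zero_add, norm_zero]
      simp
    · have hys : y s ≠ 0 := fun h => hs ((hz s).1 h)
      have h1 := norm_add_ge hys c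
      have h2 : orthPart ψ (fun s => dirn (y s)) c s = ‖c‖ ^ 2 - (inner ℝ (dirn (y s)) c) ^ 2 := by
        unfold orthPart
        rw [if_neg hs]
      rw [h2, if_neg hs, add_zero]
      have hP : 0 ≤ ‖c‖ ^ 2 - (inner ℝ (dirn (y s)) c) ^ 2 := by
        linarith [inner_sq_le (norm_dirn_le (y s)) c]
      have h3 : (‖c‖ ^ 2 - (inner ℝ (dirn (y s)) c) ^ 2) / D
          ≤ (‖c‖ ^ 2 - (inner ℝ (dirn (y s)) c) ^ 2) / (2 * (‖y s‖ + ‖c‖)) := by
        apply div_le_div_of_nonneg_left hP (by positivity)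
        rw [hD]
        linarith [hM s]
      linarith
  have hint := intervalIntegral.integral_mono_on two_pi_pos'.le ((i1.add i2).add i3) i4 hpt
  have e1 : ∫ s in (0:ℝ)..(2 * Real.pi), (inner ℝ (dirn (y s)) c + (if ψ s = 0 then ‖c‖ else 0)
        + orthPart ψ (fun s => dirn (y s)) c s / D) = inner ℝ V c + Z * ‖c‖ + Q / D := by
    rw [intervalIntegral.integral_add (i1.add i2) i3, intervalIntegral.integral_add i1 i2,
      volume_zero_eq hψ, intervalIntegral.integral_div]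
    congr 2
    have h5 := (innerSL ℝ c).intervalIntegral_comp_comm (dirn_intervalIntegrable hy 0 (2 * Real.pi))
    simp only [innerSL_apply_apply] at h5
    rw [real_inner_comm, hV, ← h5]
    congr 1
    funext s
    exact real_inner_comm _ _
  have e2 : ∫ s in (0:ℝ)..(2 * Real.pi), (‖y s + c‖ - ‖y s‖) ≤ 0 := by
    rw [intervalIntegral.integral_sub (Continuous.intervalIntegrable (by fun_prop) _ _)
      (Continuous.intervalIntegrable (by fun_prop) _ _)]
    linarith
  have e3 : inner ℝ V c + Z * ‖c‖ + Q / D ≤ 0 := by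
    rw [← e1]
    exact hint.trans e2
  have e4 : ‖V₀‖ ≤ Z := ha
  have e5 : - (Z * ‖c‖) ≤ inner ℝ V₀ c := by
    have h1 := (abs_le.1 (abs_real_inner_le_norm V₀ c)).1
    have h2 := mul_le_mul_of_nonneg_right e4 (norm_nonneg c)
    linarith
  have e6 : - (δ * ‖c‖) ≤ inner ℝ (V - V₀) c := by
    have h1 := (abs_le.1 (abs_real_inner_le_norm (V - V₀) c)).1
    have h2 := mul_le_mul_of_nonneg_right hδ (norm_nonneg c)
    linarith
  rw [inner_sub_left] at e6
  have e7 : Q / D ≤ δ * ‖c‖ := by linarith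
  rw [div_le_iff₀ hDpos] at e7
  have e8 : lam * ‖c‖ * ‖c‖ ≤ (2 * δ * (M + ‖c‖)) * ‖c‖ := by
    calc lam * ‖c‖ * ‖c‖ = lam * ‖c‖ ^ 2 := by ring
      _ ≤ Q := hlam
      _ ≤ δ * ‖c‖ * D := e7
      _ = (2 * δ * (M + ‖c‖)) * ‖c‖ := by rw [hD]; ring
  exact le_of_mul_le_mul_right e8 hcpos

/-- Every continuous loop has a median. -/
theorem exists_median {y : ℝ → E4} (hy : Continuous y) :
    ∃ c : E4, ∀ c' : E4, (∫ s in (0:ℝ)..(2 * Real.pi), ‖y s + c‖) ≤
      ∫ s in (0:ℝ)..(2 * Real.pi), ‖y s + c'‖ := by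
  have hint : ∀ c : E4, IntervalIntegrable (fun s => ‖y s + c‖) volume 0 (2 * Real.pi) :=
    fun c => Continuous.intervalIntegrable (by fun_prop) _ _
  have hlip : ∀ c c' : E4, (∫ s in (0:ℝ)..(2 * Real.pi), ‖y s + c‖) ≤
      (∫ s in (0:ℝ)..(2 * Real.pi), ‖y s + c'‖) + 2 * Real.pi * ‖c - c'‖ := by
    intro c c'
    have h1 : (∫ s in (0:ℝ)..(2 * Real.pi), ‖y s + c‖) ≤
        ∫ s in (0:ℝ)..(2 * Real.pi), (‖y s + c'‖ + ‖c - c'‖) := by
      apply intervalIntegral.integral_mono_on two_pi_pos'.le (hint c)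
        ((hint c').add intervalIntegrable_const)
      intro s _
      have : y s + c = (y s + c') + (c - c') := by abel
      rw [this]
      exact norm_add_le _ _
    rw [intervalIntegral.integral_add (hint c') intervalIntegrable_const,
      intervalIntegral.integral_const, sub_zero, smul_eq_mul] at h1
    exact h1
  have hcont : Continuous fun c : E4 => ∫ s in (0:ℝ)..(2 * Real.pi), ‖y s + c‖ := by
    rw [Metric.continuous_iff]
    intro c ε hε
    refine ⟨ε / (2 * Real.pi), by positivity, fun c' hc' => ?_⟩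
    rw [dist_eq_norm] at hc'
    rw [lt_div_iff₀ two_pi_pos'] at hc'
    rw [Real.dist_eq, abs_lt]
    have h1 := hlip c c'
    have h2 := hlip c' c
    rw [norm_sub_rev] at h1
    constructor <;> linarith
  have hcoer : Tendsto (fun c : E4 => ∫ s in (0:ℝ)..(2 * Real.pi), ‖y s + c‖)
      (cocompact E4) atTop := by
    have h1 : Tendsto (fun c : E4 => 2 * Real.pi * ‖c‖ - ∫ s in (0:ℝ)..(2 * Real.pi), ‖y s‖)
        (cocompact E4) atTop := by
      apply tendsto_atTop_add_const_right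
      exact (tendsto_norm_cocompact_atTop).const_mul_atTop two_pi_pos'
    refine tendsto_atTop_mono (fun c => ?_) h1
    have h2 : (∫ s in (0:ℝ)..(2 * Real.pi), (‖c‖ - ‖y s‖)) ≤
        ∫ s in (0:ℝ)..(2 * Real.pi), ‖y s + c‖ := by
      apply intervalIntegral.integral_mono_on two_pi_pos'.le
        (Continuous.intervalIntegrable (by fun_prop) _ _) (hint c)
      intro s _
      have := norm_sub_le (y s + c) (y s)
      rw [add_sub_cancel_left] at this
      linarith
    rw [intervalIntegral.integral_sub intervalIntegrable_const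
      (Continuous.intervalIntegrable (by fun_prop) _ _), intervalIntegral.integral_const,
      sub_zero, smul_eq_mul] at h2
    exact h2
  obtain ⟨c, hc⟩ := hcont.exists_forall_le hcoer
  exact ⟨c, hc⟩

/-- The loop shifted to its median is admissible. -/
theorem exists_adm_shift {y : ℝ → E4} (hy : Continuous y) :
    ∃ c : E4, Adm (fun s => y s + c) ∧
      (∫ s in (0:ℝ)..(2 * Real.pi), ‖y s + c‖) ≤ ∫ s in (0:ℝ)..(2 * Real.pi), ‖y s‖ := by
  obtain ⟨c, hc⟩ := exists_median hy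
  refine ⟨c, ?_, by simpa using hc 0⟩
  rw [adm_iff_median (by fun_prop)]
  intro c'
  have := hc (c + c')
  simpa [add_assoc] using this

/-- Coercivity: if `ψ` takes two different directions, the orthogonal part is controlled. -/
theorem orthPart_coercive {ψ : ℝ → E4} (hψ : Continuous ψ)
    (hper : Function.Periodic ψ (2 * Real.pi)) {s₁ s₂ : ℝ} (h1 : ψ s₁ ≠ 0) (h2 : ψ s₂ ≠ 0)
    (h12 : |inner ℝ (dirn (ψ s₁)) (dirn (ψ s₂))| < 1) :
    ∃ lam > 0, ∀ c : E4, lam * ‖c‖ ^ 2 ≤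
      ∫ s in (0:ℝ)..(2 * Real.pi), orthPart ψ (fun s => dirn (ψ s)) c s := by
  set r : ℝ := |inner ℝ (dirn (ψ s₁)) (dirn (ψ s₂))| with hr
  set ε : ℝ := (1 - r) / 8 with hε
  have hε0 : 0 < ε := by
    rw [hε]
    linarith
  -- local estimate
  have hloc : ∀ t : ℝ, ψ t ≠ 0 → ∃ ρ > 0, ρ ≤ 1 ∧ ∀ s ∈ Icc t (t + ρ), ψ s ≠ 0 ∧
      ‖dirn (ψ s) - dirn (ψ t)‖ ≤ ε := by
    intro t ht
    have hn : 0 < ‖ψ t‖ := norm_pos_iff.2 ht
    have c1 : ∀ᶠ s in 𝓝 t, ψ s ≠ 0 := hψ.continuousAt.eventually_ne ht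
    have c2 : ∀ᶠ s in 𝓝 t, 2 * ‖ψ s - ψ t‖ / ‖ψ t‖ < ε := by
      have hcc : ContinuousAt (fun s => 2 * ‖ψ s - ψ t‖ / ‖ψ t‖) t := by fun_prop
      apply hcc.eventually_lt_const
      simp only [sub_self, norm_zero, mul_zero, zero_div]
      exact hε0
    obtain ⟨ρ, hρ, hball⟩ := Metric.eventually_nhds_iff.1 (c1.and c2)
    refine ⟨min (ρ / 2) 1, lt_min (by positivity) one_pos, min_le_right _ _, fun s hs => ?_⟩
    have h3 : dist s t < ρ := by
      rw [Real.dist_eq, abs_of_nonneg (by linarith [hs.1])]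
      have := hs.2
      have := min_le_left (ρ / 2) 1
      linarith
    have h4 := hball h3
    exact ⟨h4.1, (dirn_sub_le ht _).trans h4.2.le⟩
  obtain ⟨ρ₁, hρ₁, hρ₁1, hs₁⟩ := hloc s₁ h1
  obtain ⟨ρ₂, hρ₂, hρ₂1, hs₂⟩ := hloc s₂ h2
  set ρ : ℝ := min ρ₁ ρ₂ with hρ
  have hρ0 : 0 < ρ := lt_min hρ₁ hρ₂
  have hρ1 : ρ ≤ 1 := (min_le_left _ _).trans hρ₁1
  have hdm := measurable_dirn hψ
  have hII : ∀ c a b, IntervalIntegrable (orthPart ψ (fun s => dirn (ψ s)) c) volume a b :=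
    fun c a b => orthPart_intervalIntegrable hψ hdm (fun s => norm_dirn_le (ψ s)) c a b
  have hpart : ∀ t : ℝ, (∀ s ∈ Icc t (t + ρ), ψ s ≠ 0 ∧ ‖dirn (ψ s) - dirn (ψ t)‖ ≤ ε) →
      ∀ c : E4, ρ * (‖c‖ ^ 2 - (inner ℝ (dirn (ψ t)) c) ^ 2 - 2 * ε * ‖c‖ ^ 2) ≤
        ∫ s in (0:ℝ)..(2 * Real.pi), orthPart ψ (fun s => dirn (ψ s)) c s := by
    intro t ht c
    have hperO : Function.Periodic (orthPart ψ (fun s => dirn (ψ s)) c) (2 * Real.pi) := by
      intro s
      unfold orthPart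
      simp only [hper s]
    have e1 := hperO.intervalIntegral_add_eq 0 t
    rw [zero_add] at e1
    rw [e1]
    have hle : t + ρ ≤ t + 2 * Real.pi := by
      have := Real.pi_gt_three
      linarith
    rw [← intervalIntegral.integral_add_adjacent_intervals (hII c t (t + ρ))
      (hII c (t + ρ) (t + 2 * Real.pi))]
    have e2 : 0 ≤ ∫ s in (t + ρ)..(t + 2 * Real.pi), orthPart ψ (fun s => dirn (ψ s)) c s :=
      intervalIntegral.integral_nonneg hle (fun s _ =>
        orthPart_nonneg (fun s => norm_dirn_le (ψ s)) c s)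
    have e3 : ∫ s in t..(t + ρ), (‖c‖ ^ 2 - (inner ℝ (dirn (ψ t)) c) ^ 2 - 2 * ε * ‖c‖ ^ 2) ≤
        ∫ s in t..(t + ρ), orthPart ψ (fun s => dirn (ψ s)) c s := by
      apply intervalIntegral.integral_mono_on (by linarith) intervalIntegrable_const (hII c _ _)
      intro s hs
      obtain ⟨g1, g2⟩ := ht s hs
      unfold orthPart
      rw [if_neg g1]
      have g3 := orth_diff (norm_dirn_le (ψ s)) (norm_dirn_le (ψ t)) c
      have g4 := mul_le_mul_of_nonneg_right g2 (sq_nonneg ‖c‖)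
      linarith
    rw [intervalIntegral.integral_const, smul_eq_mul] at e3
    have e4 : t + ρ - t = ρ := by ring
    rw [e4] at e3
    linarith
  refine ⟨ρ * (1 - r) / 4, by
    have : 0 < 1 - r := by linarith
    positivity, fun c => ?_⟩
  have k1 := hpart s₁ (fun s hs => hs₁ s ⟨hs.1, hs.2.trans (by
    have := min_le_left ρ₁ ρ₂
    linarith)⟩) c
  have k2 := hpart s₂ (fun s hs => hs₂ s ⟨hs.1, hs.2.trans (by
    have := min_le_right ρ₁ ρ₂
    linarith)⟩) c
  have k3 := two_dir (norm_dirn h1) (norm_dirn h2) c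
  have k4 := mul_le_mul_of_nonneg_left k3 hρ0.le
  rw [← hr] at k4
  have k5 : ρ * (1 - r) / 4 * ‖c‖ ^ 2
      = (ρ * ((1 - r) * ‖c‖ ^ 2) - 4 * (ρ * (ε * ‖c‖ ^ 2))) / 2 := by
    rw [hε]
    ring
  rw [k5]
  linarith

end Ovals2801
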