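import Pool.Agent.Lib.MP_2801bd_mp.Defs
import Mathlib.MeasureTheory.Integral.DominatedConvergence
import Mathlib.Analysis.Calculus.Deriv.Mul
import Mathlib.Analysis.Real.Pi.Bounds

/-!
# MP_2801bd_mp: from second differences to a second order differential equation
-/

open MeasureTheory Set Filter Topology

namespace Ovals2801

/-- A continuous function with the midpoint property is affine. -/
theorem affine_of_midpoint {χ : ℝ → E4} (hc : Continuous χ) {s₀ ρ : ℝ} (hρ : 0 < ρ)
    (hmid : ∀ m h : ℝ, 0 ≤ h → s₀ - ρ ≤ m - h → m + h ≤ s₀ + ρ →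
      (2:ℝ) • χ m = χ (m - h) + χ (m + h)) :
    ∃ β : E4, ∀ s ∈ Ioo (s₀ - ρ / 2) (s₀ + ρ / 2), HasDerivAt χ β s := by
  set ε : ℝ := ρ / 2 with hε
  have hε0 : 0 < ε := by positivity
  have hint : ∀ a b, IntervalIntegrable χ volume a b := fun a b => hc.intervalIntegrable a b
  set Q : ℝ → E4 := fun t => ∫ s in (0:ℝ)..t, χ s with hQ
  have hQd : ∀ t, HasDerivAt Q (χ t) t := fun t => (hc.integral_hasStrictDerivAt 0 t).hasDerivAt
  have key : ∀ m ∈ Ioo (s₀ - ε) (s₀ + ε), χ m = (2 * ε)⁻¹ • (Q (m + ε) - Q (m - ε)) := by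
    intro m hm
    have h1 : ∫ h in (0:ℝ)..ε, (2:ℝ) • χ m = ∫ h in (0:ℝ)..ε, (χ (m - h) + χ (m + h)) := by
      apply intervalIntegral.integral_congr
      intro h hh
      rw [uIcc_of_le hε0.le] at hh
      exact hmid m h hh.1 (by linarith [hh.2, hm.1]) (by linarith [hh.2, hm.2])
    have h2 : ∫ h in (0:ℝ)..ε, (χ (m - h) + χ (m + h)) = Q (m + ε) - Q (m - ε) := by
      have k1 : IntervalIntegrable (fun h => χ (m - h)) volume 0 ε :=
        Continuous.intervalIntegrable (by fun_prop) _ _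
      have k2 : IntervalIntegrable (fun h => χ (m + h)) volume 0 ε :=
        Continuous.intervalIntegrable (by fun_prop) _ _
      rw [intervalIntegral.integral_add k1 k2,
        intervalIntegral.integral_comp_sub_left (fun s => χ s) m,
        intervalIntegral.integral_comp_add_left (fun s => χ s) m, sub_zero, add_zero,
        intervalIntegral.integral_add_adjacent_intervals (hint _ _) (hint _ _)]
      have h3 := intervalIntegral.integral_add_adjacent_intervals (hint 0 (m - ε))
        (hint (m - ε) (m + ε))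
      simp only [hQ]
      rw [← h3]
      abel
    rw [intervalIntegral.integral_const, h2, sub_zero, smul_smul] at h1
    rw [← h1, smul_smul]
    have h4 : (2 * ε)⁻¹ * (ε * 2) = 1 := by
      field_simp
    rw [h4, one_smul]
  have hβ : ∀ m ∈ Ioo (s₀ - ε) (s₀ + ε), χ (m + ε) - χ (m - ε) = χ (s₀ + ε) - χ (s₀ - ε) := by
    intro m hm
    have e1 := hmid ((m + s₀) / 2) ((m - s₀) / 2 + ε) (by linarith [hm.1]) (by linarith [hm.1])
      (by linarith [hm.2])
    have e2 := hmid ((m + s₀) / 2) (ε - (m - s₀) / 2) (by linarith [hm.2]) (by linarith [hm.1])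
      (by linarith [hm.2])
    have a1 : (m + s₀) / 2 - ((m - s₀) / 2 + ε) = s₀ - ε := by ring
    have a2 : (m + s₀) / 2 + ((m - s₀) / 2 + ε) = m + ε := by ring
    have a3 : (m + s₀) / 2 - (ε - (m - s₀) / 2) = m - ε := by ring
    have a4 : (m + s₀) / 2 + (ε - (m - s₀) / 2) = s₀ + ε := by ring
    rw [a1, a2] at e1
    rw [a3, a4] at e2
    rw [e1] at e2
    rw [sub_eq_sub_iff_add_eq_add]
    rw [add_comm (χ (m + ε)), e2, add_comm]
  refine ⟨(2 * ε)⁻¹ • (χ (s₀ + ε) - χ (s₀ - ε)), fun s hs => ?_⟩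
  have h1 : HasDerivAt (fun m => (2 * ε)⁻¹ • (Q (m + ε) - Q (m - ε)))
      ((2 * ε)⁻¹ • (χ (s + ε) - χ (s - ε))) s := by
    have d1 : HasDerivAt (fun m => Q (m + ε)) (χ (s + ε)) s :=
      (hQd (s + ε)).comp_add_const s ε
    have d2 : HasDerivAt (fun m => Q (m - ε)) (χ (s - ε)) s :=
      (hQd (s - ε)).comp_sub_const s ε
    exact (d1.sub d2).const_smul ((2 * ε)⁻¹)
  rw [hβ s hs] at h1
  refine h1.congr_of_eventuallyEq ?_
  filter_upwards [isOpen_Ioo.mem_nhds hs] with m hm
  exact key m hm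

/-- From the formula for the second differences to the differential equation. -/
theorem ode_of_second_diff {ψ : ℝ → E4} (hψ : Continuous ψ) {f : ℝ → E4}
    (hf : ∀ s, ψ s ≠ 0 → ContinuousAt f s)
    (hmid : ∀ m h : ℝ, 0 < h → h < Real.pi → (∀ s ∈ Icc (m - h) (m + h), ψ s ≠ 0) →
      ψ (m - h) + ψ (m + h) - (2:ℝ) • ψ m =
        (∫ s in (m - h)..m, (h + (s - m)) • f s) + ∫ s in m..(m + h), (h - (s - m)) • f s) :
    ∃ p : ℝ → E4, ∀ s, ψ s ≠ 0 → HasDerivAt ψ (p s) s ∧ HasDerivAt p (f s) s := by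
  refine ⟨deriv ψ, fun s₀ hs₀ => ?_⟩
  -- a neighbourhood without zeros
  obtain ⟨ρ₀, hρ₀, hball⟩ := Metric.eventually_nhds_iff.1
    (hψ.continuousAt.eventually_ne hs₀)
  set ρ : ℝ := min (ρ₀ / 2) 1 with hρd
  have hρ : 0 < ρ := lt_min (by positivity) one_pos
  have hρ1 : ρ ≤ 1 := min_le_right _ _
  have hρ2 : ρ < ρ₀ := lt_of_le_of_lt (min_le_left _ _) (by linarith)
  have hne : ∀ s ∈ Icc (s₀ - ρ) (s₀ + ρ), ψ s ≠ 0 := by
    intro s hs
    apply hball
    rw [Real.dist_eq, abs_lt]
    constructor <;> linarith [hs.1, hs.2]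
  -- the continuous extension of `f`
  set cl : ℝ → ℝ := fun s => max (s₀ - ρ) (min (s₀ + ρ) s) with hcl
  have hclc : Continuous cl := by fun_prop
  have hclm : ∀ s, cl s ∈ Icc (s₀ - ρ) (s₀ + ρ) := fun s =>
    ⟨le_max_left _ _, max_le (by linarith) (min_le_left _ _)⟩
  have hcle : ∀ s ∈ Icc (s₀ - ρ) (s₀ + ρ), cl s = s := by
    intro s hs
    simp only [hcl]
    rw [min_eq_right hs.2, max_eq_right hs.1]
  set F₀ : ℝ → E4 := fun s => f (cl s) with hF₀
  have hF₀c : Continuous F₀ := by
    rw [continuous_iff_continuousAt]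
    intro s
    exact (hf _ (hne _ (hclm s))).comp hclc.continuousAt
  set F : ℝ → E4 := fun s => ∫ t in s₀..s, F₀ t with hF
  have hFd : ∀ s, HasDerivAt F (F₀ s) s := fun s =>
    (hF₀c.integral_hasStrictDerivAt s₀ s).hasDerivAt
  have hFc : Continuous F := continuous_iff_continuousAt.2 fun s => (hFd s).continuousAt
  set Φ : ℝ → E4 := fun s => ∫ t in s₀..s, F t with hΦ
  have hΦd : ∀ s, HasDerivAt Φ (F s) s := fun s =>
    (hFc.integral_hasStrictDerivAt s₀ s).hasDerivAt
  have hΦc : Continuous Φ := continuous_iff_continuousAt.2 fun s => (hΦd s).continuousAt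
  -- the midpoint property
  have hmidχ : ∀ m h : ℝ, 0 ≤ h → s₀ - ρ ≤ m - h → m + h ≤ s₀ + ρ →
      (2:ℝ) • (ψ m - Φ m) = (ψ (m - h) - Φ (m - h)) + (ψ (m + h) - Φ (m + h)) := by
    intro m h hh h1 h2
    rcases eq_or_lt_of_le hh with h0 | h0
    · rw [← h0, sub_zero, add_zero, two_smul]
    have h3 := hmid m h h0 (by linarith [Real.pi_gt_three]) (fun s hs =>
      hne s ⟨by linarith [hs.1], by linarith [hs.2]⟩)
    have i1 : ∫ s in (m - h)..m, (h + (s - m)) • f s
        = (h • F m - Φ m) - (- Φ (m - h)) := by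
      have e1 : ∫ s in (m - h)..m, (h + (s - m)) • f s
          = ∫ s in (m - h)..m, ((1:ℝ) • F s + (h + (s - m)) • F₀ s - F s) := by
        apply intervalIntegral.integral_congr
        intro s hs
        rw [uIcc_of_le (by linarith)] at hs
        simp only [hF₀]
        rw [hcle s ⟨by linarith [hs.1], by linarith [hs.2]⟩, one_smul]
        abel
      rw [e1]
      have e2 : ∀ s ∈ uIcc (m - h) m, HasDerivAt (fun s => (h + (s - m)) • F s - Φ s)
          ((1:ℝ) • F s + (h + (s - m)) • F₀ s - F s) s := by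
        intro s _
        have d1 : HasDerivAt (fun s : ℝ => h + (s - m)) 1 s := by
          simpa using ((hasDerivAt_id s).sub_const m).const_add h
        have d2 := (d1.smul (hFd s)).sub (hΦd s)
        refine d2.congr_deriv ?_
        abel
      rw [intervalIntegral.integral_eq_sub_of_hasDerivAt e2
        (Continuous.intervalIntegrable (by fun_prop) _ _)]
      have a1 : h + (m - m) = h := by ring
      have a2 : h + (m - h - m) = 0 := by ring
      rw [a1, a2, zero_smul, zero_sub]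
    have i2 : ∫ s in m..(m + h), (h - (s - m)) • f s
        = Φ (m + h) - (h • F m + Φ m) := by
      have e1 : ∫ s in m..(m + h), (h - (s - m)) • f s
          = ∫ s in m..(m + h), ((-1:ℝ) • F s + (h - (s - m)) • F₀ s + F s) := by
        apply intervalIntegral.integral_congr
        intro s hs
        rw [uIcc_of_le (by linarith)] at hs
        simp only [hF₀]
        rw [hcle s ⟨by linarith [hs.1], by linarith [hs.2]⟩, neg_smul, one_smul]
        abel
      rw [e1]
      have e2 : ∀ s ∈ uIcc m (m + h), HasDerivAt (fun s => (h - (s - m)) • F s + Φ s)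
          ((-1:ℝ) • F s + (h - (s - m)) • F₀ s + F s) s := by
        intro s _
        have d1 : HasDerivAt (fun s : ℝ => h - (s - m)) (-1) s := by
          simpa using ((hasDerivAt_id s).sub_const m).const_sub h
        have d2 := (d1.smul (hFd s)).add (hΦd s)
        refine d2.congr_deriv ?_
        abel
      rw [intervalIntegral.integral_eq_sub_of_hasDerivAt e2
        (Continuous.intervalIntegrable (by fun_prop) _ _)]
      have a1 : h - (m + h - m) = 0 := by ring
      have a2 : h - (m - m) = h := by ring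
      rw [a1, a2, zero_smul, zero_add]
    rw [i1, i2] at h3
    have h4 : (2:ℝ) • ψ m = ψ (m - h) + ψ (m + h)
        - ((h • F m - Φ m) - (- Φ (m - h)) + (Φ (m + h) - (h • F m + Φ m))) := by
      rw [← h3]
      abel
    rw [smul_sub, h4, two_smul]
    abel
  obtain ⟨β, hβ⟩ := affine_of_midpoint (χ := fun s => ψ s - Φ s) (hψ.sub hΦc) hρ hmidχ
  have hder : ∀ s ∈ Ioo (s₀ - ρ / 2) (s₀ + ρ / 2), HasDerivAt ψ (β + F s) s := by
    intro s hs
    have h1 := (hβ s hs).add (hΦd s)
    refine h1.congr_of_eventuallyEq (Eventually.of_forall fun t => ?_)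
    simp
  have hs₀m : s₀ ∈ Ioo (s₀ - ρ / 2) (s₀ + ρ / 2) := ⟨by linarith, by linarith⟩
  refine ⟨?_, ?_⟩
  · have h1 := hder s₀ hs₀m
    rw [h1.deriv]
    exact h1
  · have h1 : HasDerivAt (fun s => β + F s) (F₀ s₀) s₀ := (hFd s₀).const_add β
    have h2 : F₀ s₀ = f s₀ := by
      simp only [hF₀]
      rw [hcle s₀ ⟨by linarith, by linarith⟩]
    rw [h2] at h1
    refine h1.congr_of_eventuallyEq ?_
    filter_upwards [isOpen_Ioo.mem_nhds hs₀m] with s hs
    exact (hder s hs).deriv

end Ovals2801
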