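import Pool.Agent.Lib.MP_2801bd_mp.ELVar
import Pool.Agent.Lib.MP_2801bd_mp.ELHat
import Pool.Agent.Lib.MP_2801bd_mp.ELMid
import Mathlib.LinearAlgebra.Dual.Lemmas

/-!
# MP_2801bd_mp: the Euler-Lagrange equation of a minimiser
-/

open MeasureTheory Set Filter Topology

namespace Ovals2801

variable {ψ g ζ k v : ℝ → E4} {e : ℝ}

/-- The space of test loops, with their derivatives. -/
def testSpace (ψ : ℝ → E4) : Submodule ℝ ((ℝ → E4) × (ℝ → E4)) where
  carrier := {x | IsTest ψ x.1 x.2}
  add_mem' := by
    rintro ⟨v, k⟩ ⟨v', k'⟩ h h'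
    obtain ⟨d, hd, hs⟩ := h.supp
    obtain ⟨d', hd', hs'⟩ := h'.supp
    refine ⟨h.loop.add h'.loop, min d d', lt_min hd hd', fun s hne => ?_⟩
    by_cases h0 : v s = 0
    · have h1 : v' s ≠ 0 := by
        intro h2
        apply hne
        show v s + v' s = 0
        rw [h0, h2, add_zero]
      exact (min_le_right _ _).trans (hs' s h1)
    · exact (min_le_left _ _).trans (hs s h0)
  zero_mem' := by
    refine ⟨H1Loop.const 0, 1, one_pos, fun s hs => ?_⟩
    exact absurd rfl hs
  smul_mem' := by
    rintro c ⟨v, k⟩ h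
    obtain ⟨d, hd, hs⟩ := h.supp
    refine ⟨h.loop.smul c, d, hd, fun s hne => ?_⟩
    apply hs
    intro h0
    apply hne
    have h1 : v s = 0 := h0
    show c • v s = 0
    rw [h1, smul_zero]

/-- The weak form of the Euler-Lagrange equation. -/
theorem weak_EL (he : 0 < e) (h : IsMin ψ g e) {lam : ℝ} (hlam : 0 < lam)
    (hL : ∀ c : E4, lam * ‖c‖ ^ 2 ≤
      ∫ s in (0:ℝ)..(2 * Real.pi), orthPart ψ (fun s => dirn (ψ s)) c s) :
    ∃ a : E4, ∀ v k : ℝ → E4, IsTest ψ v k →
      (∫ s in (0:ℝ)..(2 * Real.pi), inner ℝ (g s) (k s))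
        = (e * ∫ s in (0:ℝ)..(2 * Real.pi), inner ℝ (ψ s) (v s))
          + inner ℝ a (∫ s in (0:ℝ)..(2 * Real.pi), Hop (ψ s) (v s)) := by
  have hψ := h.loop.continuous
  -- the linear functionals
  let B : testSpace ψ →ₗ[ℝ] ℝ :=
    { toFun := fun x => (∫ s in (0:ℝ)..(2 * Real.pi), inner ℝ (g s) (x.1.2 s))
        - e * ∫ s in (0:ℝ)..(2 * Real.pi), inner ℝ (ψ s) (x.1.1 s)
      map_add' := by
        rintro ⟨⟨v, k⟩, h1⟩ ⟨⟨v', k'⟩, h2⟩
        have g1 : IsTest ψ v k := h1
        have g2 : IsTest ψ v' k' := h2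
        have hv := g1.loop.continuous
        have hv' := g2.loop.continuous
        show (∫ s in (0:ℝ)..(2 * Real.pi), inner ℝ (g s) (k s + k' s))
          - e * (∫ s in (0:ℝ)..(2 * Real.pi), inner ℝ (ψ s) (v s + v' s))
          = ((∫ s in (0:ℝ)..(2 * Real.pi), inner ℝ (g s) (k s))
              - e * ∫ s in (0:ℝ)..(2 * Real.pi), inner ℝ (ψ s) (v s))
            + ((∫ s in (0:ℝ)..(2 * Real.pi), inner ℝ (g s) (k' s))
              - e * ∫ s in (0:ℝ)..(2 * Real.pi), inner ℝ (ψ s) (v' s))
        simp only [inner_add_right]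
        rw [intervalIntegral.integral_add (h1_inner_intervalIntegrable h.loop g1.loop _ _)
          (h1_inner_intervalIntegrable h.loop g2.loop _ _),
          intervalIntegral.integral_add (Continuous.intervalIntegrable (by fun_prop) _ _)
          (Continuous.intervalIntegrable (by fun_prop) _ _)]
        ring
      map_smul' := by
        rintro c ⟨⟨v, k⟩, h1⟩
        show (∫ s in (0:ℝ)..(2 * Real.pi), inner ℝ (g s) (c • k s))
          - e * (∫ s in (0:ℝ)..(2 * Real.pi), inner ℝ (ψ s) (c • v s))
          = c * ((∫ s in (0:ℝ)..(2 * Real.pi), inner ℝ (g s) (k s))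
              - e * ∫ s in (0:ℝ)..(2 * Real.pi), inner ℝ (ψ s) (v s))
        simp only [inner_smul_right]
        rw [intervalIntegral.integral_const_mul, intervalIntegral.integral_const_mul]
        ring }
  let W : testSpace ψ →ₗ[ℝ] E4 :=
    { toFun := fun x => ∫ s in (0:ℝ)..(2 * Real.pi), Hop (ψ s) (x.1.1 s)
      map_add' := by
        rintro ⟨⟨v, k⟩, h1⟩ ⟨⟨v', k'⟩, h2⟩
        have g1 : IsTest ψ v k := h1
        have g2 : IsTest ψ v' k' := h2
        show (∫ s in (0:ℝ)..(2 * Real.pi), Hop (ψ s) (v s + v' s))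
          = (∫ s in (0:ℝ)..(2 * Real.pi), Hop (ψ s) (v s))
            + ∫ s in (0:ℝ)..(2 * Real.pi), Hop (ψ s) (v' s)
        simp only [Hop_add]
        rw [intervalIntegral.integral_add ((g1.hop_continuous hψ).intervalIntegrable _ _)
          ((g2.hop_continuous hψ).intervalIntegrable _ _)]
      map_smul' := by
        rintro c ⟨⟨v, k⟩, h1⟩
        show (∫ s in (0:ℝ)..(2 * Real.pi), Hop (ψ s) (c • v s))
          = c • ∫ s in (0:ℝ)..(2 * Real.pi), Hop (ψ s) (v s)
        simp only [Hop_smul]
        rw [intervalIntegral.integral_smul] }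
  let bas := EuclideanSpace.basisFun (Fin 4) ℝ
  let L : Fin 4 → (testSpace ψ →ₗ[ℝ] ℝ) := fun i =>
    ((innerSL ℝ (bas i)).toLinearMap).comp W
  have hker : ⨅ i, LinearMap.ker (L i) ≤ LinearMap.ker B := by
    intro x hx
    rw [Submodule.mem_iInf] at hx
    have hW : W x = 0 := by
      ext i
      have h1 := hx i
      rw [LinearMap.mem_ker] at h1
      have h2 : L i x = inner ℝ (bas i) (W x) := rfl
      rw [h2, EuclideanSpace.basisFun_inner] at h1
      exact h1
    rw [LinearMap.mem_ker]
    obtain ⟨⟨v, k⟩, h1⟩ := x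
    have g1 : IsTest ψ v k := h1
    obtain ⟨τ₀, hτ₀, C, hC⟩ := small_shift h.loop h.adm g1 hW hlam hL
    have h2 := var_eq he h g1.loop hτ₀ hC
    show (∫ s in (0:ℝ)..(2 * Real.pi), inner ℝ (g s) (k s))
          - e * (∫ s in (0:ℝ)..(2 * Real.pi), inner ℝ (ψ s) (v s)) = 0
    rw [h2, sub_self]
  obtain ⟨c, hc⟩ := (Submodule.mem_span_range_iff_exists_fun ℝ).1
    (mem_span_of_iInf_ker_le_ker hker)
  refine ⟨∑ i, c i • bas i, fun v k ht => ?_⟩
  have h1 := LinearMap.congr_fun hc ⟨⟨v, k⟩, ht⟩
  have h2 : B ⟨⟨v, k⟩, ht⟩ = (∫ s in (0:ℝ)..(2 * Real.pi), inner ℝ (g s) (k s))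
        - e * ∫ s in (0:ℝ)..(2 * Real.pi), inner ℝ (ψ s) (v s) := rfl
  have h3 : (∑ i, c i • L i) ⟨⟨v, k⟩, ht⟩
      = inner ℝ (∑ i, c i • bas i) (∫ s in (0:ℝ)..(2 * Real.pi), Hop (ψ s) (v s)) := by
    rw [LinearMap.sum_apply, sum_inner]
    apply Finset.sum_congr rfl
    intro i _
    rw [inner_smul_left]
    rfl
  rw [h2, h3] at h1
  linarith

theorem Hop_continuousAt {ψ : ℝ → E4} (hψ : Continuous ψ) (a : E4) {s : ℝ} (hs : ψ s ≠ 0) :
    ContinuousAt (fun s => Hop (ψ s) a) s := by
  have hn : ‖ψ s‖ ≠ 0 := norm_ne_zero_iff.2 hs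
  unfold Hop
  have c1 : ContinuousAt (fun t => ‖ψ t‖⁻¹) s := by
    have : ContinuousAt (fun t => ‖ψ t‖) s := by fun_prop
    exact this.inv₀ hn
  have c2 : ContinuousAt (fun t => inner ℝ (ψ t) a / ‖ψ t‖ ^ 2) s := by
    apply ContinuousAt.div
    · fun_prop
    · fun_prop
    · exact pow_ne_zero 2 hn
  exact c1.smul (continuousAt_const.sub (c2.smul hψ.continuousAt))

theorem force_continuousAt {ψ : ℝ → E4} (hψ : Continuous ψ) (e : ℝ) (a : E4) {s : ℝ}
    (hs : ψ s ≠ 0) : ContinuousAt (fun s => force e a (ψ s)) s := by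
  have h1 : (fun s => force e a (ψ s)) = fun s => -(e • ψ s) + Hop (ψ s) a := by
    funext t
    exact force_eq e a (ψ t)
  rw [h1]
  exact ((hψ.const_smul e).neg.continuousAt).add (Hop_continuousAt hψ a hs)

/-- The hat loops are test loops. -/
theorem hatLoop_isTest (h : H1Loop ψ g) {m r : ℝ} (hr : 0 < r) (hpi : r < Real.pi) (w : E4)
    (hne : ∀ s ∈ Icc (m - r) (m + r), ψ s ≠ 0) :
    IsTest ψ (hatLoop m r w) (hatLoopD m r w) := by
  refine ⟨hatLoop_h1 hr hpi w, ?_⟩
  obtain ⟨t, ht, hmin⟩ := isCompact_Icc.exists_isMinOn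
    (nonempty_Icc.2 (by linarith : m - r ≤ m + r)) (h.continuous.norm.continuousOn)
  refine ⟨‖ψ t‖, norm_pos_iff.2 (hne t ht), fun s hs => ?_⟩
  obtain ⟨t', ht', h2⟩ := hatLoop_support h.per hs
  rw [h2]
  exact hmin ht'

/-- Multiplying by positive scalars keeps a loop admissible. -/
theorem adm_of_scalar {ψ y : ℝ → E4} (ha : Adm ψ) (h : ∀ s, ∃ t : ℝ, 0 < t ∧ y s = t • ψ s) :
    Adm y := by
  unfold Adm at ha ⊢
  have e1 : (fun s => ‖y s‖⁻¹ • y s) = fun s => ‖ψ s‖⁻¹ • ψ s := by
    funext s
    obtain ⟨t, ht0, hts⟩ := h s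
    rw [hts]
    exact dirn_smul ht0
  have e2 : {s ∈ Ioc (0:ℝ) (2 * Real.pi) | y s = 0}
      = {s ∈ Ioc (0:ℝ) (2 * Real.pi) | ψ s = 0} := by
    ext s
    obtain ⟨t, ht0, hts⟩ := h s
    simp only [mem_setOf_eq, hts, smul_eq_zero, ht0.ne', false_or]
  rw [e1, e2]
  exact ha

/-- M2. The Euler-Lagrange equation of a minimiser. -/
theorem isMin_EL {ψ g : ℝ → E4} {e : ℝ} (he : 0 < e) (h : IsMin ψ g e) :
    ∃ (p : ℝ → E4) (μ : E4), EL ψ p e μ := by
  have hψ := h.loop.continuous
  by_cases hcol : ∃ s₁ s₂ : ℝ, ψ s₁ ≠ 0 ∧ ψ s₂ ≠ 0 ∧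
      |inner ℝ (dirn (ψ s₁)) (dirn (ψ s₂))| < 1
  · -- the generic case
    obtain ⟨s₁, s₂, h1, h2, h12⟩ := hcol
    obtain ⟨lam, hlam, hL⟩ := orthPart_coercive hψ h.loop.per h1 h2 h12
    obtain ⟨a, ha⟩ := weak_EL he h hlam hL
    obtain ⟨p, hp⟩ := ode_of_second_diff hψ (f := fun s => force e (-a) (ψ s))
      (fun s hs => force_continuousAt hψ e (-a) hs) (by
        intro m r hr hpi hne
        apply ext_inner_right ℝ
        intro w
        have ht := hatLoop_isTest h.loop hr hpi w hne
        have hw := ha _ _ ht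
        rw [hatLoopD_pair hr hpi w h.loop] at hw
        -- the right hand side as one pairing
        have hHc := ht.hop_continuous hψ
        have hvc := ht.loop.continuous
        have e1 : (e * ∫ s in (0:ℝ)..(2 * Real.pi), inner ℝ (ψ s) (hatLoop m r w s))
            + inner ℝ a (∫ s in (0:ℝ)..(2 * Real.pi), Hop (ψ s) (hatLoop m r w s))
            = ∫ s in (0:ℝ)..(2 * Real.pi),
              inner ℝ (-(force e (-a) (ψ s))) (hatLoop m r w s) := by
          have h5 := (innerSL ℝ a).intervalIntegral_comp_comm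
            (hHc.intervalIntegrable (μ := volume) 0 (2 * Real.pi))
          simp only [innerSL_apply_apply] at h5
          rw [← h5, ← intervalIntegral.integral_const_mul,
            ← intervalIntegral.integral_add (Continuous.intervalIntegrable (by fun_prop) _ _)
              (Continuous.intervalIntegrable (by fun_prop) _ _)]
          congr 1
          funext s
          have e2 : Hop (ψ s) (-a) = - Hop (ψ s) a := by
            have := Hop_smul (ψ s) (-1) a
            rwa [neg_smul, neg_smul, one_smul, one_smul] at this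
          rw [force_eq, e2, inner_Hop, inner_neg_left, inner_add_left, inner_neg_left,
            inner_neg_left, inner_smul_left]
          simp only [conj_trivial]
          ring
        rw [e1, hatLoop_pair hr hpi w (Ψ := fun s => -(force e (-a) (ψ s)))
          (fun s => by simp only [h.loop.per s])
          (fun s hs => ((force_continuousAt hψ e (-a) (hne s hs)).neg).continuousWithinAt)] at hw
        rw [neg_eq_iff_eq_neg, ← inner_neg_left] at hw
        rw [hw]
        congr 1
        rw [neg_add, ← intervalIntegral.integral_neg, ← intervalIntegral.integral_neg]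
        simp only [smul_neg, neg_neg])
    exact ⟨p, -a, hp⟩
  · -- the collinear case
    push Not at hcol
    have hex : ∃ s₁, ψ s₁ ≠ 0 := by
      by_contra hcon
      push Not at hcon
      have h1 := h.pos
      unfold Mass at h1
      simp [hcon] at h1
    obtain ⟨s₁, hs₁⟩ := hex
    set ν : E4 := dirn (ψ s₁) with hν
    have hν1 : ‖ν‖ = 1 := norm_dirn hs₁
    have hline : ∀ s, ψ s = inner ℝ (ψ s) ν • ν := by
      intro s
      by_cases hs : ψ s = 0
      · rw [hs, inner_zero_left, zero_smul]
      have h1 := hcol s s₁ hs hs₁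
      have hn : 0 < ‖ψ s‖ := norm_pos_iff.2 hs
      rw [← hν, dirn, inner_smul_left, conj_trivial, abs_mul, abs_of_pos (inv_pos.2 hn),
        inv_mul_eq_div, le_div_iff₀ hn, one_mul] at h1
      have h2 : ‖ψ s - inner ℝ (ψ s) ν • ν‖ ^ 2 = 0 := by
        rw [norm_sub_sq_real, inner_smul_right, norm_smul, hν1, mul_one, Real.norm_eq_abs, sq_abs]
        have h3 : ‖ψ s‖ ^ 2 ≤ (inner ℝ (ψ s) ν) ^ 2 := by
          rw [← sq_abs (inner ℝ (ψ s) ν)]
          exact pow_le_pow_left₀ (norm_nonneg _) h1 2
        have h4 : (inner ℝ (ψ s) ν) ^ 2 ≤ ‖ψ s‖ ^ 2 := by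
          rw [real_inner_comm]
          exact inner_sq_le hν1.le _
        nlinarith
      have h5 := pow_eq_zero_iff (two_ne_zero) |>.1 h2
      exact sub_eq_zero.1 (norm_eq_zero.1 h5)
    obtain ⟨p, hp⟩ := ode_of_second_diff hψ (f := fun s => force e 0 (ψ s))
      (fun s hs => force_continuousAt hψ e 0 hs) (by
        intro m r hr hpi hne
        have ht := hatLoop_isTest h.loop hr hpi ν hne
        obtain ⟨d, hd, hsupp⟩ := ht.supp
        obtain ⟨Cv, hCv0, hCv⟩ := ht.loop.bdd
        have hfl : ∀ s, hatLoop m r ν s = inner ℝ (hatLoop m r ν s) ν • ν := by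
          intro s
          unfold hatLoop perExt
          rw [inner_smul_left, real_inner_self_eq_norm_sq, hν1]
          simp
        have hw := var_eq he h ht.loop (τ₀ := d / (2 * (Cv + 1))) (C := 0) (by positivity)
          (fun τ hτ => by
            refine ⟨0, by simp, ?_⟩
            -- the direction does not change
            refine adm_of_scalar h.adm ?_
            show ∀ s, ∃ t : ℝ, 0 < t ∧ ψ s + τ • hatLoop m r ν s + 0 = t • ψ s
            intro s
            by_cases hs : hatLoop m r ν s = 0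
            · exact ⟨1, one_pos, by rw [hs, smul_zero, add_zero, add_zero, one_smul]⟩
            have h1 := hsupp s hs
            set f : ℝ := inner ℝ (ψ s) ν with hf
            set z : ℝ := inner ℝ (hatLoop m r ν s) ν with hz
            have h2 : ‖ψ s‖ = |f| := by
              rw [hline s, norm_smul, hν1, mul_one, Real.norm_eq_abs]
            have h3 : |z| ≤ Cv := by
              rw [← Real.norm_eq_abs]
              have := hCv s
              rw [hfl s, norm_smul, hν1, mul_one] at this
              exact this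
            have h4 : |τ| * |z| ≤ d / 2 := by
              rw [le_div_iff₀ (by positivity)] at hτ
              have := mul_le_mul_of_nonneg_left h3 (abs_nonneg τ)
              nlinarith [abs_nonneg τ]
            have hf0 : 0 < |f| := by
              rw [← h2]
              linarith
            have hfne : f ≠ 0 := abs_pos.1 hf0
            refine ⟨1 + τ * z / f, ?_, ?_⟩
            · have h5 : |τ * z / f| ≤ 1 / 2 := by
                rw [abs_div, abs_mul, div_le_iff₀ hf0]
                rw [h2] at h1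
                linarith
              have := (abs_le.1 h5).1
              linarith
            · rw [hline s, hfl s, ← hf, ← hz, smul_smul, smul_smul, add_zero, ← add_smul]
              congr 1
              field_simp)
        rw [hatLoopD_pair hr hpi ν h.loop] at hw
        have e1 : (e * ∫ s in (0:ℝ)..(2 * Real.pi), inner ℝ (ψ s) (hatLoop m r ν s))
            = ∫ s in (0:ℝ)..(2 * Real.pi),
              inner ℝ (e • ψ s) (hatLoop m r ν s) := by
          rw [← intervalIntegral.integral_const_mul]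
          congr 1
          funext s
          rw [inner_smul_left, conj_trivial]
        rw [e1, hatLoop_pair hr hpi ν (Ψ := fun s => e • ψ s)
          (fun s => by simp only [h.loop.per s]) (hψ.const_smul e).continuousOn] at hw
        rw [neg_eq_iff_eq_neg, ← inner_neg_left] at hw
        -- everything is a multiple of `ν`
        have hforce : ∀ s, force e 0 (ψ s) = -(e • ψ s) := by
          intro s
          rw [force_eq, Hop_zero_right, add_zero]
        simp only [hforce, smul_neg]
        rw [intervalIntegral.integral_neg, intervalIntegral.integral_neg, ← neg_add]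
        set X : E4 := ψ (m - r) + ψ (m + r) - (2:ℝ) • ψ m with hX
        set Y : E4 := -((∫ s in (m - r)..m, (r + (s - m)) • e • ψ s)
          + ∫ s in m..(m + r), (r - (s - m)) • e • ψ s) with hY
        have hXl : X = inner ℝ X ν • ν := by
          rw [hX, inner_sub_left, inner_add_left, inner_smul_left, conj_trivial, sub_smul,
            add_smul, mul_smul, ← hline, ← hline, ← hline]
        have hvec : ∀ (a b : ℝ) (q : ℝ → ℝ), Continuous q →
            ∫ s in a..b, q s • e • ψ s = inner ℝ (∫ s in a..b, q s • e • ψ s) ν • ν := by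
          intro a b q hq
          have h1 : ∀ s, q s • e • ψ s = (q s * (e * inner ℝ (ψ s) ν)) • ν := by
            intro s
            conv_lhs => rw [hline s]
            rw [smul_smul, smul_smul, mul_assoc]
          simp only [h1]
          rw [intervalIntegral.integral_smul_const, inner_smul_left, conj_trivial,
            real_inner_self_eq_norm_sq, hν1]
          simp
        have hYl : Y = inner ℝ Y ν • ν := by
          rw [hY, inner_neg_left, inner_add_left, neg_smul, add_smul,
            ← hvec (m - r) m (fun s => r + (s - m)) (by fun_prop),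
            ← hvec m (m + r) (fun s => r - (s - m)) (by fun_prop)]
        rw [hXl, hYl, hw])
    exact ⟨p, 0, hp⟩

end Ovals2801
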