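import Mathlib.Analysis.SpecialFunctions.Sqrt
import Mathlib.Analysis.Calculus.ContDiff.Deriv
import Mathlib.Analysis.Calculus.Deriv.Shift
import Pool.Agent.Lib.MP_2801bd_mp.Defs

/-!
# MP_2801bd_mp: from positive functions to all functions

The inequality for positive periodic functions gives it for all periodic functions, by
`φ ↦ sqrt (φ² + ε²)`.
-/

open MeasureTheory Set
open scoped ContDiff

namespace Ovals2801

theorem main_of_pos {γ : ℝ → EuclideanSpace ℝ (Fin 3)} (hγ : ContDiff ℝ ∞ γ)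
    (h : ∀ φ : ℝ → ℝ, ContDiff ℝ ∞ φ → Function.Periodic φ (2 * Real.pi) → (∀ s, 0 < φ s) →
      (∫ s in (0 : ℝ)..(2 * Real.pi), (φ s) ^ 2) ≤
          ∫ s in (0 : ℝ)..(2 * Real.pi),
            ((deriv φ s) ^ 2 + ‖deriv (deriv γ) s‖ ^ 2 * (φ s) ^ 2))
    {φ : ℝ → ℝ} (hφ : ContDiff ℝ ∞ φ) (hφper : Function.Periodic φ (2 * Real.pi)) :
    (∫ s in (0 : ℝ)..(2 * Real.pi), (φ s) ^ 2) ≤
          ∫ s in (0 : ℝ)..(2 * Real.pi),
            ((deriv φ s) ^ 2 + ‖deriv (deriv γ) s‖ ^ 2 * (φ s) ^ 2) := by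
  have hγ' : ContDiff ℝ ∞ (deriv γ) := (contDiff_infty_iff_deriv.mp hγ).2
  have hγ'' : ContDiff ℝ ∞ (deriv (deriv γ)) := (contDiff_infty_iff_deriv.mp hγ').2
  have hφ' : ContDiff ℝ ∞ (deriv φ) := (contDiff_infty_iff_deriv.mp hφ).2
  have hdφ : ∀ s, HasDerivAt φ (deriv φ s) s := fun s =>
    ((hφ.differentiable (by simp)) s).hasDerivAt
  have hpi : (0:ℝ) ≤ 2 * Real.pi := by positivity
  have hk : Continuous (fun s => ‖deriv (deriv γ) s‖ ^ 2) := hγ''.continuous.norm.pow 2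
  set K : ℝ := ∫ s in (0 : ℝ)..(2 * Real.pi), ‖deriv (deriv γ) s‖ ^ 2 with hK
  have hKnn : 0 ≤ K := by
    rw [hK]
    exact intervalIntegral.integral_nonneg hpi (fun s _ => by positivity)
  -- the inequality with an error term
  have hmain : ∀ ε : ℝ, 0 < ε → (∫ s in (0 : ℝ)..(2 * Real.pi), (φ s) ^ 2) ≤
      (∫ s in (0 : ℝ)..(2 * Real.pi),
            ((deriv φ s) ^ 2 + ‖deriv (deriv γ) s‖ ^ 2 * (φ s) ^ 2)) + ε ^ 2 * K := by
    intro ε hε
    have hp : ∀ s, 0 < φ s ^ 2 + ε ^ 2 := fun s => by positivity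
    set χ : ℝ → ℝ := fun s => Real.sqrt (φ s ^ 2 + ε ^ 2) with hχ
    have hχc : ContDiff ℝ ∞ χ := ((hφ.pow 2).add contDiff_const).sqrt (fun s => (hp s).ne')
    have hχper : Function.Periodic χ (2 * Real.pi) := by
      intro s
      simp only [hχ]
      rw [hφper]
    have hχpos : ∀ s, 0 < χ s := fun s => Real.sqrt_pos.mpr (hp s)
    have hχsq : ∀ s, χ s ^ 2 = φ s ^ 2 + ε ^ 2 := fun s => Real.sq_sqrt (hp s).le
    have hχ' : ContDiff ℝ ∞ (deriv χ) := (contDiff_infty_iff_deriv.mp hχc).2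
    have hdχ : ∀ s, deriv χ s ^ 2 ≤ deriv φ s ^ 2 := by
      intro s
      have h1 : HasDerivAt χ (deriv χ s) s := ((hχc.differentiable (by simp)) s).hasDerivAt
      have h2 : HasDerivAt (fun t => χ t ^ 2) (2 * χ s ^ (2 - 1) * deriv χ s) s := by
        have := h1.fun_pow 2
        exact_mod_cast this
      have h3 : HasDerivAt (fun t => χ t ^ 2) (2 * φ s ^ (2 - 1) * deriv φ s) s := by
        have h4 : (fun t => χ t ^ 2) = fun t => φ t ^ 2 + ε ^ 2 := funext hχsq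
        rw [h4]
        have := ((hdφ s).fun_pow 2).add_const (ε ^ 2)
        exact_mod_cast this
      have h5 := h2.unique h3
      norm_num at h5
      have h6 : χ s * deriv χ s = φ s * deriv φ s := by linarith
      have h7 : χ s ^ 2 * deriv χ s ^ 2 = φ s ^ 2 * deriv φ s ^ 2 := by
        rw [← mul_pow, h6, mul_pow]
      have h8 : χ s ^ 2 * deriv χ s ^ 2 ≤ χ s ^ 2 * deriv φ s ^ 2 := by
        rw [h7, hχsq]
        nlinarith [sq_nonneg (deriv φ s), mul_nonneg (sq_nonneg ε) (sq_nonneg (deriv φ s))]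
      exact le_of_mul_le_mul_left h8 (pow_pos (hχpos s) 2)
    have h1 := h χ hχc hχper hχpos
    have i1 : IntervalIntegrable (fun s => φ s ^ 2) volume 0 (2 * Real.pi) :=
      (hφ.continuous.pow 2).intervalIntegrable _ _
    have i2 : IntervalIntegrable (fun s => χ s ^ 2) volume 0 (2 * Real.pi) :=
      (hχc.continuous.pow 2).intervalIntegrable _ _
    have h2 : (∫ s in (0 : ℝ)..(2 * Real.pi), (φ s) ^ 2) ≤
        ∫ s in (0 : ℝ)..(2 * Real.pi), (χ s) ^ 2 := by
      refine intervalIntegral.integral_mono_on hpi i1 i2 (fun s _ => ?_)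
      rw [hχsq]
      nlinarith [sq_nonneg ε]
    have h3 : (∫ s in (0 : ℝ)..(2 * Real.pi),
          ((deriv χ s) ^ 2 + ‖deriv (deriv γ) s‖ ^ 2 * (χ s) ^ 2)) ≤
        ∫ s in (0 : ℝ)..(2 * Real.pi),
          (((deriv φ s) ^ 2 + ‖deriv (deriv γ) s‖ ^ 2 * (φ s) ^ 2) +
            ε ^ 2 * ‖deriv (deriv γ) s‖ ^ 2) := by
      refine intervalIntegral.integral_mono_on hpi ?_ ?_ (fun s _ => ?_)
      · exact ((hχ'.continuous.pow 2).add
          (hk.mul (hχc.continuous.pow 2))).intervalIntegrable _ _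
      · exact (((hφ'.continuous.pow 2).add (hk.mul (hφ.continuous.pow 2))).add
          (continuous_const.mul hk)).intervalIntegrable _ _
      · rw [hχsq]
        have := hdχ s
        nlinarith
    have h4 : (∫ s in (0 : ℝ)..(2 * Real.pi),
          (((deriv φ s) ^ 2 + ‖deriv (deriv γ) s‖ ^ 2 * (φ s) ^ 2) +
            ε ^ 2 * ‖deriv (deriv γ) s‖ ^ 2)) =
        (∫ s in (0 : ℝ)..(2 * Real.pi),
          ((deriv φ s) ^ 2 + ‖deriv (deriv γ) s‖ ^ 2 * (φ s) ^ 2)) + ε ^ 2 * K := by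
      rw [intervalIntegral.integral_add, intervalIntegral.integral_const_mul]
      · exact ((hφ'.continuous.pow 2).add (hk.mul (hφ.continuous.pow 2))).intervalIntegrable _ _
      · exact (continuous_const.mul hk).intervalIntegrable _ _
    linarith
  -- let `ε` tend to zero
  refine le_of_forall_pos_le_add (fun δ hδ => ?_)
  obtain ⟨ε, hε, hεδ⟩ : ∃ ε : ℝ, 0 < ε ∧ ε ^ 2 * K ≤ δ := by
    refine ⟨Real.sqrt (δ / (K + 1)), Real.sqrt_pos.mpr (by positivity), ?_⟩
    rw [Real.sq_sqrt (by positivity), div_mul_eq_mul_div, div_le_iff₀ (by positivity)]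
    nlinarith
  have := hmain ε hε
  linarith

end Ovals2801
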