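import Mathlib.Analysis.SpecialFunctions.Pow.Real
import Mathlib.Tactic.LinearCombination
import Mathlib.Tactic.FieldSimp

/-!
# MP_2801bd_mp: flexing three side lengths
-/

namespace Ovals2801

/-- M3a. Three side lengths, the middle one negative, can be flexed. -/
theorem flex_angles {B₁ B₂ B₃ : ℝ} (h1 : 0 < B₁) (h2 : B₂ < 0) (h3 : 0 < B₃)
    (h : 0 < B₁ + B₂ + B₃) :
    ∃ c₁ s₁ c₂ s₂ c₃ s₃ : ℝ, c₁ ^ 2 + s₁ ^ 2 = 1 ∧ c₂ ^ 2 + s₂ ^ 2 = 1 ∧ c₃ ^ 2 + s₃ ^ 2 = 1 ∧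
      B₁ * c₁ + B₂ * c₂ + B₃ * c₃ = B₁ + B₂ + B₃ ∧ B₁ * s₁ + B₂ * s₂ + B₃ * s₃ = 0 ∧
      (c₁ ≠ c₂ ∨ s₁ ≠ s₂) := by
  obtain ⟨S, hS⟩ : ∃ S, S = B₁ + B₂ + B₃ := ⟨_, rfl⟩
  rw [← hS] at h
  have hlt : (B₁ + B₂) ^ 2 < min ((B₁ - B₂) ^ 2) ((S + B₃) ^ 2) := by
    refine lt_min ?_ ?_
    · nlinarith [mul_neg_of_pos_of_neg h1 h2]
    · have : B₁ + B₂ = S - B₃ := by rw [hS]; ring
      rw [this]
      nlinarith [mul_pos h h3]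
  obtain ⟨δ, hδ1, hδ2⟩ := exists_between hlt
  have hδ3 : δ < (B₁ - B₂) ^ 2 := lt_of_lt_of_le hδ2 (min_le_left _ _)
  have hδ4 : δ < (S + B₃) ^ 2 := lt_of_lt_of_le hδ2 (min_le_right _ _)
  have hδ0 : 0 < δ := lt_of_le_of_lt (sq_nonneg _) hδ1
  have hδ1' : (S - B₃) ^ 2 < δ := by
    have : B₁ + B₂ = S - B₃ := by rw [hS]; ring
    rw [← this]; exact hδ1
  have hSB : 0 < 2 * S * B₃ := by positivity
  obtain ⟨c₃, hc₃⟩ : ∃ c, c = (S ^ 2 + B₃ ^ 2 - δ) / (2 * S * B₃) := ⟨_, rfl⟩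
  have hc₃' : 2 * S * B₃ * c₃ = S ^ 2 + B₃ ^ 2 - δ := by
    rw [hc₃]; field_simp
  have hc₃1 : c₃ < 1 := by
    rw [hc₃, div_lt_one hSB]; nlinarith
  have hc₃2 : -1 < c₃ := by
    rw [hc₃, lt_div_iff₀ hSB]; nlinarith
  obtain ⟨s₃, hs₃⟩ : ∃ s, s = Real.sqrt (1 - c₃ ^ 2) := ⟨_, rfl⟩
  have hs₃' : s₃ ^ 2 = 1 - c₃ ^ 2 := by
    rw [hs₃, Real.sq_sqrt]; nlinarith
  obtain ⟨x, hx⟩ : ∃ x, x = S - B₃ * c₃ := ⟨_, rfl⟩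
  obtain ⟨y, hy⟩ : ∃ y, y = -(B₃ * s₃) := ⟨_, rfl⟩
  have hxy : x ^ 2 + y ^ 2 = δ := by
    rw [hx, hy]
    linear_combination B₃ ^ 2 * hs₃' - hc₃'
  obtain ⟨k, hk⟩ : ∃ k, k = (δ + B₁ ^ 2 - B₂ ^ 2) / (2 * B₁) := ⟨_, rfl⟩
  have hk' : 2 * B₁ * k = δ + B₁ ^ 2 - B₂ ^ 2 := by
    rw [hk]; field_simp
  have hkδ : k ^ 2 ≤ δ := by
    have e1 : (2 * B₁) ^ 2 * (k ^ 2 - δ) = (δ - (B₁ + B₂) ^ 2) * (δ - (B₁ - B₂) ^ 2) := by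
      linear_combination (2 * B₁ * k + (δ + B₁ ^ 2 - B₂ ^ 2)) * hk'
    have e2 : (δ - (B₁ + B₂) ^ 2) * (δ - (B₁ - B₂) ^ 2) < 0 :=
      mul_neg_of_pos_of_neg (by linarith) (by linarith)
    have e3 : 0 < (2 * B₁) ^ 2 := by positivity
    by_contra hcon
    push Not at hcon
    have : 0 < (2 * B₁) ^ 2 * (k ^ 2 - δ) := mul_pos e3 (by linarith)
    linarith
  obtain ⟨q, hq⟩ : ∃ q, q = Real.sqrt (δ - k ^ 2) := ⟨_, rfl⟩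
  have hq' : q ^ 2 = δ - k ^ 2 := by
    rw [hq, Real.sq_sqrt]; linarith
  obtain ⟨c₁, hc₁⟩ : ∃ c, c = (x * k - y * q) / δ := ⟨_, rfl⟩
  obtain ⟨s₁, hs₁⟩ : ∃ s, s = (x * q + y * k) / δ := ⟨_, rfl⟩
  have hc₁' : δ * c₁ = x * k - y * q := by rw [hc₁]; field_simp
  have hs₁' : δ * s₁ = x * q + y * k := by rw [hs₁]; field_simp
  have hz1 : c₁ ^ 2 + s₁ ^ 2 = 1 := by
    have e : δ ^ 2 * (c₁ ^ 2 + s₁ ^ 2) = δ ^ 2 * 1 := by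
      have e1 : δ ^ 2 * (c₁ ^ 2 + s₁ ^ 2) = (x * k - y * q) ^ 2 + (x * q + y * k) ^ 2 := by
        rw [← hc₁', ← hs₁']; ring
      rw [e1]
      have e2 : (x * k - y * q) ^ 2 + (x * q + y * k) ^ 2 = (x ^ 2 + y ^ 2) * (k ^ 2 + q ^ 2) := by
        ring
      rw [e2, hxy, hq']; ring
    exact mul_left_cancel₀ (by positivity) e
  have hre : x * c₁ + y * s₁ = k := by
    have e : δ * (x * c₁ + y * s₁) = δ * k := by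
      have e1 : δ * (x * c₁ + y * s₁) = x * (δ * c₁) + y * (δ * s₁) := by ring
      rw [e1, hc₁', hs₁', ← hxy]; ring
    exact mul_left_cancel₀ hδ0.ne' e
  obtain ⟨c₂, hc₂⟩ : ∃ c, c = (x - B₁ * c₁) / B₂ := ⟨_, rfl⟩
  obtain ⟨s₂, hs₂⟩ : ∃ s, s = (y - B₁ * s₁) / B₂ := ⟨_, rfl⟩
  have hB₂ : B₂ ≠ 0 := h2.ne
  have hc₂' : B₂ * c₂ = x - B₁ * c₁ := by rw [hc₂]; field_simp
  have hs₂' : B₂ * s₂ = y - B₁ * s₁ := by rw [hs₂]; field_simp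
  have hz2 : c₂ ^ 2 + s₂ ^ 2 = 1 := by
    have e : B₂ ^ 2 * (c₂ ^ 2 + s₂ ^ 2) = B₂ ^ 2 * 1 := by
      have e1 : B₂ ^ 2 * (c₂ ^ 2 + s₂ ^ 2) = (x - B₁ * c₁) ^ 2 + (y - B₁ * s₁) ^ 2 := by
        rw [← hc₂', ← hs₂']; ring
      rw [e1]
      linear_combination hxy - 2 * B₁ * hre + B₁ ^ 2 * hz1 - hk'
    exact mul_left_cancel₀ (by positivity) e
  refine ⟨c₁, s₁, c₂, s₂, c₃, s₃, hz1, hz2, by linarith, ?_, ?_, ?_⟩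
  · rw [← hS]; linarith
  · linarith
  · by_contra hcon
    push Not at hcon
    obtain ⟨e1, e2⟩ := hcon
    rw [← e1] at hc₂'
    rw [← e2] at hs₂'
    have e3 : x = (B₁ + B₂) * c₁ := by linarith
    have e4 : y = (B₁ + B₂) * s₁ := by linarith
    have e5 : δ = (B₁ + B₂) ^ 2 := by
      rw [← hxy, e3, e4]
      linear_combination (B₁ + B₂) ^ 2 * hz1
    linarith

end Ovals2801
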