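import Pool.Agent.Lib.MP_2801bd_mp.Defs
import Pool.Agent.Lib.MP_2801bd_mp.FlexCore
import Mathlib.Analysis.Calculus.Deriv.MeanValue
import Mathlib.Analysis.Convex.Deriv
import Mathlib.Analysis.SpecialFunctions.ExpDeriv
import Mathlib.Analysis.SpecialFunctions.Integrals.Basic
import Mathlib.MeasureTheory.Integral.IntervalIntegral.Periodic
import Mathlib.Analysis.InnerProductSpace.Calculus
import Mathlib.Tactic

/-!
# MP_2801bd_mp: planarity of minimisers (M4), up to the Euler-Lagrange equation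
-/

open MeasureTheory Set
open scoped ContDiff

namespace Ovals2801

/-! ### Elementary lemmas -/

lemma planar_hasDerivAt_inner (n : E4) {ψ : ℝ → E4} {v : E4} {t : ℝ} (h : HasDerivAt ψ v t) :
    HasDerivAt (fun s => inner ℝ n (ψ s)) (inner ℝ n v) t := by
  have := (innerSL ℝ n).hasFDerivAt.comp_hasDerivAt t h
  exact this

lemma planar_inner_force (n μ x : E4) (e : ℝ) :
    inner ℝ n (force e μ x) = -(e * inner ℝ n x) +
      ‖x‖⁻¹ * (inner ℝ n μ - inner ℝ x μ / ‖x‖ ^ 2 * inner ℝ n x) := by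
  unfold force
  rw [inner_add_right, inner_neg_right, inner_smul_right, inner_smul_right, inner_sub_right,
    inner_smul_right]

lemma planar_lin_ode {y v a : ℝ → ℝ} {K s₁ s : ℝ}
    (hy : ∀ t ∈ uIcc s₁ s, HasDerivAt y (v t) t)
    (hv : ∀ t ∈ uIcc s₁ s, HasDerivAt v (a t * y t) t) (ha : ∀ t ∈ uIcc s₁ s, |a t| ≤ K)
    (h0 : y s₁ = 0) (h1 : v s₁ = 0) : y s = 0 ∧ v s = 0 := by
  have hE : ∀ t ∈ uIcc s₁ s, HasDerivAt (fun t => y t ^ 2 + v t ^ 2)
      (2 * (1 + a t) * (y t * v t)) t := by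
    intro t ht
    have h : HasDerivAt (fun t => y t ^ 2 + v t ^ 2) _ t :=
      ((hy t ht).pow 2).add ((hv t ht).pow 2)
    refine h.congr_deriv ?_
    push_cast
    ring
  have hb : ∀ t ∈ uIcc s₁ s, |2 * (1 + a t) * (y t * v t)| ≤ (1 + K) * (y t ^ 2 + v t ^ 2) := by
    intro t ht
    have h1 := ha t ht
    have h2 : |1 + a t| ≤ 1 + K := by
      have := abs_add_le 1 (a t)
      rw [abs_one] at this
      linarith
    have h3 : |2 * (y t * v t)| ≤ y t ^ 2 + v t ^ 2 := by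
      rw [abs_le]
      constructor <;> nlinarith [sq_nonneg (y t + v t), sq_nonneg (y t - v t)]
    calc |2 * (1 + a t) * (y t * v t)| = |1 + a t| * |2 * (y t * v t)| := by
          rw [← abs_mul]; ring_nf
      _ ≤ (1 + K) * (y t ^ 2 + v t ^ 2) :=
          mul_le_mul h2 h3 (abs_nonneg _) (le_trans (abs_nonneg _) h2)
  have hfin : y s ^ 2 + v s ^ 2 ≤ 0 → y s = 0 ∧ v s = 0 := by
    intro h
    constructor
    · nlinarith [sq_nonneg (y s), sq_nonneg (v s)]
    · nlinarith [sq_nonneg (y s), sq_nonneg (v s)]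
  rcases le_total s₁ s with hle | hle
  · rw [uIcc_of_le hle] at hE hb
    have hF : ∀ t ∈ Icc s₁ s, HasDerivAt (fun t => (y t ^ 2 + v t ^ 2) * Real.exp (-(1 + K) * t))
        (2 * (1 + a t) * (y t * v t) * Real.exp (-(1 + K) * t) +
          (y t ^ 2 + v t ^ 2) * (Real.exp (-(1 + K) * t) * (-(1 + K)))) t := by
      intro t ht
      have h2 : HasDerivAt (fun t => Real.exp (-(1 + K) * t))
          (Real.exp (-(1 + K) * t) * (-(1 + K))) t := by
        have := ((hasDerivAt_id t).const_mul (-(1 + K))).exp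
        simpa using this
      exact (hE t ht).mul h2
    have hanti : AntitoneOn (fun t => (y t ^ 2 + v t ^ 2) * Real.exp (-(1 + K) * t)) (Icc s₁ s) := by
      apply antitoneOn_of_deriv_nonpos (convex_Icc _ _)
      · exact fun t ht => (hF t ht).continuousAt.continuousWithinAt
      · rw [interior_Icc]
        exact fun t ht => (hF t (Ioo_subset_Icc_self ht)).differentiableAt.differentiableWithinAt
      · rw [interior_Icc]
        intro t ht
        rw [(hF t (Ioo_subset_Icc_self ht)).deriv]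
        have h1 := (abs_le.1 (hb t (Ioo_subset_Icc_self ht))).2
        have h2 := Real.exp_pos (-(1 + K) * t)
        nlinarith
    have := hanti (left_mem_Icc.2 hle) (right_mem_Icc.2 hle) hle
    simp only [h0, h1] at this
    apply hfin
    have h2 := Real.exp_pos (-(1 + K) * s)
    have h3 : (y s ^ 2 + v s ^ 2) * Real.exp (-(1 + K) * s) ≤ 0 := by simpa using this
    exact nonpos_of_mul_nonpos_left h3 h2
  · rw [uIcc_of_ge hle] at hE hb
    have hF : ∀ t ∈ Icc s s₁, HasDerivAt (fun t => (y t ^ 2 + v t ^ 2) * Real.exp ((1 + K) * t))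
        (2 * (1 + a t) * (y t * v t) * Real.exp ((1 + K) * t) +
          (y t ^ 2 + v t ^ 2) * (Real.exp ((1 + K) * t) * (1 + K))) t := by
      intro t ht
      have h2 : HasDerivAt (fun t => Real.exp ((1 + K) * t))
          (Real.exp ((1 + K) * t) * (1 + K)) t := by
        have := ((hasDerivAt_id t).const_mul (1 + K)).exp
        simpa using this
      exact (hE t ht).mul h2
    have hmono : MonotoneOn (fun t => (y t ^ 2 + v t ^ 2) * Real.exp ((1 + K) * t)) (Icc s s₁) := by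
      apply monotoneOn_of_deriv_nonneg (convex_Icc _ _)
      · exact fun t ht => (hF t ht).continuousAt.continuousWithinAt
      · rw [interior_Icc]
        exact fun t ht => (hF t (Ioo_subset_Icc_self ht)).differentiableAt.differentiableWithinAt
      · rw [interior_Icc]
        intro t ht
        rw [(hF t (Ioo_subset_Icc_self ht)).deriv]
        have h1 := (abs_le.1 (hb t (Ioo_subset_Icc_self ht))).1
        have h2 := Real.exp_pos ((1 + K) * t)
        nlinarith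
    have := hmono (left_mem_Icc.2 hle) (right_mem_Icc.2 hle) hle
    simp only [h0, h1] at this
    apply hfin
    have h2 := Real.exp_pos ((1 + K) * s)
    have h3 : (y s ^ 2 + v s ^ 2) * Real.exp ((1 + K) * s) ≤ 0 := by simpa using this
    exact nonpos_of_mul_nonpos_left h3 h2

/-- Step 1: propagation of orthogonality. -/
lemma planar_step1 {ψ p : ℝ → E4} {e : ℝ} {μ : E4} (hEL : EL ψ p e μ) {s₁ s : ℝ} {m : E4}
    (hμ : inner ℝ m μ = 0) (h0 : inner ℝ m (ψ s₁) = 0) (h1 : inner ℝ m (p s₁) = 0)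
    (hne : ∀ t ∈ uIcc s₁ s, ψ t ≠ 0) : inner ℝ m (ψ s) = 0 ∧ inner ℝ m (p s) = 0 := by
  have hcont : ContinuousOn (fun t => -(e + inner ℝ (ψ t) μ / ‖ψ t‖ ^ 3)) (uIcc s₁ s) := by
    intro t ht
    have hψ : ContinuousAt ψ t := (hEL t (hne t ht)).1.continuousAt
    have hn : ‖ψ t‖ ^ 3 ≠ 0 := pow_ne_zero _ (norm_ne_zero_iff.2 (hne t ht))
    exact (((continuousAt_const.add
      ((hψ.inner continuousAt_const).div (hψ.norm.pow 3) hn)).neg)).continuousWithinAt
  obtain ⟨K, hK⟩ := isCompact_uIcc.exists_bound_of_continuousOn hcont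
  refine planar_lin_ode (y := fun t => inner ℝ m (ψ t)) (v := fun t => inner ℝ m (p t))
    (a := fun t => -(e + inner ℝ (ψ t) μ / ‖ψ t‖ ^ 3)) (K := K) (s₁ := s₁) (s := s)
    (fun t ht => planar_hasDerivAt_inner m (hEL t (hne t ht)).1) (fun t ht => ?_) hK h0 h1
  have h := planar_hasDerivAt_inner m (hEL t (hne t ht)).2
  rw [planar_inner_force, hμ] at h
  refine h.congr_deriv ?_
  have hn : ‖ψ t‖ ≠ 0 := norm_ne_zero_iff.2 (hne t ht)
  field_simp
  ring

/-- Sign structure of a convex function. -/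
lemma planar_sign {η : ℝ → ℝ} {a b s : ℝ} (has : a < s) (hsb : s < b) (hc : Continuous η)
    (hconv : ConvexOn ℝ (Icc a b) η) (ha : 0 < η a) (hb : 0 < η b) (hs : η s < 0) :
    ∃ a1 a2, a < a1 ∧ a1 < s ∧ s < a2 ∧ a2 < b ∧ η a1 = 0 ∧ η a2 = 0 ∧
      (∀ t ∈ Ico a a1, 0 < η t) ∧ (∀ t ∈ Ioc a2 b, 0 < η t) ∧ (∀ t ∈ Ioo a1 a2, η t < 0) := by
  have key : ∀ u ∈ Icc a b, ∀ w ∈ Icc a b, ∀ v, u < v → v < w →
      (w - u) * η v ≤ (w - v) * η u + (v - u) * η w := by
    intro u hu w hw v huv hvw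
    have hwu : 0 < w - u := by linarith
    have h := hconv.2 hu hw (show 0 ≤ (w - v) / (w - u) from div_nonneg (by linarith) hwu.le)
      (show 0 ≤ (v - u) / (w - u) from div_nonneg (by linarith) hwu.le)
      (by field_simp; ring)
    have hv : ((w - v) / (w - u)) • u + ((v - u) / (w - u)) • w = v := by
      simp only [smul_eq_mul]; field_simp; ring
    rw [hv] at h
    simp only [smul_eq_mul] at h
    have h2 := mul_le_mul_of_nonneg_left h hwu.le
    have e : (w - u) * ((w - v) / (w - u) * η u + (v - u) / (w - u) * η w) =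
        (w - v) * η u + (v - u) * η w := by field_simp
    rwa [e] at h2
  obtain ⟨a1, ⟨h1a, h1s⟩, h1⟩ := intermediate_value_Ioo' has.le hc.continuousOn
    (show (0 : ℝ) ∈ Ioo (η s) (η a) from ⟨hs, ha⟩)
  obtain ⟨a2, ⟨h2s, h2b⟩, h2⟩ := intermediate_value_Ioo hsb.le hc.continuousOn
    (show (0 : ℝ) ∈ Ioo (η s) (η b) from ⟨hs, hb⟩)
  refine ⟨a1, a2, h1a, h1s, h2s, h2b, h1, h2, ?_, ?_, ?_⟩
  · rintro t ⟨hta, ht1⟩
    have h := key t ⟨hta, by linarith⟩ s ⟨by linarith, by linarith⟩ a1 ht1 h1s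
    rw [h1] at h
    by_contra hcon
    push Not at hcon
    nlinarith [mul_pos (sub_pos.2 ht1) (neg_pos.2 hs)]
  · rintro t ⟨ht2, htb⟩
    have h := key s ⟨by linarith, by linarith⟩ t ⟨by linarith, htb⟩ a2 h2s ht2
    rw [h2] at h
    by_contra hcon
    push Not at hcon
    nlinarith [mul_pos (sub_pos.2 ht2) (neg_pos.2 hs)]
  · rintro t ⟨ht1, ht2⟩
    rcases lt_trichotomy t s with hts | hts | hts
    · have h := key a1 ⟨by linarith, by linarith⟩ s ⟨by linarith, by linarith⟩ t ht1 hts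
      rw [h1] at h
      by_contra hcon
      push Not at hcon
      nlinarith [mul_pos (sub_pos.2 ht1) (neg_pos.2 hs),
        mul_nonneg (sub_pos.2 h1s).le hcon]
    · rw [hts]; exact hs
    · have h := key s ⟨by linarith, by linarith⟩ a2 ⟨by linarith, by linarith⟩ t hts ht2
      rw [h2] at h
      by_contra hcon
      push Not at hcon
      nlinarith [mul_pos (sub_pos.2 ht2) (neg_pos.2 hs),
        mul_nonneg (sub_pos.2 h2s).le hcon]

lemma planar_quad_right {y v w : ℝ → ℝ} {a b k : ℝ}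
    (hy : ∀ t ∈ Icc a b, HasDerivAt y (v t) t) (hv : ∀ t ∈ Icc a b, HasDerivAt v (w t) t)
    (hw : ∀ t ∈ Icc a b, 2 * k ≤ w t) (ha : 0 ≤ v a) :
    ∀ t ∈ Icc a b, y a + k * (t - a) ^ 2 ≤ y t := by
  have hd1 : ∀ t ∈ Icc a b, HasDerivAt (fun t => v t - 2 * k * (t - a)) (w t - 2 * k) t := by
    intro t ht
    have h1 : HasDerivAt (fun t => 2 * k * (t - a)) (2 * k) t := by
      simpa using ((hasDerivAt_id t).sub_const a).const_mul (2 * k)
    exact (hv t ht).sub h1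
  have hm1 : MonotoneOn (fun t => v t - 2 * k * (t - a)) (Icc a b) := by
    apply monotoneOn_of_deriv_nonneg (convex_Icc _ _)
    · exact fun t ht => (hd1 t ht).continuousAt.continuousWithinAt
    · rw [interior_Icc]
      exact fun t ht => (hd1 t (Ioo_subset_Icc_self ht)).differentiableAt.differentiableWithinAt
    · rw [interior_Icc]
      intro t ht
      rw [(hd1 t (Ioo_subset_Icc_self ht)).deriv]
      have := hw t (Ioo_subset_Icc_self ht)
      linarith
  have hd2 : ∀ t ∈ Icc a b, HasDerivAt (fun t => y t - k * (t - a) ^ 2)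
      (v t - 2 * k * (t - a)) t := by
    intro t ht
    have h1 : HasDerivAt (fun t => k * (t - a) ^ 2) (2 * k * (t - a)) t := by
      have := (((hasDerivAt_id t).sub_const a).pow 2).const_mul k
      refine this.congr_deriv ?_
      simp
      ring
    exact (hy t ht).sub h1
  have hm2 : MonotoneOn (fun t => y t - k * (t - a) ^ 2) (Icc a b) := by
    apply monotoneOn_of_deriv_nonneg (convex_Icc _ _)
    · exact fun t ht => (hd2 t ht).continuousAt.continuousWithinAt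
    · rw [interior_Icc]
      exact fun t ht => (hd2 t (Ioo_subset_Icc_self ht)).differentiableAt.differentiableWithinAt
    · rw [interior_Icc]
      intro t ht
      rw [(hd2 t (Ioo_subset_Icc_self ht)).deriv]
      have := hm1 (left_mem_Icc.2 (ht.1.trans ht.2).le) (Ioo_subset_Icc_self ht) ht.1.le
      simp only [sub_self, mul_zero, sub_zero] at this
      linarith
  intro t ht
  have := hm2 (left_mem_Icc.2 (ht.1.trans ht.2)) ht ht.1
  simp only [sub_self, ne_eq, OfNat.ofNat_ne_zero, not_false_eq_true, zero_pow, mul_zero,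
    sub_zero] at this
  linarith

lemma planar_quad_left {y v w : ℝ → ℝ} {a b k : ℝ}
    (hy : ∀ t ∈ Icc a b, HasDerivAt y (v t) t) (hv : ∀ t ∈ Icc a b, HasDerivAt v (w t) t)
    (hw : ∀ t ∈ Icc a b, 2 * k ≤ w t) (hb : v b ≤ 0) :
    ∀ t ∈ Icc a b, y b + k * (t - b) ^ 2 ≤ y t := by
  have hm : ∀ t ∈ Icc (-b) (-a), -t ∈ Icc a b := fun t ht => ⟨by linarith [ht.2], by linarith [ht.1]⟩
  intro t ht
  have h := planar_quad_right (y := fun t => y (-t)) (v := fun t => -v (-t)) (w := fun t => w (-t))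
    (a := -b) (b := -a) (k := k)
    (fun t ht => by
      have h : HasDerivAt (fun t => y (-t)) (v (-t) * -1) t :=
        (hy (-t) (hm t ht)).comp t (hasDerivAt_neg t)
      exact h.congr_deriv (by ring))
    (fun t ht => by
      have h : HasDerivAt (fun t => v (-t)) (w (-t) * -1) t :=
        (hv (-t) (hm t ht)).comp t (hasDerivAt_neg t)
      exact h.neg.congr_deriv (by ring))
    (fun t ht => hw (-t) (hm t ht)) (by simpa using hb) (-t) ⟨by linarith [ht.2], by linarith [ht.1]⟩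
  simp only [neg_neg] at h
  have e : (-t - -b) ^ 2 = (t - b) ^ 2 := by ring
  rw [e] at h
  exact h

lemma planar_abs_le (n x : E4) : |inner ℝ n x / ‖x‖| ≤ ‖n‖ := by
  by_cases hx : x = 0
  · simp [hx]
  · have hx' : 0 < ‖x‖ := norm_pos_iff.2 hx
    rw [abs_div, abs_of_pos hx', div_le_iff₀ hx']
    exact abs_real_inner_le_norm n x

lemma planar_integrable {ψ : ℝ → E4} (hψ : Continuous ψ) (n : E4) (a b : ℝ) :
    IntervalIntegrable (fun s => inner ℝ n (ψ s) / ‖ψ s‖) volume a b := by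
  have hm : Measurable (fun s => inner ℝ n (ψ s) / ‖ψ s‖) :=
    (continuous_const.inner hψ).measurable.div hψ.norm.measurable
  refine (intervalIntegrable_const (c := ‖n‖)).mono_fun hm.aestronglyMeasurable ?_
  filter_upwards with s
  rw [Real.norm_eq_abs, Real.norm_eq_abs, abs_of_nonneg (norm_nonneg n)]
  exact planar_abs_le n (ψ s)

lemma planar_closure {ψ : ℝ → E4} (hψ : Continuous ψ) (hper : Function.Periodic ψ (2 * Real.pi))
    (ha : Adm ψ) (hne : ∀ s, ψ s ≠ 0) (n : E4) (a : ℝ) :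
    ∫ s in a..(a + 2 * Real.pi), inner ℝ n (ψ s) / ‖ψ s‖ = 0 := by
  have hp : Function.Periodic (fun s => inner ℝ n (ψ s) / ‖ψ s‖) (2 * Real.pi) := by
    intro s; simp only [hper s]
  rw [hp.intervalIntegral_add_eq a 0, zero_add]
  have hset : {s ∈ Ioc (0:ℝ) (2 * Real.pi) | ψ s = 0} = ∅ := by
    ext s; simp [hne s]
  unfold Adm at ha
  rw [hset] at ha
  simp only [measure_empty, ENNReal.toReal_zero, norm_le_zero_iff] at ha
  have hint : IntervalIntegrable (fun s => ‖ψ s‖⁻¹ • ψ s) volume 0 (2 * Real.pi) :=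
    ((hψ.norm.inv₀ (fun s => norm_ne_zero_iff.2 (hne s))).smul hψ).intervalIntegrable _ _
  have h := ContinuousLinearMap.intervalIntegral_comp_comm (𝕜 := ℝ) (innerSL ℝ n : E4 →L[ℝ] ℝ) hint
  rw [ha, map_zero] at h
  refine Eq.trans ?_ h
  refine intervalIntegral.integral_congr (fun s _ => ?_)
  simp only [innerSL_apply_apply, inner_smul_right]
  rw [div_eq_inv_mul]

lemma planar_core {ψ : ℝ → E4} (hψ : Continuous ψ) (hper : Function.Periodic ψ (2 * Real.pi))
    (hadm : Adm ψ) {N : E4} {s₁ r c : ℝ} (hr : 0 < r) (hr1 : r ≤ 1) (hc : 0 < c)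
    (hJ : ∀ t ∈ Icc (s₁ - r) (s₁ + r), ψ t ≠ 0)
    (hconv : ConvexOn ℝ (Icc (s₁ - r) (s₁ + r)) (fun t => inner ℝ N (ψ t)))
    (hneg : inner ℝ N (ψ s₁) < 0)
    (hp1 : ∀ t ∈ Icc (s₁ - r) (s₁ - r / 2), c ≤ inner ℝ N (ψ t) / ‖ψ t‖)
    (hp2 : ∀ t ∈ Icc (s₁ + r / 2) (s₁ + r), c ≤ inner ℝ N (ψ t) / ‖ψ t‖)
    (hsm : ∀ t ∈ Icc (s₁ - r) (s₁ + r), -(c / 8) ≤ inner ℝ N (ψ t) / ‖ψ t‖) :
    ∃ a₀ a₁ a₂ a₃ : ℝ, a₀ < a₁ ∧ a₁ < a₂ ∧ a₂ < a₃ ∧ a₃ ≤ a₀ + 2 * Real.pi ∧
      inner ℝ N (ψ a₀) = 0 ∧ inner ℝ N (ψ a₁) = 0 ∧ inner ℝ N (ψ a₂) = 0 ∧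
      inner ℝ N (ψ a₃) = 0 ∧ (∀ s ∈ Ioo a₀ a₃, ψ s ≠ 0) ∧
      (0 < ∫ s in a₀..a₁, inner ℝ N (ψ s) / ‖ψ s‖) ∧
      ((∫ s in a₁..a₂, inner ℝ N (ψ s) / ‖ψ s‖) < 0) ∧
      (0 < ∫ s in a₂..a₃, inner ℝ N (ψ s) / ‖ψ s‖) ∧
      (0 < ∫ s in a₀..a₃, inner ℝ N (ψ s) / ‖ψ s‖) ∧ s₁ - r < a₁ ∧ a₁ < s₁ ∧ s₁ < a₂ := by
  have hpi := Real.two_le_pi
  set y : ℝ → ℝ := fun t => inner ℝ N (ψ t) with hy
  have hyc : Continuous y := continuous_const.inner hψ
  have hyper : Function.Periodic y (2 * Real.pi) := by intro s; simp only [hy, hper s]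
  have hy0 : ∀ s, ψ s = 0 → y s = 0 := by intro s h; simp [hy, h]
  have hpos_of : ∀ t, 0 < y t / ‖ψ t‖ → 0 < y t := by
    intro t h
    by_contra hcon
    push Not at hcon
    have := div_nonpos_of_nonpos_of_nonneg hcon (norm_nonneg (ψ t))
    linarith
  have hya : 0 < y (s₁ - r) := hpos_of _ (lt_of_lt_of_le hc (hp1 _ ⟨le_rfl, by linarith⟩))
  have hyb : 0 < y (s₁ + r) := hpos_of _ (lt_of_lt_of_le hc (hp2 _ ⟨by linarith, le_rfl⟩))
  obtain ⟨a1, a2, h1a, h1s, h2s, h2b, z1, z2, hs1, hs2, hs3⟩ :=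
    planar_sign (by linarith) (by linarith) hyc hconv hya hyb hneg
  have h1r : s₁ - r / 2 < a1 := by
    by_contra hcon
    push Not at hcon
    have h := lt_of_lt_of_le hc (hp1 a1 ⟨h1a.le, hcon⟩)
    have := hpos_of _ h
    linarith
  have h2r : a2 < s₁ + r / 2 := by
    by_contra hcon
    push Not at hcon
    have h := lt_of_lt_of_le hc (hp2 a2 ⟨hcon, h2b.le⟩)
    have := hpos_of _ h
    linarith
  -- the first zero to the right and the last zero to the left
  have hz1' : y (a1 + 2 * Real.pi) = 0 := by rw [hyper a1, z1]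
  have hz2' : y (a2 - 2 * Real.pi) = 0 := by
    have := hyper (a2 - 2 * Real.pi)
    rw [sub_add_cancel] at this
    rw [← this, z2]
  obtain ⟨a3, ⟨⟨h3l, h3u⟩, z3⟩, h3min⟩ :
      ∃ a3, IsLeast {t | t ∈ Icc (s₁ + r) (a1 + 2 * Real.pi) ∧ y t = 0} a3 := by
    apply IsCompact.exists_isLeast
    · exact isCompact_Icc.inter_right (isClosed_eq hyc continuous_const)
    · exact ⟨a1 + 2 * Real.pi, ⟨⟨by linarith, le_rfl⟩, hz1'⟩⟩
  obtain ⟨a0, ⟨⟨h0l, h0u⟩, z0⟩, h0max⟩ :
      ∃ a0, IsGreatest {t | t ∈ Icc (a2 - 2 * Real.pi) (s₁ - r) ∧ y t = 0} a0 := by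
    apply IsCompact.exists_isGreatest
    · exact isCompact_Icc.inter_right (isClosed_eq hyc continuous_const)
    · exact ⟨a2 - 2 * Real.pi, ⟨⟨le_rfl, by linarith⟩, hz2'⟩⟩
  have hpos3 : ∀ t ∈ Ioo a2 a3, 0 < y t := by
    rintro t ⟨ht2, ht3⟩
    rcases le_total t (s₁ + r) with htr | htr
    · exact hs2 t ⟨ht2, htr⟩
    · by_contra hcon
      push Not at hcon
      obtain ⟨u, ⟨hu1, hu2⟩, hu3⟩ := intermediate_value_Icc' htr hyc.continuousOn
        (show (0 : ℝ) ∈ Icc (y t) (y (s₁ + r)) from ⟨hcon, hyb.le⟩)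
      have := h3min ⟨⟨hu1, by linarith⟩, hu3⟩
      linarith
  have hpos0 : ∀ t ∈ Ioo a0 a1, 0 < y t := by
    rintro t ⟨ht0, ht1⟩
    rcases le_total (s₁ - r) t with htr | htr
    · exact hs1 t ⟨htr, ht1⟩
    · by_contra hcon
      push Not at hcon
      obtain ⟨u, ⟨hu1, hu2⟩, hu3⟩ := intermediate_value_Icc htr hyc.continuousOn
        (show (0 : ℝ) ∈ Icc (y t) (y (s₁ - r)) from ⟨hcon, hya.le⟩)
      have := h0max ⟨⟨by linarith, hu2⟩, hu3⟩
      linarith
  have hI := fun a b => planar_integrable hψ N a b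
  have hnn3 : ∀ t ∈ Ioc a2 a3, 0 ≤ y t / ‖ψ t‖ := by
    rintro t ⟨ht1, ht2⟩
    rcases lt_or_eq_of_le ht2 with h | h
    · exact div_nonneg (hpos3 t ⟨ht1, h⟩).le (norm_nonneg _)
    · rw [h, z3]; simp
  have hnn0 : ∀ t ∈ Ioc a0 a1, 0 ≤ y t / ‖ψ t‖ := by
    rintro t ⟨ht1, ht2⟩
    rcases lt_or_eq_of_le ht2 with h | h
    · exact div_nonneg (hpos0 t ⟨ht1, h⟩).le (norm_nonneg _)
    · rw [h, z1]; simp
  have hB3 : c * (r / 2) ≤ ∫ s in a2..a3, y s / ‖ψ s‖ := by
    have h1 : ∫ s in (s₁ + r / 2)..(s₁ + r), y s / ‖ψ s‖ ≤ ∫ s in a2..a3, y s / ‖ψ s‖ := by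
      apply intervalIntegral.integral_mono_interval h2r.le (by linarith) h3l _ (hI _ _)
      exact ae_restrict_of_forall_mem measurableSet_Ioc hnn3
    have h2 : ∫ s in (s₁ + r / 2)..(s₁ + r), c ≤ ∫ s in (s₁ + r / 2)..(s₁ + r), y s / ‖ψ s‖ := by
      apply intervalIntegral.integral_mono_on (by linarith) intervalIntegrable_const (hI _ _)
      exact hp2
    rw [intervalIntegral.integral_const] at h2
    simp only [smul_eq_mul] at h2
    linarith
  have hB1 : c * (r / 2) ≤ ∫ s in a0..a1, y s / ‖ψ s‖ := by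
    have h1 : ∫ s in (s₁ - r)..(s₁ - r / 2), y s / ‖ψ s‖ ≤ ∫ s in a0..a1, y s / ‖ψ s‖ := by
      apply intervalIntegral.integral_mono_interval h0u (by linarith) h1r.le _ (hI _ _)
      exact ae_restrict_of_forall_mem measurableSet_Ioc hnn0
    have h2 : ∫ s in (s₁ - r)..(s₁ - r / 2), c ≤ ∫ s in (s₁ - r)..(s₁ - r / 2), y s / ‖ψ s‖ := by
      apply intervalIntegral.integral_mono_on (by linarith) intervalIntegrable_const (hI _ _)
      exact hp1
    rw [intervalIntegral.integral_const] at h2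
    simp only [smul_eq_mul] at h2
    linarith
  have hB2l : -(c / 8) * (2 * r) ≤ ∫ s in a1..a2, y s / ‖ψ s‖ := by
    have h2 : ∫ s in a1..a2, -(c / 8) ≤ ∫ s in a1..a2, y s / ‖ψ s‖ := by
      apply intervalIntegral.integral_mono_on (by linarith) intervalIntegrable_const (hI _ _)
      intro t ht
      exact hsm t ⟨by linarith [ht.1], by linarith [ht.2]⟩
    rw [intervalIntegral.integral_const] at h2
    simp only [smul_eq_mul] at h2
    have h3 : (a2 - a1) * (c / 8) ≤ (2 * r) * (c / 8) :=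
      mul_le_mul_of_nonneg_right (by linarith) (by linarith)
    linarith
  have hB2u : (∫ s in a1..a2, y s / ‖ψ s‖) < 0 := by
    have h : 0 < ∫ s in a1..a2, -(y s / ‖ψ s‖) := by
      apply intervalIntegral.intervalIntegral_pos_of_pos_on (hI _ _).neg _ (by linarith)
      rintro t ⟨ht1, ht2⟩
      have hne := hJ t ⟨by linarith, by linarith⟩
      have := div_neg_of_neg_of_pos (hs3 t ⟨ht1, ht2⟩) (norm_pos_iff.2 hne)
      exact neg_pos.2 this
    rw [intervalIntegral.integral_neg] at h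
    linarith
  have hcr : 0 < c * r := mul_pos hc hr
  -- the period condition
  have h30 : a3 ≤ a0 + 2 * Real.pi := by
    by_contra hcon
    push Not at hcon
    have hza : y (a0 + 2 * Real.pi) = 0 := by rw [hyper a0, z0]
    have ha2 : a2 ≤ a0 + 2 * Real.pi := by linarith
    have heq : a0 + 2 * Real.pi = a2 := by
      rcases lt_or_eq_of_le ha2 with h | h
      · have := hpos3 _ ⟨h, hcon⟩
        linarith
      · exact h.symm
    -- no zeros of `y` between `a2` and `a1 + 2π`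
    have hnz : ∀ t ∈ Ioo a2 (a1 + 2 * Real.pi), 0 < y t := by
      rintro t ⟨ht1, ht2⟩
      have h := hpos0 (t - 2 * Real.pi) ⟨by linarith, by linarith⟩
      have e := hyper (t - 2 * Real.pi)
      rw [sub_add_cancel] at e
      rw [e]; exact h
    have hall : ∀ s, ψ s ≠ 0 := by
      intro s
      obtain ⟨t, ⟨ht1, ht2⟩, ht3⟩ := hper.exists_mem_Ico Real.two_pi_pos s a1
      rw [ht3]
      rcases le_total t a2 with h | h
      · exact hJ t ⟨by linarith, by linarith⟩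
      · rcases lt_or_eq_of_le h with h | h
        · intro h0
          have := hnz t ⟨h, ht2⟩
          rw [hy0 t h0] at this
          exact lt_irrefl _ this
        · exact hJ t ⟨by linarith, by linarith⟩
    have hcl := planar_closure hψ hper hadm hall N a1
    have hsplit := intervalIntegral.integral_add_adjacent_intervals (hI a1 a2)
      (hI a2 (a1 + 2 * Real.pi))
    have h1 : ∫ s in (s₁ + r / 2)..(s₁ + r), y s / ‖ψ s‖ ≤
        ∫ s in a2..(a1 + 2 * Real.pi), y s / ‖ψ s‖ := by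
      apply intervalIntegral.integral_mono_interval h2r.le (by linarith) (by linarith) _ (hI _ _)
      apply ae_restrict_of_forall_mem measurableSet_Ioc
      rintro t ⟨ht1, ht2⟩
      rcases lt_or_eq_of_le ht2 with h | h
      · exact div_nonneg (hnz t ⟨ht1, h⟩).le (norm_nonneg _)
      · have e : (0 : ℝ) ≤ y (a1 + 2 * Real.pi) / ‖ψ (a1 + 2 * Real.pi)‖ := by
          rw [hz1', zero_div]
        rw [h]
        exact e
    have h2 : ∫ s in (s₁ + r / 2)..(s₁ + r), c ≤ ∫ s in (s₁ + r / 2)..(s₁ + r), y s / ‖ψ s‖ := by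
      apply intervalIntegral.integral_mono_on (by linarith) intervalIntegrable_const (hI _ _)
      exact hp2
    rw [intervalIntegral.integral_const] at h2
    simp only [smul_eq_mul] at h2
    have hB2l' : -(c / 8) * (2 * r) ≤ ∫ s in a1..a2, inner ℝ N (ψ s) / ‖ψ s‖ := hB2l
    have h1' : ∫ s in (s₁ + r / 2)..(s₁ + r), y s / ‖ψ s‖ ≤
        ∫ s in a2..(a1 + 2 * Real.pi), inner ℝ N (ψ s) / ‖ψ s‖ := h1
    linarith
  refine ⟨a0, a1, a2, a3, by linarith, by linarith, by linarith, h30, z0, z1, z2, z3, ?_, ?_, ?_,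
    ?_, ?_, h1a, h1s, h2s⟩
  · rintro s ⟨hs0, hs3'⟩
    rcases lt_or_ge s a1 with h | h
    · intro h0
      have := hpos0 s ⟨hs0, h⟩
      rw [hy0 s h0] at this
      exact lt_irrefl _ this
    · rcases le_or_gt s a2 with h' | h'
      · exact hJ s ⟨by linarith, by linarith⟩
      · intro h0
        have := hpos3 s ⟨h', hs3'⟩
        rw [hy0 s h0] at this
        exact lt_irrefl _ this
  · exact lt_of_lt_of_le (by linarith) hB1
  · exact hB2u
  · exact lt_of_lt_of_le (by linarith) hB3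
  · have hsplit1 := intervalIntegral.integral_add_adjacent_intervals (hI a0 a1) (hI a1 a2)
    have hsplit2 := intervalIntegral.integral_add_adjacent_intervals (hI a0 a2) (hI a2 a3)
    have hB1' : c * (r / 2) ≤ ∫ s in a0..a1, inner ℝ N (ψ s) / ‖ψ s‖ := hB1
    have hB2' : -(c / 8) * (2 * r) ≤ ∫ s in a1..a2, inner ℝ N (ψ s) / ‖ψ s‖ := hB2l
    have hB3' : c * (r / 2) ≤ ∫ s in a2..a3, inner ℝ N (ψ s) / ‖ψ s‖ := hB3
    rw [← hsplit2, ← hsplit1]
    linarith

/-- Step 2 for a normalised normal vector. -/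
lemma planar_step2 (hELall : ∀ (ψ g : ℝ → E4) (e : ℝ), 0 < e → IsMin ψ g e →
    ∃ (p : ℝ → E4) (μ : E4), EL ψ p e μ) {ψ g p : ℝ → E4} {e : ℝ} {μ : E4} (he : 0 < e) (h : IsMin ψ g e)
    (hEL : EL ψ p e μ) {s₁ : ℝ} (h1 : ψ s₁ ≠ 0) {n f : E4} (hf : ‖f‖ = 1)
    (hnf : inner ℝ n f = 0) (hfμ : inner ℝ f μ = 0) (hf0 : inner ℝ f (ψ s₁) = 0)
    (hf1 : inner ℝ f (p s₁) = 0) (hn : inner ℝ n (ψ s₁) = 0)
    (hn' : inner ℝ n (p s₁) = 0) (hμ : 0 < inner ℝ n μ) : False := by
  have hψ : Continuous ψ := h.loop.continuous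
  have hper := h.loop.per
  have hq : 0 < ‖ψ s₁‖ := norm_pos_iff.2 h1
  -- second derivative
  set w : ℝ → ℝ := fun t => inner ℝ n (force e μ (ψ t)) with hw
  have hforce : ∀ t, ψ t ≠ 0 → ContinuousAt (fun t => force e μ (ψ t)) t := by
    intro t ht
    have hn0 : ‖ψ t‖ ≠ 0 := norm_ne_zero_iff.2 ht
    have hc : ContinuousAt ψ t := hψ.continuousAt
    unfold force
    exact (hc.const_smul e).neg.add ((hc.norm.inv₀ hn0).smul (continuousAt_const.sub
      (((hc.inner continuousAt_const).div (hc.norm.pow 2) (pow_ne_zero 2 hn0)).smul hc)))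
  have hw1 : w s₁ = ‖ψ s₁‖⁻¹ * inner ℝ n μ := by
    simp only [hw, planar_inner_force, hn]
    ring
  set k : ℝ := ‖ψ s₁‖⁻¹ * inner ℝ n μ / 4 with hk
  have hk0 : 0 < k := by positivity
  have hwc : ContinuousAt w s₁ := continuousAt_const.inner (hforce s₁ h1)
  have hev1 : ∀ᶠ t in nhds s₁, 2 * k < w t := by
    apply hwc.eventually (lt_mem_nhds _)
    rw [hw1]
    have : ‖ψ s₁‖⁻¹ * inner ℝ n μ = 4 * k := by rw [hk]; ring
    rw [this]; linarith
  have hev2 : ∀ᶠ t in nhds s₁, ψ t ≠ 0 := hψ.continuousAt.eventually_ne h1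
  obtain ⟨ε, hε, hεh⟩ := Metric.eventually_nhds_iff.1 (hev1.and hev2)
  set r : ℝ := min (ε / 2) 1 with hr
  have hr0 : 0 < r := lt_min (by linarith) one_pos
  have hr1 : r ≤ 1 := min_le_right _ _
  have hrε : r < ε := lt_of_le_of_lt (min_le_left _ _) (by linarith)
  have hJw : ∀ t ∈ Icc (s₁ - r) (s₁ + r), 2 * k < w t ∧ ψ t ≠ 0 := by
    rintro t ⟨ht1, ht2⟩
    apply hεh
    rw [Real.dist_eq, abs_lt]
    constructor <;> linarith
  have hJ : ∀ t ∈ Icc (s₁ - r) (s₁ + r), ψ t ≠ 0 := fun t ht => (hJw t ht).2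
  obtain ⟨M, hM⟩ := isCompact_Icc.exists_bound_of_continuousOn (s := Icc (s₁ - r) (s₁ + r))
    (f := ψ) hψ.continuousOn
  have hM0 : 0 < M := lt_of_lt_of_le hq (hM s₁ ⟨by linarith, by linarith⟩)
  obtain ⟨C, hC⟩ := isCompact_Icc.exists_bound_of_continuousOn (s := Icc (s₁ - r) (s₁ + r))
    (f := fun t => inner ℝ (ψ s₁) (force e μ (ψ t)))
    (fun t ht => (continuousAt_const.inner (hforce t (hJ t ht))).continuousWithinAt)
  have hC0 : 0 ≤ C := le_trans (norm_nonneg _) (hC s₁ ⟨by linarith, by linarith⟩)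
  set c : ℝ := k * r ^ 2 / 8 / M with hc
  have hc0 : 0 < c := by positivity
  set δ : ℝ := min (k / (C + 1)) (c / 8 / ‖ψ s₁‖) with hδ
  have hδ0 : 0 < δ := lt_min (by positivity) (by positivity)
  have hδC : δ * C ≤ k := by
    have h1 : δ ≤ k / (C + 1) := min_le_left _ _
    rw [le_div_iff₀ (by linarith)] at h1
    nlinarith
  have hδq : δ * ‖ψ s₁‖ ≤ c / 8 := by
    have h1 : δ ≤ c / 8 / ‖ψ s₁‖ := min_le_right _ _
    rwa [le_div_iff₀ hq] at h1
  set N : E4 := n - δ • ψ s₁ with hN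
  have hNi : ∀ x : E4, inner ℝ N x = inner ℝ n x - δ * inner ℝ (ψ s₁) x := by
    intro x
    rw [hN, inner_sub_left, inner_smul_left]
    simp
  have hy : ∀ t ∈ Icc (s₁ - r) (s₁ + r), HasDerivAt (fun t => inner ℝ n (ψ t))
      (inner ℝ n (p t)) t := fun t ht => planar_hasDerivAt_inner n (hEL t (hJ t ht)).1
  have hv : ∀ t ∈ Icc (s₁ - r) (s₁ + r), HasDerivAt (fun t => inner ℝ n (p t)) (w t) t :=
    fun t ht => planar_hasDerivAt_inner n (hEL t (hJ t ht)).2
  have hquad : ∀ t ∈ Icc (s₁ - r) (s₁ + r), k * (t - s₁) ^ 2 ≤ inner ℝ n (ψ t) := by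
    intro t ht
    rcases le_total s₁ t with hst | hst
    · have := planar_quad_right (a := s₁) (b := s₁ + r) (k := k)
        (fun t ht => hy t ⟨by linarith [ht.1], ht.2⟩) (fun t ht => hv t ⟨by linarith [ht.1], ht.2⟩)
        (fun t ht => (hJw t ⟨by linarith [ht.1], ht.2⟩).1.le) (by rw [hn']) t ⟨hst, ht.2⟩
      simp only [hn, zero_add] at this
      exact this
    · have := planar_quad_left (a := s₁ - r) (b := s₁) (k := k)
        (fun t ht => hy t ⟨ht.1, by linarith [ht.2]⟩) (fun t ht => hv t ⟨ht.1, by linarith [ht.2]⟩)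
        (fun t ht => (hJw t ⟨ht.1, by linarith [ht.2]⟩).1.le) (by rw [hn']) t ⟨ht.1, hst⟩
      simp only [hn, zero_add] at this
      exact this
  have hyN : ∀ t ∈ Icc (s₁ - r) (s₁ + r), HasDerivAt (fun t => inner ℝ N (ψ t))
      (inner ℝ N (p t)) t := fun t ht => planar_hasDerivAt_inner N (hEL t (hJ t ht)).1
  have hvN : ∀ t ∈ Icc (s₁ - r) (s₁ + r), HasDerivAt (fun t => inner ℝ N (p t))
      (inner ℝ N (force e μ (ψ t))) t :=
    fun t ht => planar_hasDerivAt_inner N (hEL t (hJ t ht)).2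
  have hwN : ∀ t ∈ Icc (s₁ - r) (s₁ + r), 0 ≤ inner ℝ N (force e μ (ψ t)) := by
    intro t ht
    rw [hNi]
    have h1 := (hJw t ht).1
    have h2 : δ * inner ℝ (ψ s₁) (force e μ (ψ t)) ≤ δ * C :=
      mul_le_mul_of_nonneg_left ((le_abs_self _).trans (hC t ht)) hδ0.le
    have h3 : w t = inner ℝ n (force e μ (ψ t)) := rfl
    linarith
  have hconv : ConvexOn ℝ (Icc (s₁ - r) (s₁ + r)) (fun t => inner ℝ N (ψ t)) := by
    apply convexOn_of_hasDerivWithinAt2_nonneg (convex_Icc _ _)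
      (f' := fun t => inner ℝ N (p t)) (f'' := fun t => inner ℝ N (force e μ (ψ t)))
    · exact fun t ht => (hyN t ht).continuousAt.continuousWithinAt
    · intro t ht
      exact (hyN t (interior_subset ht)).hasDerivWithinAt
    · intro t ht
      exact (hvN t (interior_subset ht)).hasDerivWithinAt
    · intro t ht
      exact hwN t (interior_subset ht)
  have hneg : inner ℝ N (ψ s₁) < 0 := by
    rw [hNi, hn, real_inner_self_eq_norm_sq]
    have : 0 < δ * ‖ψ s₁‖ ^ 2 := by positivity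
    linarith
  have hcs : ∀ t, δ * inner ℝ (ψ s₁) (ψ t) ≤ δ * ‖ψ s₁‖ * ‖ψ t‖ := by
    intro t
    rw [mul_assoc]
    exact mul_le_mul_of_nonneg_left (real_inner_le_norm _ _) hδ0.le
  have hfar : ∀ t ∈ Icc (s₁ - r) (s₁ + r), r ^ 2 / 4 ≤ (t - s₁) ^ 2 →
      c ≤ inner ℝ N (ψ t) / ‖ψ t‖ := by
    intro t ht htr
    have hp : 0 < ‖ψ t‖ := norm_pos_iff.2 (hJ t ht)
    have hMt : ‖ψ t‖ ≤ M := hM t ht
    rw [le_div_iff₀ hp, hNi]
    have h1 := hquad t ht
    have h2 : k * (r ^ 2 / 4) ≤ k * (t - s₁) ^ 2 := mul_le_mul_of_nonneg_left htr hk0.le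
    have h3 := hcs t
    have h4 : δ * ‖ψ s₁‖ * ‖ψ t‖ ≤ c / 8 * M := mul_le_mul hδq hMt hp.le (by positivity)
    have h5 : c * ‖ψ t‖ ≤ c * M := mul_le_mul_of_nonneg_left hMt hc0.le
    have h6 : c * M = k * r ^ 2 / 8 := by rw [hc]; field_simp
    have h7 : 0 < k * r ^ 2 := by positivity
    nlinarith
  have hsm : ∀ t ∈ Icc (s₁ - r) (s₁ + r), -(c / 8) ≤ inner ℝ N (ψ t) / ‖ψ t‖ := by
    intro t ht
    have hp : 0 < ‖ψ t‖ := norm_pos_iff.2 (hJ t ht)
    rw [le_div_iff₀ hp, hNi]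
    have h1 := hquad t ht
    have h2 : 0 ≤ k * (t - s₁) ^ 2 := by positivity
    have h3 := hcs t
    have h4 : δ * ‖ψ s₁‖ * ‖ψ t‖ ≤ c / 8 * ‖ψ t‖ := mul_le_mul_of_nonneg_right hδq hp.le
    linarith
  obtain ⟨a0, a1, a2, a3, h01, h12, h23, h30, z0, z1, z2, z3, hne, hB1, hB2, hB3, hB, hra, has,
      hs2⟩ := planar_core hψ hper h.adm (N := N) (s₁ := s₁) (r := r) (c := c) hr0 hr1 hc0 hJ hconv hneg
    (fun t ht => hfar t ⟨ht.1, by linarith [ht.2]⟩ (by nlinarith [ht.2]))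
    (fun t ht => hfar t ⟨by linarith [ht.1], ht.2⟩ (by nlinarith [ht.1])) hsm
  -- `f` is orthogonal to `ψ` on `[a0, a3]`
  have ha1s : s₁ ∈ Ioo a0 a3 := ⟨by linarith, by linarith⟩
  have hfio : ∀ s ∈ Ioo a0 a3, inner ℝ f (ψ s) = 0 := by
    intro s hs
    refine (planar_step1 hEL hfμ hf0 hf1 (fun t ht => hne t ?_)).1
    exact (convex_Ioo a0 a3).ordConnected.uIcc_subset ha1s hs ht
  have hfcc : ∀ s ∈ Icc a0 a3, inner ℝ f (ψ s) = 0 := by
    have hcl : closure (Ioo a0 a3) ⊆ {s | inner ℝ f (ψ s) = 0} := by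
      apply closure_minimal hfio
      exact isClosed_eq (continuous_const.inner hψ) continuous_const
    rw [closure_Ioo (by linarith)] at hcl
    exact fun s hs => hcl hs
  have hN0 : N ≠ 0 := by
    intro h0
    rw [h0, inner_zero_left] at hneg
    exact lt_irrefl _ hneg
  have hNn : 0 < ‖N‖ := norm_pos_iff.2 hN0
  have hNf : inner ℝ N f = 0 := by
    rw [hNi, hnf, real_inner_comm, hf0]; ring
  have hsc : ∀ x : E4, inner ℝ (‖N‖⁻¹ • N) x = ‖N‖⁻¹ * inner ℝ N x := by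
    intro x; rw [inner_smul_left]; simp
  have hints : ∀ a b : ℝ, (∫ s in a..b, inner ℝ (‖N‖⁻¹ • N) (ψ s) / ‖ψ s‖) =
      ‖N‖⁻¹ * ∫ s in a..b, inner ℝ N (ψ s) / ‖ψ s‖ := by
    intro a b
    rw [← intervalIntegral.integral_const_mul]
    refine intervalIntegral.integral_congr (fun s _ => ?_)
    simp only [hsc]
    ring
  have hinv : 0 < ‖N‖⁻¹ := inv_pos.2 hNn
  have hfl := FlexAux.flex_of_EL hELall he h (fun s hs => (hEL s hs).1) (n := ‖N‖⁻¹ • N) (f := f)
    (by rw [norm_smul, norm_inv, norm_norm, inv_mul_cancel₀ hNn.ne']) hf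
    (by rw [hsc, hNf, mul_zero]) h01 h12 h23 h30 (by rw [hsc, z0, mul_zero])
    (by rw [hsc, z1, mul_zero]) (by rw [hsc, z2, mul_zero]) (by rw [hsc, z3, mul_zero]) hfcc
    (by rw [hints]; exact mul_pos hinv hB1)
    (by rw [hints]; exact mul_neg_of_pos_of_neg hinv hB2)
    (by rw [hints]; exact mul_pos hinv hB3)
    (by rw [hints]; exact mul_pos hinv hB)
    (hJ a1 ⟨hra.le, by linarith⟩)
  rw [hsc] at hfl
  have hv1 : inner ℝ N (p a1) = 0 := by
    rcases mul_eq_zero.1 hfl with h | h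
    · exact absurd h hinv.ne'
    · exact h
  have := planar_quad_right (a := a1) (b := s₁) (k := 0)
    (fun t ht => hyN t ⟨by linarith [ht.1], by linarith [ht.2]⟩)
    (fun t ht => hvN t ⟨by linarith [ht.1], by linarith [ht.2]⟩)
    (fun t ht => by
      have := hwN t ⟨by linarith [ht.1], by linarith [ht.2]⟩
      linarith) (by rw [hv1]) s₁ ⟨has.le, le_rfl⟩
  rw [z1] at this
  linarith

/-- A unit vector orthogonal to three given vectors. -/
lemma planar_exists_orth (u v w : E4) :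
    ∃ f : E4, ‖f‖ = 1 ∧ inner ℝ f u = 0 ∧ inner ℝ f v = 0 ∧ inner ℝ f w = 0 := by
  set K : Submodule ℝ E4 := Submodule.span ℝ (Set.range ![u, v, w]) with hK
  have hfr : Module.finrank ℝ K ≤ 3 := by
    have := finrank_range_le_card (R := ℝ) ![u, v, w]
    simpa [Set.finrank] using this
  have hne : Kᗮ ≠ ⊥ := by
    intro hbot
    rw [Submodule.orthogonal_eq_bot_iff] at hbot
    rw [hbot, finrank_top, finrank_euclideanSpace, Fintype.card_fin] at hfr
    omega
  obtain ⟨f, hf, hf0⟩ := Submodule.exists_mem_ne_zero_of_ne_bot hne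
  have horth : ∀ x ∈ K, inner ℝ f x = 0 := fun x hx => by
    rw [real_inner_comm]; exact (Submodule.mem_orthogonal K f).1 hf x hx
  have hu : u ∈ K := Submodule.subset_span ⟨0, rfl⟩
  have hv : v ∈ K := Submodule.subset_span ⟨1, rfl⟩
  have hw : w ∈ K := Submodule.subset_span ⟨2, rfl⟩
  have hn : 0 < ‖f‖ := norm_pos_iff.2 hf0
  refine ⟨‖f‖⁻¹ • f, ?_, ?_, ?_, ?_⟩
  · rw [norm_smul, norm_inv, norm_norm, inv_mul_cancel₀ hn.ne']
  · rw [inner_smul_left, horth u hu, mul_zero]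
  · rw [inner_smul_left, horth v hv, mul_zero]
  · rw [inner_smul_left, horth w hw, mul_zero]

/-- M4 (given the Euler-Lagrange equation of minimisers). A minimiser is planar on each component
of its nonzero set, and the plane contains the multiplier. -/
theorem planar_of_EL (hELall : ∀ (ψ g : ℝ → E4) (e : ℝ), 0 < e → IsMin ψ g e →
    ∃ (p : ℝ → E4) (μ : E4), EL ψ p e μ) {ψ g p : ℝ → E4} {e : ℝ} {μ : E4} (he : 0 < e) (h : IsMin ψ g e)
    (hEL : EL ψ p e μ) {s₁ : ℝ} (h1 : ψ s₁ ≠ 0) {n : E4} (hn : inner ℝ n (ψ s₁) = 0)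
    (hn' : inner ℝ n (p s₁) = 0) :
    inner ℝ n μ = 0 ∧ ∀ s : ℝ, (∀ t ∈ uIcc s₁ s, ψ t ≠ 0) →
      inner ℝ n (ψ s) = 0 ∧ inner ℝ n (p s) = 0 := by
  have hμ : inner ℝ n μ = 0 := by
    by_contra hne
    obtain ⟨f, hf, hfμ, hf0, hf1⟩ := planar_exists_orth μ (ψ s₁) (p s₁)
    set m : E4 := n - (inner ℝ n f) • f with hm
    have hmi : ∀ x : E4, inner ℝ m x = inner ℝ n x - inner ℝ n f * inner ℝ f x := by
      intro x; rw [hm, inner_sub_left, inner_smul_left]; simp
    have hmf : inner ℝ m f = 0 := by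
      rw [hmi, real_inner_self_eq_norm_sq, hf]; ring
    have hm0 : inner ℝ m (ψ s₁) = 0 := by rw [hmi, hn, hf0]; ring
    have hm1 : inner ℝ m (p s₁) = 0 := by rw [hmi, hn', hf1]; ring
    have hmμ : inner ℝ m μ = inner ℝ n μ := by rw [hmi, hfμ]; ring
    rcases lt_or_gt_of_ne hne with hlt | hgt
    · refine planar_step2 hELall he h hEL h1 (n := -m) hf ?_ hfμ hf0 hf1 ?_ ?_ ?_
      · rw [inner_neg_left, hmf, neg_zero]
      · rw [inner_neg_left, hm0, neg_zero]
      · rw [inner_neg_left, hm1, neg_zero]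
      · rw [inner_neg_left, hmμ]; linarith
    · exact planar_step2 hELall he h hEL h1 (n := m) hf hmf hfμ hf0 hf1 hm0 hm1 (by rw [hmμ]; exact hgt)
  exact ⟨hμ, fun s hs => planar_step1 hEL hμ hn hn' hs⟩

end Ovals2801
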