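import Pool.Agent.Lib.MP_2801bd_mp.AdmInterval
import Pool.Agent.Lib.MP_2801bd_mp.H1Basic
import Pool.Agent.Lib.MP_2801bd_mp.PlanarCore
import Mathlib.Analysis.Calculus.MeanValue
import Mathlib.Analysis.SpecialFunctions.Trigonometric.Deriv
import Mathlib.Analysis.InnerProductSpace.Calculus

/-!
# MP_2801bd_mp: no minimiser below one has a radial velocity at a nonzero point (M6c), up to the
Euler-Lagrange equation
-/

open MeasureTheory Set

namespace Ovals2801

/-- A vector orthogonal to everything orthogonal to `a ≠ 0` is a multiple of `a/|a|`. -/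
theorem nr_span {a v : E4} (ha : a ≠ 0)
    (h : ∀ n : E4, inner ℝ n a = 0 → inner ℝ n v = 0) :
    v = (inner ℝ (‖a‖⁻¹ • a) v : ℝ) • (‖a‖⁻¹ • a) := by
  set ν : E4 := ‖a‖⁻¹ • a with hν
  have hna : ‖a‖ ≠ 0 := norm_ne_zero_iff.2 ha
  have hνn : ‖ν‖ = 1 := by
    rw [hν, norm_smul, norm_inv, norm_norm, inv_mul_cancel₀ hna]
  have haν : a = ‖a‖ • ν := by
    rw [hν, smul_smul, mul_inv_cancel₀ hna, one_smul]
  have h1 : inner ℝ (v - (inner ℝ ν v : ℝ) • ν) ν = (0 : ℝ) := by
    rw [inner_sub_left, real_inner_smul_left, real_inner_self_eq_norm_sq, hνn,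
      real_inner_comm v ν]
    ring
  have h2 : inner ℝ (v - (inner ℝ ν v : ℝ) • ν) a = (0 : ℝ) := by
    conv_lhs => rw [haν]
    rw [real_inner_smul_right, h1, mul_zero]
  have h3 := h _ h2
  have h4 : inner ℝ (v - (inner ℝ ν v : ℝ) • ν) (v - (inner ℝ ν v : ℝ) • ν) = (0 : ℝ) := by
    rw [inner_sub_right, real_inner_smul_right, h3, h1, mul_zero, sub_zero]
  exact sub_eq_zero.1 (inner_self_eq_zero.1 h4)

/-- The harmonic oscillator has no positive solution on an interval shorter than `π/w` which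
vanishes at both ends. -/
theorem nr_osc {w α β s₁ : ℝ} {x y : ℝ → ℝ} (hw : 0 < w) (h1 : α < s₁) (h2 : s₁ < β)
    (hlen : w * (β - α) < Real.pi) (hx : ContinuousOn x (Icc α β))
    (hx' : ∀ s ∈ Ioo α β, HasDerivAt x (y s) s)
    (hy' : ∀ s ∈ Ioo α β, HasDerivAt y (-(w ^ 2 * x s)) s)
    (hα : x α = 0) (hβ : x β = 0) : x s₁ = 0 := by
  set A : ℝ → ℝ := fun s => x s * Real.cos (w * s) - y s / w * Real.sin (w * s) with hA
  set B : ℝ → ℝ := fun s => x s * Real.sin (w * s) + y s / w * Real.cos (w * s) with hB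
  have hcos : ∀ s : ℝ, HasDerivAt (fun s => Real.cos (w * s)) (-Real.sin (w * s) * w) s := by
    intro s
    have := ((hasDerivAt_id s).const_mul w).cos
    simpa using this
  have hsin : ∀ s : ℝ, HasDerivAt (fun s => Real.sin (w * s)) (Real.cos (w * s) * w) s := by
    intro s
    have := ((hasDerivAt_id s).const_mul w).sin
    simpa using this
  have hA' : ∀ s ∈ Ioo α β, HasDerivAt A 0 s := by
    intro s hs
    have h3 := ((hx' s hs).mul (hcos s)).sub (((hy' s hs).div_const w).mul (hsin s))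
    refine h3.congr_deriv ?_
    field_simp
    ring
  have hB' : ∀ s ∈ Ioo α β, HasDerivAt B 0 s := by
    intro s hs
    have h3 := ((hx' s hs).mul (hsin s)).add (((hy' s hs).div_const w).mul (hcos s))
    refine h3.congr_deriv ?_
    field_simp
    ring
  have hs₁ : s₁ ∈ Ioo α β := ⟨h1, h2⟩
  have cA : ∀ s ∈ Ioo α β, A s = A s₁ := fun s hs =>
    isOpen_Ioo.is_const_of_deriv_eq_zero isPreconnected_Ioo
      (fun t ht => (hA' t ht).differentiableAt.differentiableWithinAt)
      (fun t ht => (hA' t ht).deriv) hs hs₁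
  have cB : ∀ s ∈ Ioo α β, B s = B s₁ := fun s hs =>
    isOpen_Ioo.is_const_of_deriv_eq_zero isPreconnected_Ioo
      (fun t ht => (hB' t ht).differentiableAt.differentiableWithinAt)
      (fun t ht => (hB' t ht).deriv) hs hs₁
  have hform : ∀ s ∈ Ioo α β, x s = A s₁ * Real.cos (w * s) + B s₁ * Real.sin (w * s) := by
    intro s hs
    rw [← cA s hs, ← cB s hs]
    simp only [hA, hB]
    have := Real.sin_sq_add_cos_sq (w * s)
    linear_combination (-x s) * this
  have hαβ : α < β := h1.trans h2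
  have hcl : ∀ s ∈ Icc α β, x s = A s₁ * Real.cos (w * s) + B s₁ * Real.sin (w * s) := by
    have hclos : closure (Ioo α β) = Icc α β := closure_Ioo hαβ.ne
    intro s hs
    have hcont : ContinuousOn (fun s => A s₁ * Real.cos (w * s) + B s₁ * Real.sin (w * s))
        (Icc α β) := by fun_prop
    exact (Set.EqOn.of_subset_closure (s := Ioo α β) (t := Icc α β) hform hx hcont
      Ioo_subset_Icc_self hclos.ge) hs
  have eα := hcl α ⟨le_rfl, hαβ.le⟩
  have eβ := hcl β ⟨hαβ.le, le_rfl⟩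
  rw [hα] at eα
  rw [hβ] at eβ
  have hsin0 : 0 < Real.sin (w * β - w * α) := by
    apply Real.sin_pos_of_pos_of_lt_pi
    · have := mul_pos hw (sub_pos.2 hαβ)
      linarith
    · linarith
  rw [Real.sin_sub] at hsin0
  have hB0 : B s₁ = 0 := by
    have : B s₁ * (Real.sin (w * β) * Real.cos (w * α) - Real.cos (w * β) * Real.sin (w * α))
        = 0 := by
      linear_combination (-Real.cos (w * α)) * eβ + Real.cos (w * β) * eα
    exact (mul_eq_zero.1 this).resolve_right hsin0.ne'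
  have hA0 : A s₁ = 0 := by
    have : A s₁ * (Real.sin (w * β) * Real.cos (w * α) - Real.cos (w * β) * Real.sin (w * α))
        = 0 := by
      linear_combination (Real.sin (w * α)) * eβ - Real.sin (w * β) * eα
    exact (mul_eq_zero.1 this).resolve_right hsin0.ne'
  rw [hform s₁ hs₁, hA0, hB0]
  ring

/-- M6c. No minimiser passes a nonzero point with radial velocity, if the Euler-Lagrange equation
holds for all minimisers. -/
theorem no_radial_of_EL (hELall : ∀ (ψ g : ℝ → E4) (e : ℝ), 0 < e → IsMin ψ g e →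
    ∃ (p : ℝ → E4) (μ : E4), EL ψ p e μ) {ψ g p : ℝ → E4} {e : ℝ} {μ : E4} (he : 0 < e) (he1 : e < 1)
    (h : IsMin ψ g e) (hEL : EL ψ p e μ) {s₁ : ℝ} (h1 : ψ s₁ ≠ 0) {c : ℝ}
    (hc : p s₁ = c • ψ s₁) : False := by
  have hcont : Continuous ψ := h.loop.continuous
  set ν : E4 := ‖ψ s₁‖⁻¹ • ψ s₁ with hν
  have hna : ‖ψ s₁‖ ≠ 0 := norm_ne_zero_iff.2 h1
  have hνn : ‖ν‖ = 1 := by
    rw [hν, norm_smul, norm_inv, norm_norm, inv_mul_cancel₀ hna]
  have hpl : ∀ n : E4, inner ℝ n (ψ s₁) = (0 : ℝ) → inner ℝ n μ = (0 : ℝ) ∧ ∀ s : ℝ,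
      (∀ t ∈ uIcc s₁ s, ψ t ≠ 0) → inner ℝ n (ψ s) = (0 : ℝ) ∧ inner ℝ n (p s) = (0 : ℝ) := by
    intro n hn
    refine planar_of_EL hELall he h hEL h1 hn ?_
    rw [hc, real_inner_smul_right, hn, mul_zero]
  have hμ : μ = (inner ℝ ν μ : ℝ) • ν := nr_span h1 fun n hn => (hpl n hn).1
  have hψs : ∀ s : ℝ, (∀ t ∈ uIcc s₁ s, ψ t ≠ 0) → ψ s = (inner ℝ ν (ψ s) : ℝ) • ν :=
    fun s hs => nr_span h1 fun n hn => ((hpl n hn).2 s hs).1
  have hx1 : 0 < (inner ℝ ν (ψ s₁) : ℝ) := by
    rw [hν, real_inner_smul_left, real_inner_self_eq_norm_sq]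
    positivity
  have hxc : Continuous fun s => (inner ℝ ν (ψ s) : ℝ) := continuous_const.inner hcont
  -- positivity of the coordinate on intervals without zeros
  have hpos : ∀ s : ℝ, (∀ t ∈ uIcc s₁ s, ψ t ≠ 0) → 0 < (inner ℝ ν (ψ s) : ℝ) := by
    intro s hs
    by_contra hcon
    rw [not_lt] at hcon
    have hIVT := intermediate_value_uIcc (a := s) (b := s₁)
      (f := fun s => (inner ℝ ν (ψ s) : ℝ)) hxc.continuousOn
    have h0 : (0 : ℝ) ∈ uIcc (inner ℝ ν (ψ s) : ℝ) (inner ℝ ν (ψ s₁)) :=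
      mem_uIcc.2 (Or.inl ⟨hcon, hx1.le⟩)
    obtain ⟨t, ht, ht0⟩ := hIVT h0
    rw [uIcc_comm] at ht
    have hne := hs t ht
    have hsub : ∀ r ∈ uIcc s₁ t, ψ r ≠ 0 := fun r hr =>
      hs r (uIcc_subset_uIcc_left ht hr)
    have h5 := hψs t hsub
    simp only at ht0
    rw [ht0, zero_smul] at h5
    exact hne h5
  rcases lobe_exists hcont h.loop.per h1 with hall | ⟨α, β, hα1, hβ1, hlen, hα0, hβ0, hne⟩
  · -- no zeros: the integral of `ψ/|ψ|` is `2π ν`
    have hall' : ∀ s, ‖ψ s‖⁻¹ • ψ s = ν := by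
      intro s
      have h2 := hψs s fun t _ => hall t
      have h3 := hpos s fun t _ => hall t
      have h4 : ‖ψ s‖ = inner ℝ ν (ψ s) := by
        conv_lhs => rw [h2]
        rw [norm_smul, hνn, mul_one, Real.norm_of_nonneg h3.le]
      rw [h4]
      conv_lhs => rw [h2]
      rw [real_inner_smul_right, real_inner_self_eq_norm_sq, hνn, smul_smul]
      have : (inner ℝ ν (ψ s) * 1 ^ 2)⁻¹ * inner ℝ ν (ψ s) = (1 : ℝ) := by
        field_simp
      rw [this, one_smul]
    have ha := h.adm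
    unfold Adm at ha
    simp only [hall'] at ha
    have hem : {s ∈ Ioc (0:ℝ) (2 * Real.pi) | ψ s = 0} = ∅ := by
      ext s
      simp [hall s]
    rw [hem, measure_empty, ENNReal.toReal_zero, intervalIntegral.integral_const, norm_smul,
      hνn, mul_one, sub_zero] at ha
    have := Real.pi_pos
    rw [Real.norm_of_nonneg (by positivity)] at ha
    linarith
  · -- lobe case
    have hαβ : α < β := hα1.trans hβ1
    have hsub : ∀ s ∈ Ioo α β, ∀ t ∈ uIcc s₁ s, ψ t ≠ 0 := by
      intro s hs t ht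
      apply hne
      have : uIcc s₁ s ⊆ Ioo α β := ordConnected_Ioo.uIcc_subset ⟨hα1, hβ1⟩ hs
      exact this ht
    have hint : ∀ s ∈ Ioo α β, 1 + inner ℝ ν (ψ s) / ‖ψ s‖ = (2 : ℝ) := by
      intro s hs
      have h2 := hψs s (hsub s hs)
      have h3 := hpos s (hsub s hs)
      have h4 : ‖ψ s‖ = inner ℝ ν (ψ s) := by
        conv_lhs => rw [h2]
        rw [norm_smul, hνn, mul_one, Real.norm_of_nonneg h3.le]
      rw [h4, div_self h3.ne']
      norm_num
    have hI := adm_interval hcont h.loop.per h.adm hνn hαβ.le hlen hne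
    have hI2 : (∫ s in α..β, (1 + inner ℝ ν (ψ s) / ‖ψ s‖)) = ∫ s in α..β, (2 : ℝ) := by
      rw [intervalIntegral.integral_of_le hαβ.le, intervalIntegral.integral_of_le hαβ.le,
        integral_Ioc_eq_integral_Ioo, integral_Ioc_eq_integral_Ioo]
      exact setIntegral_congr_fun measurableSet_Ioo hint
    rw [hI2, intervalIntegral.integral_const, smul_eq_mul] at hI
    have hw : 0 < Real.sqrt e := Real.sqrt_pos.2 he
    have hw1 : Real.sqrt e < 1 := by
      rw [Real.sqrt_lt' one_pos]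
      simpa using he1
    have hwe : Real.sqrt e ^ 2 = e := Real.sq_sqrt he.le
    have hx0 := nr_osc (w := Real.sqrt e) (x := fun s => (inner ℝ ν (ψ s) : ℝ))
      (y := fun s => (inner ℝ ν (p s) : ℝ)) hw hα1 hβ1 ?_ hxc.continuousOn ?_ ?_ ?_ ?_
    · exact hx1.ne' hx0
    · have hpi := Real.pi_pos
      have h5 : β - α ≤ Real.pi := by linarith
      calc Real.sqrt e * (β - α) ≤ Real.sqrt e * Real.pi := by gcongr
        _ < 1 * Real.pi := by gcongr
        _ = Real.pi := one_mul _
    · intro s hs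
      have h6 := (hEL s (hne s hs)).1
      have := (hasDerivAt_const s ν).inner ℝ h6
      simpa using this
    · intro s hs
      have h6 := (hEL s (hne s hs)).2
      have h7 := (hasDerivAt_const s ν).inner ℝ h6
      have h2 := hψs s (hsub s hs)
      have h3 := hpos s (hsub s hs)
      have h4 : ‖ψ s‖ = inner ℝ ν (ψ s) := by
        conv_lhs => rw [h2]
        rw [norm_smul, hνn, mul_one, Real.norm_of_nonneg h3.le]
      have h8 : (inner ℝ ν (force e μ (ψ s)) : ℝ) = -(Real.sqrt e ^ 2 * inner ℝ ν (ψ s)) := by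
        have hm : (inner ℝ (ψ s) μ : ℝ) = inner ℝ ν (ψ s) * inner ℝ ν μ := by
          conv_lhs => rw [h2]
          rw [real_inner_smul_left]
        rw [hwe]
        unfold force
        rw [inner_add_right, inner_neg_right, real_inner_smul_right, real_inner_smul_right,
          inner_sub_right, real_inner_smul_right, hm, h4]
        field_simp
        ring
      rw [← h8]
      simpa using h7
    · simp [hα0]
    · simp [hβ0]

end Ovals2801
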