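import Pool.Agent.Lib.MP_2801bd_mp.Smooth
import Pool.Agent.Lib.MP_2801bd_mp.FromPos
import Pool.Agent.Lib.MP_2801bd_mp.Exists
import Pool.Agent.Lib.MP_2801bd_mp.EulerLagrange
import Pool.Agent.Lib.MP_2801bd_mp.NoMinCore

/-!
# MP_2801bd_mp: the ovals conjecture (assembly)
-/

open MeasureTheory Set
open scoped ContDiff

namespace Ovals2801

/-- There is no minimiser below one. -/
theorem no_isMin {ψ g : ℝ → E4} {e : ℝ} (he : 0 < e) (he1 : e < 1) (h : IsMin ψ g e) :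
    False :=
  no_isMin_of_EL (fun _ _ _ he h => isMin_EL he h) he he1 h

/-- M7b. The inequality for positive functions. -/
theorem oval_pos {γ : ℝ → EuclideanSpace ℝ (Fin 3)} (hγ : ContDiff ℝ ∞ γ)
    (hper : Function.Periodic γ (2 * Real.pi)) (hunit : ∀ s : ℝ, ‖deriv γ s‖ = 1)
    {φ : ℝ → ℝ} (hφ : ContDiff ℝ ∞ φ) (hφper : Function.Periodic φ (2 * Real.pi))
    (hpos : ∀ s, 0 < φ s) :
    (∫ s in (0 : ℝ)..(2 * Real.pi), (φ s) ^ 2) ≤
          ∫ s in (0 : ℝ)..(2 * Real.pi),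
            ((deriv φ s) ^ 2 + ‖deriv (deriv γ) s‖ ^ 2 * (φ s) ^ 2) := by
  obtain ⟨ψ, g, h1, h2, h3, h4⟩ := smooth_loop hγ hper hunit hφ hφper hpos
  by_contra hcon
  push Not at hcon
  rw [← h3, ← h4] at hcon
  obtain ⟨ψ', g', e, he, he1, hm⟩ := exists_isMin h1 h2 hcon
  exact no_isMin he he1 hm

/-- M7. The theorem. -/
theorem main :
    ∀ γ : ℝ → EuclideanSpace ℝ (Fin 3),
      ContDiff ℝ ∞ γ →
      Function.Periodic γ (2 * Real.pi) →
      (∀ s : ℝ, ‖deriv γ s‖ = 1) →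
      ∀ φ : ℝ → ℝ,
        ContDiff ℝ ∞ φ →
        Function.Periodic φ (2 * Real.pi) →
        (∫ s in (0 : ℝ)..(2 * Real.pi), (φ s) ^ 2) ≤
          ∫ s in (0 : ℝ)..(2 * Real.pi),
            ((deriv φ s) ^ 2 + ‖deriv (deriv γ) s‖ ^ 2 * (φ s) ^ 2) := by
  intro γ hγ hper hunit φ hφ hφper
  exact main_of_pos hγ (fun χ hχ hχper hχpos => oval_pos hγ hper hunit hχ hχper hχpos) hφ hφper

end Ovals2801
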