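import Mathlib.Analysis.InnerProductSpace.Calculus
import Mathlib.Analysis.Calculus.ContDiff.Basic
import Mathlib.Analysis.Calculus.ContDiff.Deriv
import Mathlib.Analysis.Calculus.Deriv.Shift
import Mathlib.MeasureTheory.Integral.IntervalIntegral.FundThmCalculus
import Pool.Agent.Lib.MP_2801bd_mp.Defs

/-!
# MP_2801bd_mp: the loop built from a closed curve and a positive function

`ψ = φ • ι(γ')`, where `ι` embeds the three-dimensional space in the four-dimensional one.
-/

open MeasureTheory Set
open scoped ContDiff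

namespace Ovals2801

/-- The embedding of the three-dimensional space as a linear map. -/
noncomputable def iotaL : EuclideanSpace ℝ (Fin 3) →ₗ[ℝ] E4 where
  toFun v := WithLp.toLp 2 (fun i : Fin 4 => if h : (i : ℕ) < 3 then v ⟨i, h⟩ else 0)
  map_add' v w := by
    ext i
    by_cases h : (i : ℕ) < 3
    · simp [h]
    · simp [h]
  map_smul' c v := by
    ext i
    by_cases h : (i : ℕ) < 3
    · simp [h]
    · simp [h]

theorem norm_iotaL (v : EuclideanSpace ℝ (Fin 3)) : ‖iotaL v‖ = ‖v‖ := by
  rw [EuclideanSpace.norm_eq, EuclideanSpace.norm_eq]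
  congr 1
  rw [Fin.sum_univ_four, Fin.sum_univ_three]
  simp [iotaL]


/-- The embedding of the three-dimensional space as a linear isometry. -/
noncomputable def iota : EuclideanSpace ℝ (Fin 3) →ₗᵢ[ℝ] E4 where
  toLinearMap := iotaL
  norm_map' := norm_iotaL

theorem smooth_loop {γ : ℝ → EuclideanSpace ℝ (Fin 3)} (hγ : ContDiff ℝ ∞ γ)
    (hper : Function.Periodic γ (2 * Real.pi)) (hunit : ∀ s : ℝ, ‖deriv γ s‖ = 1)
    {φ : ℝ → ℝ} (hφ : ContDiff ℝ ∞ φ) (hφper : Function.Periodic φ (2 * Real.pi))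
    (hpos : ∀ s, 0 < φ s) :
    ∃ ψ g : ℝ → E4, H1Loop ψ g ∧ Adm ψ ∧
      Mass ψ = (∫ s in (0 : ℝ)..(2 * Real.pi), (φ s) ^ 2) ∧
      Dir g = ∫ s in (0 : ℝ)..(2 * Real.pi),
            ((deriv φ s) ^ 2 + ‖deriv (deriv γ) s‖ ^ 2 * (φ s) ^ 2) := by
  have hγ' : ContDiff ℝ ∞ (deriv γ) := (contDiff_infty_iff_deriv.mp hγ).2
  have hγ'' : ContDiff ℝ ∞ (deriv (deriv γ)) := (contDiff_infty_iff_deriv.mp hγ').2
  have hφ' : ContDiff ℝ ∞ (deriv φ) := (contDiff_infty_iff_deriv.mp hφ).2
  have hdγ : ∀ s, HasDerivAt (deriv γ) (deriv (deriv γ) s) s := fun s =>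
    ((hγ'.differentiable (by simp)) s).hasDerivAt
  have hdγ0 : ∀ s, HasDerivAt γ (deriv γ s) s := fun s =>
    ((hγ.differentiable (by simp)) s).hasDerivAt
  have hdφ : ∀ s, HasDerivAt φ (deriv φ s) s := fun s =>
    ((hφ.differentiable (by simp)) s).hasDerivAt
  have hdper : ∀ {E : Type} [NormedAddCommGroup E] [NormedSpace ℝ E] {f : ℝ → E} {T : ℝ},
      Function.Periodic f T → Function.Periodic (deriv f) T := by
    intro E _ _ f T hf s
    have h1 : (fun x => f (x + T)) = f := funext hf
    rw [← deriv_comp_add_const, h1]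
  have hγ'per := hdper hper
  have hγ''per := hdper hγ'per
  have hφ'per := hdper hφper
  have horth : ∀ s, inner ℝ (deriv γ s) (deriv (deriv γ) s) = 0 := by
    intro s
    have h1 : HasDerivAt (fun t => inner ℝ (deriv γ t) (deriv γ t))
        (inner ℝ (deriv γ s) (deriv (deriv γ) s) + inner ℝ (deriv (deriv γ) s) (deriv γ s)) s :=
      (hdγ s).inner ℝ (hdγ s)
    have h2 : (fun t => inner ℝ (deriv γ t) (deriv γ t)) = fun _ => (1 : ℝ) := by
      funext t
      rw [real_inner_self_eq_norm_sq, hunit t]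
      norm_num
    rw [h2] at h1
    have h3 := h1.unique (hasDerivAt_const s (1 : ℝ))
    rw [real_inner_comm (deriv γ s)] at h3
    rw [real_inner_comm] at h3 ⊢
    linarith
  refine ⟨fun s => φ s • iota (deriv γ s),
    fun s => deriv φ s • iota (deriv γ s) + φ s • iota (deriv (deriv γ) s), ?_, ?_, ?_, ?_⟩
  · have hcont : Continuous
        (fun s => deriv φ s • iota (deriv γ s) + φ s • iota (deriv (deriv γ) s)) :=
      (hφ'.continuous.smul (iota.continuous.comp hγ'.continuous)).add
        (hφ.continuous.smul (iota.continuous.comp hγ''.continuous))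
    have hder : ∀ s, HasDerivAt (fun s => φ s • iota (deriv γ s))
        (deriv φ s • iota (deriv γ s) + φ s • iota (deriv (deriv γ) s)) s := by
      intro s
      have h1 : HasDerivAt (fun s => iota (deriv γ s)) (iota (deriv (deriv γ) s)) s :=
        (iota.toContinuousLinearMap.hasFDerivAt.comp_hasDerivAt s (hdγ s))
      have h2 := (hdφ s).smul h1
      rw [add_comm] at h2
      exact h2
    refine ⟨?_, ?_, hcont.aestronglyMeasurable, ?_, ?_⟩
    · intro s
      show φ (s + 2 * Real.pi) • iota (deriv γ (s + 2 * Real.pi)) = _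
      rw [hφper, hγ'per]
    · intro s
      show deriv φ (s + 2 * Real.pi) • iota (deriv γ (s + 2 * Real.pi)) +
        φ (s + 2 * Real.pi) • iota (deriv (deriv γ) (s + 2 * Real.pi)) = _
      rw [hφper, hγ'per, hφ'per, hγ''per]
    · exact (hcont.norm.pow 2).intervalIntegrable _ _
    · intro a b
      rw [intervalIntegral.integral_eq_sub_of_hasDerivAt (fun s _ => hder s)
        (hcont.intervalIntegrable _ _)]
  · unfold Adm
    have h1 : ∀ s, ‖φ s • iota (deriv γ s)‖⁻¹ • (φ s • iota (deriv γ s)) = iota (deriv γ s) := by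
      intro s
      rw [norm_smul, iota.norm_map, hunit s, mul_one, Real.norm_of_nonneg (hpos s).le, smul_smul,
        inv_mul_cancel₀ (hpos s).ne', one_smul]
    simp only [h1]
    have h2 : (∫ s in (0:ℝ)..(2 * Real.pi), iota (deriv γ s)) =
        iota (∫ s in (0:ℝ)..(2 * Real.pi), deriv γ s) :=
      iota.toContinuousLinearMap.intervalIntegral_comp_comm (hγ'.continuous.intervalIntegrable _ _)
    have h3 : (∫ s in (0:ℝ)..(2 * Real.pi), deriv γ s) = 0 := by
      rw [intervalIntegral.integral_eq_sub_of_hasDerivAt (fun s _ => hdγ0 s)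
        (hγ'.continuous.intervalIntegrable _ _)]
      have := hper 0
      rw [zero_add] at this
      rw [this, sub_self]
    rw [h2, h3, map_zero, norm_zero]
    exact ENNReal.toReal_nonneg
  · unfold Mass
    refine intervalIntegral.integral_congr (fun s _ => ?_)
    show ‖φ s • iota (deriv γ s)‖ ^ 2 = φ s ^ 2
    rw [norm_smul, iota.norm_map, hunit s, mul_one, Real.norm_of_nonneg (hpos s).le]
  · unfold Dir
    refine intervalIntegral.integral_congr (fun s _ => ?_)
    show ‖deriv φ s • iota (deriv γ s) + φ s • iota (deriv (deriv γ) s)‖ ^ 2 =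
      deriv φ s ^ 2 + ‖deriv (deriv γ) s‖ ^ 2 * φ s ^ 2
    rw [@norm_add_sq_real, norm_smul, norm_smul, iota.norm_map, iota.norm_map, hunit s,
      real_inner_smul_left, real_inner_smul_right, iota.inner_map_map, horth s, Real.norm_eq_abs,
      Real.norm_eq_abs, mul_pow, mul_pow, sq_abs, sq_abs]
    ring

end Ovals2801
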