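import Mathlib

/-!
Averages over the unit sphere of `ℝ³`: a rotation invariant probability measure `sph` on
`EuclideanSpace ℝ (Fin 3)` carried by the unit sphere, and its first moments.
-/

open MeasureTheory Set Metric Function
open scoped RealInnerProductSpace ENNReal Pointwise

namespace Pool.Agent.MP2801bd

/-- Euclidean three-space. -/
abbrev E3 := EuclideanSpace ℝ (Fin 3)

/-- The surface measure of the unit sphere, as a measure on the ambient space. -/
noncomputable def sph0 : Measure E3 := ((volume : Measure E3).toSphere).map (Subtype.val)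

lemma measurableEmbedding_sphere : MeasurableEmbedding (Subtype.val : sphere (0 : E3) 1 → E3) :=
  MeasurableEmbedding.subtype_coe isClosed_sphere.measurableSet

/-- Polar coordinates for a product of a degree zero function and a radial function. -/
lemma polar (f : E3 → ℝ) (g : ℝ → ℝ) (hf : ∀ r : ℝ, 0 < r → ∀ e : E3, f (r • e) = f e) :
    ∫ z : E3, f z * g ‖z‖ = (∫ e, f e ∂sph0) * ∫ r in Ioi (0 : ℝ), r ^ 2 * g r := by
  have hdim : Module.finrank ℝ E3 = 3 := by simp
  have h1 : ∫ z : E3, f z * g ‖z‖ =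
      ∫ x : ({(0)}ᶜ : Set E3), f x.1 * g ‖x.1‖ ∂((volume : Measure E3).comap (↑)) := by
    rw [integral_subtype_comap (measurableSet_singleton _).compl fun x ↦ f x * g ‖x‖,
      restrict_compl_singleton]
  have h2 : ∫ x : ({(0)}ᶜ : Set E3), f x.1 * g ‖x.1‖ ∂((volume : Measure E3).comap (↑)) =
      ∫ x : sphere (0 : E3) 1 × Ioi (0 : ℝ), f x.1 * g x.2
        ∂(volume : Measure E3).toSphere.prod (.volumeIoiPow (Module.finrank ℝ E3 - 1)) := by
    have := (volume : Measure E3).measurePreserving_homeomorphUnitSphereProd.integral_comp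
        (Homeomorph.measurableEmbedding _)
        (fun x : sphere (0 : E3) 1 × Ioi (0 : ℝ) => f x.1 * g x.2)
    rw [← this]
    apply integral_congr_ae
    filter_upwards with x
    rw [homeomorphUnitSphereProd_apply_fst_coe, homeomorphUnitSphereProd_apply_snd_coe]
    have hx : 0 < ‖x.1‖ := norm_pos_iff.mpr x.2
    rw [hf _ (inv_pos.mpr hx)]
  have h3 := integral_prod_mul (μ := (volume : Measure E3).toSphere)
    (ν := Measure.volumeIoiPow (Module.finrank ℝ E3 - 1))
    (fun x : sphere (0 : E3) 1 => f x.1) (fun y : Ioi (0 : ℝ) => g y.1)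
  rw [h1, h2]
  refine h3.trans ?_
  congr 1
  · rw [sph0, measurableEmbedding_sphere.integral_map]
  · rw [hdim]
    simp only [Measure.volumeIoiPow, ENNReal.ofReal]
    rw [integral_withDensity_eq_integral_smul,
      integral_subtype_comap measurableSet_Ioi fun a ↦ Real.toNNReal (a ^ (3 - 1)) • g a,
      setIntegral_congr_fun measurableSet_Ioi fun x hx ↦ ?_]
    · rw [NNReal.smul_def, Real.coe_toNNReal _ (pow_nonneg hx.out.le _), smul_eq_mul]
    · exact (measurable_subtype_coe.pow_const _).real_toNNReal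


/-- `sph0` is invariant under linear isometries. -/
lemma sph0_map (L : E3 ≃ₗᵢ[ℝ] E3) : sph0.map L = sph0 := by
  ext A hA
  rw [Measure.map_apply L.continuous.measurable hA, sph0,
    Measure.map_apply measurable_subtype_coe (L.continuous.measurable hA),
    Measure.map_apply measurable_subtype_coe hA,
    Measure.toSphere_apply' _ (measurable_subtype_coe (L.continuous.measurable hA)),
    Measure.toSphere_apply' _ (measurable_subtype_coe hA)]
  congr 1
  have hL : MeasurePreserving L (volume : Measure E3) volume := L.measurePreserving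
  have hset : (Ioo (0 : ℝ) 1 • (Subtype.val '' (Subtype.val ⁻¹' (L ⁻¹' A) :
      Set (sphere (0 : E3) 1))) : Set E3) =
      L ⁻¹' (Ioo (0 : ℝ) 1 • (Subtype.val '' (Subtype.val ⁻¹' A : Set (sphere (0 : E3) 1)))) := by
    ext z
    simp only [Subtype.image_preimage_coe, mem_preimage, Set.mem_smul, mem_inter_iff,
      mem_sphere_iff_norm, sub_zero]
    constructor
    · rintro ⟨r, hr, e, ⟨he1, he2⟩, rfl⟩
      exact ⟨r, hr, L e, ⟨by rw [L.norm_map]; exact he1, he2⟩, by rw [map_smul]⟩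
    · rintro ⟨r, hr, e, ⟨he1, he2⟩, h⟩
      refine ⟨r, hr, L.symm e, ⟨by rw [L.symm.norm_map]; exact he1, by simpa using he2⟩, ?_⟩
      apply L.injective
      rw [map_smul, L.apply_symm_apply]
      exact h
  rw [hset]
  exact hL.measure_preimage_emb L.toHomeomorph.measurableEmbedding _

/-- `∫_0^∞ t ^ p e ^ {-t²} dt`. -/
lemma int_Ioi (p : ℝ) (hp : -1 < p) :
    ∫ t in Ioi (0 : ℝ), t ^ p * Real.exp (-t ^ 2) = 1 / 2 * Real.Gamma ((p + 1) / 2) := by
  have h := integral_rpow_mul_exp_neg_mul_rpow (p := 2) (q := p) (b := 1) (by norm_num) hp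
    (by norm_num)
  rw [Real.one_rpow, one_mul] at h
  rw [← h]
  apply setIntegral_congr_fun measurableSet_Ioi
  intro t _
  simp only
  rw [neg_mul, one_mul, Real.rpow_two]

lemma int_pos (p : ℝ) (hp : 0 < p) :
    ∫ t : ℝ, (max t 0) ^ p * Real.exp (-t ^ 2) = 1 / 2 * Real.Gamma ((p + 1) / 2) := by
  rw [← int_Ioi p (by linarith)]
  rw [← setIntegral_eq_integral_of_forall_compl_eq_zero (s := Ioi (0 : ℝ))]
  · apply setIntegral_congr_fun measurableSet_Ioi
    intro t ht
    simp only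
    rw [max_eq_left (le_of_lt ht)]
  · intro t ht
    rw [max_eq_right (not_lt.mp ht), Real.zero_rpow hp.ne', zero_mul]

lemma int_gauss : ∫ t : ℝ, Real.exp (-t ^ 2) = Real.sqrt Real.pi := by
  have := integral_gaussian 1
  simpa using this

lemma norm_sq_E3 (z : E3) : ‖z‖ ^ 2 = z 0 ^ 2 + z 1 ^ 2 + z 2 ^ 2 := by
  rw [EuclideanSpace.norm_sq_eq, Fin.sum_univ_three]
  simp only [Real.norm_eq_abs, sq_abs]

/-- Fubini for a product function on `ℝ³`. -/
lemma int_prod3 (f g h : ℝ → ℝ) :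
    ∫ z : E3, f (z 0) * g (z 1) * h (z 2) = (∫ t, f t) * (∫ t, g t) * ∫ t, h t := by
  have h1 := (PiLp.volume_preserving_toLp (Fin 3)).integral_comp
    (MeasurableEquiv.toLp 2 _).measurableEmbedding (fun z : E3 => f (z 0) * g (z 1) * h (z 2))
  rw [← h1]
  have h2 := integral_fintype_prod_volume_eq_prod (𝕜 := ℝ) (ι := Fin 3) (E := fun _ => ℝ)
    (fun i => ![f, g, h] i)
  simp only [Fin.prod_univ_three, Matrix.cons_val_zero, Matrix.cons_val_one,
    Matrix.cons_val] at h2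
  exact h2

/-- Moments of a coordinate on the sphere. -/
lemma sph0_moment0 (p : ℝ) (hp : 0 < p) :
    ∫ e, (max (e 0) 0) ^ p ∂sph0 = 2 * Real.pi / (p + 1) := by
  have h1 := polar (fun z => (max (z 0 / ‖z‖) 0) ^ p) (fun r => r ^ p * Real.exp (-r ^ 2)) (by
    intro r hr e
    simp only [PiLp.smul_apply, smul_eq_mul, norm_smul, Real.norm_eq_abs, abs_of_pos hr]
    rw [mul_div_mul_left _ _ hr.ne'])
  have h2 : ∫ z : E3, (max (z 0 / ‖z‖) 0) ^ p * (‖z‖ ^ p * Real.exp (-‖z‖ ^ 2)) =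
      ∫ z : E3, ((max (z 0) 0) ^ p * Real.exp (-(z 0) ^ 2)) * Real.exp (-(z 1) ^ 2) *
        Real.exp (-(z 2) ^ 2) := by
    apply integral_congr_ae
    filter_upwards with z
    have h3 : Real.exp (-‖z‖ ^ 2) = Real.exp (-(z 0) ^ 2) * Real.exp (-(z 1) ^ 2) *
        Real.exp (-(z 2) ^ 2) := by
      rw [← Real.exp_add, ← Real.exp_add, norm_sq_E3]
      congr 1
      ring
    have h4 : (max (z 0 / ‖z‖) 0) ^ p * ‖z‖ ^ p = (max (z 0) 0) ^ p := by
      rw [← Real.mul_rpow (le_max_right _ _) (norm_nonneg _), max_mul_of_nonneg _ _ (norm_nonneg _),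
        zero_mul]
      rcases eq_or_ne z 0 with h | h
      · rw [h]; simp
      · rw [div_mul_cancel₀ _ (norm_ne_zero_iff.mpr h)]
    rw [h3, ← mul_assoc, h4]
    ring
  have h5 : ∫ z : E3, ((max (z 0) 0) ^ p * Real.exp (-(z 0) ^ 2)) * Real.exp (-(z 1) ^ 2) *
        Real.exp (-(z 2) ^ 2) =
      (1 / 2 * Real.Gamma ((p + 1) / 2)) * Real.sqrt Real.pi * Real.sqrt Real.pi := by
    rw [int_prod3 (fun t => (max t 0) ^ p * Real.exp (-t ^ 2)) (fun t => Real.exp (-t ^ 2))
      (fun t => Real.exp (-t ^ 2)), int_pos p hp, int_gauss]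
  have h6 : ∫ e, (max (e 0 / ‖e‖) 0) ^ p ∂sph0 = ∫ e, (max (e 0) 0) ^ p ∂sph0 := by
    rw [sph0, measurableEmbedding_sphere.integral_map, measurableEmbedding_sphere.integral_map]
    apply integral_congr_ae
    filter_upwards with e
    have : ‖(e : E3)‖ = 1 := by simp
    rw [this, div_one]
  have h7 : ∫ r in Ioi (0 : ℝ), r ^ 2 * (r ^ p * Real.exp (-r ^ 2)) =
      1 / 2 * (((p + 1) / 2) * Real.Gamma ((p + 1) / 2)) := by
    rw [← Real.Gamma_add_one (by linarith), show (p + 1) / 2 + 1 = (p + 2 + 1) / 2 by ring,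
      ← int_Ioi (p + 2) (by linarith)]
    apply setIntegral_congr_fun measurableSet_Ioi
    intro t ht
    simp only
    rw [← mul_assoc, Real.rpow_add ht, Real.rpow_two]
    ring
  have hG : 0 < Real.Gamma ((p + 1) / 2) := Real.Gamma_pos_of_pos (by linarith)
  rw [h7, h6, h2, h5] at h1
  rw [mul_assoc, Real.mul_self_sqrt Real.pi_pos.le] at h1
  rw [eq_div_iff (by linarith)]
  have h8 : Real.Gamma ((p + 1) / 2) * ((∫ e, (max (e 0) 0) ^ p ∂sph0) * (p + 1)) =
      Real.Gamma ((p + 1) / 2) * (2 * Real.pi) := by linarith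
  exact mul_left_cancel₀ hG.ne' h8

lemma sph0_univ : sph0 univ = ENNReal.ofReal (4 * Real.pi) := by
  have hfin : sph0 univ ≠ ⊤ := by
    rw [sph0, Measure.map_apply measurable_subtype_coe MeasurableSet.univ]
    exact measure_ne_top _ _
  have h1 := polar (fun _ => 1) (fun r => Real.exp (-r ^ 2)) (fun _ _ _ => rfl)
  have h2 : ∫ z : E3, (1 : ℝ) * Real.exp (-‖z‖ ^ 2) =
      Real.sqrt Real.pi * Real.sqrt Real.pi * Real.sqrt Real.pi := by
    rw [← int_gauss, ← int_prod3]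
    apply integral_congr_ae
    filter_upwards with z
    rw [← Real.exp_add, ← Real.exp_add, norm_sq_E3, one_mul]
    congr 1
    ring
  have h3 : ∫ r in Ioi (0 : ℝ), r ^ 2 * Real.exp (-r ^ 2) = Real.sqrt Real.pi / 4 := by
    have h := int_Ioi 2 (by norm_num)
    have h4 : Real.Gamma ((2 + 1) / 2) = 1 / 2 * Real.sqrt Real.pi := by
      rw [show ((2 : ℝ) + 1) / 2 = 1 / 2 + 1 by norm_num, Real.Gamma_add_one (by norm_num),
        Real.Gamma_one_half_eq]
    rw [h4] at h
    simp only [Real.rpow_two] at h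
    rw [h]
    ring
  rw [h2, h3, integral_const, smul_eq_mul, mul_one] at h1
  have hpi : 0 < Real.sqrt Real.pi := Real.sqrt_pos.mpr Real.pi_pos
  rw [Real.mul_self_sqrt Real.pi_pos.le] at h1
  have h5 : sph0.real univ = 4 * Real.pi := by
    have : Real.sqrt Real.pi * (sph0.real univ) = Real.sqrt Real.pi * (4 * Real.pi) := by linarith
    exact mul_left_cancel₀ hpi.ne' this
  rw [← h5, Measure.real, ENNReal.ofReal_toReal hfin]

/-- The rotation invariant probability measure on the unit sphere of `ℝ³`. -/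
noncomputable def sph : Measure E3 := (ENNReal.ofReal (4 * Real.pi))⁻¹ • sph0

instance : IsProbabilityMeasure sph := by
  constructor
  rw [sph, Measure.smul_apply, sph0_univ, smul_eq_mul, ENNReal.inv_mul_cancel]
  · simp [Real.pi_pos]
  · exact ENNReal.ofReal_ne_top

lemma sph_map (L : E3 ≃ₗᵢ[ℝ] E3) : sph.map L = sph := by
  rw [sph, Measure.map_smul, sph0_map]

lemma sph_measurePreserving (L : E3 ≃ₗᵢ[ℝ] E3) : MeasurePreserving L sph sph :=
  ⟨L.continuous.measurable, sph_map L⟩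

lemma sph_comp (L : E3 ≃ₗᵢ[ℝ] E3) (f : E3 → ℝ) : ∫ e, f (L e) ∂sph = ∫ e, f e ∂sph :=
  (sph_measurePreserving L).integral_comp L.toHomeomorph.measurableEmbedding f

lemma sph_norm : ∀ᵐ e ∂sph, ‖e‖ = 1 := by
  have h0 : ∀ᵐ e ∂sph0, ‖e‖ = 1 := by
    rw [sph0, ae_map_iff measurable_subtype_coe.aemeasurable
      (measurableSet_eq_fun continuous_norm.measurable measurable_const)]
    filter_upwards with e
    simp
  exact Measure.ae_smul_measure h0 _

lemma sph_eq (f : E3 → ℝ) : ∫ e, f e ∂sph = (4 * Real.pi)⁻¹ * ∫ e, f e ∂sph0 := by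
  rw [sph, integral_smul_measure, ENNReal.toReal_inv, ENNReal.toReal_ofReal (by positivity),
    smul_eq_mul]

/-- There is a linear isometry moving a unit vector to the first basis vector. -/
lemma exists_isom (u : E3) (hu : ‖u‖ = 1) :
    ∃ L : E3 ≃ₗᵢ[ℝ] E3, ∀ e : E3, (L e) 0 = ⟪e, u⟫ := by
  set e₀ : E3 := EuclideanSpace.single 0 1 with he₀
  have hn : ‖u‖ = ‖e₀‖ := by rw [hu, he₀]; simp
  refine ⟨(ℝ ∙ (u - e₀))ᗮ.reflection, fun e => ?_⟩
  have h1 : (ℝ ∙ (u - e₀))ᗮ.reflection u = e₀ := Submodule.reflection_sub hn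
  have h2 : ⟪(ℝ ∙ (u - e₀))ᗮ.reflection e, (ℝ ∙ (u - e₀))ᗮ.reflection u⟫ = ⟪e, u⟫ :=
    LinearIsometryEquiv.inner_map_map _ _ _
  rw [← h2, h1, he₀, EuclideanSpace.inner_single_right]
  simp

/-- Moments of `⟪e, u⟫₊` for a unit vector `u`. -/
theorem sph_moment (u : E3) (hu : ‖u‖ = 1) (p : ℝ) (hp : 0 < p) :
    ∫ e, (max ⟪e, u⟫ 0) ^ p ∂sph = 1 / (2 * (p + 1)) := by
  obtain ⟨L, hL⟩ := exists_isom u hu
  have h1 : ∫ e, (max ⟪e, u⟫ 0) ^ p ∂sph = ∫ e, (max (e 0) 0) ^ p ∂sph := by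
    rw [← sph_comp L (fun e => (max (e 0) 0) ^ p)]
    simp only [hL]
  rw [h1, sph_eq, sph0_moment0 p hp]
  have := Real.pi_pos
  field_simp
  ring

/-- Moments with natural exponents. -/
theorem sph_moment_nat (u : E3) (hu : ‖u‖ = 1) (n : ℕ) (hn : n ≠ 0) :
    ∫ e, (max ⟪e, u⟫ 0) ^ n ∂sph = 1 / (2 * ((n : ℝ) + 1)) := by
  have := sph_moment u hu n (by positivity)
  simpa only [Real.rpow_natCast] using this

theorem sph_moment_one (u : E3) (hu : ‖u‖ = 1) : ∫ e, max ⟪e, u⟫ 0 ∂sph = 1 / 4 := by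
  have := sph_moment_nat u hu 1 (by norm_num)
  simp only [pow_one] at this
  rw [this]
  norm_num

lemma sph_integrable {f : E3 → ℝ} (hf : AEStronglyMeasurable f sph) {C : ℝ}
    (hC : ∀ e : E3, ‖e‖ = 1 → |f e| ≤ C) : Integrable f sph := by
  refine Integrable.of_bound hf C ?_
  filter_upwards [sph_norm] with e he
  rw [Real.norm_eq_abs]
  exact hC e he

lemma abs_inner_le_of_norm {e v : E3} (he : ‖e‖ = 1) : |⟪e, v⟫| ≤ ‖v‖ := by
  have := abs_real_inner_le_norm e v
  rwa [he, one_mul] at this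

lemma cont_inner (v : E3) : Continuous fun e : E3 => (⟪e, v⟫ : ℝ) :=
  continuous_id.inner continuous_const

/-- The average of `⟪e, v⟫²`. -/
theorem sph_sq (v : E3) : ∫ e, (⟪e, v⟫ : ℝ) ^ 2 ∂sph = ‖v‖ ^ 2 / 3 := by
  rcases eq_or_ne v 0 with h | h
  · rw [h]; simp
  have hv : 0 < ‖v‖ := norm_pos_iff.mpr h
  set u : E3 := ‖v‖⁻¹ • v with hu
  have hun : ‖u‖ = 1 := by
    rw [hu, norm_smul, norm_inv, norm_norm, inv_mul_cancel₀ hv.ne']
  have hun' : ‖-u‖ = 1 := by rw [norm_neg]; exact hun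
  have hvu : v = ‖v‖ • u := by rw [hu, smul_smul, mul_inv_cancel₀ hv.ne', one_smul]
  have h1 : ∀ w : E3, Integrable (fun e : E3 => (max (⟪e, w⟫ : ℝ) 0) ^ 2) sph := by
    intro w
    refine sph_integrable (C := ‖w‖ ^ 2) ?_ ?_
    · exact (((cont_inner w).max continuous_const).pow 2).aestronglyMeasurable
    · intro e he
      rw [abs_of_nonneg (by positivity)]
      refine pow_le_pow_left₀ (le_max_right _ _) (max_le ?_ (norm_nonneg _)) 2
      exact (le_abs_self _).trans (abs_inner_le_of_norm he)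
  have h2 : ∫ e, (⟪e, u⟫ : ℝ) ^ 2 ∂sph = 1 / 3 := by
    have h3 : ∀ e : E3, (⟪e, u⟫ : ℝ) ^ 2 = (max (⟪e, u⟫ : ℝ) 0) ^ 2 + (max (⟪e, -u⟫ : ℝ) 0) ^ 2 := by
      intro e
      rw [inner_neg_right]
      rcases le_total (⟪e, u⟫ : ℝ) 0 with h | h
      · rw [max_eq_right h, max_eq_left (by linarith)]; ring
      · rw [max_eq_left h, max_eq_right (by linarith)]; ring
    simp only [h3]
    rw [integral_add (h1 u) (h1 (-u)), sph_moment_nat u hun 2 (by norm_num),
      sph_moment_nat (-u) hun' 2 (by norm_num)]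
    norm_num
  have h4 : ∀ e : E3, (⟪e, v⟫ : ℝ) ^ 2 = ‖v‖ ^ 2 * (⟪e, u⟫ : ℝ) ^ 2 := by
    intro e
    have : (⟪e, v⟫ : ℝ) = ‖v‖ * ⟪e, u⟫ := by
      conv_lhs => rw [hvu]
      rw [real_inner_smul_right]
    rw [this]; ring
  simp only [h4]
  rw [integral_const_mul, h2]
  ring

/-- The average of `|⟪e, u⟫|`. -/
theorem sph_abs (u : E3) (hu : ‖u‖ = 1) : ∫ e, |(⟪e, u⟫ : ℝ)| ∂sph = 1 / 2 := by
  have h3 : ∀ e : E3, |(⟪e, u⟫ : ℝ)| = max (⟪e, u⟫ : ℝ) 0 + max (⟪e, -u⟫ : ℝ) 0 := by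
    intro e
    rw [inner_neg_right]
    rcases le_total (⟪e, u⟫ : ℝ) 0 with h | h
    · rw [max_eq_right h, max_eq_left (by linarith), abs_of_nonpos h]; ring
    · rw [max_eq_left h, max_eq_right (by linarith), abs_of_nonneg h]; ring
  have h1 : ∀ w : E3, Integrable (fun e : E3 => max (⟪e, w⟫ : ℝ) 0) sph := by
    intro w
    refine sph_integrable (C := ‖w‖) ?_ ?_
    · exact ((cont_inner w).max continuous_const).aestronglyMeasurable
    · intro e he
      rw [abs_of_nonneg (le_max_right _ _)]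
      exact max_le ((le_abs_self _).trans (abs_inner_le_of_norm he)) (norm_nonneg _)
  simp only [h3]
  rw [integral_add (h1 u) (h1 (-u)), sph_moment_one u hu,
    sph_moment_one (-u) (by rw [norm_neg]; exact hu)]
  norm_num

lemma sign_measurable (v : E3) :
    AEStronglyMeasurable (fun e : E3 => Real.sign (⟪e, v⟫ : ℝ)) sph := by
  have h1 : Measurable Real.sign := by
    unfold Real.sign
    refine Measurable.ite measurableSet_Iio measurable_const ?_
    exact Measurable.ite measurableSet_Ioi measurable_const measurable_const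
  exact (h1.comp (cont_inner v).measurable).aestronglyMeasurable

lemma abs_sign_le (x : ℝ) : |Real.sign x| ≤ 1 := by
  rcases Real.sign_apply_eq x with h | h | h <;> rw [h] <;> simp

/-- The average of `sign ⟪e, v⟫ * ⟪e, w⟫` for a unit vector `v`. -/
theorem sph_sign (v w : E3) (hv : ‖v‖ = 1) :
    ∫ e, Real.sign (⟪e, v⟫ : ℝ) * ⟪e, w⟫ ∂sph = ⟪v, w⟫ / 2 := by
  set w' : E3 := w - (⟪v, w⟫ : ℝ) • v with hw'
  have hort : (⟪v, w'⟫ : ℝ) = 0 := by
    rw [hw', inner_sub_right, real_inner_smul_right, real_inner_self_eq_norm_sq, hv]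
    ring
  have hI : ∀ w : E3, Integrable (fun e : E3 => Real.sign (⟪e, v⟫ : ℝ) * ⟪e, w⟫) sph := by
    intro w
    refine sph_integrable (C := ‖w‖) ?_ ?_
    · exact (sign_measurable v).mul (cont_inner w).aestronglyMeasurable
    · intro e he
      rw [abs_mul]
      calc |Real.sign (⟪e, v⟫ : ℝ)| * |(⟪e, w⟫ : ℝ)| ≤ 1 * ‖w‖ :=
            mul_le_mul (abs_sign_le _) (abs_inner_le_of_norm he) (abs_nonneg _) zero_le_one
        _ = ‖w‖ := one_mul _
  -- the orthogonal part
  have h0 : ∫ e, Real.sign (⟪e, v⟫ : ℝ) * ⟪e, w'⟫ ∂sph = 0 := by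
    set L : E3 ≃ₗᵢ[ℝ] E3 := (ℝ ∙ w')ᗮ.reflection with hL
    have hLw : L w' = -w' := by
      rw [hL]
      exact Submodule.reflection_orthogonalComplement_singleton_eq_neg w'
    have hLv : L v = v := by
      rw [hL]
      apply Submodule.reflection_mem_subspace_eq_self
      rw [Submodule.mem_orthogonal_singleton_iff_inner_left]
      exact hort
    have h1 := sph_comp L (fun e => Real.sign (⟪e, v⟫ : ℝ) * ⟪e, w'⟫)
    have h2 : ∀ e : E3, Real.sign (⟪L e, v⟫ : ℝ) * ⟪L e, w'⟫ =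
        -(Real.sign (⟪e, v⟫ : ℝ) * ⟪e, w'⟫) := by
      intro e
      have h3 : (⟪L e, v⟫ : ℝ) = ⟪e, v⟫ := by
        conv_lhs => rw [← hLv]
        exact L.inner_map_map e v
      have h4 : (⟪L e, w'⟫ : ℝ) = -⟪e, w'⟫ := by
        have h5 : w' = L (-w') := by rw [map_neg, hLw, neg_neg]
        conv_lhs => rw [h5]
        rw [L.inner_map_map, inner_neg_right]
      rw [h3, h4]; ring
    simp only [h2] at h1
    rw [integral_neg] at h1
    linarith
  have h1 : ∀ e : E3, Real.sign (⟪e, v⟫ : ℝ) * ⟪e, w⟫ =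
      ⟪v, w⟫ * |(⟪e, v⟫ : ℝ)| + Real.sign (⟪e, v⟫ : ℝ) * ⟪e, w'⟫ := by
    intro e
    have h2 : (⟪e, w'⟫ : ℝ) = ⟪e, w⟫ - ⟪v, w⟫ * ⟪e, v⟫ := by
      rw [hw', inner_sub_right, real_inner_smul_right]
    have h3 : |(⟪e, v⟫ : ℝ)| = Real.sign (⟪e, v⟫ : ℝ) * ⟪e, v⟫ := by
      rcases lt_trichotomy (⟪e, v⟫ : ℝ) 0 with h | h | h
      · rw [Real.sign_of_neg h, abs_of_neg h]; ring
      · rw [h]; simp
      · rw [Real.sign_of_pos h, abs_of_pos h]; ring
    rw [h2, h3]; ring
  simp only [h1]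
  rw [integral_add _ (hI w'), h0, integral_const_mul, sph_abs v hv]
  · ring
  · refine Integrable.const_mul ?_ _
    refine sph_integrable (C := ‖v‖) ?_ ?_
    · exact ((cont_inner v).abs).aestronglyMeasurable
    · intro e he
      rw [abs_abs]
      exact abs_inner_le_of_norm he

/-- Invariance under `e ↦ -e`. -/
theorem sph_neg (f : E3 → ℝ) : ∫ e, f (-e) ∂sph = ∫ e, f e ∂sph :=
  sph_comp (LinearIsometryEquiv.neg ℝ) f

/-- Great circles are null. -/
theorem sph_null (v : E3) (hv : v ≠ 0) : ∀ᵐ e ∂sph, (⟪e, v⟫ : ℝ) ≠ 0 := by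
  have hn : 0 < ‖v‖ := norm_pos_iff.mpr hv
  have h0 : sph0 {e : E3 | (⟪e, v⟫ : ℝ) = 0} = 0 := by
    have hm : MeasurableSet {e : E3 | (⟪e, v⟫ : ℝ) = 0} :=
      (isClosed_singleton.preimage (cont_inner v)).measurableSet
    rw [sph0, Measure.map_apply measurable_subtype_coe hm,
      Measure.toSphere_apply' _ (measurable_subtype_coe hm)]
    have h1 : (Ioo (0 : ℝ) 1 • (Subtype.val '' (Subtype.val ⁻¹' {e : E3 | (⟪e, v⟫ : ℝ) = 0} :
      Set (sphere (0 : E3) 1))) : Set E3) ⊆ ((ℝ ∙ v)ᗮ : Submodule ℝ E3) := by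
      rintro z hz
      obtain ⟨r, hr, e, he, rfl⟩ := Set.mem_smul.mp hz
      obtain ⟨e', he', rfl⟩ := he
      rw [SetLike.mem_coe, Submodule.mem_orthogonal_singleton_iff_inner_left]
      have : (⟪(e' : E3), v⟫ : ℝ) = 0 := he'
      rw [real_inner_smul_left, this, mul_zero]
    have h2 : (volume : Measure E3) ((ℝ ∙ v)ᗮ : Submodule ℝ E3) = 0 := by
      apply Measure.addHaar_submodule
      intro h
      have h3 : v ∈ (ℝ ∙ v)ᗮ := by rw [h]; trivial
      rw [Submodule.mem_orthogonal_singleton_iff_inner_left, real_inner_self_eq_norm_sq] at h3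
      exact absurd h3 (by positivity)
    rw [measure_mono_null h1 h2, mul_zero]
  have h1 : sph {e : E3 | (⟪e, v⟫ : ℝ) = 0} = 0 := by
    rw [sph, Measure.smul_apply, h0, smul_zero]
  rw [ae_iff]
  simpa using h1

end Pool.Agent.MP2801bd
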