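import Pool.Agent.Lib.MP_2801bd_mp.Curve

/-!
# The boundary inequality at an antiparallel pair

If `T (s₀ + π) = - T s₀`, `a = φ s₀`, `b = φ (s₀ + π)`, then
`∫ (φ'² + κ² φ² - φ²) ≥ - (a² - b²)/2 * ∫_0^π ⟪T (s₀+t) + T (s₀+t+π), T s₀⟫ / sin² t dt`.
-/

set_option autoImplicit false

open Real MeasureTheory intervalIntegral Set Filter Topology
open scoped ContDiff RealInnerProductSpace

namespace Pool.Agent.MP_2801bd_mp

variable {n : ℕ}

/-- for unit vectors, the inner product in terms of the distance -/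
lemma inner_unit (u e : EuclideanSpace ℝ (Fin n)) (hu : ‖u‖ = 1) (he : ‖e‖ = 1) :
    ⟪u, e⟫ = 1 - ‖u - e‖ ^ 2 / 2 := by
  rw [norm_sub_sq_real, hu, he]
  ring

lemma inner_unit' (u e : EuclideanSpace ℝ (Fin n)) (hu : ‖u‖ = 1) (he : ‖e‖ = 1) :
    ⟪u, e⟫ = - 1 + ‖u + e‖ ^ 2 / 2 := by
  rw [norm_add_sq_real, hu, he]
  ring

/-- Lipschitz bound from the left end point. -/
lemma lip_left {T T' : ℝ → EuclideanSpace ℝ (Fin n)} (hT : ∀ s, HasDerivAt T (T' s) s)
    {K : ℝ} (hK : ∀ t ∈ Icc (0:ℝ) π, ‖T' t‖ ≤ K) {t : ℝ} (ht : t ∈ Icc (0:ℝ) π) :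
    ‖T t - T 0‖ ≤ K * t := by
  have := (convex_Icc (0:ℝ) π).norm_image_sub_le_of_norm_hasDerivWithin_le (f := T) (f' := T')
    (C := K) (fun s _ => (hT s).hasDerivWithinAt) hK (x := 0) (y := t)
    ⟨le_refl _, pi_pos.le⟩ ht
  rwa [sub_zero, Real.norm_eq_abs, abs_of_nonneg ht.1] at this

lemma lip_right {T T' : ℝ → EuclideanSpace ℝ (Fin n)} (hT : ∀ s, HasDerivAt T (T' s) s)
    {K : ℝ} (hK : ∀ t ∈ Icc (0:ℝ) π, ‖T' t‖ ≤ K) {t : ℝ} (ht : t ∈ Icc (0:ℝ) π) :
    ‖T t - T π‖ ≤ K * (π - t) := by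
  have := (convex_Icc (0:ℝ) π).norm_image_sub_le_of_norm_hasDerivWithin_le (f := T) (f' := T')
    (C := K) (fun s _ => (hT s).hasDerivWithinAt) hK (x := π) (y := t)
    ⟨pi_pos.le, le_refl _⟩ ht
  rwa [Real.norm_eq_abs, abs_sub_comm, abs_of_nonneg (by linarith [ht.2])] at this

/-- two point bound for `⟪T₁ - v, e⟫` -/
lemma diff_bound {T₁ T₁' v v' : ℝ → EuclideanSpace ℝ (Fin n)} {e : EuclideanSpace ℝ (Fin n)}
    (hT : ∀ s, HasDerivAt T₁ (T₁' s) s) (hv : ∀ s, HasDerivAt v (v' s) s)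
    (hTu : ∀ s, ‖T₁ s‖ = 1) (hvu : ∀ s, ‖v s‖ = 1) (he : ‖e‖ = 1)
    (hT0 : T₁ 0 = e) (hv0 : v 0 = e) (hTp : T₁ π = -e) (hvp : v π = -e)
    {K : ℝ} (hK : ∀ t ∈ Icc (0:ℝ) π, ‖T₁' t‖ ≤ K) (hK' : ∀ t ∈ Icc (0:ℝ) π, ‖v' t‖ ≤ K)
    {t : ℝ} (ht : t ∈ Icc (0:ℝ) π) :
    |⟪T₁ t, e⟫ - ⟪v t, e⟫| ≤ K ^ 2 / 2 * t ^ 2 ∧
    |⟪T₁ t, e⟫ - ⟪v t, e⟫| ≤ K ^ 2 / 2 * (π - t) ^ 2 := by
  constructor
  · rw [inner_unit _ _ (hTu t) he, inner_unit _ _ (hvu t) he]
    have h1 := lip_left hT hK ht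
    have h2 := lip_left hv hK' ht
    rw [hT0] at h1
    rw [hv0] at h2
    have h3 : ‖T₁ t - e‖ ^ 2 ≤ (K * t) ^ 2 := pow_le_pow_left₀ (norm_nonneg _) h1 2
    have h4 : ‖v t - e‖ ^ 2 ≤ (K * t) ^ 2 := pow_le_pow_left₀ (norm_nonneg _) h2 2
    have h5 := sq_nonneg ‖T₁ t - e‖
    have h6 := sq_nonneg ‖v t - e‖
    rw [abs_le]
    constructor <;> nlinarith
  · rw [inner_unit' _ _ (hTu t) he, inner_unit' _ _ (hvu t) he]
    have h1 := lip_right hT hK ht
    have h2 := lip_right hv hK' ht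
    rw [hTp, sub_neg_eq_add] at h1
    rw [hvp, sub_neg_eq_add] at h2
    have h3 : ‖T₁ t + e‖ ^ 2 ≤ (K * (π - t)) ^ 2 := pow_le_pow_left₀ (norm_nonneg _) h1 2
    have h4 : ‖v t + e‖ ^ 2 ≤ (K * (π - t)) ^ 2 := pow_le_pow_left₀ (norm_nonneg _) h2 2
    have h5 := sq_nonneg ‖T₁ t + e‖
    have h6 := sq_nonneg ‖v t + e‖
    rw [abs_le]
    constructor <;> nlinarith

/-- a quotient `c / sin²` is interval integrable on `[0, π]` when `c` vanishes quadratically at both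
ends -/
lemma integrable_div_sin_sq {c : ℝ → ℝ} (hc : Continuous c) {K : ℝ}
    (h1 : ∀ t ∈ Icc (0:ℝ) π, |c t| ≤ K * t ^ 2)
    (h2 : ∀ t ∈ Icc (0:ℝ) π, |c t| ≤ K * (π - t) ^ 2) :
    IntervalIntegrable (fun t => c t / Real.sin t ^ 2) volume 0 π := by
  have hpi := pi_pos
  rw [intervalIntegrable_iff_integrableOn_Ioc_of_le hpi.le]
  have hmeas : Measurable (fun t => c t / Real.sin t ^ 2) :=
    hc.measurable.div ((Real.continuous_sin.measurable).pow_const 2)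
  refine Measure.integrableOn_of_bounded (M := K * (π / 2) ^ 2) ?_ hmeas.aestronglyMeasurable ?_
  · simp
  · rw [ae_restrict_iff' measurableSet_Ioc]
    refine Eventually.of_forall fun t ht => ?_
    have htI : t ∈ Icc (0:ℝ) π := ⟨ht.1.le, ht.2⟩
    have hK0 : 0 ≤ K := by
      have := (abs_nonneg _).trans (h1 π ⟨hpi.le, le_refl _⟩)
      nlinarith [sq_nonneg π, pow_pos hpi 2]
    rcases eq_or_lt_of_le ht.2 with h | h
    · rw [h]
      simp only [Real.sin_pi]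
      simp
      positivity
    · have hs : 0 < Real.sin t := Real.sin_pos_of_pos_of_lt_pi ht.1 h
      rw [norm_div, Real.norm_eq_abs, Real.norm_eq_abs, abs_of_pos (pow_pos hs 2),
        div_le_iff₀ (pow_pos hs 2)]
      rcases le_total t (π / 2) with h3 | h3
      · have h4 : 2 / π * t ≤ Real.sin t := Real.mul_le_sin ht.1.le h3
        have h5 : (2 / π * t) ^ 2 ≤ Real.sin t ^ 2 :=
          pow_le_pow_left₀ (by have := ht.1; positivity) h4 2
        calc |c t| ≤ K * t ^ 2 := h1 t htI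
          _ = K * (π / 2) ^ 2 * (2 / π * t) ^ 2 := by field_simp
          _ ≤ K * (π / 2) ^ 2 * Real.sin t ^ 2 := by
              apply mul_le_mul_of_nonneg_left h5; positivity
      · have h4 : 2 / π * (π - t) ≤ Real.sin (π - t) :=
          Real.mul_le_sin (by linarith [ht.2]) (by linarith)
        rw [Real.sin_pi_sub] at h4
        have h5 : (2 / π * (π - t)) ^ 2 ≤ Real.sin t ^ 2 :=
          pow_le_pow_left₀ (by have := ht.2; have : 0 ≤ π - t := by linarith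
                               positivity) h4 2
        calc |c t| ≤ K * (π - t) ^ 2 := h2 t htI
          _ = K * (π / 2) ^ 2 * (2 / π * (π - t)) ^ 2 := by field_simp
          _ ≤ K * (π / 2) ^ 2 * Real.sin t ^ 2 := by
              apply mul_le_mul_of_nonneg_left h5; positivity

/-- `M / sin` tends to zero at `0` when `M` vanishes to second order there. -/
lemma tendsto_div_sin_zero {M : ℝ → ℝ} (h0 : M 0 = 0) (hd : HasDerivAt M 0 0) :
    ContinuousAt (fun t => M t / Real.sin t) 0 := by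
  have h1 : Tendsto (fun t => M t / t) (𝓝[≠] 0) (𝓝 0) := by
    have := hd.tendsto_slope_zero
    simp only [zero_add, h0, sub_zero, smul_eq_mul] at this
    refine this.congr fun t => ?_
    rw [div_eq_inv_mul]
  have h2 : Tendsto (fun t => Real.sin t / t) (𝓝[≠] 0) (𝓝 1) := by
    have := (Real.hasDerivAt_sin 0).tendsto_slope_zero
    simp only [zero_add, Real.sin_zero, sub_zero, smul_eq_mul, Real.cos_zero] at this
    refine this.congr fun t => ?_
    rw [div_eq_inv_mul]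
  have h3 : Tendsto (fun t => (M t / t) / (Real.sin t / t)) (𝓝[≠] 0) (𝓝 (0 / 1)) :=
    h1.div h2 one_ne_zero
  rw [zero_div] at h3
  rw [continuousAt_iff_punctured_nhds]
  simp only [h0, Real.sin_zero, div_zero]
  refine h3.congr' ?_
  filter_upwards [self_mem_nhdsWithin] with t ht
  have ht' : t ≠ 0 := ht
  rw [div_div_div_cancel_right₀ ht']

lemma tendsto_div_sin_pi {M : ℝ → ℝ} (h0 : M π = 0) (hd : HasDerivAt M 0 π) :
    ContinuousAt (fun t => M t / Real.sin t) π := by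
  have hd' : HasDerivAt (fun t => M (π - t)) 0 0 := by
    have h1 : HasDerivAt (fun t : ℝ => π - t) (-1) 0 := by
      simpa using (hasDerivAt_id (0:ℝ)).const_sub π
    have h2 : HasDerivAt M 0 (π - 0) := by simpa using hd
    have := HasDerivAt.comp (0:ℝ) h2 h1
    rw [zero_mul] at this
    exact this
  have h1 := tendsto_div_sin_zero (M := fun t => M (π - t)) (by simp [h0]) hd'
  have h2 : ContinuousAt (fun t : ℝ => π - t) π := by fun_prop
  have h3 : ContinuousAt (fun t => M (π - t) / Real.sin t) ((fun t : ℝ => π - t) π) := by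
    simpa using h1
  have h4 := ContinuousAt.comp h3 h2
  refine h4.congr (Eventually.of_forall fun t => ?_)
  simp only [Function.comp, sub_sub_cancel, Real.sin_pi_sub]

/-- The boundary inequality, in local form. -/
lemma star_aux {T₁ T₁' v v' : ℝ → EuclideanSpace ℝ (Fin n)} {e : EuclideanSpace ℝ (Fin n)}
    {φ₁ φ₁' φ₂ φ₂' : ℝ → ℝ} {a b : ℝ}
    (hT : ∀ s, HasDerivAt T₁ (T₁' s) s) (hv : ∀ s, HasDerivAt v (v' s) s)
    (hT' : Continuous T₁') (hv' : Continuous v')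
    (hφ₁ : ∀ s, HasDerivAt φ₁ (φ₁' s) s) (hφ₂ : ∀ s, HasDerivAt φ₂ (φ₂' s) s)
    (hφ₁' : Continuous φ₁') (hφ₂' : Continuous φ₂')
    (hTu : ∀ s, ‖T₁ s‖ = 1) (hvu : ∀ s, ‖v s‖ = 1) (he : ‖e‖ = 1)
    (hTo : ∀ s, ⟪T₁ s, T₁' s⟫ = 0) (hvo : ∀ s, ⟪v s, v' s⟫ = 0)
    (hT0 : T₁ 0 = e) (hv0 : v 0 = e) (hTp : T₁ π = -e) (hvp : v π = -e)
    (hφ₁0 : φ₁ 0 = a) (hφ₂0 : φ₂ 0 = b) (hφ₁p : φ₁ π = b) (hφ₂p : φ₂ π = a) :
    0 ≤ (∫ t in (0:ℝ)..π, ((φ₁' t ^ 2 + ‖T₁' t‖ ^ 2 * φ₁ t ^ 2 - φ₁ t ^ 2) +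
        (φ₂' t ^ 2 + ‖v' t‖ ^ 2 * φ₂ t ^ 2 - φ₂ t ^ 2))) +
      (a ^ 2 - b ^ 2) / 2 * ∫ t in (0:ℝ)..π, (⟪T₁ t, e⟫ - ⟪v t, e⟫) / Real.sin t ^ 2 := by
  have hpi := pi_pos
  have hTc : Continuous T₁ := continuous_iff_continuousAt.2 fun s => (hT s).continuousAt
  have hvc : Continuous v := continuous_iff_continuousAt.2 fun s => (hv s).continuousAt
  have hφ₁c : Continuous φ₁ := continuous_iff_continuousAt.2 fun s => (hφ₁ s).continuousAt
  have hφ₂c : Continuous φ₂ := continuous_iff_continuousAt.2 fun s => (hφ₂ s).continuousAt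
  obtain ⟨K₁, hK₁⟩ := isCompact_Icc.exists_bound_of_continuousOn (s := Icc (0:ℝ) π) hT'.continuousOn
  obtain ⟨K₂, hK₂⟩ := isCompact_Icc.exists_bound_of_continuousOn (s := Icc (0:ℝ) π) hv'.continuousOn
  have hK : ∀ t ∈ Icc (0:ℝ) π, ‖T₁' t‖ ≤ max K₁ K₂ := fun t ht => (hK₁ t ht).trans (le_max_left _ _)
  have hK' : ∀ t ∈ Icc (0:ℝ) π, ‖v' t‖ ≤ max K₁ K₂ := fun t ht => (hK₂ t ht).trans (le_max_right _ _)
  set c₁ : ℝ → ℝ := fun t => ⟪T₁ t, e⟫ with hc₁
  set c₂ : ℝ → ℝ := fun t => ⟪v t, e⟫ with hc₂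
  set c₁' : ℝ → ℝ := fun t => ⟪T₁' t, e⟫ with hc₁'
  set c₂' : ℝ → ℝ := fun t => ⟪v' t, e⟫ with hc₂'
  have hc₁c : Continuous c₁ := hTc.inner continuous_const
  have hc₂c : Continuous c₂ := hvc.inner continuous_const
  have hc₁d : ∀ t, HasDerivAt c₁ (c₁' t) t := by
    intro t
    have := (hT t).inner ℝ (hasDerivAt_const t e)
    simpa using this
  have hc₂d : ∀ t, HasDerivAt c₂ (c₂' t) t := by
    intro t
    have := (hv t).inner ℝ (hasDerivAt_const t e)
    simpa using this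
  have hee : ⟪e, e⟫ = (1:ℝ) := by rw [real_inner_self_eq_norm_sq, he]; norm_num
  set U : ℝ → ℝ := fun t => (c₁ t - c₂ t) / Real.sin t ^ 2 with hU
  have hUint : IntervalIntegrable U volume 0 π :=
    integrable_div_sin_sq (hc₁c.sub hc₂c)
      (fun t ht => (diff_bound hT hv hTu hvu he hT0 hv0 hTp hvp hK hK' ht).1)
      (fun t ht => (diff_bound hT hv hTu hvu he hT0 hv0 hTp hvp hK hK' ht).2)
  set p : ℝ := (a - b) / 2 with hp
  set q : ℝ := (a + b) / 2 with hq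
  set D : ℝ → ℝ := fun t => (φ₁' t ^ 2 + ‖T₁' t‖ ^ 2 * φ₁ t ^ 2 - φ₁ t ^ 2) +
        (φ₂' t ^ 2 + ‖v' t‖ ^ 2 * φ₂ t ^ 2 - φ₂ t ^ 2) with hD
  have hDc : Continuous D := by fun_prop
  set M : ℝ → ℝ := fun t => -(φ₁ t ^ 2 + φ₂ t ^ 2 + (a ^ 2 + b ^ 2)) * Real.cos t
    + 2 * p * (φ₁ t - φ₂ t) + 2 * q * (φ₁ t * c₁ t + φ₂ t * c₂ t) with hM
  set M' : ℝ → ℝ := fun t => -(2 * φ₁ t * φ₁' t + 2 * φ₂ t * φ₂' t) * Real.cos t
    + (φ₁ t ^ 2 + φ₂ t ^ 2 + (a ^ 2 + b ^ 2)) * Real.sin t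
    + 2 * p * (φ₁' t - φ₂' t)
    + 2 * q * (φ₁' t * c₁ t + φ₁ t * c₁' t + φ₂' t * c₂ t + φ₂ t * c₂' t) with hM'
  have hMd : ∀ t, HasDerivAt M (M' t) t := by
    intro t
    have h1 := (hφ₁ t).pow 2
    have h2 := (hφ₂ t).pow 2
    have h3 := ((((h1.add h2).add_const (a ^ 2 + b ^ 2)).neg).mul (Real.hasDerivAt_cos t))
    have h4 := ((hφ₁ t).sub (hφ₂ t)).const_mul (2 * p)
    have h5 := (((hφ₁ t).mul (hc₁d t)).add ((hφ₂ t).mul (hc₂d t))).const_mul (2 * q)
    refine ((h3.add h4).add h5).congr_deriv ?_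
    simp only [hM', Pi.add_apply, Pi.pow_apply, Pi.neg_apply]
    push_cast
    ring
  have hc₁0 : c₁ 0 = 1 := by simp only [hc₁, hT0, hee]
  have hc₂0 : c₂ 0 = 1 := by simp only [hc₂, hv0, hee]
  have hc₁p : c₁ π = -1 := by simp only [hc₁, hTp, inner_neg_left, hee]
  have hc₂p : c₂ π = -1 := by simp only [hc₂, hvp, inner_neg_left, hee]
  have hc₁'0 : c₁' 0 = 0 := by
    have := hTo 0
    rw [hT0] at this
    simp only [hc₁']
    rw [real_inner_comm]; exact this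
  have hc₂'0 : c₂' 0 = 0 := by
    have := hvo 0
    rw [hv0] at this
    simp only [hc₂']
    rw [real_inner_comm]; exact this
  have hc₁'p : c₁' π = 0 := by
    have := hTo π
    rw [hTp, inner_neg_left, neg_eq_zero] at this
    simp only [hc₁']
    rw [real_inner_comm]; exact this
  have hc₂'p : c₂' π = 0 := by
    have := hvo π
    rw [hvp, inner_neg_left, neg_eq_zero] at this
    simp only [hc₂']
    rw [real_inner_comm]; exact this
  have hM0 : M 0 = 0 := by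
    simp only [hM, hφ₁0, hφ₂0, hc₁0, hc₂0, Real.cos_zero, hp, hq]
    ring
  have hMp : M π = 0 := by
    simp only [hM, hφ₁p, hφ₂p, hc₁p, hc₂p, Real.cos_pi, hp, hq]
    ring
  have hM'0 : M' 0 = 0 := by
    simp only [hM', hφ₁0, hφ₂0, hc₁0, hc₂0, hc₁'0, hc₂'0, Real.cos_zero, Real.sin_zero, hp, hq]
    ring
  have hM'p : M' π = 0 := by
    simp only [hM', hφ₁p, hφ₂p, hc₁p, hc₂p, hc₁'p, hc₂'p, Real.cos_pi, Real.sin_pi, hp, hq]
    ring
  set B : ℝ → ℝ := fun t => M t / Real.sin t with hB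
  have hMc : Continuous M := continuous_iff_continuousAt.2 fun s => (hMd s).continuousAt
  have hBcont : ContinuousOn B (Icc 0 π) := by
    intro t ht
    apply ContinuousAt.continuousWithinAt
    rcases eq_or_lt_of_le ht.1 with h | h
    · rw [← h]
      apply tendsto_div_sin_zero hM0
      have := hMd 0
      rwa [hM'0] at this
    · rcases eq_or_lt_of_le ht.2 with h' | h'
      · rw [h']
        apply tendsto_div_sin_pi hMp
        have := hMd π
        rwa [hM'p] at this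
      · exact ContinuousAt.div hMc.continuousAt Real.continuous_sin.continuousAt
          (Real.sin_pos_of_pos_of_lt_pi h h').ne'
  have hB0 : B 0 = 0 := by simp [hB]
  have hBp : B π = 0 := by simp [hB]
  -- the monotone function
  set G : ℝ → ℝ := fun t => (∫ r in (0:ℝ)..t, D r) + 2 * p * q * (∫ r in (0:ℝ)..t, U r) + B t with hG
  have hGcont : ContinuousOn G (Icc 0 π) := by
    have h1 : ContinuousOn (fun t => ∫ r in (0:ℝ)..t, D r) (Icc 0 π) :=
      (intervalIntegral.continuous_primitive (fun u v => hDc.intervalIntegrable u v) 0).continuousOn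
    have h2 : ContinuousOn (fun t => ∫ r in (0:ℝ)..t, U r) (Icc 0 π) := by
      have := intervalIntegral.continuousOn_primitive_interval' hUint (left_mem_uIcc)
      rwa [uIcc_of_le hpi.le] at this
    exact (h1.add (continuousOn_const.mul h2)).add hBcont
  have hGd : ∀ t ∈ Ioo (0:ℝ) π, HasDerivAt G
      (D t + 2 * p * q * U t + (M' t * Real.sin t - M t * Real.cos t) / Real.sin t ^ 2) t := by
    intro t ht
    have hs : Real.sin t ≠ 0 := (Real.sin_pos_of_pos_of_lt_pi ht.1 ht.2).ne'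
    have h1 : HasDerivAt (fun t => ∫ r in (0:ℝ)..t, D r) (D t) t :=
      intervalIntegral.integral_hasDerivAt_right (hDc.intervalIntegrable _ _)
        (hDc.stronglyMeasurableAtFilter _ _) hDc.continuousAt
    have hUc : ContinuousAt U t := by
      apply ContinuousAt.div (hc₁c.sub hc₂c).continuousAt
        ((Real.continuous_sin.pow 2).continuousAt)
      exact pow_ne_zero 2 hs
    have hUm : Measurable U :=
      (hc₁c.sub hc₂c).measurable.div ((Real.continuous_sin.measurable).pow_const 2)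
    have h2 : HasDerivAt (fun t => ∫ r in (0:ℝ)..t, U r) (U t) t := by
      apply intervalIntegral.integral_hasDerivAt_right
      · apply hUint.mono_set
        rw [uIcc_of_le ht.1.le, uIcc_of_le hpi.le]
        exact Icc_subset_Icc_right ht.2.le
      · exact hUm.stronglyMeasurable.stronglyMeasurableAtFilter
      · exact hUc
    have h3 : HasDerivAt B ((M' t * Real.sin t - M t * Real.cos t) / Real.sin t ^ 2) t :=
      (hMd t).div (Real.hasDerivAt_sin t) hs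
    exact (h1.add (h2.const_mul (2 * p * q))).add h3
  have hGnn : ∀ t ∈ Ioo (0:ℝ) π,
      0 ≤ D t + 2 * p * q * U t + (M' t * Real.sin t - M t * Real.cos t) / Real.sin t ^ 2 := by
    intro t ht
    have hs : 0 < Real.sin t := Real.sin_pos_of_pos_of_lt_pi ht.1 ht.2
    have e1 : D t + 2 * p * q * U t + (M' t * Real.sin t - M t * Real.cos t) / Real.sin t ^ 2 =
        (D t * Real.sin t ^ 2 + 2 * p * q * (c₁ t - c₂ t) +
          (M' t * Real.sin t - M t * Real.cos t)) / Real.sin t ^ 2 := by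
      simp only [hU]
      field_simp
    rw [e1]
    apply div_nonneg _ (sq_nonneg _)
    have hsc := Real.sin_sq_add_cos_sq t
    have n1 : ‖(φ₁ t * Real.cos t - φ₁' t * Real.sin t - p) • T₁ t - (φ₁ t * Real.sin t) • T₁' t
        - q • e‖ ^ 2 = (φ₁ t * Real.cos t - φ₁' t * Real.sin t - p) ^ 2 +
        (φ₁ t * Real.sin t) ^ 2 * ‖T₁' t‖ ^ 2 + q ^ 2
        - 2 * q * (φ₁ t * Real.cos t - φ₁' t * Real.sin t - p) * c₁ t
        + 2 * q * (φ₁ t * Real.sin t) * c₁' t := by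
      rw [norm_sub_sq_real, norm_sub_sq_real, norm_smul, norm_smul, norm_smul, hTu t, he,
        inner_sub_left, real_inner_smul_left, real_inner_smul_left, real_inner_smul_right,
        real_inner_smul_right, real_inner_smul_left, real_inner_smul_right, hTo t]
      simp only [Real.norm_eq_abs, mul_pow, sq_abs, hc₁, hc₁']
      ring
    have n2 : ‖(φ₂ t * Real.cos t - φ₂' t * Real.sin t + p) • v t - (φ₂ t * Real.sin t) • v' t
        - q • e‖ ^ 2 = (φ₂ t * Real.cos t - φ₂' t * Real.sin t + p) ^ 2 +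
        (φ₂ t * Real.sin t) ^ 2 * ‖v' t‖ ^ 2 + q ^ 2
        - 2 * q * (φ₂ t * Real.cos t - φ₂' t * Real.sin t + p) * c₂ t
        + 2 * q * (φ₂ t * Real.sin t) * c₂' t := by
      rw [norm_sub_sq_real, norm_sub_sq_real, norm_smul, norm_smul, norm_smul, hvu t, he,
        inner_sub_left, real_inner_smul_left, real_inner_smul_left, real_inner_smul_right,
        real_inner_smul_right, real_inner_smul_left, real_inner_smul_right, hvo t]
      simp only [Real.norm_eq_abs, mul_pow, sq_abs, hc₂, hc₂']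
      ring
    have hpq : a ^ 2 + b ^ 2 = 2 * p ^ 2 + 2 * q ^ 2 := by
      simp only [hp, hq]; ring
    have key : D t * Real.sin t ^ 2 + 2 * p * q * (c₁ t - c₂ t) +
          (M' t * Real.sin t - M t * Real.cos t) =
        ‖(φ₁ t * Real.cos t - φ₁' t * Real.sin t - p) • T₁ t - (φ₁ t * Real.sin t) • T₁' t
        - q • e‖ ^ 2 + ‖(φ₂ t * Real.cos t - φ₂' t * Real.sin t + p) • v t -
          (φ₂ t * Real.sin t) • v' t - q • e‖ ^ 2 := by
      rw [n1, n2]
      simp only [hD, hM, hM', hpq]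
      linear_combination (2 * p ^ 2 + 2 * q ^ 2) * hsc
    rw [key]
    positivity
  have hmono : MonotoneOn G (Icc 0 π) := by
    apply monotoneOn_of_deriv_nonneg (convex_Icc 0 π) hGcont
    · rw [interior_Icc]
      exact fun t ht => (hGd t ht).differentiableAt.differentiableWithinAt
    · rw [interior_Icc]
      intro t ht
      rw [(hGd t ht).deriv]
      exact hGnn t ht
  have hfin := hmono (left_mem_Icc.2 hpi.le) (right_mem_Icc.2 hpi.le) hpi.le
  simp only [hG, intervalIntegral.integral_same, hB0, hBp] at hfin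
  have hpq : 2 * p * q = (a ^ 2 - b ^ 2) / 2 := by simp only [hp, hq]; ring
  rw [hpq] at hfin
  linarith

/-- The number `N(s₀)` attached to an antiparallel pair. -/
noncomputable def bdry (T : ℝ → EuclideanSpace ℝ (Fin n)) (s₀ : ℝ) : ℝ :=
  ∫ t in (0:ℝ)..π, ⟪T (s₀ + t) + T (s₀ + t + π), T s₀⟫ / Real.sin t ^ 2

/-- **The boundary inequality.** -/
theorem star {T T' : ℝ → EuclideanSpace ℝ (Fin n)} (hT : Tangent T T') {φ φ' : ℝ → ℝ}
    (hφ : ∀ s, HasDerivAt φ (φ' s) s) (hφ' : Continuous φ') (hper : Function.Periodic φ (2 * π))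
    (hper' : Function.Periodic φ' (2 * π)) {s₀ : ℝ} (hs : T (s₀ + π) = - T s₀) :
    0 ≤ (∫ s in (0:ℝ)..(2 * π), (φ' s ^ 2 + ‖T' s‖ ^ 2 * φ s ^ 2 - φ s ^ 2)) +
      (φ s₀ ^ 2 - φ (s₀ + π) ^ 2) / 2 * bdry T s₀ := by
  have hφc : Continuous φ := continuous_iff_continuousAt.2 fun s => (hφ s).continuousAt
  have hTc := hT.contT
  have hT'c := hT.cont
  have hsh : ∀ (c s : ℝ), HasDerivAt (fun t : ℝ => c + t) 1 s := fun c s => by
    simpa using (hasDerivAt_id s).const_add c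
  have hTd : ∀ (c s : ℝ), HasDerivAt (fun t => T (c + t)) (T' (c + s)) s := by
    intro c s
    have := (hT.hderiv (c + s)).scomp s (hsh c s)
    rw [one_smul] at this
    exact this
  have hφd : ∀ (c s : ℝ), HasDerivAt (fun t => φ (c + t)) (φ' (c + s)) s := by
    intro c s
    have := HasDerivAt.comp s (hφ (c + s)) (hsh c s)
    rw [mul_one] at this
    exact this
  have h2p : T (s₀ + π + π) = T s₀ := by
    rw [add_assoc, ← two_mul]; exact hT.per s₀
  have hφ2p : φ (s₀ + π + π) = φ s₀ := by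
    rw [add_assoc, ← two_mul]; exact hper s₀
  have key := star_aux (T₁ := fun t => T (s₀ + t)) (T₁' := fun t => T' (s₀ + t))
    (v := fun t => - T (s₀ + π + t)) (v' := fun t => - T' (s₀ + π + t)) (e := T s₀)
    (φ₁ := fun t => φ (s₀ + t)) (φ₁' := fun t => φ' (s₀ + t))
    (φ₂ := fun t => φ (s₀ + π + t)) (φ₂' := fun t => φ' (s₀ + π + t))
    (a := φ s₀) (b := φ (s₀ + π))
    (fun s => hTd s₀ s) (fun s => (hTd (s₀ + π) s).neg) (by fun_prop) (by fun_prop)
    (fun s => hφd s₀ s) (fun s => hφd (s₀ + π) s) (by fun_prop) (by fun_prop)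
    (fun s => hT.unit _) (fun s => by rw [norm_neg]; exact hT.unit _) (hT.unit _)
    (fun s => hT.orth _) (fun s => by rw [inner_neg_neg]; exact hT.orth _)
    (by simp) (by simp [hs]) (by simp [hs]) (by simp [h2p])
    (by simp) (by simp) (by simp) (by simp [hφ2p])
  simp only [norm_neg, inner_neg_left, sub_neg_eq_add] at key
  have hDc : Continuous (fun s => φ' s ^ 2 + ‖T' s‖ ^ 2 * φ s ^ 2 - φ s ^ 2) := by fun_prop
  have hDper : Function.Periodic (fun s => φ' s ^ 2 + ‖T' s‖ ^ 2 * φ s ^ 2 - φ s ^ 2) (2 * π) := by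
    intro s
    simp only [hper s, hper' s, hT.per' s]
  have e1 : ∫ s in (0:ℝ)..(2 * π), (φ' s ^ 2 + ‖T' s‖ ^ 2 * φ s ^ 2 - φ s ^ 2) =
      ∫ t in (0:ℝ)..π, ((φ' (s₀ + t) ^ 2 + ‖T' (s₀ + t)‖ ^ 2 * φ (s₀ + t) ^ 2 - φ (s₀ + t) ^ 2) +
      (φ' (s₀ + π + t) ^ 2 + ‖T' (s₀ + π + t)‖ ^ 2 * φ (s₀ + π + t) ^ 2 - φ (s₀ + π + t) ^ 2)) := by
    have h1 := hDper.intervalIntegral_add_eq 0 s₀
    rw [zero_add] at h1
    rw [h1, intervalIntegral.integral_add]
    · have h2 : ∫ t in (0:ℝ)..π, (φ' (s₀ + t) ^ 2 + ‖T' (s₀ + t)‖ ^ 2 * φ (s₀ + t) ^ 2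
          - φ (s₀ + t) ^ 2) = ∫ s in (s₀ + 0)..(s₀ + π),
            (φ' s ^ 2 + ‖T' s‖ ^ 2 * φ s ^ 2 - φ s ^ 2) :=
        intervalIntegral.integral_comp_add_left
          (fun s => φ' s ^ 2 + ‖T' s‖ ^ 2 * φ s ^ 2 - φ s ^ 2) s₀
      have h3 : ∫ t in (0:ℝ)..π, (φ' (s₀ + π + t) ^ 2 + ‖T' (s₀ + π + t)‖ ^ 2 * φ (s₀ + π + t) ^ 2
          - φ (s₀ + π + t) ^ 2) = ∫ s in (s₀ + π + 0)..(s₀ + π + π),
            (φ' s ^ 2 + ‖T' s‖ ^ 2 * φ s ^ 2 - φ s ^ 2) :=
        intervalIntegral.integral_comp_add_left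
          (fun s => φ' s ^ 2 + ‖T' s‖ ^ 2 * φ s ^ 2 - φ s ^ 2) (s₀ + π)
      rw [h2, h3, add_zero, add_zero, intervalIntegral.integral_add_adjacent_intervals
        (hDc.intervalIntegrable _ _) (hDc.intervalIntegrable _ _)]
      congr 1
      ring
    · exact Continuous.intervalIntegrable (by fun_prop) _ _
    · exact Continuous.intervalIntegrable (by fun_prop) _ _
  have e2 : bdry T s₀ = ∫ t in (0:ℝ)..π, (⟪T (s₀ + t), T s₀⟫ + ⟪T (s₀ + π + t), T s₀⟫)
      / Real.sin t ^ 2 := by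
    rw [bdry]
    congr 1
    ext t
    rw [inner_add_left, add_right_comm]
  rw [e1, e2]
  exact key

end Pool.Agent.MP_2801bd_mp
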