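import Pool.Agent.Lib.MP_2801bd_mp.H1Basic
import Pool.Agent.Lib.MP_2801bd_mp.FlexCore

/-!
# MP_2801bd_mp: from the weak to the strong Euler-Lagrange equation (module M2c)
-/

open MeasureTheory Set

namespace Ovals2801

/-- The tent with support `[a, b]` and peak `c` at `s`. -/
theorem exists_tent {a s b : ℝ} (has : a < s) (hsb : s < b) (hb : b < a + 2 * Real.pi) (c : E4) :
    ∃ v k : ℝ → E4, H1Loop v k ∧ (∀ t ∈ Icc a s, v t = ((t - a) / (s - a)) • c) ∧
      (∀ t ∈ Icc s b, v t = ((b - t) / (b - s)) • c) ∧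
      (∀ t ∈ Icc b (a + 2 * Real.pi), v t = 0) ∧
      (∀ t ∈ Ioc a s, k t = (s - a)⁻¹ • c) ∧ (∀ t ∈ Ioc s b, k t = -(b - s)⁻¹ • c) ∧
      (∀ t ∈ Ioc b (a + 2 * Real.pi), k t = 0) := by
  set f : ℝ → ℝ := FlexAux.step a s b (a + 2 * Real.pi) (s - a)⁻¹ (-(b - s)⁻¹) 0 0 with hf
  have hfm : Measurable f := FlexAux.measurable_step _ _ _ _ _ _ _ _
  have hfp : Function.Periodic f (2 * Real.pi) := FlexAux.step_periodic _ _ _ _ _ _ _ _
  have hsa : 0 < s - a := by linarith
  have hbs : 0 < b - s := by linarith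
  have f1 : ∀ t ∈ Ioc a s, f t = (s - a)⁻¹ := fun t ht =>
    FlexAux.step_one has hsb hb le_rfl ht
  have f2 : ∀ t ∈ Ioc s b, f t = -(b - s)⁻¹ := fun t ht =>
    FlexAux.step_two has hsb hb le_rfl ht
  have f3 : ∀ t ∈ Ioc b (a + 2 * Real.pi), f t = 0 := fun t ht =>
    FlexAux.step_three has hsb hb le_rfl ht
  have hfb : ∀ t, ‖f t‖ ≤ (s - a)⁻¹ + (b - s)⁻¹ := by
    intro t
    have h1 : 0 < (s - a)⁻¹ := inv_pos.mpr hsa
    have h2 : 0 < (b - s)⁻¹ := inv_pos.mpr hbs
    rw [Real.norm_eq_abs]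
    simp only [hf, FlexAux.step]
    split_ifs
    · rw [abs_of_pos h1]; linarith
    · rw [abs_neg, abs_of_pos h2]; linarith
    · rw [abs_zero]; linarith
    · rw [abs_zero]; linarith
  have hfi : ∀ x y : ℝ, IntervalIntegrable f volume x y := fun x y =>
    FlexAux.intervalIntegrable_of_bounded hfm.aestronglyMeasurable hfb x y
  -- the integrals
  have g1 : ∀ t ∈ Icc a s, ∫ u in a..t, f u = (t - a) / (s - a) := by
    intro t ht
    have : ∫ u in a..t, f u = ∫ u in a..t, (s - a)⁻¹ := by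
      rw [intervalIntegral.integral_of_le ht.1, intervalIntegral.integral_of_le ht.1]
      exact setIntegral_congr_fun measurableSet_Ioc (fun u hu => f1 u ⟨hu.1, hu.2.trans ht.2⟩)
    rw [this, intervalIntegral.integral_const, smul_eq_mul, div_eq_mul_inv]
  have g2 : ∀ t ∈ Icc s b, ∫ u in a..t, f u = (b - t) / (b - s) := by
    intro t ht
    have h1 : ∫ u in s..t, f u = ∫ u in s..t, -(b - s)⁻¹ := by
      rw [intervalIntegral.integral_of_le ht.1, intervalIntegral.integral_of_le ht.1]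
      exact setIntegral_congr_fun measurableSet_Ioc (fun u hu => f2 u ⟨hu.1, hu.2.trans ht.2⟩)
    rw [← intervalIntegral.integral_add_adjacent_intervals (hfi a s) (hfi s t),
      g1 s ⟨has.le, le_rfl⟩, h1, intervalIntegral.integral_const, smul_eq_mul]
    field_simp
    ring
  have g3 : ∀ t ∈ Icc b (a + 2 * Real.pi), ∫ u in a..t, f u = 0 := by
    intro t ht
    have h1 : ∫ u in b..t, f u = ∫ u in b..t, (0:ℝ) := by
      rw [intervalIntegral.integral_of_le ht.1, intervalIntegral.integral_of_le ht.1]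
      exact setIntegral_congr_fun measurableSet_Ioc (fun u hu => f3 u ⟨hu.1, hu.2.trans ht.2⟩)
    rw [← intervalIntegral.integral_add_adjacent_intervals (hfi a b) (hfi b t),
      g2 b ⟨hsb.le, le_rfl⟩, h1, intervalIntegral.integral_zero, sub_self, zero_div, add_zero]
  have hvp : Function.Periodic (fun t => (∫ u in a..t, f u) • c) (2 * Real.pi) := by
    intro t
    simp only
    rw [← intervalIntegral.integral_add_adjacent_intervals (hfi a t)
      (hfi t (t + 2 * Real.pi)), hfp.intervalIntegral_add_eq t a,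
      g3 (a + 2 * Real.pi) ⟨hb.le, le_rfl⟩, add_zero]
  refine ⟨fun t => (∫ u in a..t, f u) • c, fun t => f t • c, ?_, ?_, ?_, ?_, ?_, ?_, ?_⟩
  · refine H1Loop.of_period a hvp (fun t => by simp only [hfp t]) ?_ ?_ ?_
    · exact (hfm.aestronglyMeasurable.smul_const c)
    · refine FlexAux.intervalIntegrable_of_bounded (C := (((s - a)⁻¹ + (b - s)⁻¹) * ‖c‖) ^ 2)
        ?_ ?_ _ _
      · exact ((hfm.aestronglyMeasurable.smul_const c).norm.pow 2)
      · intro t
        rw [Real.norm_eq_abs, abs_of_nonneg (by positivity), norm_smul]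
        have := hfb t
        gcongr
    · intro t _
      simp only [intervalIntegral.integral_same, zero_smul, sub_zero]
      rw [← intervalIntegral.integral_smul_const]
  · intro t ht; simp only [g1 t ht]
  · intro t ht; simp only [g2 t ht]
  · intro t ht; simp only [g3 t ht, zero_smul]
  · intro t ht; simp only [f1 t ht]
  · intro t ht; simp only [f2 t ht]
  · intro t ht; simp only [f3 t ht, zero_smul]

theorem int_period_of_zero {Q : ℝ → ℝ} (hp : Function.Periodic Q (2 * Real.pi)) {a b : ℝ}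
    (hb : b ≤ a + 2 * Real.pi) (h0 : ∀ t ∈ Ioc b (a + 2 * Real.pi), Q t = 0)
    (hi : IntervalIntegrable Q volume a b) :
    ∫ t in (0:ℝ)..(2 * Real.pi), Q t = ∫ t in a..b, Q t := by
  have h1 := hp.intervalIntegral_add_eq 0 a
  rw [zero_add] at h1
  have hi2 : IntervalIntegrable Q volume b (a + 2 * Real.pi) := by
    have : IntervalIntegrable (fun _ : ℝ => (0:ℝ)) volume b (a + 2 * Real.pi) :=
      intervalIntegrable_const
    refine this.congr ?_
    intro t ht
    rw [uIoc_of_le hb] at ht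
    exact (h0 t ht).symm
  have h2 : ∫ t in b..(a + 2 * Real.pi), Q t = 0 := by
    rw [intervalIntegral.integral_of_le hb]
    rw [setIntegral_congr_fun measurableSet_Ioc (g := fun _ => (0:ℝ)) (fun t ht => h0 t ht)]
    simp
  rw [h1, ← intervalIntegral.integral_add_adjacent_intervals hi hi2, h2, add_zero]

theorem force_continuousOn {ψ : ℝ → E4} (hψ : Continuous ψ) {S : Set ℝ}
    (hne : ∀ t ∈ S, ψ t ≠ 0) (e : ℝ) (μ : E4) : ContinuousOn (fun t => force e μ (ψ t)) S := by
  unfold force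
  have h1 : ContinuousOn (fun t => ‖ψ t‖⁻¹) S :=
    hψ.norm.continuousOn.inv₀ (fun t ht => norm_ne_zero_iff.mpr (hne t ht))
  have h2 : ContinuousOn (fun t => inner ℝ (ψ t) μ / ‖ψ t‖ ^ 2) S :=
    (hψ.inner continuous_const).continuousOn.div (hψ.norm.pow 2).continuousOn
      (fun t ht => pow_ne_zero 2 (norm_ne_zero_iff.mpr (hne t ht)))
  exact ((hψ.continuousOn.const_smul e).neg).add
    (h1.smul (continuousOn_const.sub (h2.smul hψ.continuousOn)))

theorem inner_force (e : ℝ) (μ x v : E4) :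
    inner ℝ (force e μ x) v = -(e * inner ℝ x v) +
      inner ℝ μ (‖x‖⁻¹ • (v - (inner ℝ x v / ‖x‖ ^ 2) • x)) := by
  unfold force
  simp only [inner_add_left, inner_neg_left, inner_sub_left, inner_smul_left, inner_smul_right,
    inner_sub_right, RCLike.conj_to_real]
  rw [real_inner_comm μ x]
  ring

theorem inner_intervalIntegrable {g : ℝ → E4} {a b : ℝ} (hg : IntervalIntegrable g volume a b)
    (c : E4) : IntervalIntegrable (fun t => inner ℝ c (g t)) volume a b :=
  ⟨(innerSL ℝ c).integrable_comp hg.1, (innerSL ℝ c).integrable_comp hg.2⟩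

theorem inner_intervalIntegral {g : ℝ → E4} {a b : ℝ} (hg : IntervalIntegrable g volume a b)
    (c : E4) : ∫ t in a..b, inner ℝ c (g t) = inner ℝ c (∫ t in a..b, g t) := by
  have := (innerSL ℝ c).intervalIntegral_comp_comm hg
  simpa only [innerSL_apply_apply] using this

/-- The weak equation tested with a tent. -/
theorem weak_identity {ψ g : ℝ → E4} {e : ℝ} {μ : E4} (h : H1Loop ψ g)
    (hw : ∀ v k : ℝ → E4, H1Loop v k → (∃ δ : ℝ, 0 < δ ∧ ∀ s, v s ≠ 0 → δ ≤ ‖ψ s‖) →
      (∫ s in (0:ℝ)..(2 * Real.pi), inner ℝ (g s) (k s)) -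
        e * ∫ s in (0:ℝ)..(2 * Real.pi), inner ℝ (ψ s) (v s) =
      -∫ s in (0:ℝ)..(2 * Real.pi),
        inner ℝ μ (‖ψ s‖⁻¹ • (v s - (inner ℝ (ψ s) (v s) / ‖ψ s‖ ^ 2) • ψ s)))
    {a s b : ℝ} (has : a < s) (hsb : s < b) (hb : b < a + 2 * Real.pi)
    (hne : ∀ t ∈ Icc a b, ψ t ≠ 0) :
    (s - a)⁻¹ • (ψ s - ψ a) - (b - s)⁻¹ • (ψ b - ψ s) =
      -((s - a)⁻¹ • ∫ t in a..s, (t - a) • force e μ (ψ t)) -
        (b - s)⁻¹ • ∫ t in s..b, (b - t) • force e μ (ψ t) := by
  have hψ := h.continuous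
  have hab : a < b := has.trans hsb
  have hsa : 0 < s - a := by linarith
  have hbs : 0 < b - s := by linarith
  have hF : ContinuousOn (fun t => force e μ (ψ t)) (Icc a b) := force_continuousOn hψ hne e μ
  -- a lower bound for the norm
  obtain ⟨δ, hδ, hδ'⟩ : ∃ δ : ℝ, 0 < δ ∧ ∀ t ∈ Icc a b, δ ≤ ‖ψ t‖ := by
    obtain ⟨t₀, ht₀, hmin⟩ := isCompact_Icc.exists_isMinOn (nonempty_Icc.mpr hab.le)
      hψ.norm.continuousOn
    exact ⟨‖ψ t₀‖, norm_pos_iff.mpr (hne t₀ ht₀), fun t ht => hmin ht⟩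
  have i1 : IntervalIntegrable (fun t => (t - a) • force e μ (ψ t)) volume a s := by
    apply ContinuousOn.intervalIntegrable
    rw [uIcc_of_le has.le]
    exact ((continuous_id.sub continuous_const).continuousOn).smul
      (hF.mono (Icc_subset_Icc_right hsb.le))
  have i2 : IntervalIntegrable (fun t => (b - t) • force e μ (ψ t)) volume s b := by
    apply ContinuousOn.intervalIntegrable
    rw [uIcc_of_le hsb.le]
    exact ((continuous_const.sub continuous_id).continuousOn).smul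
      (hF.mono (Icc_subset_Icc_left has.le))
  refine ext_inner_right ℝ (fun c => ?_)
  obtain ⟨v, k, hvk, v1, v2, v3, k1, k2, k3⟩ := exists_tent has hsb hb c
  have hv := hvk.continuous
  have hsupp : ∃ δ : ℝ, 0 < δ ∧ ∀ s, v s ≠ 0 → δ ≤ ‖ψ s‖ := by
    refine ⟨δ, hδ, fun t ht => ?_⟩
    have e0 : toIcoMod two_pi_pos' a t = t - toIcoDiv two_pi_pos' a t • (2 * Real.pi) := rfl
    have hmem := toIcoMod_mem_Ico two_pi_pos' a t
    have hvt : v (toIcoMod two_pi_pos' a t) = v t := by rw [e0, hvk.per.sub_zsmul_eq]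
    have hψt : ψ (toIcoMod two_pi_pos' a t) = ψ t := by rw [e0, h.per.sub_zsmul_eq]
    rw [← hψt]
    apply hδ'
    refine ⟨hmem.1, ?_⟩
    by_contra hcon
    push Not at hcon
    apply ht
    rw [← hvt]
    exact v3 _ ⟨hcon.le, hmem.2.le⟩
  have hmain := hw v k hvk hsupp
  -- the three integrals
  have e1 : ∫ t in (0:ℝ)..(2 * Real.pi), inner ℝ (g t) (k t) =
      inner ℝ ((s - a)⁻¹ • (ψ s - ψ a) - (b - s)⁻¹ • (ψ b - ψ s)) c := by
    have j1 : ∀ t ∈ uIoc a s, inner ℝ (g t) (k t) = inner ℝ ((s - a)⁻¹ • c) (g t) := by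
      intro t ht
      rw [uIoc_of_le has.le] at ht
      rw [k1 t ht, real_inner_comm]
    have j2 : ∀ t ∈ uIoc s b, inner ℝ (g t) (k t) = inner ℝ (-(b - s)⁻¹ • c) (g t) := by
      intro t ht
      rw [uIoc_of_le hsb.le] at ht
      rw [k2 t ht, real_inner_comm]
    have hi1 : IntervalIntegrable (fun t => inner ℝ (g t) (k t)) volume a s :=
      (inner_intervalIntegrable (h.intervalIntegrable a s) _).congr (fun t ht => (j1 t ht).symm)
    have hi2 : IntervalIntegrable (fun t => inner ℝ (g t) (k t)) volume s b :=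
      (inner_intervalIntegrable (h.intervalIntegrable s b) _).congr (fun t ht => (j2 t ht).symm)
    rw [int_period_of_zero (a := a) (b := b) (fun t => by simp only [h.gper t, hvk.gper t])
      hb.le (fun t ht => by rw [k3 t ht, inner_zero_right]) (hi1.trans hi2),
      ← intervalIntegral.integral_add_adjacent_intervals hi1 hi2,
      intervalIntegral.integral_congr_ae (Filter.Eventually.of_forall j1),
      intervalIntegral.integral_congr_ae (Filter.Eventually.of_forall j2)]
    rw [inner_intervalIntegral (h.intervalIntegrable a s),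
      inner_intervalIntegral (h.intervalIntegrable s b), ← h.ftc, ← h.ftc, inner_sub_left,
      inner_smul_left, inner_smul_left,
      inner_smul_left, inner_smul_left, real_inner_comm (ψ s - ψ a) c,
      real_inner_comm (ψ b - ψ s) c]
    simp only [RCLike.conj_to_real]
    ring
  -- the remaining two integrals together
  set Q : ℝ → ℝ := fun t => inner ℝ (force e μ (ψ t)) (v t) with hQ
  have hQper : Function.Periodic Q (2 * Real.pi) := fun t => by
    simp only [hQ, h.per t, hvk.per t]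
  have c2 : ContinuousOn (fun t => inner ℝ (ψ t) (v t)) (Icc a b) := (hψ.inner hv).continuousOn
  have c3 : ContinuousOn (fun s => inner ℝ μ (‖ψ s‖⁻¹ • (v s -
      (inner ℝ (ψ s) (v s) / ‖ψ s‖ ^ 2) • ψ s))) (Icc a b) := by
    have h1 : ContinuousOn (fun t => ‖ψ t‖⁻¹) (Icc a b) :=
      hψ.norm.continuousOn.inv₀ (fun t ht => norm_ne_zero_iff.mpr (hne t ht))
    have h2 : ContinuousOn (fun t => inner ℝ (ψ t) (v t) / ‖ψ t‖ ^ 2) (Icc a b) :=
      (hψ.inner hv).continuousOn.div (hψ.norm.pow 2).continuousOn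
        (fun t ht => pow_ne_zero 2 (norm_ne_zero_iff.mpr (hne t ht)))
    exact continuousOn_const.inner
      (h1.smul (hv.continuousOn.sub (h2.smul hψ.continuousOn)))
  have ii2 : IntervalIntegrable (fun t => inner ℝ (ψ t) (v t)) volume a b := by
    apply ContinuousOn.intervalIntegrable
    rwa [uIcc_of_le hab.le]
  have ii3 : IntervalIntegrable (fun s => inner ℝ μ (‖ψ s‖⁻¹ • (v s -
      (inner ℝ (ψ s) (v s) / ‖ψ s‖ ^ 2) • ψ s))) volume a b := by
    apply ContinuousOn.intervalIntegrable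
    rwa [uIcc_of_le hab.le]
  have e2 : (∫ t in (0:ℝ)..(2 * Real.pi), inner ℝ (ψ t) (v t)) =
      ∫ t in a..b, inner ℝ (ψ t) (v t) :=
    int_period_of_zero (fun t => by simp only [h.per t, hvk.per t]) hb.le
      (fun t ht => by rw [v3 t ⟨ht.1.le, ht.2⟩, inner_zero_right]) ii2
  have e3 : (∫ s in (0:ℝ)..(2 * Real.pi),
        inner ℝ μ (‖ψ s‖⁻¹ • (v s - (inner ℝ (ψ s) (v s) / ‖ψ s‖ ^ 2) • ψ s))) =
      ∫ s in a..b, inner ℝ μ (‖ψ s‖⁻¹ • (v s - (inner ℝ (ψ s) (v s) / ‖ψ s‖ ^ 2) • ψ s)) :=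
    int_period_of_zero (fun t => by simp only [h.per t, hvk.per t]) hb.le
      (fun t ht => by
        rw [v3 t ⟨ht.1.le, ht.2⟩, inner_zero_right, zero_div, zero_smul, sub_zero, smul_zero,
          inner_zero_right]) ii3
  have e4 : ∫ t in a..b, Q t = inner ℝ ((s - a)⁻¹ • (∫ t in a..s, (t - a) • force e μ (ψ t)) +
      (b - s)⁻¹ • ∫ t in s..b, (b - t) • force e μ (ψ t)) c := by
    have j1 : ∀ t ∈ uIoc a s, Q t = inner ℝ ((s - a)⁻¹ • c) ((t - a) • force e μ (ψ t)) := by
      intro t ht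
      rw [uIoc_of_le has.le] at ht
      simp only [hQ]
      rw [v1 t ⟨ht.1.le, ht.2⟩, real_inner_comm, inner_smul_left, inner_smul_left,
        inner_smul_right]
      simp only [RCLike.conj_to_real]
      ring
    have j2 : ∀ t ∈ uIoc s b, Q t = inner ℝ ((b - s)⁻¹ • c) ((b - t) • force e μ (ψ t)) := by
      intro t ht
      rw [uIoc_of_le hsb.le] at ht
      simp only [hQ]
      rw [v2 t ⟨ht.1.le, ht.2⟩, real_inner_comm, inner_smul_left, inner_smul_left,
        inner_smul_right]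
      simp only [RCLike.conj_to_real]
      ring
    have hi1 : IntervalIntegrable Q volume a s :=
      (inner_intervalIntegrable i1 _).congr (fun t ht => (j1 t ht).symm)
    have hi2 : IntervalIntegrable Q volume s b :=
      (inner_intervalIntegrable i2 _).congr (fun t ht => (j2 t ht).symm)
    rw [← intervalIntegral.integral_add_adjacent_intervals hi1 hi2,
      intervalIntegral.integral_congr_ae (Filter.Eventually.of_forall j1),
      intervalIntegral.integral_congr_ae (Filter.Eventually.of_forall j2),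
      inner_intervalIntegral i1, inner_intervalIntegral i2, inner_add_left, inner_smul_left,
      inner_smul_left, inner_smul_left, inner_smul_left, real_inner_comm _ c,
      real_inner_comm _ c]
  have e5 : ∫ t in a..b, Q t = -(e * ∫ t in a..b, inner ℝ (ψ t) (v t)) +
      ∫ s in a..b, inner ℝ μ (‖ψ s‖⁻¹ • (v s -
        (inner ℝ (ψ s) (v s) / ‖ψ s‖ ^ 2) • ψ s)) := by
    have ii4 : IntervalIntegrable (fun t => -(e * inner ℝ (ψ t) (v t))) volume a b :=
      (ii2.const_mul e).neg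
    rw [← intervalIntegral.integral_const_mul, ← intervalIntegral.integral_neg,
      ← intervalIntegral.integral_add ii4 ii3]
    apply intervalIntegral.integral_congr
    intro t _
    exact inner_force e μ (ψ t) (v t)
  rw [e1, e2, e3] at hmain
  rw [e4] at e5
  have e6 : inner ℝ (-((s - a)⁻¹ • ∫ t in a..s, (t - a) • force e μ (ψ t)) -
        (b - s)⁻¹ • ∫ t in s..b, (b - t) • force e μ (ψ t)) c =
      -inner ℝ ((s - a)⁻¹ • (∫ t in a..s, (t - a) • force e μ (ψ t)) +
      (b - s)⁻¹ • ∫ t in s..b, (b - t) • force e μ (ψ t)) c := by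
    rw [← inner_neg_left]
    congr 1
    abel
  rw [e6, e5]
  linarith

theorem prim_hasDerivAt {f : ℝ → E4} {a b : ℝ} (hf : ContinuousOn f (Icc a b)) {t : ℝ}
    (ht : t ∈ Ioo a b) : HasDerivAt (fun t => ∫ s in a..t, f s) (f t) t := by
  have hI : IntervalIntegrable f volume a t := by
    apply ContinuousOn.intervalIntegrable
    rw [uIcc_of_le ht.1.le]
    exact hf.mono (Icc_subset_Icc_right ht.2.le)
  have hcon : ContinuousOn f (Ioo a b) := hf.mono Ioo_subset_Icc_self
  exact intervalIntegral.integral_hasDerivAt_right hI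
    (hcon.stronglyMeasurableAtFilter isOpen_Ioo t ht) (hcon.continuousAt (isOpen_Ioo.mem_nhds ht))

theorem prim_hasDerivAt_left {f : ℝ → E4} {a b : ℝ} (hf : ContinuousOn f (Icc a b)) {t : ℝ}
    (ht : t ∈ Ioo a b) : HasDerivAt (fun t => ∫ s in t..b, f s) (-f t) t := by
  have hI : IntervalIntegrable f volume t b := by
    apply ContinuousOn.intervalIntegrable
    rw [uIcc_of_le ht.2.le]
    exact hf.mono (Icc_subset_Icc_left ht.1.le)
  have hcon : ContinuousOn f (Ioo a b) := hf.mono Ioo_subset_Icc_self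
  exact intervalIntegral.integral_hasDerivAt_left hI
    (hcon.stronglyMeasurableAtFilter isOpen_Ioo t ht) (hcon.continuousAt (isOpen_Ioo.mem_nhds ht))

/-- The Green representation gives two derivatives. -/
theorem hasDerivAt_of_green {ψ F : ℝ → E4} {a b : ℝ} (hab : a < b)
    (hF : ContinuousOn F (Icc a b))
    (hid : ∀ s ∈ Ioo a b, (s - a)⁻¹ • (ψ s - ψ a) - (b - s)⁻¹ • (ψ b - ψ s) =
      -((s - a)⁻¹ • ∫ t in a..s, (t - a) • F t) - (b - s)⁻¹ • ∫ t in s..b, (b - t) • F t) :
    ∃ q : ℝ → E4, ∀ s ∈ Ioo a b, HasDerivAt ψ (q s) s ∧ HasDerivAt q (F s) s := by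
  have hba : 0 < b - a := by linarith
  set A : ℝ → E4 := fun s => ∫ t in a..s, (t - a) • F t with hA
  set B : ℝ → E4 := fun s => ∫ t in s..b, (b - t) • F t with hB
  have cA : ContinuousOn (fun t => (t - a) • F t) (Icc a b) :=
    ((continuous_id.sub continuous_const).continuousOn).smul hF
  have cB : ContinuousOn (fun t => (b - t) • F t) (Icc a b) :=
    ((continuous_const.sub continuous_id).continuousOn).smul hF
  have dA : ∀ s ∈ Ioo a b, HasDerivAt A ((s - a) • F s) s := fun s hs =>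
    prim_hasDerivAt cA hs
  have dB : ∀ s ∈ Ioo a b, HasDerivAt B (-((b - s) • F s)) s := fun s hs =>
    prim_hasDerivAt_left cB hs
  -- the representation
  have hrep : ∀ s ∈ Ioo a b, ψ s = (b - a)⁻¹ • ((b - s) • ψ a + (s - a) • ψ b -
      (b - s) • A s - (s - a) • B s) := by
    intro s hs
    have h1 := hid s hs
    have hsa : s - a ≠ 0 := by linarith [hs.1]
    have hbs : b - s ≠ 0 := by linarith [hs.2]
    have h2 : ((s - a) * (b - s)) • ((s - a)⁻¹ • (ψ s - ψ a) - (b - s)⁻¹ • (ψ b - ψ s)) =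
      ((s - a) * (b - s)) • (-((s - a)⁻¹ • A s) - (b - s)⁻¹ • B s) := by rw [h1]
    have h3 : ((s - a) * (b - s)) • ((s - a)⁻¹ • (ψ s - ψ a) - (b - s)⁻¹ • (ψ b - ψ s)) =
      (b - s) • (ψ s - ψ a) - (s - a) • (ψ b - ψ s) := by
      rw [smul_sub, smul_smul, smul_smul]
      congr 2
      · field_simp
      · field_simp
    have h4 : ((s - a) * (b - s)) • (-((s - a)⁻¹ • A s) - (b - s)⁻¹ • B s) =
      -((b - s) • A s) - (s - a) • B s := by
      rw [smul_sub, smul_neg, smul_smul, smul_smul]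
      congr 2
      · congr 2; field_simp
      · field_simp
    rw [h3, h4] at h2
    have h5 : (b - a) • ψ s = (b - s) • ψ a + (s - a) • ψ b - (b - s) • A s - (s - a) • B s := by
      have h6 : (b - a) • ψ s = (b - s) • (ψ s - ψ a) - (s - a) • (ψ b - ψ s) +
        (b - s) • ψ a + (s - a) • ψ b := by module
      rw [h6, h2]
      abel
    rw [← h5, smul_smul, inv_mul_cancel₀ hba.ne', one_smul]
  refine ⟨fun s => (b - a)⁻¹ • (ψ b - ψ a + (A s - B s)), fun s hs => ⟨?_, ?_⟩⟩
  · have l1 : HasDerivAt (fun s : ℝ => b - s) (-1) s := (hasDerivAt_id s).const_sub b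
    have l2 : HasDerivAt (fun s : ℝ => s - a) 1 s := (hasDerivAt_id s).sub_const a
    have h1 := ((((l1.smul_const (ψ a)).add (l2.smul_const (ψ b))).sub
      (l1.smul (dA s hs))).sub (l2.smul (dB s hs))).const_smul (b - a)⁻¹
    refine (h1.congr_of_eventuallyEq ?_).congr_deriv ?_
    · filter_upwards [isOpen_Ioo.mem_nhds hs] with t ht
      rw [hrep t ht]
      rfl
    · congr 1
      module
  · have h1 := (((dA s hs).sub (dB s hs)).const_add (ψ b - ψ a)).const_smul (b - a)⁻¹
    refine h1.congr_deriv ?_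
    have : (s - a) • F s - -((b - s) • F s) = (b - a) • F s := by module
    rw [this, smul_smul, inv_mul_cancel₀ hba.ne', one_smul]

/-- M2c. From the weak to the strong Euler-Lagrange equation. -/
theorem EL_of_weak {ψ g : ℝ → E4} {e : ℝ} {μ : E4} (h : H1Loop ψ g)
    (hw : ∀ v k : ℝ → E4, H1Loop v k → (∃ δ : ℝ, 0 < δ ∧ ∀ s, v s ≠ 0 → δ ≤ ‖ψ s‖) →
      (∫ s in (0:ℝ)..(2 * Real.pi), inner ℝ (g s) (k s)) -
        e * ∫ s in (0:ℝ)..(2 * Real.pi), inner ℝ (ψ s) (v s) =
      -∫ s in (0:ℝ)..(2 * Real.pi),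
        inner ℝ μ (‖ψ s‖⁻¹ • (v s - (inner ℝ (ψ s) (v s) / ‖ψ s‖ ^ 2) • ψ s))) :
    ∃ p : ℝ → E4, EL ψ p e μ := by
  have hψ := h.continuous
  refine ⟨deriv ψ, fun s₀ hs₀ => ?_⟩
  -- a small interval
  obtain ⟨ρ, hρ, hρ'⟩ : ∃ ρ > 0, ∀ t, dist t s₀ < ρ → ψ t ≠ 0 :=
    Metric.eventually_nhds_iff.mp (hψ.continuousAt.eventually_ne hs₀)
  set r := min (ρ / 2) 1 with hr
  have hr0 : 0 < r := by positivity
  have hr1 : r ≤ 1 := min_le_right _ _
  have hr2 : r ≤ ρ / 2 := min_le_left _ _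
  have hne : ∀ t ∈ Icc (s₀ - r) (s₀ + r), ψ t ≠ 0 := by
    intro t ht
    apply hρ'
    rw [Real.dist_eq, abs_lt]
    constructor <;> linarith [ht.1, ht.2]
  have hb : s₀ + r < s₀ - r + 2 * Real.pi := by linarith [Real.two_le_pi]
  obtain ⟨q, hq⟩ := hasDerivAt_of_green (ψ := ψ) (F := fun t => force e μ (ψ t))
    (show s₀ - r < s₀ + r by linarith) (force_continuousOn hψ hne e μ)
    (fun s hs => weak_identity h hw hs.1 hs.2 hb hne)
  have hmem : s₀ ∈ Ioo (s₀ - r) (s₀ + r) := ⟨by linarith, by linarith⟩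
  refine ⟨?_, ?_⟩
  · rw [(hq s₀ hmem).1.deriv]
    exact (hq s₀ hmem).1
  · refine (hq s₀ hmem).2.congr_of_eventuallyEq ?_
    filter_upwards [isOpen_Ioo.mem_nhds hmem] with t ht
    exact (hq t ht).1.deriv

end Ovals2801
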