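import Pool.Agent.Lib.MP_2801bd_mp.Classes

/-!
# The witness of a failure of the inequality: acute field and quadratic form
-/

set_option autoImplicit false

open Real MeasureTheory intervalIntegral Set Filter Topology
open scoped ContDiff RealInnerProductSpace

namespace Pool.Agent.MP_2801bd_mp

variable {n : ℕ}

/-- mirror symmetry about the point `s₀` -/
def MirrorS (T : ℝ → EuclideanSpace ℝ (Fin n)) (s₀ : ℝ) : Prop :=
  ∀ s, T (s₀ - s) = (2 * ⟪T (s₀ + s), T s₀⟫) • T s₀ - T (s₀ + s)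

lemma MirrorS.mirror {T : ℝ → EuclideanSpace ℝ (Fin n)} {s₀ : ℝ} (h : MirrorS T s₀) :
    Mirror (fun s => T (s₀ + s)) := by
  intro s
  have := h s
  simp only [add_zero, ← sub_eq_add_neg]
  exact this

/-- positive test function of negative energy, symmetric if the curve is -/
lemma exists_pos_mirror {T T' : ℝ → EuclideanSpace ℝ (Fin n)} (hT : Tangent T T')
    {φ φ' : ℝ → ℝ} (h : Adm φ φ') (hneg : En T' φ φ' < 0) (s₀ : ℝ) :
    ∃ ψ ψ' : ℝ → ℝ, Adm ψ ψ' ∧ (∀ s, 0 < ψ s) ∧ En T' ψ ψ' < 0 ∧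
      (MirrorS T s₀ → ∀ s, ψ (s₀ - s) = ψ (s₀ + s)) := by
  obtain ⟨φ₁, φ₁', h₁, hpos₁, hneg₁⟩ := exists_pos hT.cont h hneg
  by_cases hm : MirrorS T s₀
  · obtain ⟨ψ, ψ', hψ, hpos, hneg', heven⟩ := exists_even (hT.shift s₀) hm.mirror
      (h₁.shift s₀) (fun s => hpos₁ _) (by rw [En_shift hT h₁ s₀]; exact hneg₁)
    refine ⟨fun s => ψ (-s₀ + s), fun s => ψ' (-s₀ + s), hψ.shift (-s₀), fun s => hpos _, ?_, ?_⟩
    · have h2 := En_shift (hT.shift s₀) hψ (-s₀)
      have e : (fun s => T' (s₀ + (-s₀ + s))) = T' := by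
        ext1 s
        congr 1
        ring
      rw [e] at h2
      rw [h2]
      exact hneg'
    · intro _ s
      have e1 : -s₀ + (s₀ - s) = -s := by ring
      have e2 : -s₀ + (s₀ + s) = s := by ring
      simp only [e1, e2]
      exact heven s
  · exact ⟨φ₁, φ₁', h₁, hpos₁, hneg₁, fun hc => absurd hc hm⟩

/-- quadratic form of a matrix -/
noncomputable def quad (A : Matrix (Fin n) (Fin n) ℝ) (w : EuclideanSpace ℝ (Fin n)) : ℝ :=
  ∑ i, ∑ j, A i j * w i * w j

/-- the energy matrix -/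
noncomputable def EnM (x x' : ℝ → EuclideanSpace ℝ (Fin n)) : Matrix (Fin n) (Fin n) ℝ :=
  fun i j => ∫ s in (0:ℝ)..(2 * π), (x' s i * x' s j - x s i * x s j)

lemma quad_EnM {x x' : ℝ → EuclideanSpace ℝ (Fin n)} (hx : Continuous x) (hx' : Continuous x')
    (w : EuclideanSpace ℝ (Fin n)) :
    quad (EnM x x') w = ∫ s in (0:ℝ)..(2 * π), (⟪w, x' s⟫ ^ 2 - ⟪w, x s⟫ ^ 2) := by
  have hc : ∀ i, Continuous (fun s => x s i) := fun i => coord_continuous hx i
  have hc' : ∀ i, Continuous (fun s => x' s i) := fun i => coord_continuous hx' i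
  have e : ∀ (y : EuclideanSpace ℝ (Fin n)), ⟪w, y⟫ ^ 2 = ∑ i, ∑ j, (y i * y j) * w i * w j := by
    intro y
    rw [PiLp.inner_apply, pow_two, Finset.sum_mul_sum]
    apply Finset.sum_congr rfl
    intro i _
    apply Finset.sum_congr rfl
    intro j _
    simp only [RCLike.inner_apply, conj_trivial]
    ring
  have e2 : ∀ s, ⟪w, x' s⟫ ^ 2 - ⟪w, x s⟫ ^ 2 =
      ∑ i, ∑ j, (x' s i * x' s j - x s i * x s j) * w i * w j := by
    intro s
    rw [e, e, ← Finset.sum_sub_distrib]
    apply Finset.sum_congr rfl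
    intro i _
    rw [← Finset.sum_sub_distrib]
    apply Finset.sum_congr rfl
    intro j _
    ring
  simp only [e2]
  rw [intervalIntegral.integral_finsetSum]
  · rw [quad]
    apply Finset.sum_congr rfl
    intro i _
    rw [intervalIntegral.integral_finsetSum]
    · apply Finset.sum_congr rfl
      intro j _
      rw [intervalIntegral.integral_mul_const, intervalIntegral.integral_mul_const, EnM]
    · intro j _
      have h1 := hc i
      have h2 := hc j
      have h3 := hc' i
      have h4 := hc' j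
      exact Continuous.intervalIntegrable (by fun_prop) _ _
  · intro i _
    apply Continuous.intervalIntegrable
    apply continuous_finsetSum
    intro j _
    have h1 := hc i
    have h2 := hc j
    have h3 := hc' i
    have h4 := hc' j
    fun_prop

lemma trace_EnM {x x' : ℝ → EuclideanSpace ℝ (Fin n)} (hx : Continuous x) (hx' : Continuous x') :
    ∑ i, EnM x x' i i = ∫ s in (0:ℝ)..(2 * π), (‖x' s‖ ^ 2 - ‖x s‖ ^ 2) := by
  rw [energy_eq hx hx']
  apply Finset.sum_congr rfl
  intro i _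
  rw [EnM]
  congr 1
  ext s
  ring

/-- quadratic form version of the trace -/
lemma frame_trace {A : Matrix (Fin n) (Fin n) ℝ} {k : ℕ} {w : Fin k → EuclideanSpace ℝ (Fin n)}
    (hfr : ∀ u : EuclideanSpace ℝ (Fin n), ∑ j, ⟪w j, u⟫ ^ 2 = ‖u‖ ^ 2) :
    ∑ j, quad A (w j) = ∑ i, A i i := by
  -- polarisation of the frame identity
  have hpol : ∀ u v : EuclideanSpace ℝ (Fin n), ∑ j, ⟪w j, u⟫ * ⟪w j, v⟫ = ⟪u, v⟫ := by
    intro u v
    have h1 := hfr (u + v)
    have h2 := hfr u
    have h3 := hfr v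
    simp only [inner_add_right] at h1
    have h4 : ∑ j, (⟪w j, u⟫ + ⟪w j, v⟫) ^ 2 = (∑ j, ⟪w j, u⟫ ^ 2) +
        2 * (∑ j, ⟪w j, u⟫ * ⟪w j, v⟫) + ∑ j, ⟪w j, v⟫ ^ 2 := by
      rw [Finset.mul_sum, ← Finset.sum_add_distrib, ← Finset.sum_add_distrib]
      apply Finset.sum_congr rfl
      intro j _
      ring
    rw [h4, h2, h3, norm_add_sq_real] at h1
    linarith
  have hcoord : ∀ i j : Fin n, ∑ l, w l i * w l j = if i = j then 1 else 0 := by
    intro i j
    have := hpol (EuclideanSpace.single i 1) (EuclideanSpace.single j 1)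
    simp only [EuclideanSpace.inner_single_right, map_one, one_mul, conj_trivial] at this
    rw [this]
    simp [Pi.single_apply, eq_comm]
  simp only [quad]
  rw [Finset.sum_comm]
  apply Finset.sum_congr rfl
  intro i _
  rw [Finset.sum_comm]
  have h5 : ∀ j, ∑ l, A i j * w l i * w l j = A i j * (if i = j then 1 else 0) := by
    intro j
    rw [← hcoord i j, Finset.mul_sum]
    apply Finset.sum_congr rfl
    intro l _
    ring
  simp only [h5, mul_ite, mul_one, mul_zero, Finset.sum_ite_eq, Finset.mem_univ, if_true]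

end Pool.Agent.MP_2801bd_mp
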